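import Pool.Agent.Lib.SC.Blue

/-! The dependency graph of the blocks. -/

namespace Pool.Agent.Lib.SC

theorem asm (CV1 : St_CV1) (CV2 : St_CV1 → St_CV2) (WR : St_WR) (SL0 : St_SL0) (GE0 : St_GE0)
    (SLM : Bas → St_SLM) (SLO : Bas → St_SLO) (SLD : Bas → St_SLD) (SLR : Bas → St_SLR)
    (SLW : Bas → St_SLW) (SLB : Bas → St_SLB) (FR : St_FR)
    (GAU : Bas → St_SLM → St_SLW → St_SLB → St_FR → St_GAU)
    (GE1 : St_GE0 → St_GE1) (GE2 : St_GE0 → St_GE2)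
    (TRANS : Bas → St_GAU → St_GE1 → St_TRANS) (MULT : St_MULT)
    (TOPG : St_GE0 → St_GE1 → St_GE2 → St_MULT → St_TOPG) (PHI : St_GE0 → St_GE2 → St_PHI)
    (CG : St_GE0 → St_GE2 → St_CG) (BN : St_BN) (TOP0 : Bas → St_TOP0)
    (TOP : Bas → St_SLM → St_SLO → St_TOPG → St_TOP0 → St_TOP) (LOW : St_CV1 → St_LOW)
    (TREE : Bas → St_SLM → St_SLO → St_GAU → St_PHI → St_LOW → St_TREE) (PT : St_PT)
    (CH : Bas → St_SLR → St_PT → St_CH) (REF : Bas → St_REF)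
    (CONE : Bas → St_SLM → St_SLD → St_SLR → St_GAU → St_GE1 → St_PHI → St_CG → St_REF → St_CONE)
    (BROAD : Bas → St_SLR → St_PHI → St_PT → St_CH → St_CONE → St_BROAD)
    (STEP : Bas → St_GE1 → St_BN → St_TOP → St_TREE → St_BROAD → St_STEP) (ITER : SCI.St_ITER)
    (CORE : Bas → St_TRANS → St_STEP → SCI.St_ITER → St_CORE) (MAIN : Bas → St_CORE → St_MAIN) :
    St_MAIN := by
  have hB : Bas := ⟨CV1, CV2 CV1, WR, SL0, GE0⟩
  have slm := SLM hB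
  have slo := SLO hB
  have slr := SLR hB
  have gau := GAU hB slm (SLW hB) (SLB hB) FR
  have ge1 := GE1 GE0
  have ge2 := GE2 GE0
  have phi := PHI GE0 ge2
  have cone := CONE hB slm (SLD hB) slr gau ge1 phi (CG GE0 ge2) (REF hB)
  have step := STEP hB ge1 BN (TOP hB slm slo (TOPG GE0 ge1 ge2 MULT) (TOP0 hB))
    (TREE hB slm slo gau phi (LOW CV1)) (BROAD hB slr phi PT (CH hB slr PT) cone)
  exact MAIN hB (CORE hB (TRANS hB gau ge1) step ITER)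

end Pool.Agent.Lib.SC
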