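import Mathlib

/-! The pointwise broad and narrow dichotomy. -/

namespace Pool.Agent.Lib.SC.H69BN

open Finset

open Classical in
/-- Tuples of indices below `K` with consecutive gaps at least two. -/
noncomputable def tup (D K : ℕ) : Finset (Fin D → ℕ) :=
  (Fintype.piFinset fun _ : Fin D => range K).filter fun a => ∀ i j, i < j → a i + 2 ≤ a j

theorem mem_tup {D K : ℕ} {a : Fin D → ℕ} :
    a ∈ tup D K ↔ (∀ i, a i < K) ∧ ∀ i j, i < j → a i + 2 ≤ a j := by
  simp [tup, Fintype.mem_piFinset]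

theorem exists_tup (D K : ℕ) (B : Finset ℕ) (hB : B ⊆ range K) (hc : 2 * D ≤ B.card) :
    ∃ a ∈ tup D K, ∀ i, a i ∈ B := by
  let e := B.orderEmbOfFin rfl
  have hlt : ∀ i : Fin D, 2 * i.val < B.card := fun i => by have := i.isLt; omega
  refine ⟨fun i => e ⟨2 * i.val, hlt i⟩, mem_tup.2 ⟨fun i => ?_, fun i j hij => ?_⟩, fun i => ?_⟩
  · exact mem_range.1 (hB (orderEmbOfFin_mem B rfl _))
  · have hij' : i.val < j.val := hij
    have hm : 2 * i.val + 1 < B.card := by have := hlt j; omega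
    have h1 : e ⟨2 * i.val, hlt i⟩ < e ⟨2 * i.val + 1, hm⟩ :=
      e.strictMono (Fin.mk_lt_mk.2 (by omega))
    have h2 : e ⟨2 * i.val + 1, hm⟩ < e ⟨2 * j.val, hlt j⟩ :=
      e.strictMono (Fin.mk_lt_mk.2 (by omega))
    omega
  · exact orderEmbOfFin_mem B rfl _

/-- The dichotomy for nonnegative reals. -/
theorem bn_real (D K : ℕ) (hD : 1 ≤ D) (p : ℝ) (hp : 0 < p) (z : ℕ → ℝ) (hz : ∀ j, 0 ≤ z j)
    (s : ℝ) (hs : 0 ≤ s) (hle : s ≤ ∑ j ∈ range K, z j) :
    s ^ p ≤ (4 * D : ℝ) ^ p * ∑ j ∈ range K, z j ^ p +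
      (2 * K : ℝ) ^ p * ∑ a ∈ tup D K, ∏ i, z (a i) ^ (p / D) := by
  have hDpos : (0 : ℝ) < D := by exact_mod_cast hD
  have hA : 0 ≤ (4 * D : ℝ) ^ p * ∑ j ∈ range K, z j ^ p :=
    mul_nonneg (Real.rpow_nonneg (by positivity) _)
      (sum_nonneg fun j _ => Real.rpow_nonneg (hz j) _)
  have hBn : 0 ≤ (2 * K : ℝ) ^ p * ∑ a ∈ tup D K, ∏ i, z (a i) ^ (p / D) :=
    mul_nonneg (Real.rpow_nonneg (by positivity) _)
      (sum_nonneg fun a _ => prod_nonneg fun i _ => Real.rpow_nonneg (hz _) _)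
  rcases Nat.eq_zero_or_pos K with rfl | hK
  · have h0 : s = 0 := le_antisymm (by simpa using hle) hs
    rw [h0, Real.zero_rpow hp.ne']
    exact add_nonneg hA hBn
  have hKpos : (0 : ℝ) < K := by exact_mod_cast hK
  set B : Finset ℕ := (range K).filter fun j => s / (2 * K) ≤ z j with hBdef
  by_cases hc : 2 * D ≤ B.card
  · obtain ⟨a, ha, haB⟩ := exists_tup D K B (filter_subset _ _) hc
    have h1 : (s / (2 * K)) ^ p ≤ ∏ i, z (a i) ^ (p / D) := by
      have e : (s / (2 * K)) ^ p = ∏ _i : Fin D, (s / (2 * K)) ^ (p / D) := by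
        rw [prod_const, card_univ, Fintype.card_fin, ← Real.rpow_natCast,
          ← Real.rpow_mul (by positivity)]
        congr 1
        field_simp
      rw [e]
      refine prod_le_prod (fun _ _ => Real.rpow_nonneg (by positivity) _) fun i _ => ?_
      exact Real.rpow_le_rpow (by positivity) (mem_filter.1 (haB i)).2 (by positivity)
    have h2 : ∏ i, z (a i) ^ (p / D) ≤ ∑ a ∈ tup D K, ∏ i, z (a i) ^ (p / D) :=
      single_le_sum (f := fun a : Fin D → ℕ => ∏ i, z (a i) ^ (p / D))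
        (fun a _ => prod_nonneg fun i _ => Real.rpow_nonneg (hz _) _) ha
    have h3 : s ^ p = (2 * K : ℝ) ^ p * (s / (2 * K)) ^ p := by
      rw [← Real.mul_rpow (by positivity) (by positivity)]
      congr 1
      field_simp
    have h4 : s ^ p ≤ (2 * K : ℝ) ^ p * ∑ a ∈ tup D K, ∏ i, z (a i) ^ (p / D) := by
      rw [h3]
      exact mul_le_mul_of_nonneg_left (h1.trans h2) (Real.rpow_nonneg (by positivity) _)
    linarith
  · push Not at hc
    have hsplit := sum_filter_add_sum_filter_not (range K) (fun j => s / (2 * K) ≤ z j) z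
    have hsmall : ∑ j ∈ (range K).filter (fun j => ¬ s / (2 * K) ≤ z j), z j ≤ s / 2 := by
      calc _ ≤ ∑ _j ∈ (range K).filter (fun j => ¬ s / (2 * K) ≤ z j), s / (2 * K) :=
            sum_le_sum fun j hj => (not_le.1 (mem_filter.1 hj).2).le
        _ ≤ ∑ _j ∈ range K, s / (2 * K) :=
            sum_le_sum_of_subset_of_nonneg (filter_subset _ _) fun _ _ _ => by positivity
        _ = s / 2 := by rw [sum_const, card_range, nsmul_eq_mul]; field_simp
    have hbig : s / 2 ≤ ∑ j ∈ B, z j := by rw [hBdef]; linarith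
    rcases hs.eq_or_lt with h0 | hpos
    · rw [← h0, Real.zero_rpow hp.ne']
      exact add_nonneg hA hBn
    have hex : ∃ j ∈ B, s / (4 * D) ≤ z j := by
      by_contra hno
      push Not at hno
      have h1 : ∑ j ∈ B, z j ≤ B.card • (s / (4 * D)) :=
        sum_le_card_nsmul _ _ _ fun j hj => (hno j hj).le
      have h2 : (B.card : ℝ) < 2 * D := by exact_mod_cast hc
      rw [nsmul_eq_mul] at h1
      have h3 : (B.card : ℝ) * (s / (4 * D)) < 2 * D * (s / (4 * D)) :=
        mul_lt_mul_of_pos_right h2 (by positivity)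
      have h4 : 2 * (D : ℝ) * (s / (4 * D)) = s / 2 := by field_simp; ring
      linarith
    obtain ⟨j, hj, hjz⟩ := hex
    have h1 : s ^ p = (4 * D : ℝ) ^ p * (s / (4 * D)) ^ p := by
      rw [← Real.mul_rpow (by positivity) (by positivity)]
      congr 1
      field_simp
    have h2 : (s / (4 * D)) ^ p ≤ ∑ j ∈ range K, z j ^ p :=
      (Real.rpow_le_rpow (by positivity) hjz hp.le).trans
        (single_le_sum (f := fun j => z j ^ p) (fun j _ => Real.rpow_nonneg (hz j) _)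
          (mem_filter.1 hj).1)
    have h3 : s ^ p ≤ (4 * D : ℝ) ^ p * ∑ j ∈ range K, z j ^ p := by
      rw [h1]
      exact mul_le_mul_of_nonneg_left h2 (Real.rpow_nonneg (by positivity) _)
    linarith

/-- The dichotomy for a sum of complex numbers. -/
theorem bn (D K : ℕ) (hD : 1 ≤ D) (p : ℝ) (hp : 0 < p) (z : ℕ → ℂ) :
    ‖∑ j ∈ range K, z j‖ ^ p ≤ (4 * D : ℝ) ^ p * ∑ j ∈ range K, ‖z j‖ ^ p +
      (2 * K : ℝ) ^ p * ∑ a ∈ tup D K, ∏ i, ‖z (a i)‖ ^ (p / D) :=
  bn_real D K hD p hp (fun j => ‖z j‖) (fun _ => norm_nonneg _) _ (norm_nonneg _)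
    (norm_sum_le _ _)

end Pool.Agent.Lib.SC.H69BN
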