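import Pool.Agent.Lib.SC.Blue
import Pool.Agent.Lib.SC.H69BN

namespace Pool.Agent.Lib.SC

open Finset

namespace BN

theorem one_add_sq (s p : ℝ) (hs : 0 ≤ s) (hp : 0 ≤ p) :
    (1 + s ^ 2) ^ (p / 2) ≤ 2 ^ p * (1 + s ^ p) := by
  have h0 : 0 ≤ max 1 s := le_max_of_le_right hs
  have h1 : 1 + s ^ 2 ≤ (2 * max 1 s) ^ 2 := by
    have h2 : 1 ≤ max 1 s := le_max_left _ _
    have h3 : s ≤ max 1 s := le_max_right _ _
    nlinarith
  have h2 : (max 1 s) ^ p ≤ 1 + s ^ p := by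
    have h3 : 0 ≤ s ^ p := Real.rpow_nonneg hs _
    rcases le_total 1 s with h | h
    · rw [max_eq_right h]; linarith
    · rw [max_eq_left h, Real.one_rpow]; linarith
  calc (1 + s ^ 2) ^ (p / 2) ≤ ((2 * max 1 s) ^ 2) ^ (p / 2) :=
        Real.rpow_le_rpow (by positivity) h1 (by positivity)
    _ = (2 * max 1 s) ^ p := by
        rw [← Real.rpow_natCast, ← Real.rpow_mul (by positivity)]
        congr 1
        push_cast
        ring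
    _ = 2 ^ p * (max 1 s) ^ p := Real.mul_rpow (by norm_num) h0
    _ ≤ _ := mul_le_mul_of_nonneg_left h2 (Real.rpow_nonneg (by norm_num) _)

theorem tup_subset (D K : ℕ) : H69BN.tup D K ⊆ Sep D K := by
  intro a ha
  rw [H69BN.mem_tup] at ha
  rw [Sep, mem_filter, Fintype.mem_piFinset]
  refine ⟨fun i => mem_range.2 (ha.1 i), fun i l hil => ?_⟩
  rcases lt_or_gt_of_ne hil with h | h
  · exact Or.inl (ha.2 i l h)
  · exact Or.inr (ha.2 l i h)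

end BN

theorem blk_BN : St_BN := by
  intro D p hD hp
  have hD' : (1 : ℝ) ≤ D := by exact_mod_cast hD
  have hp0 : 0 < p := by linarith
  have hC : (8 * D : ℝ) ≤ (8 * D : ℝ) ^ p := by
    conv_lhs => rw [← Real.rpow_one (8 * D : ℝ)]
    exact Real.rpow_le_rpow_of_exponent_le (by linarith) hp
  refine ⟨(8 * D : ℝ) ^ p, by linarith, fun K F => ?_⟩
  have h1 := BN.one_add_sq ‖∑ α ∈ range K, F α‖ p (norm_nonneg _) hp0.le
  have h2 := H69BN.bn D K hD p hp0 F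
  have h3 : ∑ a ∈ H69BN.tup D K, ∏ i, ‖F (a i)‖ ^ (p / D) ≤
      ∑ a ∈ Sep D K, ∏ i, ‖F (a i)‖ ^ (p / D) :=
    sum_le_sum_of_subset_of_nonneg (BN.tup_subset D K) fun a _ _ =>
      prod_nonneg fun i _ => Real.rpow_nonneg (norm_nonneg _) _
  have h4 : 0 ≤ ∑ a ∈ H69BN.tup D K, ∏ i, ‖F (a i)‖ ^ (p / D) :=
    sum_nonneg fun a _ => prod_nonneg fun i _ => Real.rpow_nonneg (norm_nonneg _) _
  have e1 : (2 : ℝ) ^ p * (4 * D : ℝ) ^ p = (8 * D : ℝ) ^ p := by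
    rw [← Real.mul_rpow (by norm_num) (by positivity)]
    congr 1
    ring
  have hK : (0 : ℝ) ≤ K := Nat.cast_nonneg K
  have e2 : (2 : ℝ) ^ p * (2 * K : ℝ) ^ p ≤ ((8 * D : ℝ) ^ p * K) ^ p := by
    rw [← Real.mul_rpow (by norm_num) (by positivity)]
    refine Real.rpow_le_rpow (by positivity) ?_ hp0.le
    nlinarith
  have e3 : (2 : ℝ) ^ p ≤ (8 * D : ℝ) ^ p := Real.rpow_le_rpow (by norm_num) (by linarith) hp0.le
  have h5 : (0 : ℝ) ≤ 2 ^ p := Real.rpow_nonneg (by norm_num) _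
  have h6 : 0 ≤ ((8 * D : ℝ) ^ p * K) ^ p := Real.rpow_nonneg (by positivity) _
  calc _ ≤ _ := h1
    _ ≤ 2 ^ p * (1 + ((4 * D : ℝ) ^ p * ∑ j ∈ range K, ‖F j‖ ^ p +
        (2 * K : ℝ) ^ p * ∑ a ∈ H69BN.tup D K, ∏ i, ‖F (a i)‖ ^ (p / D))) := by gcongr
    _ = 2 ^ p + (8 * D : ℝ) ^ p * ∑ j ∈ range K, ‖F j‖ ^ p +
        (2 ^ p * (2 * K : ℝ) ^ p) * ∑ a ∈ H69BN.tup D K, ∏ i, ‖F (a i)‖ ^ (p / D) := by
        rw [← e1]; ring
    _ ≤ (8 * D : ℝ) ^ p + (8 * D : ℝ) ^ p * ∑ j ∈ range K, ‖F j‖ ^ p +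
        ((8 * D : ℝ) ^ p * K) ^ p * ∑ a ∈ Sep D K, ∏ i, ‖F (a i)‖ ^ (p / D) := by
        have := mul_le_mul e2 h3 h4 h6
        linarith
    _ = _ := by ring

end Pool.Agent.Lib.SC
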