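import Pool.Agent.Lib.SC.B_BROADd

/-! The broad majorant. -/

namespace Pool.Agent.Lib.SC

open MeasureTheory Finset Pool.Agent.Lib.WC BROAD

theorem blk_BROAD (hB : Bas) (hR : St_SLR) (hPHI : St_PHI) (hP : St_PT) (hCH : St_CH)
    (hCO : St_CONE) : St_BROAD := by
  intro d r D D' L p hD hr hd hD' hp
  obtain ⟨B, hB1, hpB⟩ : ∃ B : ℕ, 1 ≤ B ∧ p / 2 ≤ B :=
    ⟨⌈p / 2⌉₊ + 1, by omega, (Nat.le_ceil _).trans (by push_cast; linarith)⟩
  refine ⟨L * B + 2 * d + 1, L * B + d + 1, by omega, by omega, fun C₀ C₁ ε hC₀ hC₁ hε => ?_⟩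
  obtain ⟨Cφ, hCφ, hφ⟩ := hPHI d r (D - 1) 0 C₀ (by omega) (by omega) (by omega) hC₀
  have hCφr : (1 : ℝ) ≤ Cφ := by exact_mod_cast hCφ
  obtain ⟨Ch, hCh, hch⟩ := hCH L B (L * B + d + 1) (L * B + 2 * d + 1) (C₁ + Cφ) hB1 (by omega)
    (by omega) (by linarith)
  obtain ⟨Ca, hCa, hca⟩ := hCO d r D D (L * B + d + 1) (L * B) (L * B + 2 * d + 1) (C₀ + C₁) ε
    (by omega) le_rfl (by omega) hr hd (by omega) (by omega) (by linarith) hε
  obtain ⟨Cb, hCb, hcb⟩ := hCO d r D (D - 1) (L * B + d + 1) (L * B) (L * B + 2 * d + 1) (C₀ + C₁) ε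
    (by omega) (by omega) (by omega) hr hd (by omega) (by omega) (by linarith) hε
  obtain ⟨n₁, hn₁⟩ : ∃ n₁ : ℕ, p + sd D ≤ n₁ := ⟨_, Nat.le_ceil _⟩
  obtain ⟨C₄, h4a, h4b, h4c⟩ : ∃ C₄ : ℕ, 6 * Ch ≤ C₄ ∧ Ca + Cb ≤ C₄ ∧ C₁ ≤ C₄ :=
    ⟨6 * Ch + (Ca + Cb) + ⌈C₁⌉₊, by omega, by omega, (Nat.le_ceil _).trans (by
      push_cast; linarith [Nat.cast_nonneg (α := ℝ) Ch, Nat.cast_nonneg (α := ℝ) Ca,
        Nat.cast_nonneg (α := ℝ) Cb])⟩
  obtain ⟨C, hC1, hC2⟩ : ∃ C : ℕ, C₄ ≤ C ∧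
      D * n₁ + 1 + ((Ca + Cb + 2) * n₁ + (Ca + Cb) + 1) ≤ C :=
    ⟨C₄ + (D * n₁ + 1 + ((Ca + Cb + 2) * n₁ + (Ca + Cb) + 1)), by omega, by omega⟩
  refine ⟨C, by omega, ?_⟩
  intro N c σ K₀ M J w Z t₀ H a Φ g Kk k z T e hσ hK₀ hM hw hH hJet hN hcS hMS hTh hT hlev
  have hg0 : ∀ j b x, 0 ≤ g j b x := fun j b x => by linarith [hT.one_le j b x]
  have hwr : (1 : ℝ) ≤ w := by exact_mod_cast hw
  have hMr : (1 : ℝ) ≤ M := by exact_mod_cast hM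
  have hChr : (1 : ℝ) ≤ Ch := by exact_mod_cast hCh
  have ht₀ : (0 : ℝ) ≤ t₀ := Nat.cast_nonneg _
  have hwD : (1 : ℝ) ≤ (w : ℝ) ^ D := one_le_pow₀ hwr
  have hMS' : M * (K₀ * M ^ J * σ) ≤ N := by
    refine le_trans ?_ hMS
    exact Nat.mul_le_mul_right _ (Nat.le_mul_of_pos_right _ (by positivity))
  -- the radial direction at each level
  have hφj : ∀ j, j < J → IsQ (((σ * M ^ (J - (j + 1)) : ℕ) : ℝ)⁻¹ • Φ 1) ∧ ∀ b, b < K₀ * M ^ j →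
      gn r H ((c + b * (σ * M ^ (J - j)) : ℕ) : ℝ) ((σ * M ^ (J - j) : ℕ) : ℝ)
        ((σ * M ^ (J - j) : ℕ) : ℝ) (((σ * M ^ (J - (j + 1)) : ℕ) : ℝ)⁻¹ • Φ 1) ≤ (C₁ + Cφ) * M := by
    intro j hj
    refine ⟨hB.ge0.isQ_smul d _ _ ⟨((σ * M ^ (J - (j + 1)) : ℕ) : ℚ)⁻¹, by push_cast; rfl⟩
      (hJet.rat 1), fun b hb => ?_⟩
    have e1 : σ * M ^ (J - j) = M * (σ * M ^ (J - (j + 1))) := by
      have : J - j = J - (j + 1) + 1 := by omega
      rw [this, pow_succ]; ring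
    have e2 : K₀ * M ^ J * σ = K₀ * M ^ j * (σ * M ^ (J - j)) := by
      have : M ^ J = M ^ j * M ^ (J - j) := by rw [← pow_add]; congr 1; omega
      rw [this]; ring
    have hσ' : σ ≤ σ * M ^ (J - (j + 1)) := Nat.le_mul_of_pos_right _ (by positivity)
    have h1 := (hφ N c (K₀ * M ^ J * σ) (σ * M ^ (J - (j + 1))) M (c + b * (σ * M ^ (J - j))) H Φ
      (hσ.trans hσ') hM hH.le hJet hMS' (by omega) (by
        rw [← e1, e2]
        have := Nat.mul_le_mul_right (σ * M ^ (J - j)) (Nat.succ_le_of_lt hb)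
        rw [Nat.succ_mul] at this
        omega)
      (hB.ge0.th_mono d r _ H H N σ _ _ _ (Nat.cast_nonneg _) le_rfl (Nat.cast_nonneg _)
        (by exact_mod_cast hσ') (Nat.cast_nonneg _) le_rfl hTh)).2.2.1
    rw [← e1] at h1
    exact h1.trans (mul_le_mul_of_nonneg_right (by linarith) (by linarith))
  set I : Finset (ℕ × ℤ) := range (t₀ + 1) ×ˢ
    ((Icc (-((Ch * M : ℕ) : ℤ)) ((Ch * M : ℕ) : ℤ)).filter fun s => ((w ^ D : ℕ) : ℤ) < |s|) with hI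
  have hex : ∀ j : ℕ, ∀ i : ℕ × ℤ, ∃ sig : TT d → ℝ, j < J → i ∈ I → Continuous sig ∧
      (∀ x, 0 < sig x) ∧
      (∀ x, sig x ≤ (((Ca + Cb : ℕ) : ℝ) * (M * w)) ^ (Ca + Cb) * Ps (g j) (K₀ * M ^ j) (2 ^ t₀) x) ∧
      ((2 : ℝ) ^ i.1) ^ (p / 2 - (sd (k j - 1) + 1)) * II r H (fun x =>
        ‖hi (((σ * M ^ (J - (j + 1)) : ℕ) : ℝ)⁻¹ • Φ 1) (L * B + d + 1) i.2 (Kk j)
          (fun b y => Ph B (2 ^ i.1) (g j b y)) (range (K₀ * M ^ j)) x‖ ^ (2 * sd (k j - 1)) /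
            sig x ^ (sd (k j - 1) - 1)) ≤
        (((Ca + Cb : ℕ) : ℝ) * (M * w)) ^ (Ca + Cb) * (((Ca + Cb : ℕ) : ℝ) * (w : ℝ) ^ ε) ^ Z *
          (T j : ℝ) ^ sd (k j - 1) *
          (C₁ ^ (j + 1) * XX d r H p a c (K₀ * M ^ j) (σ * M ^ (J - j))) := by
    intro j i
    by_cases hji : j < J ∧ i ∈ I
    · obtain ⟨hj, hi'⟩ := hji
      obtain ⟨hk, -, -, -, hz, hK, hMT, hTk⟩ := hlev j hj
      rw [hI, mem_product, mem_filter, mem_range] at hi'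
      have hl : (2 : ℝ) ^ i.1 ≤ 2 ^ t₀ := pow_le_pow_right₀ one_le_two (by omega)
      rcases hk with hk | hk
      · rw [hk] at hTk ⊢
        obtain ⟨sig, hs⟩ := level hB hP (C' := Ca + Cb) hca hCa (by omega) hC₀ hC₁ hε hB1
          (by linarith) hpB hσ hM hw hH hJet hN hcS hMS hTh hT hj hz hK hMT hTk (by positivity) hl
          hi'.2.2.le
        exact ⟨sig, fun _ _ => hs⟩
      · have hk' : k j = D - 1 := by omega
        rw [hk'] at hTk ⊢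
        obtain ⟨sig, hs⟩ := level hB hP (C' := Ca + Cb) hcb hCb (by omega) hC₀ hC₁ hε hB1
          (by linarith) hpB hσ hM hw hH hJet hN hcS hMS hTh hT hj hz hK hMT hTk (by positivity) hl
          hi'.2.2.le
        exact ⟨sig, fun _ _ => hs⟩
    · exact ⟨0, fun h1 h2 => absurd ⟨h1, h2⟩ hji⟩
  choose sg hsg using hex
  set Y : ℝ := C₄ * ((t₀ + 1) * w) with hY
  set A : ℝ := Ch * (t₀ + 1) * (2 * ((w ^ D : ℕ) : ℝ) + 1) with hA
  set F : ℝ := (((Ca + Cb : ℕ) : ℝ) * (M * w)) ^ (Ca + Cb) with hF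
  have h4a' : 6 * (Ch : ℝ) ≤ C₄ := by exact_mod_cast h4a
  have h4b' : ((Ca + Cb : ℕ) : ℝ) ≤ C₄ := by exact_mod_cast h4b
  have hab : (1 : ℝ) ≤ ((Ca + Cb : ℕ) : ℝ) := by exact_mod_cast (by omega : 1 ≤ Ca + Cb)
  have hu : (1 : ℝ) ≤ (t₀ + 1) * w := one_le_mul_of_one_le_of_one_le (by linarith) hwr
  have hYC : (C₄ : ℝ) ≤ Y := le_mul_of_one_le_right (Nat.cast_nonneg _) hu
  have hY1 : 1 ≤ Y := by linarith
  have hA1 : 1 ≤ A := by
    refine one_le_mul_of_one_le_of_one_le (one_le_mul_of_one_le_of_one_le hChr (by linarith)) ?_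
    push_cast; linarith
  have hF1 : 1 ≤ F := one_le_pow₀ (one_le_mul_of_one_le_of_one_le hab
    (one_le_mul_of_one_le_of_one_le hMr hwr))
  have hAY : 2 * A ≤ Y ^ D := by
    have h1 : (C₄ : ℝ) * (t₀ + 1) ≤ (C₄ * (t₀ + 1)) ^ D :=
      le_self_pow₀ (one_le_mul_of_one_le_of_one_le (by linarith) (by linarith)) (by omega)
    have h2 : Y ^ D = (C₄ * (t₀ + 1)) ^ D * (w : ℝ) ^ D := by rw [hY, ← mul_assoc, mul_pow]
    rw [h2, hA]
    push_cast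
    calc 2 * (Ch * (t₀ + 1) * (2 * (w : ℝ) ^ D + 1)) ≤ 2 * (Ch * (t₀ + 1) * (3 * (w : ℝ) ^ D)) := by
          gcongr; linarith
      _ = 6 * Ch * (t₀ + 1) * (w : ℝ) ^ D := by ring
      _ ≤ C₄ * (t₀ + 1) * (w : ℝ) ^ D := by gcongr
      _ ≤ _ := by gcongr
  have hFY : F ≤ (Y * M) ^ (Ca + Cb) := by
    refine pow_le_pow_left₀ (by positivity) ?_ _
    rw [hY]
    calc ((Ca + Cb : ℕ) : ℝ) * (M * w) ≤ C₄ * (M * w) := by gcongr
      _ = C₄ * (1 * w) * M := by ring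
      _ ≤ C₄ * ((t₀ + 1) * w) * M := by gcongr; linarith
  have hIY : (I.card : ℝ) ≤ Y * M := by
    refine (card_le t₀ (Ch * M) _).trans ?_
    rw [hY]
    push_cast
    have h1 : (1 : ℝ) ≤ Ch * M := one_le_mul_of_one_le_of_one_le hChr hMr
    calc ((t₀ : ℝ) + 1) * (2 * (Ch * M) + 1) ≤ (t₀ + 1) * (6 * (Ch * M)) := by gcongr; linarith
      _ = 6 * Ch * ((t₀ + 1) * 1) * M := by ring
      _ ≤ C₄ * ((t₀ + 1) * w) * M := by gcongr
  have hYM : 1 ≤ Y * M := one_le_mul_of_one_le_of_one_le hY1 hMr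
  have hIG : 2 * (Ch : ℝ) * I.card + 1 ≤ (Y * M) ^ 2 := by
    have h1 : 2 * (Ch : ℝ) * I.card ≤ 2 * Ch * (Y * M) := by gcongr
    have h2 : 6 * (Ch : ℝ) ≤ Y * M := by
      refine (h4a'.trans hYC).trans (le_mul_of_one_le_right (by linarith) hMr)
    nlinarith
  have hAJ : (1 : ℝ) ≤ (2 * A) ^ J := one_le_pow₀ (by linarith)
  have hcI : (0 : ℝ) ≤ 2 * Ch * I.card := by positivity
  have hG1 : 1 ≤ (2 * A) ^ J * F * (2 * Ch * I.card + 1) :=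
    one_le_mul_of_one_le_of_one_le (one_le_mul_of_one_le_of_one_le hAJ hF1) (by linarith)
  have hXX : ∀ K s, 0 ≤ XX d r H p a c K s := fun K s => hB.wr.xx_nonneg d r H p a c K s hH
  have hXJ : II r H (fun x => Ps (g J) (K₀ * M ^ J) (2 ^ t₀) x ^ (p / 2)) ≤
      ((K₀ * M ^ J : ℕ) : ℝ) ^ (p / 2 - 1) * (C₁ ^ (J + 1) * XX d r H p a c (K₀ * M ^ J) σ) := by
    have hc : ∀ b ∈ range (K₀ * M ^ J), Continuous fun x => g J b x ^ (p / 2) :=
      fun b _ => (hT.cont J b).rpow_const fun x => Or.inr (by linarith)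
    refine (II_mono hB r hH ((Ps_cont _ (hT.cont J) _ _).rpow_const fun x => Or.inr (by linarith))
      (continuous_const.mul (continuous_finsetSum _ hc)) fun x =>
        Ps_rpow (g J) _ (by positivity) (by linarith) x fun b => hg0 J b x).trans ?_
    refine (II_smul r H _ _).le.trans (mul_le_mul_of_nonneg_left ?_ (by positivity))
    rw [II_sum hB r hH _ hc, XX, mul_sum]
    refine sum_le_sum fun b hb => ?_
    simpa using hT.int J b le_rfl (mem_range.1 hb)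
  have main := integ hB hP I r J D' (fun j => Ps (g j) (K₀ * M ^ j) (2 ^ t₀))
    (fun j i x => ‖hi (((σ * M ^ (J - (j + 1)) : ℕ) : ℝ)⁻¹ • Φ 1) (L * B + d + 1) i.2 (Kk j)
      (fun b y => Ph B (2 ^ i.1) (g j b y)) (range (K₀ * M ^ j)) x‖) sg (fun i => 2 ^ i.1)
    (fun j => ((K₀ * M ^ j : ℕ) : ℝ)) e
    (fun j => F * (((Ca + Cb : ℕ) : ℝ) * (w : ℝ) ^ ε) ^ Z * (T j : ℝ) ^ sd (k j - 1) *
      (C₁ ^ (j + 1) * XX d r H p a c (K₀ * M ^ j) (σ * M ^ (J - j)))) (fun j => sd (k j - 1))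
    (K₀ := K₀) (lam₀ := 2 ^ t₀) (Cη := Ch) hH hD' (by linarith) hA1 (by linarith) hF1
    (by positivity) (by positivity) le_rfl (by linarith)
    (fun j x => Ps_nonneg _ _ (by positivity) x fun b => hg0 j b x)
    (fun j => Ps_cont _ (hT.cont j) _ _) (fun x => by simpa using Ps_le (g 0) K₀ (2 ^ t₀) x)
    (fun j i x => norm_nonneg _)
    (fun j i => (hi_cont hB hR _ _ _ _ _ _ (fun b => (hT.ker j b).prob)
      fun b => (hP.cont B _).comp (hT.cont j b)).norm)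
    (fun j => Nat.cast_nonneg _)
    (fun i hi' => ⟨by positivity, pow_le_pow_right₀ one_le_two (by
      rw [hI, mem_product, mem_range] at hi'; omega)⟩)
    (fun j x hj => by
      have := hch d (K₀ * M ^ j) M (w ^ D) t₀ _ _ (g j) (g (j + 1)) (Kk j) x hM (hφj j hj).1
        (hT.cont j) (hT.one_le j) (hg0 (j + 1)) (hT.dbl j)
        (fun b => hB.cv2.isK_mono d _ _ C₁ _ _ (by linarith) (hT.ker j b)) (hφj j hj).2
        (fun b hb => (hT.low j b _ x hj hb (by positivity)).trans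
          (mul_le_mul_of_nonneg_right (by linarith)
            (sum_nonneg fun b' _ => le_min (hg0 _ _ _) (by positivity))))
      rw [hI, sum_product, pow_succ, ← mul_assoc]
      exact this)
    (fun j hj i hi' => ⟨(hsg j i hj hi').1, fun x => ⟨(hsg j i hj hi').2.1 x,
      (hsg j i hj hi').2.2.1 x, hi_le hB hR _ _ _ _ _ _ _ (by omega) (hφj j hj).1
        (fun b => (hT.ker j b).prob) (fun b => (hP.cont B _).comp (hT.cont j b))
        (fun b y => (hP.pos B _ _ (by positivity) (by linarith [hT.one_le j b y])).le)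
        (fun b y => (hP.le B _ _ hB1 (by positivity) (hg0 j b y)).trans (min_le_right _ _)) x⟩,
      (hsg j i hj hi').2.2.2⟩)
    (fun j hj => ⟨sd_pos (by have := (hlev j hj).1; omega), (hlev j hj).2.1, (hlev j hj).2.2.1,
      (hlev j hj).2.2.2.1⟩) hXJ
  simp only [pow_zero, mul_one] at main
  refine main.trans ?_
  have hCr : (C₄ : ℝ) ≤ C := by exact_mod_cast hC1
  have hwε : (1 : ℝ) ≤ (w : ℝ) ^ ε := Real.one_le_rpow hwr hε.le
  have hYle : Y ^ (C * (J + 1)) ≤ ((C : ℝ) * (t₀ + 1) * w) ^ (C * (J + 1)) := by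
    refine pow_le_pow_left₀ (by linarith) ?_ _
    rw [hY, mul_assoc]; gcongr
  have hZ : (((Ca + Cb : ℕ) : ℝ) * (w : ℝ) ^ ε) ^ Z ≤ (C * (w : ℝ) ^ ε) ^ Z := by
    gcongr; linarith
  have hZ1 : (1 : ℝ) ≤ (C * (w : ℝ) ^ ε) ^ Z :=
    one_le_pow₀ (one_le_mul_of_one_le_of_one_le (by linarith) hwε)
  have hsd : (0 : ℝ) ≤ sd D := Nat.cast_nonneg _
  have hcon := fun (j : ℕ) (hj : j ≤ J) (x : ℝ) (hx : x ≤ n₁) =>
    consts D n₁ (Ca + Cb) J j Y M A F _ I.card C₁ (p / 2) x hY1 hMr hA1 hAY (by linarith) hFY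
      (Nat.cast_nonneg _) hIY hC₁ (h4c.trans hYC) hG1
      (mul_le_mul_of_nonneg_left hIG (by positivity)) hj (by linarith) (by linarith) hx C hC2
  have hQ : Y ^ (C * (J + 1)) * (M : ℝ) ^ C ≤
      ((C : ℝ) * (t₀ + 1) * w) ^ (C * (J + 1)) * (M : ℝ) ^ C := by gcongr
  refine le_trans ?_ (mul_add _ _ _).ge
  rw [mul_sum]
  refine add_le_add ?_ (sum_le_sum fun j hj => ?_)
  · have h1 := ((hcon 0 (Nat.zero_le _) 0 (Nat.cast_nonneg _)).1.trans hQ).trans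
      (le_mul_of_one_le_right (by positivity) hZ1)
    have h2 := hXX (K₀ * M ^ J) σ
    calc _ = (((2 * A) ^ J) ^ (p / 2) * C₁ ^ (J + 1)) * ((K₀ : ℝ) ^ (p / 2 - D') *
          ((K₀ * M ^ J : ℕ) : ℝ) ^ (p / 2 - 1) * XX d r H p a c (K₀ * M ^ J) σ) := by ring
      _ ≤ _ := mul_le_mul_of_nonneg_right h1 (by positivity)
  · have hj' := mem_range.1 hj
    obtain ⟨hk, -, -, he, -⟩ := hlev j hj'
    have hq : ((sd (k j - 1) : ℕ) : ℝ) ≤ sd D := by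
      exact_mod_cast BROAD.sd_mono (show k j - 1 ≤ D by omega)
    have hD0 : (0 : ℝ) ≤ D' := Nat.cast_nonneg _
    have h1 := (hcon j hj'.le (e j + sd (k j - 1)) (by linarith)).2.trans hQ
    have h2 := hXX (K₀ * M ^ j) (σ * M ^ (J - j))
    calc _ = (I.card * ((2 * A) ^ J * F * (2 * Ch * I.card + 1)) ^ (e j + sd (k j - 1)) * F *
          C₁ ^ (j + 1) * (((Ca + Cb : ℕ) : ℝ) * (w : ℝ) ^ ε) ^ Z) * ((K₀ : ℝ) ^ (p - D' - e j) *
          ((K₀ * M ^ j : ℕ) : ℝ) ^ (e j - (sd (k j - 1) + 1)) * (T j : ℝ) ^ sd (k j - 1) *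
          XX d r H p a c (K₀ * M ^ j) (σ * M ^ (J - j))) := by ring
      _ ≤ _ := mul_le_mul_of_nonneg_right (mul_le_mul h1 hZ (by positivity) (by positivity))
          (by positivity)

end Pool.Agent.Lib.SC
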