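import Pool.Agent.Lib.SC.Blue

/-! The geometry of the cone. -/

namespace Pool.Agent.Lib.SC

open MeasureTheory Finset Pool.Agent.Lib.WC

namespace CG

variable {d : ℕ}

/-- The Taylor coefficient as a linear map. -/
def tcL (c : ℝ) (i : ℕ) : V d →ₗ[ℝ] ℝ where
  toFun := tc c i
  map_add' := tc_add c i
  map_smul' := fun t P => by simp [tc_smul]

/-- The pairing as a linear map. -/
def dotL (ξ : Fin d → ℤ) : V d →ₗ[ℝ] ℝ where
  toFun := dot ξ
  map_add' := fun P R => by simp [dot, mul_add, Finset.sum_add_distrib]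
  map_smul' := fun t P => by
    simp only [dot, Pi.smul_apply, smul_eq_mul, RingHom.id_apply, Finset.mul_sum]
    exact Finset.sum_congr rfl fun j _ => by ring

theorem tcL_apply (c : ℝ) (i : ℕ) (P : V d) : tcL c i P = tc c i P := rfl

theorem dotL_apply (ξ : Fin d → ℤ) (P : V d) : dotL ξ P = dot ξ P := rfl

theorem pn_le (c a E : ℝ) (P : V d) (ha : 0 ≤ a)
    (h : ∀ l, 1 ≤ l → |tc c l P| * a ^ l ≤ E) : pn c a a P ≤ d * E := by
  rw [pn_apply]
  have : ∀ i ∈ range d, |tc c (i + 1) P| * (|a| * |a| ^ i) ≤ E := fun i _ => by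
    rw [abs_of_nonneg ha, ← pow_succ']
    exact h (i + 1) (Nat.le_add_left 1 i)
  have h2 := Finset.sum_le_card_nsmul _ _ _ this
  simpa [nsmul_eq_mul] using h2

theorem bx_scale (r : ℕ) (H t : ℝ) (ht : 0 ≤ t) (P : V d) : bx r (H * t) P = t * bx r H P := by
  rw [bx_apply, bx_apply, Finset.mul_sum]
  refine Finset.sum_congr rfl fun j _ => ?_
  split_ifs
  · rw [abs_mul, abs_of_nonneg ht]; ring
  · simp

theorem choose_le (i m : ℕ) (hi : i ≤ d) : (i.choose m : ℝ) ≤ 2 ^ d := by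
  have h1 : i.choose m ≤ 2 ^ i := Nat.choose_le_two_pow i m
  have h2 : 2 ^ i ≤ 2 ^ d := Nat.pow_le_pow_right (by norm_num) hi
  exact_mod_cast h1.trans h2

/-- The coefficients of the primitive. -/
noncomputable def co (i : ℕ) (u : ℝ) (m : ℕ) : ℝ := (i.choose m : ℝ) * u ^ (i - m) / ((m : ℝ) + 1)

theorem co_le (i m : ℕ) (u B : ℝ) (hi : i ≤ d) (hu : |u| ≤ B) :
    |co i u m| ≤ 2 ^ d * B ^ (i - m) := by
  have hm : (1 : ℝ) ≤ (m : ℝ) + 1 := by have : (0 : ℝ) ≤ m := Nat.cast_nonneg m; linarith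
  have hB : 0 ≤ B := (abs_nonneg u).trans hu
  unfold co
  rw [abs_div, abs_mul, abs_pow, abs_of_nonneg (Nat.cast_nonneg _),
    abs_of_nonneg (by linarith : (0 : ℝ) ≤ (m : ℝ) + 1)]
  refine (div_le_self (by positivity) hm).trans ?_
  exact mul_le_mul (choose_le i m hi) (pow_le_pow_left₀ (abs_nonneg u) hu _) (by positivity)
    (by positivity)

theorem comb (i : ℕ) (hi : i + 1 ≤ d) (u v B K Y : ℝ) (z : ℕ → ℝ) (hu : |u| ≤ B) (hv : |v| ≤ B)
    (hY : 0 ≤ Y) (hK : 0 ≤ K) (hz : ∀ m, m ≤ i → |z m| * Y ≤ K * B ^ (m + 1)) :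
    (∑ m ∈ range (i + 1), |co i u m| * |z m| + |v| ^ i * |z 0|) * Y ≤
      (d * 2 ^ d + 1) * K * B ^ (i + 1) := by
  have hB : 0 ≤ B := (abs_nonneg u).trans hu
  have h1 : ∀ m ∈ range (i + 1), |co i u m| * |z m| * Y ≤ 2 ^ d * K * B ^ (i + 1) := fun m hm => by
    have hm' : m ≤ i := Nat.lt_succ_iff.mp (mem_range.mp hm)
    have e : B ^ (i + 1) = B ^ (i - m) * B ^ (m + 1) := by
      rw [← pow_add]; congr 1; omega
    calc |co i u m| * |z m| * Y = |co i u m| * (|z m| * Y) := by ring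
      _ ≤ (2 ^ d * B ^ (i - m)) * (K * B ^ (m + 1)) :=
        mul_le_mul (co_le i m u B (by omega) hu) (hz m hm') (by positivity) (by positivity)
      _ = 2 ^ d * K * B ^ (i + 1) := by rw [e]; ring
  have h2 := Finset.sum_le_card_nsmul _ _ _ h1
  rw [card_range, nsmul_eq_mul] at h2
  have h3 : ((i + 1 : ℕ) : ℝ) ≤ d := by exact_mod_cast hi
  have h4 : |v| ^ i * |z 0| * Y ≤ K * B ^ (i + 1) := by
    calc |v| ^ i * |z 0| * Y = |v| ^ i * (|z 0| * Y) := by ring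
      _ ≤ B ^ i * (K * B ^ (0 + 1)) :=
        mul_le_mul (pow_le_pow_left₀ (abs_nonneg v) hv _) (hz 0 (Nat.zero_le i)) (by positivity)
          (by positivity)
      _ = K * B ^ (i + 1) := by ring
  have h5 : ((i + 1 : ℕ) : ℝ) * (2 ^ d * K * B ^ (i + 1)) ≤ d * (2 ^ d * K * B ^ (i + 1)) :=
    mul_le_mul_of_nonneg_right h3 (by positivity)
  rw [add_mul, Finset.sum_mul]
  nlinarith

theorem abs_comb (i : ℕ) (u v : ℝ) (z : ℕ → ℝ) :
    |∑ m ∈ range (i + 1), co i u m * z m - v ^ i * z 0| ≤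
      ∑ m ∈ range (i + 1), |co i u m| * |z m| + |v| ^ i * |z 0| := by
  refine (abs_sub _ _).trans (add_le_add ?_ ?_)
  · refine (Finset.abs_sum_le_sum_abs _ _).trans (le_of_eq ?_)
    exact Finset.sum_congr rfl fun m _ => abs_mul _ _
  · rw [abs_mul, abs_pow]

/-- The primitive minus its linear term. -/
noncomputable def RR (Ψ : ℕ → V d) (i : ℕ) (u v : ℝ) : V d :=
  ∑ m ∈ range (i + 1), co i u m • Ψ (m + 1) - v ^ i • Ψ 1

theorem lin_RR (f : V d →ₗ[ℝ] ℝ) (Ψ : ℕ → V d) (i : ℕ) (u v : ℝ) :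
    f (RR Ψ i u v) = ∑ m ∈ range (i + 1), co i u m * f (Ψ (m + 1)) - v ^ i * f (Ψ 1) := by
  simp [RR, map_sub, map_sum, map_smul]

theorem sn_RR (G : Seminorm ℝ (V d)) (Ψ : ℕ → V d) (i : ℕ) (u v : ℝ) :
    G (RR Ψ i u v) ≤ ∑ m ∈ range (i + 1), |co i u m| * |G (Ψ (m + 1))| + |v| ^ i * |G (Ψ (0 + 1))| := by
  refine (map_sub_le_add G _ _).trans (add_le_add ?_ ?_)
  · refine (Finset.le_sum_of_subadditive G (map_zero G).le (map_add_le_add G) _ _).trans
      (le_of_eq ?_)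
    refine Finset.sum_congr rfl fun m _ => ?_
    rw [map_smul_eq_mul, Real.norm_eq_abs, abs_of_nonneg (apply_nonneg G _)]
  · rw [map_smul_eq_mul, Real.norm_eq_abs, abs_of_nonneg (apply_nonneg G _), abs_pow]

/-- The first Taylor coefficient. -/
theorem tc_one (Ψ : ℕ → V d) (i : ℕ) (hi : i + 1 ≤ d) (c' u x B C N : ℝ) (hB : 0 < B)
    (hN : 0 ≤ N) (hC : 0 ≤ C) (hu : |u| ≤ B) (hv : |x + u| ≤ B)
    (h : ∀ m, m ≤ i → |tc c' 1 (Ψ (m + 1)) - ((m + 1).choose 1 : ℝ) * x ^ (m + 1 - 1)| * N * B ^ 1 ≤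
      C * B ^ (m + 1 + 1)) :
    |tc c' 1 (RR Ψ i u (x + u))| * N ≤ (d * 2 ^ d + 1) * C * B ^ (i + 1) := by
  have e : tc c' 1 (RR Ψ i u (x + u)) = ∑ m ∈ range (i + 1),
      co i u m * (tc c' 1 (Ψ (m + 1)) - ((m : ℝ) + 1) * x ^ m) -
      (x + u) ^ i * (tc c' 1 (Ψ (0 + 1)) - (((0 : ℕ) : ℝ) + 1) * x ^ 0) := by
    rw [← tcL_apply, lin_RR]
    have e1 : ∑ m ∈ range (i + 1), co i u m * (((m : ℝ) + 1) * x ^ m) = (x + u) ^ i := by
      rw [add_pow]
      refine Finset.sum_congr rfl fun m _ => ?_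
      have hm : (m : ℝ) + 1 ≠ 0 := by positivity
      unfold co
      field_simp
    simp only [mul_sub, Finset.sum_sub_distrib, e1, tcL_apply]
    simp
  rw [e]
  refine le_trans (mul_le_mul_of_nonneg_right
    (abs_comb i u (x + u) fun m => tc c' 1 (Ψ (m + 1)) - ((m : ℝ) + 1) * x ^ m) hN) ?_
  refine comb i hi u (x + u) B C N _ hu hv hN hC fun m hm => ?_
  have h1 := h m hm
  rw [Nat.choose_one_right, Nat.add_sub_cancel, pow_one, pow_succ B (m + 1), ← mul_assoc] at h1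
  have h2 := le_of_mul_le_mul_right h1 hB
  simpa using h2

/-- The higher Taylor coefficients. -/
theorem tc_high (Ψ : ℕ → V d) (i l : ℕ) (hi : i + 1 ≤ d) (c' u v x B C N : ℝ) (hB : 0 < B)
    (hN : B ≤ N) (hC : 0 ≤ C) (hu : |u| ≤ B) (hv : |v| ≤ B) (hx : |x| ≤ B)
    (h : ∀ m, m ≤ i → |tc c' l (Ψ (m + 1)) - ((m + 1).choose l : ℝ) * x ^ (m + 1 - l)| * N * B ^ l ≤
      C * B ^ (m + 1 + 1)) :
    |tc c' l (RR Ψ i u v)| * B ^ l ≤ (d * 2 ^ d + 1) * (2 ^ d + C) * B ^ (i + 1) := by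
  rw [← tcL_apply, lin_RR]
  refine le_trans (mul_le_mul_of_nonneg_right
    (abs_comb i u v fun m => tcL c' l (Ψ (m + 1))) (by positivity)) ?_
  refine comb i hi u v B _ _ _ hu hv (by positivity) (by positivity) fun m hm => ?_
  rw [tcL_apply]
  have h1 := h m hm
  set e := tc c' l (Ψ (m + 1)) - ((m + 1).choose l : ℝ) * x ^ (m + 1 - l) with he
  have h2 : |e| * B ^ l ≤ C * B ^ (m + 1) := by
    have h3 : |e| * B * B ^ l ≤ |e| * N * B ^ l :=
      mul_le_mul_of_nonneg_right (mul_le_mul_of_nonneg_left hN (abs_nonneg _)) (by positivity)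
    have h4 : |e| * B ^ l * B ≤ C * B ^ (m + 1) * B := by
      have : C * B ^ (m + 1) * B = C * B ^ (m + 1 + 1) := by ring
      rw [this]; nlinarith
    exact le_of_mul_le_mul_right h4 hB
  have h5 : |((m + 1).choose l : ℝ) * x ^ (m + 1 - l)| * B ^ l ≤ 2 ^ d * B ^ (m + 1) := by
    by_cases hl : l ≤ m + 1
    · have e2 : B ^ (m + 1) = B ^ (m + 1 - l) * B ^ l := by
        rw [← pow_add]; congr 1; omega
      rw [abs_mul, abs_pow, abs_of_nonneg (Nat.cast_nonneg _), e2, ← mul_assoc]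
      refine mul_le_mul_of_nonneg_right ?_ (by positivity)
      exact mul_le_mul (choose_le _ _ (by omega)) (pow_le_pow_left₀ (abs_nonneg x) hx _)
        (by positivity) (by positivity)
    · rw [Nat.choose_eq_zero_of_lt (by omega)]
      simp only [Nat.cast_zero, zero_mul, abs_zero]
      positivity
  have h6 : tc c' l (Ψ (m + 1)) = ((m + 1).choose l : ℝ) * x ^ (m + 1 - l) + e := by rw [he]; ring
  rw [h6]
  have h7 := mul_le_mul_of_nonneg_right
    (abs_add_le (((m + 1).choose l : ℝ) * x ^ (m + 1 - l)) e) (by positivity : 0 ≤ B ^ l)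
  nlinarith

/-- The difference of two radial directions. -/
theorem pn_diff (P Q : V d) (c' x y S N a σ C C' : ℝ) (hS : 0 < S) (hN : 0 < N) (ha : 0 ≤ a)
    (haS : a ≤ S) (hC : 0 ≤ C) (hC' : 0 ≤ C') (hσ : S * a ≤ N * σ)
    (hP : ∀ l, 1 ≤ l → |tc c' l P - ((1 : ℕ).choose l : ℝ) * x ^ (1 - l)| * N * S ^ l ≤
      C * S ^ (1 + 1))
    (hQ : ∀ l, 1 ≤ l → |tc c' l Q - ((1 : ℕ).choose l : ℝ) * y ^ (1 - l)| * N * S ^ l ≤
      C' * S ^ (1 + 1)) :
    pn c' a a (P - Q) ≤ d * ((C + C') * σ) := by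
  refine pn_le c' a _ _ ha fun l hl => ?_
  have h1 := hP l hl
  have h2 := hQ l hl
  have e0 : 1 - l = 0 := by omega
  rw [e0, pow_zero] at h1 h2
  have e : tc c' l (P - Q) = (tc c' l P - ((1 : ℕ).choose l : ℝ) * 1) -
      (tc c' l Q - ((1 : ℕ).choose l : ℝ) * 1) := by
    rw [← tcL_apply, map_sub, tcL_apply, tcL_apply]; ring
  have h3 : |tc c' l (P - Q)| * N * S ^ l ≤ (C + C') * S ^ (1 + 1) := by
    rw [e]
    have h4 := mul_le_mul_of_nonneg_right (abs_sub (tc c' l P - ((1 : ℕ).choose l : ℝ) * 1)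
      (tc c' l Q - ((1 : ℕ).choose l : ℝ) * 1)) (by positivity : 0 ≤ N * S ^ l)
    nlinarith
  obtain ⟨n, rfl⟩ : ∃ n, l = n + 1 := ⟨l - 1, by omega⟩
  set T := |tc c' (n + 1) (P - Q)| with hT
  have hT0 : 0 ≤ T := abs_nonneg _
  have h5 : T * N * S ^ n ≤ (C + C') * S := by
    refine le_of_mul_le_mul_right ?_ hS
    have e1 : T * N * S ^ n * S = T * N * S ^ (n + 1) := by ring
    have e2 : (C + C') * S * S = (C + C') * S ^ (1 + 1) := by ring
    rw [e1, e2]; exact h3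
  have h6 : a ^ n ≤ S ^ n := pow_le_pow_left₀ ha haS n
  refine le_of_mul_le_mul_right ?_ hN
  calc T * a ^ (n + 1) * N = T * N * a ^ n * a := by ring
    _ ≤ T * N * S ^ n * a :=
      mul_le_mul_of_nonneg_right (mul_le_mul_of_nonneg_left h6 (by positivity)) ha
    _ ≤ (C + C') * S * a := mul_le_mul_of_nonneg_right h5 ha
    _ = (C + C') * (S * a) := by ring
    _ ≤ (C + C') * (N * σ) := mul_le_mul_of_nonneg_left hσ (by positivity)
    _ = (C + C') * σ * N := by ring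

/-- The size of the primitive minus its linear term. -/
theorem g_RR (Ψ : ℕ → V d) (r i D : ℕ) (H c' u x w A M σ s N C : ℝ) (hi : i + 1 ≤ d) (hi1 : 1 ≤ i)
    (hiD : i ≤ D) (hw : 1 ≤ w) (hA : 0 < A) (hM : 1 ≤ M) (hσ : 0 < σ) (hMA : M * (M * σ) ≤ A)
    (hN : M * w ^ D * (w * A) ≤ N) (hs : w ^ D ≤ s) (hC : 0 ≤ C) (hu : |u| ≤ w * A)
    (hv : |x + u| ≤ w * A) (hx : |x| ≤ w * A)
    (h4 : ∀ m l, m ≤ i → 1 ≤ l →
      |tc c' l (Ψ (m + 1)) - ((m + 1).choose l : ℝ) * x ^ (m + 1 - l)| * N * (w * A) ^ l ≤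
        C * (w * A) ^ (m + 1 + 1))
    (h2 : ∀ m, m ≤ i → w ^ (3 * D) * bx r H (Ψ (m + 1)) ≤ C * σ * A ^ m) :
    gn r H c' (M * σ) (M * σ) (RR Ψ i u (x + u)) ≤
      (d + 1) * ((d * 2 ^ d + 1) * (2 ^ d + C)) * (s * σ * A ^ i) := by
  set B := w * A with hBdef
  set K : ℝ := d * 2 ^ d + 1 with hK
  have hK0 : 0 < K := by positivity
  have hw0 : 0 < w := by linarith
  have hB : 0 < B := by positivity
  have hW : 1 ≤ w ^ D := one_le_pow₀ hw
  have hs1 : 1 ≤ s := hW.trans hs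
  have hAB : A ≤ B := by rw [hBdef]; nlinarith
  have hBN : B ≤ N := by
    refine le_trans ?_ hN
    have : 1 ≤ M * w ^ D := one_le_mul_of_one_le_of_one_le hM hW
    nlinarith
  have hN0 : 0 < N := hB.trans_le hBN
  have hpw : ∀ n, n ≤ D → B ^ n ≤ w ^ D * A ^ n := fun n hn => by
    rw [hBdef, mul_pow]
    exact mul_le_mul_of_nonneg_right (pow_le_pow_right₀ hw hn) (by positivity)
  have hCK : K * C ≤ K * (2 ^ d + C) :=
    mul_le_mul_of_nonneg_left (by have : (0 : ℝ) ≤ 2 ^ d := by positivity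
                                  linarith) hK0.le
  have hsA : σ * A ^ i ≤ s * σ * A ^ i := by
    have : 0 < σ * A ^ i := by positivity
    nlinarith
  have hfin : K * C * (σ * A ^ i) ≤ K * (2 ^ d + C) * (s * σ * A ^ i) :=
    mul_le_mul hCK hsA (by positivity) (by positivity)
  have haB : M * σ ≤ B := by
    refine le_trans ?_ (hMA.trans hAB)
    have : 0 < M * σ := by positivity
    nlinarith
  have hp : pn c' (M * σ) (M * σ) (RR Ψ i u (x + u)) ≤
      d * (K * (2 ^ d + C) * (s * σ * A ^ i)) := by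
    refine pn_le c' _ _ _ (by positivity) fun l hl => ?_
    rcases Nat.eq_or_lt_of_le hl with rfl | hl2
    · have h1 := tc_one Ψ i hi c' u x B C N hB hN0.le hC hu hv fun m hm => h4 m 1 hm le_rfl
      refine le_trans ?_ hfin
      refine le_of_mul_le_mul_right ?_ hN0
      set T := |tc c' 1 (RR Ψ i u (x + u))|
      calc T * (M * σ) ^ 1 * N = T * N * (M * σ) := by ring
        _ ≤ K * C * B ^ (i + 1) * (M * σ) := mul_le_mul_of_nonneg_right h1 (by positivity)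
        _ = K * C * σ * (M * B) * B ^ i := by ring
        _ ≤ K * C * σ * (M * B) * (w ^ D * A ^ i) :=
          mul_le_mul_of_nonneg_left (hpw i hiD) (by positivity)
        _ = K * C * (σ * A ^ i) * (M * w ^ D * B) := by ring
        _ ≤ K * C * (σ * A ^ i) * N := mul_le_mul_of_nonneg_left hN (by positivity)
    · have h1 := tc_high Ψ i l hi c' u (x + u) x B C N hB hBN hC hu hv hx
        fun m hm => h4 m l hm hl
      obtain ⟨n, rfl⟩ : ∃ n, l = n + 2 := ⟨l - 2, by omega⟩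
      obtain ⟨i', rfl⟩ : ∃ i', i = i' + 1 := ⟨i - 1, by omega⟩
      set T := |tc c' (n + 2) (RR Ψ (i' + 1) u (x + u))|
      have hT : 0 ≤ T := abs_nonneg _
      have h5 : T * B ^ n ≤ K * (2 ^ d + C) * B ^ i' := by
        refine le_of_mul_le_mul_right ?_ (by positivity : 0 < B ^ 2)
        have e1 : T * B ^ n * B ^ 2 = T * B ^ (n + 2) := by ring
        have e2 : K * (2 ^ d + C) * B ^ i' * B ^ 2 = K * (2 ^ d + C) * B ^ (i' + 1 + 1) := by ring
        rw [e1, e2]; exact h1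
      have h6 : (M * σ) ^ n ≤ B ^ n := pow_le_pow_left₀ (by positivity) haB n
      have h7 : B ^ i' ≤ s * A ^ i' :=
        (hpw i' (by omega)).trans (mul_le_mul_of_nonneg_right hs (by positivity))
      calc T * (M * σ) ^ (n + 2) = T * (M * σ) ^ n * (M * (M * σ)) * σ := by ring
        _ ≤ T * B ^ n * A * σ := by
          refine mul_le_mul_of_nonneg_right ?_ hσ.le
          exact mul_le_mul (mul_le_mul_of_nonneg_left h6 hT) hMA (by positivity) (by positivity)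
        _ ≤ K * (2 ^ d + C) * (s * A ^ i') * A * σ := by
          refine mul_le_mul_of_nonneg_right (mul_le_mul_of_nonneg_right ?_ hA.le) hσ.le
          exact h5.trans (mul_le_mul_of_nonneg_left h7 (by positivity))
        _ = K * (2 ^ d + C) * (s * σ * A ^ (i' + 1)) := by ring
  have hb : bx r H (RR Ψ i u (x + u)) ≤ K * (2 ^ d + C) * (s * σ * A ^ i) := by
    refine le_trans ?_ hfin
    have h1 := comb i hi u (x + u) B (C * σ) (w ^ (3 * D) * B) (fun m => bx r H (Ψ (m + 1))) hu hv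
      (by positivity) (by positivity) fun m hm => by
        rw [abs_of_nonneg (apply_nonneg _ _)]
        have h3 : C * σ * A ^ m ≤ C * σ * B ^ m :=
          mul_le_mul_of_nonneg_left (pow_le_pow_left₀ hA.le hAB m) (by positivity)
        calc bx r H (Ψ (m + 1)) * (w ^ (3 * D) * B) = w ^ (3 * D) * bx r H (Ψ (m + 1)) * B := by
              ring
          _ ≤ C * σ * B ^ m * B := mul_le_mul_of_nonneg_right ((h2 m hm).trans h3) hB.le
          _ = C * σ * B ^ (m + 1) := by ring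
    have h3 := (mul_le_mul_of_nonneg_right (sn_RR (bx r H) Ψ i u (x + u))
      (by positivity : 0 ≤ w ^ (3 * D) * B)).trans h1
    have h5 : w ^ D ≤ w ^ (3 * D) := pow_le_pow_right₀ hw (by omega)
    refine le_of_mul_le_mul_right ?_ (by positivity : 0 < w ^ (3 * D) * B)
    refine h3.trans ?_
    calc K * (C * σ) * B ^ (i + 1) = K * C * σ * B * B ^ i := by ring
      _ ≤ K * C * σ * B * (w ^ (3 * D) * A ^ i) := by
        refine mul_le_mul_of_nonneg_left ((hpw i hiD).trans ?_) (by positivity)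
        exact mul_le_mul_of_nonneg_right h5 (by positivity)
      _ = K * C * (σ * A ^ i) * (w ^ (3 * D) * B) := by ring
  rw [gn_apply]
  nlinarith

/-- The coordinates of the cone. -/
noncomputable def ps (Ψ : ℕ → V d) (lam A : ℝ) (m : ℕ) : V d :=
  (((m : ℝ) + 2) * lam * A ^ (m + 1))⁻¹ • Ψ (m + 2)

theorem ident (ξ : Fin d → ℤ) (Ψ : ℕ → V d) (n i : ℕ) (lam A j v : ℝ) (hl : lam ≠ 0) (hA : A ≠ 0)
    (hi : i ≤ n) :
    A ^ i * lam * ((-j) ^ i + ∑ m : Fin n,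
      (i.choose (m.val + 1) : ℝ) * (-j) ^ (i - (m.val + 1)) * dot ξ (ps Ψ lam A m.val)) =
      (-j * A) ^ i * (lam - dot ξ (Ψ 1)) + dot ξ (RR Ψ i (-j * A) v) + v ^ i * dot ξ (Ψ 1) := by
  rw [Fin.sum_univ_eq_sum_range
    (fun m => (i.choose (m + 1) : ℝ) * (-j) ^ (i - (m + 1)) * dot ξ (ps Ψ lam A m)) n]
  rw [← Finset.sum_subset (range_subset_range.mpr hi) fun m _ hm => by
    rw [Nat.choose_eq_zero_of_lt (by rw [mem_range] at hm; omega)]; simp]
  rw [← dotL_apply ξ (RR _ _ _ _), lin_RR, Finset.sum_range_succ', mul_add, Finset.mul_sum]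
  have e : ∀ m ∈ range i, A ^ i * lam *
      ((i.choose (m + 1) : ℝ) * (-j) ^ (i - (m + 1)) * dot ξ (ps Ψ lam A m)) =
      co i (-j * A) (m + 1) * dotL ξ (Ψ (m + 1 + 1)) := fun m hm => by
    have hm' : m + 1 ≤ i := mem_range.mp hm
    have e1 : A ^ i = A ^ (i - (m + 1)) * A ^ (m + 1) := by
      rw [← pow_add]; congr 1; omega
    have h2 : (m : ℝ) + 2 ≠ 0 := by positivity
    have h3 : ((m + 1 : ℕ) : ℝ) + 1 = (m : ℝ) + 2 := by push_cast; ring
    rw [← dotL_apply, ps, map_smul, smul_eq_mul, co, h3, mul_pow, e1]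
    field_simp
  rw [Finset.sum_congr rfl e]
  simp only [co, dotL_apply, Nat.choose_zero_right, Nat.sub_zero, Nat.cast_one, Nat.cast_zero,
    zero_add, mul_pow]
  ring

theorem final (T A lam σ s w u v z y K₁ K₂ : ℝ) (i D : ℕ) (hiD : i ≤ D) (hA : 0 < A) (hσ : 0 < σ)
    (hw : 1 ≤ w) (hs : w ^ D ≤ s) (hl : |lam| = s * σ) (hu : |u| ≤ w * A) (hv : |v| ≤ A)
    (hK₁ : 0 ≤ K₁) (hz : |lam - z| ≤ K₁ * σ) (hy : |y| ≤ K₂ * (s * σ * A ^ i))
    (e : A ^ i * lam * T = u ^ i * (lam - z) + y + v ^ i * z) : |T| ≤ 2 * K₁ + K₂ + 1 := by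
  have hW : 1 ≤ w ^ D := one_le_pow₀ hw
  have hs1 : 1 ≤ s := hW.trans hs
  have hp : 0 < s * σ * A ^ i := by positivity
  refine le_of_mul_le_mul_right ?_ hp
  have e1 : |T| * (s * σ * A ^ i) = |A ^ i * lam * T| := by
    rw [abs_mul, abs_mul, hl, abs_of_pos (by positivity : 0 < A ^ i)]; ring
  rw [e1, e]
  have h1 : |u ^ i * (lam - z)| ≤ K₁ * (s * σ * A ^ i) := by
    rw [abs_mul, abs_pow]
    have h2 : |u| ^ i ≤ s * A ^ i := by
      refine (pow_le_pow_left₀ (abs_nonneg u) hu i).trans ?_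
      rw [mul_pow]
      exact mul_le_mul_of_nonneg_right ((pow_le_pow_right₀ hw hiD).trans hs) (by positivity)
    calc |u| ^ i * |lam - z| ≤ s * A ^ i * (K₁ * σ) :=
          mul_le_mul h2 hz (abs_nonneg _) (by positivity)
      _ = K₁ * (s * σ * A ^ i) := by ring
  have h2 : |v ^ i * z| ≤ (K₁ + 1) * (s * σ * A ^ i) := by
    rw [abs_mul, abs_pow]
    have h3 : |z| ≤ (K₁ + 1) * (s * σ) := by
      have h4 : |z| ≤ |lam| + |lam - z| := by
        have := abs_sub lam (lam - z)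
        simpa using this
      have h5 : K₁ * σ ≤ K₁ * (s * σ) := mul_le_mul_of_nonneg_left (by nlinarith) hK₁
      rw [hl] at h4
      nlinarith
    calc |v| ^ i * |z| ≤ A ^ i * ((K₁ + 1) * (s * σ)) :=
          mul_le_mul (pow_le_pow_left₀ (abs_nonneg v) hv i) h3 (abs_nonneg _) (by positivity)
      _ = (K₁ + 1) * (s * σ * A ^ i) := by ring
  have h3 := abs_add_three (u ^ i * (lam - z)) y (v ^ i * z)
  nlinarith

theorem size (P : V d) (r m k D : ℕ) (H c w A σ s lam C : ℝ) (hm : m + 2 ≤ k) (hk : k ≤ D)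
    (hw : 1 ≤ w) (hA : 0 < A) (hσ : 0 < σ) (hs : w ^ D ≤ s) (hl : |lam| = s * σ) (hC : 0 ≤ C)
    (h1 : pn c (w * A) (σ / w ^ D) P ≤ C * (σ / w ^ D) * (w * A) ^ (m + 1))
    (h2 : w ^ (3 * D) * bx r H P ≤ C * σ * A ^ (m + 1)) :
    gn r H c (w * A) (σ / w ^ D)
      ((w ^ (k - 1)) • ((((m : ℝ) + 2) * lam * A ^ (m + 1))⁻¹ • P)) ≤ 2 * C := by
  have hw0 : 0 < w := by linarith
  have hW : 1 ≤ w ^ D := one_le_pow₀ hw
  have hs1 : 1 ≤ s := hW.trans hs
  have hm0 : (0 : ℝ) ≤ m := Nat.cast_nonneg m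
  rw [map_smul_eq_mul, map_smul_eq_mul, Real.norm_eq_abs, Real.norm_eq_abs, abs_inv, abs_mul,
    abs_mul, hl, abs_of_pos (by positivity : 0 < w ^ (k - 1)),
    abs_of_pos (by positivity : 0 < A ^ (m + 1)), abs_of_pos (by positivity : (0 : ℝ) < m + 2),
    gn_apply, ← div_eq_inv_mul, ← mul_div_assoc, div_le_iff₀ (by positivity)]
  have a1 : w ^ (k - 1) ≤ w ^ D := pow_le_pow_right₀ hw (by omega)
  have a2 : w ^ (m + 1) ≤ s := (pow_le_pow_right₀ hw (by omega)).trans hs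
  have a3 : w ^ (k - 1) ≤ w ^ (3 * D) := pow_le_pow_right₀ hw (by omega)
  have b1 : w ^ (k - 1) * pn c (w * A) (σ / w ^ D) P ≤ C * (s * σ * A ^ (m + 1)) := by
    calc w ^ (k - 1) * pn c (w * A) (σ / w ^ D) P
        ≤ w ^ D * (C * (σ / w ^ D) * (w * A) ^ (m + 1)) :=
          mul_le_mul a1 h1 (apply_nonneg _ _) (by positivity)
      _ = C * σ * A ^ (m + 1) * w ^ (m + 1) := by rw [mul_pow]; field_simp
      _ ≤ C * σ * A ^ (m + 1) * s := mul_le_mul_of_nonneg_left a2 (by positivity)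
      _ = C * (s * σ * A ^ (m + 1)) := by ring
  have b2 : w ^ (k - 1) * bx r H P ≤ C * (s * σ * A ^ (m + 1)) := by
    calc w ^ (k - 1) * bx r H P ≤ w ^ (3 * D) * bx r H P :=
          mul_le_mul_of_nonneg_right a3 (apply_nonneg _ _)
      _ ≤ C * σ * A ^ (m + 1) * 1 := by rw [mul_one]; exact h2
      _ ≤ C * σ * A ^ (m + 1) * s := mul_le_mul_of_nonneg_left hs1 (by positivity)
      _ = C * (s * σ * A ^ (m + 1)) := by ring
  have b3 : 0 ≤ C * (s * σ * A ^ (m + 1)) := by positivity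
  have b4 : 2 * C * (((m : ℝ) + 2) * (s * σ) * A ^ (m + 1)) =
      (2 * m + 4) * (C * (s * σ * A ^ (m + 1))) := by ring
  rw [b4, mul_add]
  nlinarith

end CG

open CG in
theorem blk_CG (h0 : St_GE0) (h2 : St_GE2) : St_CG := by
  intro d r D k μ C₀ hk2 hkD hDk hrD hDd hC₀
  obtain ⟨C, hC, hΨ⟩ := h2 d k r C₀ (by omega) (by omega) (by omega) hC₀
  obtain ⟨C', hC', hΦ⟩ := h2 d (D - 1) r C₀ (by omega) (by omega) (by omega) hC₀
  set K₁ : ℝ := μ + C₀ * ((d + 1) * (C + C')) with hK₁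
  set K₂ : ℝ := C₀ * ((d + 1) * ((d * 2 ^ d + 1) * (2 ^ d + C))) with hK₂
  have hC0 : 0 ≤ C := by linarith
  have hC0' : 0 ≤ C' := by linarith
  have hC₀0 : 0 ≤ C₀ := by linarith
  have hK₁0 : 0 ≤ K₁ := by positivity
  have hK₂0 : 0 ≤ K₂ := by positivity
  set lam : ℕ := ⌈2 * C + (2 * K₁ + K₂ + 1)⌉₊ with hlam
  have hlamle : 2 * C + (2 * K₁ + K₂ + 1) ≤ lam := Nat.le_ceil _
  have hlam1 : (1 : ℝ) ≤ lam := by linarith
  refine ⟨lam, by exact_mod_cast hlam1, ?_⟩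
  intro N cT S c A σ M w s H Φ Ψ hσ hM hw hH jΦ jΨ hcT hcS hMA hN hs tΨ tΦ
  have hσ' : (1 : ℝ) ≤ σ := by exact_mod_cast hσ
  have hM' : (1 : ℝ) ≤ M := by exact_mod_cast hM
  have hw' : (1 : ℝ) ≤ w := by exact_mod_cast hw
  have hMA' : (M : ℝ) * (M * σ) ≤ A := by exact_mod_cast hMA
  have hN' : (M : ℝ) * w ^ D * S ≤ N := by exact_mod_cast hN
  have hs' : (w : ℝ) ^ D ≤ |(s : ℝ)| := by exact_mod_cast hs
  have hcT' : (cT : ℝ) ≤ c := by exact_mod_cast hcT
  have hcS' : (c : ℝ) + w * A ≤ cT + S := by exact_mod_cast hcS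
  have hσ0 : (0 : ℝ) < σ := by linarith
  have hMσ : (1 : ℝ) ≤ M * σ := one_le_mul_of_one_le_of_one_le hM' hσ'
  have hMσA : (M : ℝ) * σ ≤ A := le_trans (by nlinarith) hMA'
  have hA1 : (1 : ℝ) ≤ A := hMσ.trans hMσA
  have hA0 : (0 : ℝ) < A := by linarith
  have hW : (1 : ℝ) ≤ w ^ D := one_le_pow₀ hw'
  have hAB : (A : ℝ) ≤ w * A := by nlinarith
  have hBS : (w : ℝ) * A ≤ S := by linarith
  have hS0 : (0 : ℝ) < S := by linarith
  have hMS : (M : ℝ) * S ≤ N := by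
    refine le_trans ?_ hN'
    have : (0 : ℝ) < M * S := by positivity
    nlinarith
  have hSN : (S : ℝ) ≤ N := le_trans (by nlinarith) hMS
  have hN1 : (1 : ℝ) ≤ N := by linarith
  have hN0 : (0 : ℝ) < N := by linarith
  have hs0 : (s : ℝ) ≠ 0 := fun h => by rw [h, abs_zero] at hs'; linarith
  have hl : |(s : ℝ) * σ| = |(s : ℝ)| * σ := by rw [abs_mul, abs_of_pos hσ0]
  have hl0 : (s : ℝ) * σ ≠ 0 := mul_ne_zero hs0 hσ0.ne'
  have hbx : ∀ m, m + 1 ≤ k → (w : ℝ) ^ (3 * D) * bx r H (Ψ (m + 1)) ≤ C * σ * A ^ m :=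
    fun m hm => by
      have := (hΨ N c Ψ (m + 1) hN0 jΨ (by omega) hm).2.1 (H * w ^ (3 * D)) σ A (by positivity) hA0
        (by linarith) hN1 tΨ
      rwa [bx_scale r H _ (by positivity), Nat.add_sub_cancel] at this
  refine ⟨fun m => ps Ψ (s * σ) A m.val, fun m => ?_, fun m => ?_, ?_⟩
  · refine h0.isQ_smul d _ _ ⟨(((m.val : ℚ) + 2) * (s * σ) * A ^ (m.val + 1))⁻¹, ?_⟩ (jΨ.rat _)
    push_cast; rfl
  · have hm : m.val + 2 ≤ k := by have := m.isLt; omega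
    have := size (Ψ (m.val + 2)) r m.val k D H c w A σ |(s : ℝ)| (s * σ) C hm hkD hw' hA0 hσ0 hs'
      hl hC0 ((hΨ N c Ψ (m.val + 2) hN0 jΨ (by omega) hm).1 (w * A) (σ / w ^ D) (by positivity)
        (by linarith) (by positivity)) (hbx (m.val + 1) hm)
    rw [Nat.cast_mul]
    exact this.trans (by linarith)
  · intro j c' hj hc1 hc2 ξ hξ i hi1 hik
    obtain ⟨hB, hrad⟩ := hξ
    have hj' : (j : ℝ) + 1 ≤ w := by exact_mod_cast hj
    have hj0 : (0 : ℝ) ≤ j := Nat.cast_nonneg j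
    have hc1' : (c : ℝ) + j * A ≤ c' := by exact_mod_cast hc1
    have hc2' : (c' : ℝ) + M * σ ≤ c + j * A + A := by exact_mod_cast hc2
    have hjA : (0 : ℝ) ≤ j * A := by positivity
    have hjw : (j : ℝ) * A + A ≤ w * A := by nlinarith
    have hx : |(c' : ℝ) - c| ≤ w * A := abs_le.mpr ⟨by linarith, by linarith⟩
    have hy : |(c' : ℝ) - cT| ≤ S := abs_le.mpr ⟨by linarith, by linarith⟩
    have hu : |-(j : ℝ) * A| ≤ w * A := abs_le.mpr ⟨by linarith, by linarith⟩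
    have hv : |(c' : ℝ) - c + -(j : ℝ) * A| ≤ A := abs_le.mpr ⟨by linarith, by linarith⟩
    have hB' : ∀ P, |dot ξ P| ≤ C₀ * gn r H (c' : ℝ) (M * σ) (M * σ) P := fun P => by
      have := hB P
      rwa [Nat.cast_mul] at this
    have hR := g_RR Ψ r i D H c' (-(j : ℝ) * A) (c' - c) w A M σ |(s : ℝ)| N C (by omega) hi1
      (by omega) hw' hA0 hM' hσ0 hMA'
      (le_trans (mul_le_mul_of_nonneg_left hBS (by positivity)) hN') hs' hC0 hu (hv.trans hAB) hx
      (fun m l hm hl1 => (hΨ N c Ψ (m + 1) hN0 jΨ (by omega) (by omega)).2.2.2 c' (w * A) l hx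
        (by linarith) hl1) fun m hm => hbx m (by omega)
    have hD : gn r H (c' : ℝ) (M * σ) (M * σ) (Ψ 1 - Φ 1) ≤ (d + 1) * (C + C') * σ := by
      have p1 := pn_diff (Ψ 1) (Φ 1) c' (c' - c) (c' - cT) S N (M * σ) σ C C' hS0 hN0
        (by positivity) (by linarith) hC0 hC0' (by nlinarith)
        (fun l hl1 => (hΨ N c Ψ 1 hN0 jΨ le_rfl (by omega)).2.2.2 c' S l (hx.trans hBS) hSN hl1)
        fun l hl1 => (hΦ N cT Φ 1 hN0 jΦ le_rfl (by omega)).2.2.2 c' S l hy hSN hl1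
      have p2 : bx r H (Φ 1) ≤ C' * σ := by
        have := (hΦ N cT Φ 1 hN0 jΦ le_rfl (by omega)).2.1 H σ S hH hS0 hSN hN1 tΦ
        simpa using this
      have p3 : bx r H (Ψ 1) ≤ C * σ := by
        have q1 := hbx 0 (by omega)
        have q2 : (1 : ℝ) ≤ w ^ (3 * D) := one_le_pow₀ hw'
        have q3 := apply_nonneg (bx (d := d) r H) (Ψ (0 + 1))
        rw [pow_zero, mul_one] at q1
        exact le_trans (le_mul_of_one_le_left q3 q2) q1
      have p4 := map_sub_le_add (bx (d := d) r H) (Ψ 1) (Φ 1)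
      rw [gn_apply]
      nlinarith
    have hz : |(s : ℝ) * σ - dot ξ (Ψ 1)| ≤ K₁ * σ := by
      have q1 : |dot ξ (Φ 1) - s * σ| ≤ μ * σ := by
        have q2 : |dot ξ ((σ : ℝ)⁻¹ • Φ 1) - s| ≤ μ := hrad
        rw [h0.dot_smul] at q2
        have q3 : dot ξ (Φ 1) - s * σ = ((σ : ℝ)⁻¹ * dot ξ (Φ 1) - s) * σ := by field_simp
        rw [q3, abs_mul, abs_of_pos hσ0]
        exact mul_le_mul_of_nonneg_right q2 hσ0.le
      have q4 := (hB' _).trans (mul_le_mul_of_nonneg_left hD hC₀0)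
      rw [← dotL_apply, map_sub, dotL_apply, dotL_apply] at q4
      have q5 := abs_le.mp q1
      have q6 := abs_le.mp q4
      have q7 : K₁ * σ = μ * σ + C₀ * ((d + 1) * (C + C') * σ) := by rw [hK₁]; ring
      rw [q7]
      exact abs_le.mpr ⟨by linarith, by linarith⟩
    have hfin := final _ A (s * σ) σ |(s : ℝ)| w (-(j : ℝ) * A) (c' - c + -(j : ℝ) * A)
      (dot ξ (Ψ 1)) _ K₁ K₂ i D (by omega) hA0 hσ0 hw' hs' hl hu hv hK₁0 hz
      (((hB' _).trans (mul_le_mul_of_nonneg_left hR hC₀0)).trans (le_of_eq (by rw [hK₂]; ring)))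
      (ident ξ Ψ (k - 1) i (s * σ) A j _ hl0 hA0.ne' hik)
    rw [Int.cast_natCast]
    refine hfin.trans (le_trans (by linarith) (le_self_pow₀ hlam1 (by omega)))

end Pool.Agent.Lib.SC
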