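import Pool.Agent.Lib.SC.Blue

/-! One link of the chain of truncated square functions. -/

namespace Pool.Agent.Lib.SC

open MeasureTheory Finset Pool.Agent.Lib.WC

namespace CH

theorem sum_blocks (F : ℕ → ℝ) (K M : ℕ) :
    ∑ b ∈ range K, ∑ b' ∈ range M, F (b * M + b') = ∑ i ∈ range (K * M), F i := by
  induction K with
  | zero => simp
  | succ n ih => rw [sum_range_succ, ih, Nat.succ_mul, sum_range_add]

theorem split (F : ℤ → ℝ) (n n' s₁ : ℕ) (y : ℝ) (hn : n ≤ n') (h0 : ∀ s, 0 ≤ F s)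
    (h : ∀ s, F s ≤ y) :
    ∑ s ∈ Icc (-(n : ℤ)) n, F s ≤ (2 * s₁ + 1) * y +
      ∑ s ∈ (Icc (-(n' : ℤ)) n').filter (fun s => (s₁ : ℤ) < |s|), F s := by
  rw [← sum_filter_add_sum_filter_not (Icc (-(n : ℤ)) n) (fun s => (s₁ : ℤ) < |s|), add_comm]
  refine add_le_add ?_ (sum_le_sum_of_subset_of_nonneg ?_ fun s _ _ => h0 s)
  · have hs : (Icc (-(n : ℤ)) n).filter (fun s => ¬ (s₁ : ℤ) < |s|) ⊆ Icc (-(s₁ : ℤ)) s₁ := by
      intro s hs
      exact mem_Icc.2 (abs_le.1 (not_lt.1 (mem_filter.1 hs).2))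
    calc _ ≤ ∑ s ∈ Icc (-(s₁ : ℤ)) s₁, F s :=
          sum_le_sum_of_subset_of_nonneg hs fun s _ _ => h0 s
      _ ≤ ∑ _s ∈ Icc (-(s₁ : ℤ)) s₁, y := sum_le_sum fun s _ => h s
      _ = _ := by
          rw [sum_const, Int.card_Icc, nsmul_eq_mul]
          have : ((s₁ : ℤ) + 1 - -(s₁ : ℤ)).toNat = 2 * s₁ + 1 := by omega
          rw [this]
          push_cast
          ring
  · refine filter_subset_filter _ (Icc_subset_Icc ?_ ?_) <;> omega

end CH

theorem blk_CH (hB : Bas) (hR : St_SLR) (hP : St_PT) : St_CH := by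
  intro L B μ m C₀ hB1 hμ hm hC₀
  refine ⟨⌈2 * C₀ ^ (L * B + 1)⌉₊ + ⌈C₀ ^ 2⌉₊ + μ, by omega, ?_⟩
  intro d K M s₁ t₀ φ G g g' Kk x hM hφ hg hg1 hg' hdbl hK hGφ hlow
  set C : ℕ := ⌈2 * C₀ ^ (L * B + 1)⌉₊ + ⌈C₀ ^ 2⌉₊ + μ with hC
  have hC₀0 : 0 ≤ C₀ := by linarith
  have hCge : 2 * C₀ ^ (L * B + 1) ≤ C := by
    refine (Nat.le_ceil _).trans ?_
    exact_mod_cast (by omega : ⌈2 * C₀ ^ (L * B + 1)⌉₊ ≤ C)
  have : IsProbabilityMeasure (bt φ μ) := hB.sl0.probK d 1 (2 * μ) _ (by omega)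
  set v : ℕ → ℕ → TT d → ℝ := fun t b y => Ph B (2 ^ t) (g b y) with hv
  have vc : ∀ t b, Continuous (v t b) := fun t b => (hP.cont B _).comp (hg b)
  have v0 : ∀ t b y, 0 ≤ v t b y := fun t b y =>
    (hP.pos B _ _ (by positivity) (by linarith [hg1 b y])).le
  have uc : ∀ t b, Continuous (cv (Kk b) (v t b)) := fun t b => by
    have := (hK b).prob
    exact hB.cv1.cont d _ _ (vc t b)
  have u0 : ∀ t b y, 0 ≤ cv (Kk b) (v t b) y := fun t b y => hB.cv1.nonneg d _ _ y (v0 t b)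
  have vu : ∀ t b, v t b x ≤ C₀ ^ (L * B) * cv (Kk b) (v t b) x := by
    intro t b
    have := (hK b).prob
    have h1 : Dbl (v t b) (G b) (L * B) 1 := by
      intro y P
      have a0 : 1 ≤ (1 + G b P) ^ L := one_le_pow₀ (by linarith [apply_nonneg (G b) P])
      have := hP.dbl B (2 ^ t) (g b y) (g b (y + pj P)) ((1 + G b P) ^ L) (by positivity)
        (by linarith [hg1 b y]) (by linarith [hg1 b (y + pj P)]) a0
        (by simpa using hdbl b y P)
      rw [one_mul, pow_mul]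
      exact this
    have h2 := hB.cv2.mom_le d (Kk b) (G b) (G b) m 1 C₀ 1 le_rfl (fun P => by simp) hm (hK b).mom
    have := hB.cv2.cmp_lo d (Kk b) (v t b) (G b) (L * B) 1 _ x (vc t b) (v0 t b) zero_le_one h1 h2
    simpa using this
  set P' := Ps g' (K * M) (2 ^ t₀) x with hP'
  have hP'0 : 0 ≤ P' := sum_nonneg fun b _ => le_min (hg' b x) (by positivity)
  have key : ∀ t ∈ range (t₀ + 1), ∑ b ∈ range K, cv (Kk b) (v t b) x ≤
      (2 * s₁ + 1) * (C₀ * P') +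
        ∑ s ∈ (Icc (-((C * M : ℕ) : ℤ)) ((C * M : ℕ) : ℤ)).filter (fun s => (s₁ : ℤ) < |s|),
          ‖hi φ μ s Kk (v t) (range K) x‖ := by
    intro t ht
    set U : TT d → ℂ := fun y => ∑ b ∈ range K, ((cv (Kk b) (v t b) y : ℝ) : ℂ) with hU
    have hUn : ∀ y, ‖U y‖ = ∑ b ∈ range K, cv (Kk b) (v t b) y := by
      intro y
      rw [hU]
      simp only
      rw [← Complex.ofReal_sum, Complex.norm_real, Real.norm_eq_abs,
        abs_of_nonneg (sum_nonneg fun b _ => u0 t b y)]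
    have hUm : U ∈ Sp {ξ | |dot ξ φ| ≤ ((⌈C₀ ^ 2⌉₊ * M : ℕ) : ℝ)} := by
      have e : U = ∑ b ∈ range K, fun y => ((cv (Kk b) (v t b) y : ℝ) : ℂ) := by
        funext y
        simp [hU]
      rw [e]
      refine Submodule.sum_mem _ fun b hb => Sp_mono ?_ ((hK b).band _ (vc t b))
      intro ξ hξ
      have a1 := hξ φ
      have a2 := hGφ b (mem_range.1 hb)
      have a3 : C₀ ^ 2 ≤ ⌈C₀ ^ 2⌉₊ := Nat.le_ceil _
      show |dot ξ φ| ≤ _
      push_cast
      calc |dot ξ φ| ≤ C₀ * (C₀ * M) := a1.trans (by gcongr)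
        _ = C₀ ^ 2 * M := by ring
        _ ≤ _ := by gcongr
    have hlo : ∀ s, ‖rad φ μ s U x‖ ≤ C₀ * P' := by
      intro s
      refine (hR.le d μ φ s U x hμ hφ (Sp_cont hUm)).trans ?_
      simp only [hUn]
      rw [hB.cv1.sum d _ ℕ (range K) _ x fun b _ => uc t b, hP', Ps, ← CH.sum_blocks, mul_sum]
      refine sum_le_sum fun b hb => le_trans ?_ (hlow b (mem_range.1 hb))
      have := (hK b).prob
      have mc : Continuous fun y => min (g b y) (2 ^ t₀) := (hg b).min continuous_const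
      refine hB.cv1.mono d _ _ _ x (uc t b) (hB.cv1.cont d _ _ mc) fun y =>
        hB.cv1.mono d _ _ _ y (vc t b) mc fun z => ?_
      refine (hP.le B _ _ hB1 (by positivity) (by linarith [hg1 b z])).trans
        (min_le_min le_rfl (pow_le_pow_right₀ one_le_two ?_))
      have := mem_range.1 ht
      omega
    have hn : ⌈C₀ ^ 2⌉₊ * M + μ ≤ C * M := by
      have : μ ≤ μ * M := Nat.le_mul_of_pos_right _ hM
      rw [hC, add_mul, add_mul]
      omega
    rw [← hUn, hR.part d μ _ φ U x hμ hφ hUm]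
    exact (norm_sum_le _ _).trans (CH.split (fun s => ‖rad φ μ s U x‖) _ _ s₁ _ hn
      (fun _ => norm_nonneg _) hlo)
  set Hs : ℕ → ℝ := fun t =>
    ∑ s ∈ (Icc (-((C * M : ℕ) : ℤ)) ((C * M : ℕ) : ℤ)).filter (fun s => (s₁ : ℤ) < |s|),
      ‖hi φ μ s Kk (v t) (range K) x‖ with hHs
  have hH0 : 0 ≤ ∑ t ∈ range (t₀ + 1), Hs t :=
    sum_nonneg fun t _ => sum_nonneg fun s _ => norm_nonneg _
  have hp1 : 2 * C₀ ^ (L * B) ≤ C := by
    refine le_trans ?_ hCge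
    gcongr
    omega
  calc Ps g K (2 ^ t₀) x ≤ ∑ b ∈ range K, 2 * ∑ t ∈ range (t₀ + 1), v t b x :=
        sum_le_sum fun b _ => hP.sum B t₀ _ (hg1 b x)
    _ ≤ ∑ b ∈ range K, 2 * ∑ t ∈ range (t₀ + 1), C₀ ^ (L * B) * cv (Kk b) (v t b) x := by
        gcongr with b _ t _
        exact vu t b
    _ = 2 * C₀ ^ (L * B) * ∑ t ∈ range (t₀ + 1), ∑ b ∈ range K, cv (Kk b) (v t b) x := by
        rw [sum_comm, mul_sum]
        refine sum_congr rfl fun b _ => ?_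
        rw [← mul_sum, mul_assoc]
    _ ≤ 2 * C₀ ^ (L * B) * ∑ t ∈ range (t₀ + 1), ((2 * s₁ + 1) * (C₀ * P') + Hs t) := by
        gcongr with t ht
        exact key t ht
    _ = 2 * C₀ ^ (L * B + 1) * ((t₀ + 1) * (2 * s₁ + 1) * P') +
          2 * C₀ ^ (L * B) * ∑ t ∈ range (t₀ + 1), Hs t := by
        rw [sum_add_distrib, sum_const, card_range, nsmul_eq_mul]
        push_cast
        ring
    _ ≤ C * ((t₀ + 1) * (2 * s₁ + 1) * P') + C * ∑ t ∈ range (t₀ + 1), Hs t := by gcongr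
    _ = _ := by ring

end Pool.Agent.Lib.SC
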