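import Pool.Agent.Lib.SC.Blue

/-! The refined cone inequality. -/

namespace Pool.Agent.Lib.SC

open MeasureTheory Finset Pool.Agent.Lib.WC

namespace CONE

variable {d : ℕ}

theorem blocks {M : Type*} [AddCommMonoid M] (f : ℕ → M) (b w n : ℕ) :
    ∑ i ∈ range (w * n), f (b + i) = ∑ j ∈ range w, ∑ i ∈ range n, f (b + j * n + i) := by
  induction w with
  | zero => simp
  | succ w ih =>
    rw [sum_range_succ, ← ih, add_mul, one_mul, sum_range_add]
    simp only [add_assoc]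

theorem tree {E : ℕ → ℕ → ℝ} {R : ℕ → ℝ} {A Γ : ℝ} {w T K : ℕ} (hΓ : 0 ≤ Γ) (hw : 1 ≤ w)
    (base : ∀ b, b + T ≤ K → E b T ≤ A * ∑ i ∈ range T, R (b + i))
    (step : ∀ b n, T ≤ n → b + w * n ≤ K → E b (w * n) ≤ Γ * ∑ j ∈ range w, E (b + j * n) n)
    (y : ℕ) : ∀ b, b + w ^ y * T ≤ K →
      E b (w ^ y * T) ≤ A * Γ ^ y * ∑ i ∈ range (w ^ y * T), R (b + i) := by
  induction y with
  | zero => intro b hb; simpa using base b (by simpa using hb)
  | succ y ih =>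
    intro b hb
    have e : w ^ (y + 1) * T = w * (w ^ y * T) := by ring
    rw [e] at hb ⊢
    refine (step b _ (Nat.le_mul_of_pos_left _ (pow_pos hw y)) hb).trans ?_
    rw [blocks, show A * Γ ^ (y + 1) = Γ * (A * Γ ^ y) by ring, mul_assoc, mul_sum _ _ (A * Γ ^ y)]
    refine mul_le_mul_of_nonneg_left (sum_le_sum fun j hj => ih _ ?_) hΓ
    have := Nat.mul_le_mul_right (w ^ y * T) (Nat.succ_le_of_lt (mem_range.1 hj))
    rw [Nat.succ_mul] at this
    omega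

theorem dbl_sum {G : Seminorm ℝ (V d)} {m : ℕ} {K : ℝ} {I : Finset ℕ} {s : ℕ → TT d → ℝ}
    (hs : ∀ j ∈ I, Dbl (s j) G m K) : Dbl (fun x => ∑ j ∈ I, s j x) G m K := by
  intro x P
  rw [Finset.mul_sum]
  exact Finset.sum_le_sum fun j hj => hs j hj x P

theorem dbl_mono {G : Seminorm ℝ (V d)} {m : ℕ} {K K' : ℝ} {F : TT d → ℝ} (h0 : ∀ x, 0 ≤ F x)
    (hK : K ≤ K') (h : Dbl F G m K) : Dbl F G m K' := fun x P =>
  (h x P).trans (mul_le_mul_of_nonneg_right
    (mul_le_mul_of_nonneg_right hK (by have := apply_nonneg G P; positivity)) (h0 x))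

theorem absorb {A M w : ℝ} {a b C : ℕ} (hM : 1 ≤ M) (hw : 1 ≤ w) (hA : A ≤ C) (ha : a ≤ C)
    (hb : b ≤ C) (hC : 1 ≤ C) : A * M ^ a * w ^ b ≤ ((C : ℝ) * M * w) ^ C := by
  have h1 : (1 : ℝ) ≤ C := by exact_mod_cast hC
  rw [mul_pow, mul_pow]
  have h2 : A ≤ (C : ℝ) ^ C := hA.trans (le_self_pow₀ h1 (by omega))
  exact mul_le_mul (mul_le_mul h2 (pow_le_pow_right₀ hM ha) (by positivity) (by positivity))
    (pow_le_pow_right₀ hw hb) (by positivity) (by positivity)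

/-- The smoothed atoms. -/
theorem atom (hB : Bas) {L : ℕ} {C F : ℝ} {G Γ : Seminorm ℝ (V d)} {W : Measure (V d)}
    {v : TT d → ℝ} (hF : 1 ≤ F) (hC : 1 ≤ C) (hG : ∀ P, G P ≤ F * Γ P) (hW : IsW Γ (L + 1) C W)
    (hv : Continuous v) (h0 : ∀ x, 0 < v x) (hd : Dbl v G L 1) :
    Continuous (cv W v) ∧ (∀ x, 0 < cv W v x) ∧ Dbl (cv W v) Γ ((L + 3) * d) 1 ∧
      (∀ x, cv W v x ≤ F ^ L * C * v x) ∧ ∀ x, v x ≤ (F * C) ^ L * cv W v x := by
  have := hW.prob
  have h1 : ∀ x, v x ≤ (F * C) ^ L * cv W v x := fun x => by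
    simpa using hB.cv2.cmp_lo d W v G L 1 _ x hv (fun y => (h0 y).le) zero_le_one hd
      (hB.cv2.mom_le d W Γ G (L + 1) 1 C F hF hG (by omega) hW.mom)
  refine ⟨hB.cv1.cont d W v hv, fun x => ?_, hW.dbl v hv fun x => (h0 x).le, fun x => ?_, h1⟩
  · exact pos_of_mul_pos_left (((h0 x).trans_le (h1 x)).trans_eq (mul_comm _ _)) (by positivity)
  · simpa using hB.cv2.cmp_up d W v G L 1 _ x hv (fun y => (h0 y).le) zero_le_one hd
      (hB.cv2.mom_le d W Γ G (L + 1) L C F hF hG (by omega) hW.mom)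

/-- The size of one window. -/
theorem win (hB : Bas) (hR : St_SLR) {L m μ : ℕ} {C B : ℝ} {G : Seminorm ℝ (V d)}
    {K : Measure (V d)} {v : TT d → ℝ} {φ : V d} (s : ℤ) (hL : L ≤ m) (hμ : 1 ≤ μ) (hφ : IsQ φ)
    (hK : IsK G m C K) (hβ : Mom (bt φ μ) G L B) (hv : Continuous v) (h0 : ∀ x, 0 ≤ v x)
    (hd : Dbl v G L 1) (x : TT d) :
    ‖rad φ μ s (fun y => ((cv K v y : ℝ) : ℂ)) x‖ ≤ B * C * v x := by
  have := hK.prob
  have : IsProbabilityMeasure (bt φ μ) := hB.sl0.probK d 1 (2 * μ) _ (by omega)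
  have hc := hB.cv1.cont d K v hv
  have hn : ∀ y, 0 ≤ cv K v y := fun y => hB.cv1.nonneg d K v y h0
  refine (hR.le d μ φ s _ x hμ hφ (Sp_cont (hK.band v hv))).trans ?_
  have e : (fun y => ‖((cv K v y : ℝ) : ℂ)‖) = cv K v := funext fun y => by
    rw [Complex.norm_real, Real.norm_of_nonneg (hn y)]
  rw [e]
  have h1 := hB.cv2.cmp_up d (bt φ μ) (cv K v) G L 1 B x hc hn zero_le_one
    (hB.cv2.dbl_cv d K v G L 1 hv hd) hβ
  have h2 := hB.cv2.cmp_up d K v G L 1 _ x hv h0 zero_le_one hd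
    (hB.cv2.mom_le d K G G m L C 1 le_rfl (fun P => by simp) hL hK.mom)
  have h3 : 0 ≤ B := zero_le_one.trans (hB.cv2.mom_one d _ G L B hβ)
  simp only [one_mul, one_pow] at h1 h2
  rw [mul_assoc]
  exact h1.trans (mul_le_mul_of_nonneg_left h2 h3)

/-- The bottom of the tree. -/
theorem bottom {q T : ℕ} (hq : 1 ≤ q) (hT : 1 ≤ T) {A₁ A₂ : ℝ} (h1 : 0 ≤ A₁) (_h2 : 0 ≤ A₂)
    {h : ℕ → TT d → ℂ} {s v : ℕ → TT d → ℝ} {w : TT d → ℝ} (hw : Continuous w) (w0 : ∀ x, 0 ≤ w x)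
    (H : ∀ i ∈ range T, Continuous (h i) ∧ Continuous (s i) ∧ Continuous (v i) ∧ (∀ x, 0 < s i x) ∧
      (∀ x, 0 < v i x) ∧ (∀ x, ‖h i x‖ ≤ A₁ * v i x) ∧ ∀ x, v i x ≤ A₂ * s i x) :
    ∫ x, ‖∑ i ∈ range T, h i x‖ ^ (2 * q) / (∑ i ∈ range T, s i x) ^ (q - 1) * w x ≤
      A₁ ^ (2 * q) * A₂ ^ (q - 1) * (T : ℝ) ^ q * ∑ i ∈ range T, ∫ x, v i x ^ (q + 1) * w x := by
  have hne : (range T).Nonempty := nonempty_range_iff.2 (by omega)
  have sp : ∀ x, 0 < ∑ i ∈ range T, s i x := fun x => sum_pos (fun i hi => (H i hi).2.2.2.1 x) hne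
  have cv' : ∀ i ∈ range T, Continuous fun x => v i x ^ (q + 1) * w x := fun i hi =>
    ((H i hi).2.2.1.pow _).mul hw
  rw [← integral_finsetSum _ fun i hi => cint (cv' i hi), ← integral_const_mul]
  refine integral_mono (cint ?_) (cint (continuous_const.mul (continuous_finsetSum _ cv'))) fun x => ?_
  · exact (((continuous_finsetSum _ fun i hi => (H i hi).1).norm.pow _).div
      ((continuous_finsetSum _ fun i hi => (H i hi).2.1).pow _) fun x => (pow_pos (sp x) _).ne').mul hw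
  · simp only
    rw [← sum_mul, ← mul_assoc]
    refine mul_le_mul_of_nonneg_right ?_ (w0 x)
    set U := ∑ i ∈ range T, v i x with hU
    have U0 : 0 < U := sum_pos (fun i hi => (H i hi).2.2.2.2.1 x) hne
    have e1 : ‖∑ i ∈ range T, h i x‖ ≤ A₁ * U := by
      rw [hU, mul_sum]
      exact (norm_sum_le _ _).trans (sum_le_sum fun i hi => (H i hi).2.2.2.2.2.1 x)
    have e2 : U ≤ A₂ * ∑ i ∈ range T, s i x := by
      rw [hU, mul_sum]
      exact sum_le_sum fun i hi => (H i hi).2.2.2.2.2.2 x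
    have e3 : U ^ (q + 1) ≤ (T : ℝ) ^ q * ∑ i ∈ range T, v i x ^ (q + 1) := by
      simpa using pow_sum_le_card_mul_sum_pow (s := range T) (f := fun i => v i x)
        (fun i hi => ((H i hi).2.2.2.2.1 x).le) q
    rw [div_le_iff₀ (pow_pos (sp x) _)]
    have e4 : U ^ (2 * q) = U ^ (q + 1) * U ^ (q - 1) := by rw [← pow_add]; congr 1; omega
    calc _ ≤ (A₁ * U) ^ (2 * q) := pow_le_pow_left₀ (norm_nonneg _) e1 _
      _ = A₁ ^ (2 * q) * (U ^ (q + 1) * U ^ (q - 1)) := by rw [mul_pow, e4]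
      _ ≤ A₁ ^ (2 * q) * (((T : ℝ) ^ q * ∑ i ∈ range T, v i x ^ (q + 1)) *
          (A₂ * ∑ i ∈ range T, s i x) ^ (q - 1)) :=
        mul_le_mul_of_nonneg_left (mul_le_mul e3 (pow_le_pow_left₀ U0.le e2 _) (by positivity)
          ((pow_pos U0 _).le.trans e3)) (by positivity)
      _ = _ := by rw [mul_pow]; ring

end CONE

open CONE

theorem blk_CONE (hB : Bas) (SLM : St_SLM) (SLD : St_SLD) (SLR : St_SLR) (GAU : St_GAU)
    (GE1 : St_GE1) (PHI : St_PHI) (CG : St_CG) (REF : St_REF) : St_CONE := by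
  intro d r D k μ L m C₀ ε hk hkD hDk hrD hDd hLm hLμ hC₀ hε
  set q := sd (k - 1) with hq
  have hq1 : 1 ≤ q := one_le_sd (by omega)
  have hqR : (0 : ℝ) < q := by exact_mod_cast hq1
  set m₀ := (L + 3) * d with hm₀
  have hm₀2 : 2 * d ≤ m₀ := Nat.mul_le_mul_right _ (by omega)
  obtain ⟨Cj, hCj, GE1⟩ := GE1 d k r (by omega) (by omega)
  obtain ⟨Cp, hCp, PHI⟩ := PHI d r (D - 1) 0 C₀ (by omega) (by omega) (by omega) hC₀
  obtain ⟨lam, hlam, CG⟩ := CG d r D k μ (max C₀ Cj) hk hkD hDk hrD hDd (hC₀.trans (le_max_left _ _))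
  obtain ⟨Cg, hCg, GAU⟩ := GAU d (L + 1)
  obtain ⟨Cs, hCs, SL1⟩ := SLM 1 (2 * μ) L
  obtain ⟨Ck, hCk, SL2⟩ := SLM (k - 1) (2 * q * (m₀ + 1)) (m₀ * q)
  obtain ⟨Cr, hCr, REF⟩ := REF q m₀ ((2 ^ d) ^ m₀) (Ck * lam ^ (m₀ * q)) hq1 (by omega)
    (one_le_pow₀ (one_le_pow₀ one_le_two))
  obtain ⟨Cd, hCd, hdec⟩ := stDEC (k - 1) (by omega) (ε / q) (div_pos hε hqR)
  set lam' := lam + 2 * (m₀ + 1) with hlam'
  set A : ℝ := (Cs * Cp ^ L * C₀) ^ (2 * q) * (2 ^ d * Cg) ^ (L * (q - 1)) + (2 ^ d) ^ L * Cg +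
    Cr * (lam' * Cd) ^ q with hA
  have hA1 : (0 : ℝ) ≤ (Cs * Cp ^ L * C₀) ^ (2 * q) * (2 ^ d * Cg) ^ (L * (q - 1)) := by positivity
  have hA2 : (0 : ℝ) ≤ (2 ^ d) ^ L * Cg := by positivity
  have hA3 : (0 : ℝ) ≤ Cr * (lam' * Cd) ^ q := by positivity
  set C : ℕ := ⌈A⌉₊ + L * (2 * q) + L * (q - 1) + D * (L * (q - 1)) + L + D * L + 1 with hC
  have hAC : A ≤ C := (Nat.le_ceil A).trans (by exact_mod_cast (by omega : ⌈A⌉₊ ≤ C))
  refine ⟨C, by omega, ?_⟩
  intro N c σ M T w z s H Φ v Kk hσ hM hMT hw hH hΦ hNc hc2 hMN hs hTh hTh' vc v0 vd vK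
  set τ := M * σ with hτ
  set Kt := w ^ z * T with hKt
  set φ : V d := (σ : ℝ)⁻¹ • Φ 1 with hφ
  have hτ1 : 1 ≤ τ := Nat.mul_pos hM hσ
  have hT1 : 1 ≤ T := hM.trans hMT
  have hKt1 : 1 ≤ Kt := Nat.mul_pos (pow_pos hw z) hT1
  have hwD : 1 ≤ w ^ D := Nat.one_le_pow D w hw
  have hMS : M * (Kt * τ) ≤ N :=
    (Nat.mul_le_mul_right _ (Nat.le_mul_of_pos_right M hwD)).trans hMN
  have hN1 : 1 ≤ N := (Nat.mul_pos hM (Nat.mul_pos hKt1 hτ1)).trans_le hMS
  have hσR : (0 : ℝ) < σ := by exact_mod_cast hσ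
  have hτR : (0 : ℝ) < τ := by exact_mod_cast hτ1
  have hMR : (1 : ℝ) ≤ M := by exact_mod_cast hM
  have hwR : (1 : ℝ) ≤ w := by exact_mod_cast hw
  have hρ : (0 : ℝ) < σ / w ^ D := by positivity
  have hphi : ∀ b, b < Kt → IsQ φ ∧
      gn r H ((c + b * τ : ℕ) : ℝ) (τ : ℝ) (τ : ℝ) φ ≤ Cp * M := fun b hb => by
    have := PHI N c (Kt * τ) σ M (c + b * τ) H Φ hσ hM hH.le hΦ hMS (by omega) (by
      have := Nat.mul_le_mul_right τ (Nat.succ_le_of_lt hb)
      rw [Nat.succ_mul] at this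
      omega) hTh'
    exact ⟨this.1, this.2.2.1⟩
  have hφQ : IsQ φ := (hphi 0 hKt1).1
  have hWex : ∀ b : ℕ, ∃ W : Measure (V d),
      IsW (gn r H ((c + b * τ : ℕ) : ℝ) (τ : ℝ) ((σ : ℝ) / w ^ D)) (L + 1) Cg W :=
    fun b => (GAU _ fun P => hB.ge0.defn d r H _ _ _ P hτR.ne' hρ.ne').1
  choose W hW using hWex
  set F : ℝ := 2 ^ d * (M * w ^ D) with hF
  have hF1 : (1 : ℝ) ≤ M * w ^ D := one_le_mul_of_one_le_of_one_le hMR (one_le_pow₀ hwR)
  have hat := fun b => atom hB (F := F) (one_le_mul_of_one_le_of_one_le (one_le_pow₀ one_le_two) hF1)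
    hCg (fun P => hB.ge0.shift d r H _ _ τ τ ((σ : ℝ) / w ^ D) τ (M * w ^ D) P (by simp) hτR.le le_rfl
      hρ.le hτR.le hF1 (le_of_eq (by rw [hτ]; push_cast; field_simp))) (hW b) (vc b) (v0 b) (vd b)
  set vt : ℕ → TT d → ℝ := fun b => cv (W b) (v b) with hvt
  set hb : ℕ → TT d → ℂ := fun b => rad φ μ s fun y => ((cv (Kk b) (v b) y : ℝ) : ℂ) with hhb
  have hmem : ∀ b, hb b ∈ Sp (Body (gn r H ((c + b * τ : ℕ) : ℝ) (τ : ℝ) (τ : ℝ)) (max C₀ Cj) ∩
      {ξ | |dot ξ φ - s| ≤ μ}) := fun b =>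
    SLR.mem d μ φ s _ _ (by omega) hφQ
      ((hB.cv2.isK_mono d _ m C₀ _ _ (le_max_left _ _) (vK b)).band _ (vc b))
  have hCpM : (1 : ℝ) ≤ Cp * M := one_le_mul_of_one_le_of_one_le (by exact_mod_cast hCp) hMR
  have hwin : ∀ b, b < Kt → ∀ x, ‖hb b x‖ ≤ Cs * (Cp * M) ^ L * C₀ * v b x := fun b hb' x =>
    win hB SLR s hLm (by omega) hφQ (vK b)
      (((SL1 d (fun _ => φ) _ (Cp * M) hCpM fun _ => (hphi b hb').2).1 hLμ).1) (vc b)
      (fun y => (v0 b y).le) (vd b) x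
  have wc := hB.wr.cont d r H hH
  have w0 : ∀ x : TT d, 0 ≤ Wr r H x := fun x => (hB.wr.pos d r H x hH).le
  have key := tree (E := fun b n => ∫ x, ‖∑ i ∈ range n, hb (b + i) x‖ ^ (2 * q) /
      (∑ i ∈ range n, vt (b + i) x) ^ (q - 1) * Wr r H x)
    (R := fun b => ∫ x, v b x ^ (q + 1) * Wr r H x)
    (A := (Cs * (Cp * M) ^ L * C₀) ^ (2 * q) * ((F * Cg) ^ L) ^ (q - 1) * (T : ℝ) ^ q)
    (Γ := Cr * (lam' * (Cd * (w : ℝ) ^ (ε / q))) ^ q) (w := w) (T := T) (K := Kt) (by positivity) hw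
    (fun b hb' => bottom hq1 hT1 (by positivity) (by positivity) (h := fun i => hb (b + i))
      (s := fun i => vt (b + i)) (v := fun i => v (b + i)) wc w0 fun i hi =>
        ⟨Sp_cont (hmem _), (hat _).1, vc _, (hat _).2.1, v0 _,
          hwin _ (by have := mem_range.1 hi; omega), (hat _).2.2.2.2⟩)
    (fun b n hn hbn => by
      have hn1 : 1 ≤ n := hT1.trans hn
      have hle : b * τ + w * (n * τ) ≤ Kt * τ := by
        have := Nat.mul_le_mul_right τ hbn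
        rwa [add_mul, mul_assoc] at this
      obtain ⟨Ψ, hΨ⟩ := GE1 N (c + b * τ) hN1 (by omega) (by omega)
      obtain ⟨ψ, ψQ, ψG, ψC⟩ := CG N c (Kt * τ) (c + b * τ) (n * τ) σ M w s H Φ Ψ hσ hM hw hH.le
        (hB.ge0.jet_mono d _ r _ _ _ _ Φ (Nat.cast_nonneg _) (le_max_left _ _) hΦ)
        (hB.ge0.jet_mono d _ r _ _ _ _ Ψ (Nat.cast_nonneg _) (le_max_right _ _) hΨ) (by omega)
        (by omega) (Nat.mul_le_mul_right _ (hMT.trans hn)) hMN hs
        (hB.ge0.th_mono d r k _ _ _ _ _ _ _ (Nat.cast_nonneg _) le_rfl hσR.le le_rfl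
          (Nat.cast_nonneg _) (by exact_mod_cast Nat.mul_le_mul_right τ hn) hTh) hTh'
      set G : Seminorm ℝ (V d) :=
        gn r H ((c + b * τ : ℕ) : ℝ) ((w * (n * τ) : ℕ) : ℝ) ((σ : ℝ) / w ^ D) with hG
      have hsub : ∀ j ∈ range w, ∀ i ∈ range n, j * (n * τ) ≤ (j * n + i) * τ ∧
          (j * n + i) * τ + τ ≤ j * (n * τ) + n * τ ∧ j * (n * τ) + n * τ ≤ w * (n * τ) := by
        intro j hj i hi
        have e1 := Nat.mul_le_mul_right τ (Nat.succ_le_of_lt (mem_range.1 hi))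
        have e2 := Nat.mul_le_mul_right (n * τ) (Nat.succ_le_of_lt (mem_range.1 hj))
        rw [Nat.succ_mul] at e1 e2
        rw [add_mul, mul_assoc]
        omega
      have hS : ∀ j ∈ range w, (fun x => ∑ i ∈ range n, hb (b + j * n + i) x) ∈
          Sp (Cn ψ lam (j : ℤ)) := fun j hj => by
        rw [← Finset.sum_fn]
        refine Submodule.sum_mem _ fun i hi => Sp_mono (ψC j _ (mem_range.1 hj) ?_ ?_) (hmem _)
        · have := hsub j hj i hi
          rw [add_assoc b, add_mul b]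
          omega
        · have := hsub j hj i hi
          rw [add_assoc b, add_mul b]
          omega
      have : IsProbabilityMeasure (sK (fun i => ((w : ℝ) ^ (k - 1)) • ψ i) (2 * q * (m₀ + 1))) :=
        hB.sl0.probK d _ _ _ (by nlinarith)
      have h := REF d (sK (fun i => ((w : ℝ) ^ (k - 1)) • ψ i) (2 * q * (m₀ + 1))) G
        (lam' * (Cd * (w : ℝ) ^ (ε / q))) (range w)
        (fun j x => ∑ i ∈ range n, hb (b + j * n + i) x)
        (fun j x => ∑ i ∈ range n, vt (b + j * n + i) x) (Wr r H) (by positivity)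
        (nonempty_range_iff.2 (by omega))
        ((SL2 d _ G lam (by exact_mod_cast hlam) ψG).1 (by nlinarith)).1 wc w0
        (dbl_mono w0 (by simpa using one_le_pow₀ (one_le_pow₀ one_le_two))
          (hB.cv2.dbl_le d _ _ G (2 * d) m₀ 1 1 le_rfl zero_le_one
            (fun P => by rw [one_mul]; exact hB.ge0.bx_le d r H _ _ _ P) hm₀2 w0 (hB.wr.dbl d r H hH)))
        (fun j hj => ⟨Sp_cont (hS j hj), continuous_finsetSum _ fun i _ => (hat _).1,
          fun x => sum_pos (fun i _ => (hat _).2.1 x) (nonempty_range_iff.2 (by omega)),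
          dbl_sum fun i hi => by
            have e := hsub j hj i hi
            have := hB.cv2.dbl_le d _ _ G m₀ m₀ 1 (2 ^ d) (one_le_pow₀ one_le_two) zero_le_one
              (fun P => by
                have := hB.ge0.shift d r H ((c + b * τ : ℕ) : ℝ) ((c + (b + j * n + i) * τ : ℕ) : ℝ)
                  ((w * (n * τ) : ℕ) : ℝ) τ ((σ : ℝ) / w ^ D) ((σ : ℝ) / w ^ D) 1 P (by
                    rw [show ((c + (b + j * n + i) * τ : ℕ) : ℝ) - ((c + b * τ : ℕ) : ℝ) =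
                      (((j * n + i) * τ : ℕ) : ℝ) by push_cast; ring, abs_of_nonneg (Nat.cast_nonneg _)]
                    exact_mod_cast (by omega : (j * n + i) * τ ≤ w * (n * τ))) hτR.le
                  (by exact_mod_cast (by omega : τ ≤ w * (n * τ))) hρ.le hρ.le le_rfl (by rw [one_mul])
                rwa [mul_one] at this) le_rfl (fun x => ((hat _).2.1 x).le) (hat (b + j * n + i)).2.2.1
            rwa [one_mul] at this⟩)
        (SLD d (k - 1) (m₀ + 1) lam w _ ψ (range w) _ (by omega) (by omega) hw ψQ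
          (stC1.rad (k - 1) lam' w _ (by omega) (by omega) (by positivity) (hdec w hw))
          Subset.rfl hS)
      have e1 : ∀ x, ∑ i ∈ range (w * n), hb (b + i) x =
          ∑ j ∈ range w, ∑ i ∈ range n, hb (b + j * n + i) x := fun x => blocks (fun i => hb i x) b w n
      have e2 : ∀ x, ∑ i ∈ range (w * n), vt (b + i) x =
          ∑ j ∈ range w, ∑ i ∈ range n, vt (b + j * n + i) x := fun x => blocks (fun i => vt i x) b w n
      simp only [e1, e2]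
      exact h) z 0 (by omega)
  simp only [zero_add] at key
  refine ⟨fun x => ∑ i ∈ range Kt, vt i x, continuous_finsetSum _ fun i _ => (hat _).1,
    fun x => sum_pos (fun i _ => (hat _).2.1 x) (nonempty_range_iff.2 (by omega)), fun x => ?_, ?_⟩
  · have e : F ^ L * Cg ≤ ((C : ℝ) * M * w) ^ C := by
      refine le_trans (le_of_eq ?_) (absorb (A := (2 ^ d) ^ L * Cg) (a := L) (b := D * L) hMR hwR
        (by linarith) (by omega) (by omega) (by omega))
      rw [hF, mul_pow, mul_pow, ← pow_mul (w : ℝ)]; ring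
    rw [mul_sum]
    exact sum_le_sum fun i _ => ((hat i).2.2.2.1 x).trans (mul_le_mul_of_nonneg_right e (v0 i x).le)
  · have e : ∀ x, hi φ μ s Kk v (range Kt) x = ∑ i ∈ range Kt, hb i x := fun x =>
      SLR.sum d μ φ s ℕ (range Kt) (fun b y => ((cv (Kk b) (v b) y : ℝ) : ℂ)) x
        fun b _ => Sp_cont ((vK b).band _ (vc b))
    unfold II
    simp only [e]
    refine key.trans (mul_le_mul_of_nonneg_right ?_ (sum_nonneg fun i _ =>
      integral_nonneg fun x => mul_nonneg (pow_nonneg (v0 i x).le _) (w0 x)))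
    rw [mul_right_comm]
    refine mul_le_mul_of_nonneg_right (mul_le_mul ?_ (pow_le_pow_left₀ (by positivity) ?_ _)
      (by positivity) (by positivity)) (by positivity)
    · refine le_trans (le_of_eq ?_) (absorb
        (A := (Cs * Cp ^ L * C₀) ^ (2 * q) * (2 ^ d * Cg) ^ (L * (q - 1)))
        (a := L * (2 * q) + L * (q - 1)) (b := D * (L * (q - 1))) hMR hwR
        (by linarith) (by omega) (by omega) (by omega))
      rw [hF, ← pow_mul (_ * Cg), pow_add, pow_mul (M : ℝ) L (2 * q), pow_mul (w : ℝ) D]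
      simp only [mul_pow]
      ring
    · have e1 : ((w : ℝ) ^ (ε / q)) ^ q = (w : ℝ) ^ ε := by
        rw [← Real.rpow_natCast, ← Real.rpow_mul (by positivity), div_mul_cancel₀ _ hqR.ne']
      rw [← mul_assoc (lam' : ℝ), mul_pow, e1, ← mul_assoc]
      exact mul_le_mul_of_nonneg_right (by linarith) (by positivity)

end Pool.Agent.Lib.SC
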