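import Pool.Agent.Lib.SC.Blue

/-! The core estimate from the stages and the transitions. -/

namespace Pool.Agent.Lib.SC

open MeasureTheory Finset Pool.Agent.Lib.WC

namespace CORE

/-- The level at which the stage `r` starts. -/
def lv (D n r : ℕ) : ℕ := (r * n + (D - 1)) / D

lemma lv_lo {D : ℕ} (hD : 1 ≤ D) (n r : ℕ) : r * n ≤ D * lv D n r := by
  have h1 := Nat.div_add_mod (r * n + (D - 1)) D
  have h2 := Nat.mod_lt (r * n + (D - 1)) (show D > 0 from hD)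
  unfold lv
  omega

lemma lv_hi {D : ℕ} (hD : 1 ≤ D) (n r : ℕ) : D * lv D n r ≤ r * n + D := by
  have h1 := Nat.div_add_mod (r * n + (D - 1)) D
  unfold lv
  omega

lemma lv_mono (D n r : ℕ) : lv D n r ≤ lv D n (r + 1) := by
  unfold lv
  apply Nat.div_le_div_right
  have : (r + 1) * n = r * n + n := by ring
  omega

lemma lv_zero {D : ℕ} (hD : 1 ≤ D) (n : ℕ) : lv D n 0 = 0 := by
  unfold lv
  apply Nat.div_eq_of_lt
  omega

lemma lv_le {D : ℕ} (hD : 1 ≤ D) (n r : ℕ) (hr : r ≤ D) : lv D n r ≤ n := by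
  unfold lv
  have h1 : r * n ≤ D * n := Nat.mul_le_mul_right n hr
  have h2 : r * n + (D - 1) < D * (n + 1) := by
    have : D * (n + 1) = D * n + D := by ring
    omega
  have h3 : (r * n + (D - 1)) / D < n + 1 := by
    rw [Nat.div_lt_iff_lt_mul (show 0 < D from hD)]
    rw [Nat.mul_comm (n + 1) D]
    exact h2
  omega

lemma lv_top {D : ℕ} (hD : 1 ≤ D) (n : ℕ) : lv D n D = n := by
  have h1 := lv_lo hD n D
  have h2 := lv_le hD n D le_rfl
  have h3 : n ≤ lv D n D := Nat.le_of_mul_le_mul_left h1 hD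
  omega

lemma pt_split {t M p P : ℝ} (ht : 0 ≤ t) (hM : 0 < M) (hp : 0 ≤ p) (hpP : p ≤ P) :
    t ^ p ≤ M ^ p + M ^ (p - P) * (1 + t ^ 2) ^ (P / 2) := by
  have h0 : 0 ≤ M ^ (p - P) * (1 + t ^ 2) ^ (P / 2) := by positivity
  rcases le_or_gt t M with h | h
  · have := Real.rpow_le_rpow ht h hp
    linarith
  · have ht' : 0 < t := hM.trans h
    have h1 : t ^ p = t ^ (p - P) * t ^ P := by
      rw [← Real.rpow_add ht']; congr 1; ring
    have h2 : t ^ (p - P) ≤ M ^ (p - P) :=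
      Real.rpow_le_rpow_of_nonpos hM h.le (by linarith)
    have h3 : t ^ P ≤ (1 + t ^ 2) ^ (P / 2) := by
      have e1 : t ^ P = (t ^ 2) ^ (P / 2) := by
        rw [← Real.rpow_natCast, ← Real.rpow_mul ht]; congr 1; push_cast; ring
      rw [e1]
      exact Real.rpow_le_rpow (by positivity) (by linarith) (by linarith)
    have h4 : t ^ p ≤ M ^ (p - P) * (1 + t ^ 2) ^ (P / 2) := by
      rw [h1]
      exact mul_le_mul h2 h3 (by positivity) (by positivity)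
    have h5 : 0 ≤ M ^ p := by positivity
    linarith

lemma trans_xl (hT : St_TRANS) (d D r : ℕ) (P : ℝ) (hr : r + 2 ≤ D) (hD : D ≤ d) (hP : 2 ≤ P) :
    ∃ C : ℝ, 1 ≤ C ∧ ∀ (n h i : ℕ) (a : ℕ → ℂ), i ≤ n → h ≤ n * (d + 1 - D) →
      (r + 1) * n ≤ D * i → XL d r (2 ^ h) P a n i ≤ C * XL d (r + 1) (2 ^ h) P a n i := by
  obtain ⟨C, hC, H⟩ := hT d D r P hr hD hP
  refine ⟨C, hC, fun n h i a hi hh hri => ?_⟩
  unfold XL XX
  rw [Finset.mul_sum]
  refine Finset.sum_le_sum fun b hb => ?_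
  have hb' : b < 2 ^ i := Finset.mem_range.mp hb
  have e1 : 2 ^ i * 2 ^ (n - i) = 2 ^ n := by rw [← pow_add]; congr 1; omega
  refine H (2 ^ n) _ (2 ^ (n - i)) _ a Nat.one_le_two_pow
    (Nat.pow_le_pow_right (by norm_num) (by omega)) (by omega) ?_ (by positivity) ?_ ?_
  · have : b * 2 ^ (n - i) ≤ 2 ^ i * 2 ^ (n - i) := Nat.mul_le_mul_right _ hb'.le
    omega
  · push_cast
    rw [← pow_mul]
    exact pow_le_pow_right₀ (by norm_num) hh
  · rw [← pow_mul, ← pow_mul, ← pow_mul, ← pow_add]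
    refine Nat.pow_le_pow_right (by norm_num) ?_
    have e2 : (n - i) * D + i * D = n * D := by rw [← add_mul]; congr 1; omega
    have e3 : n * (r + 1) = (r + 1) * n := by ring
    have e4 : i * D = D * i := by ring
    omega

lemma chain (hB : Bas) (hT : St_TRANS) (hS : St_STEP) (hI : SCI.St_ITER) (d D e : ℕ) (l P ε : ℝ)
    (hde : d + 1 = D + e) (he : 1 ≤ e) (hD : 3 ≤ D) (hl : 0 < l) (hlD : l ≤ D)
    (h3 : D = 3 → 1 ≤ l) (hP : P = D * (D - 1) + 2 * l) (hε : 0 < ε) (k : ℕ) :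
    ∀ r : ℕ, r + k + 1 = D → ∃ C : ℝ, 1 ≤ C ∧ ∀ (n h : ℕ) (a : ℕ → ℂ),
      (h : ℝ) ≤ n * (e - l / D) → (∀ y, ‖a y‖ ≤ 1) →
      XL d r (2 ^ h) P a n (lv D n r) ≤
        C * (2 : ℝ) ^ (((n : ℝ) - lv D n r) * (P / 2 - 1) + (k + 1) * (ε * n) + n) := by
  have hD1 : 1 ≤ D := by omega
  have hDr : (3 : ℝ) ≤ D := by exact_mod_cast hD
  have hPD : (D : ℝ) ≤ P / 2 := by rw [hP]; nlinarith
  have hP2 : 2 ≤ P := by linarith
  have hDd : D ≤ d := by omega
  obtain ⟨ε', hε', HI⟩ := hI d D e l P ε hde hD hl hlD h3 hP hε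
  have stage : ∀ r : ℕ, r + 1 ≤ D → ∃ C : ℝ, 1 ≤ C ∧ ∀ (n h : ℕ) (a : ℕ → ℂ),
      (h : ℝ) ≤ n * (e - l / D) → (∀ y, ‖a y‖ ≤ 1) →
      XL d r (2 ^ h) P a n (lv D n r) ≤
        C * (2 : ℝ) ^ (((lv D n (r + 1) : ℝ) - lv D n r) * (P / 2 - 1) + ε * n) *
          XL d r (2 ^ h) P a n (lv D n (r + 1)) := by
    intro r hr
    obtain ⟨C, hC, HS⟩ := hS d D r P ε' hD hr hDd hPD hε'
    obtain ⟨C', hC', HI'⟩ := HI C hC
    refine ⟨C', hC', fun n h a hh ha => ?_⟩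
    exact HI' r h n (lv D n r) (lv D n (r + 1)) (fun i => XL d r (2 ^ h) P a n i) hh
      (fun i => hB.wr.xx_nonneg _ _ _ _ _ _ _ _ (by positivity))
      (fun i k hik => hB.wr.triv d r _ P a n i k (by positivity) (by linarith) hik)
      (HS h n a ha) (lv_mono D n r) (lv_le hD1 n _ hr) (lv_lo hD1 n r) (lv_hi hD1 n r)
      (lv_lo hD1 n _) (lv_hi hD1 n _)
  induction k with
  | zero =>
    intro r hr
    obtain ⟨C, hC, HS⟩ := stage r (by omega)
    have hone : (1 : ℝ) ≤ 2 ^ (P / 2) := Real.one_le_rpow (by norm_num) (by linarith)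
    have hone' : (1 : ℝ) ≤ 2 ^ d := one_le_pow₀ (by norm_num)
    refine ⟨C * (2 ^ (P / 2) * 2 ^ d), one_le_mul_of_one_le_of_one_le hC
      (one_le_mul_of_one_le_of_one_le hone hone'), fun n h a hh ha => ?_⟩
    have h1 := HS n h a hh ha
    have hr' : r + 1 = D := by omega
    rw [hr', lv_top hD1] at h1
    have h2 := hB.wr.last d r (2 ^ h) P a n (by positivity) (by linarith) ha
    refine h1.trans ?_
    refine (mul_le_mul_of_nonneg_left h2 (by positivity)).trans (le_of_eq ?_)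
    rw [Real.rpow_add (by norm_num : (0 : ℝ) < 2) _ (n : ℝ), Real.rpow_natCast]
    push_cast
    ring_nf
  | succ k ih =>
    intro r hr
    obtain ⟨C, hC, HS⟩ := stage r (by omega)
    obtain ⟨C₁, hC₁, H₁⟩ := trans_xl hT d D r P (by omega) hDd hP2
    obtain ⟨C₂, hC₂, H₂⟩ := ih (r + 1) (by omega)
    refine ⟨C * (C₁ * C₂), one_le_mul_of_one_le_of_one_le hC
      (one_le_mul_of_one_le_of_one_le hC₁ hC₂), fun n h a hh ha => ?_⟩
    have h1 := HS n h a hh ha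
    have hhe : h ≤ n * (d + 1 - D) := by
      have e1 : d + 1 - D = e := by omega
      rw [e1]
      have h0 : 0 ≤ l / D := by positivity
      have h4 : (h : ℝ) ≤ n * e := hh.trans
        (mul_le_mul_of_nonneg_left (by linarith) (Nat.cast_nonneg n))
      exact_mod_cast h4
    have h2 := H₁ n h (lv D n (r + 1)) a (lv_le hD1 n _ (by omega)) hhe (lv_lo hD1 n _)
    have h4 := H₂ n h a hh ha
    have h5 := h2.trans (mul_le_mul_of_nonneg_left h4 (by linarith))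
    refine h1.trans ?_
    refine (mul_le_mul_of_nonneg_left h5 (by positivity)).trans (le_of_eq ?_)
    have e2 : ((n : ℝ) - lv D n r) * (P / 2 - 1) + (((k + 1 : ℕ) : ℝ) + 1) * (ε * n) + n =
        (((lv D n (r + 1) : ℝ) - lv D n r) * (P / 2 - 1) + ε * n) +
          (((n : ℝ) - lv D n (r + 1)) * (P / 2 - 1) + (k + 1) * (ε * n) + n) := by
      push_cast; ring
    rw [e2, Real.rpow_add (by norm_num : (0 : ℝ) < 2)
      (((lv D n (r + 1) : ℝ) - lv D n r) * (P / 2 - 1) + ε * n)]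
    ring

lemma params (d : ℕ) (η : ℝ) (hd : 3 ≤ d) (h0 : 0 ≤ η) (h1 : η ≤ ((d : ℝ) + 1) / 4 - 1 / d) :
    ∃ D e : ℕ, d + 1 = D + e ∧ 1 ≤ e ∧ 3 ≤ D ∧ η < e ∧ (e : ℝ) ≤ η + 1 ∧
      (D = 3 → 1 ≤ (D : ℝ) * (e - η)) := by
  have hdr : (3 : ℝ) ≤ d := by exact_mod_cast hd
  have hf1 : ((⌊η⌋₊ : ℕ) : ℝ) ≤ η := Nat.floor_le h0
  have hf2 : η < (⌊η⌋₊ : ℕ) + 1 := Nat.lt_floor_add_one η
  have hinv : 0 < 1 / (d : ℝ) := by positivity
  have hf3 : 4 * (⌊η⌋₊ : ℕ) < d + 1 := by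
    have : (4 : ℝ) * (⌊η⌋₊ : ℕ) < d + 1 := by linarith
    exact_mod_cast this
  refine ⟨d - ⌊η⌋₊, ⌊η⌋₊ + 1, by omega, by omega, by omega, by push_cast; linarith,
    by push_cast; linarith, fun hD => ?_⟩
  rw [hD]
  have hcase : (d = 3 ∧ ⌊η⌋₊ = 0) ∨ (d = 4 ∧ ⌊η⌋₊ = 1) := by omega
  rcases hcase with ⟨hd', hf⟩ | ⟨hd', hf⟩
  · rw [hf]
    rw [hd'] at h1
    push_cast at h1 ⊢
    linarith
  · rw [hf]
    rw [hd'] at h1
    push_cast at h1 ⊢
    linarith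

end CORE

open CORE in
theorem blk_CORE (hB : Bas) (hT : St_TRANS) (hS : St_STEP) (hI : SCI.St_ITER) : St_CORE := by
  intro d η ε hd h0 h1 hε
  obtain ⟨D, e, hde, he, hD, hηe, heη, h3⟩ := params d η hd h0 h1
  have hDr : (3 : ℝ) ≤ D := by exact_mod_cast hD
  have hdr : (3 : ℝ) ≤ d := by exact_mod_cast hd
  have her : (1 : ℝ) ≤ e := by exact_mod_cast he
  have hder : (d : ℝ) + 1 = D + e := by exact_mod_cast hde
  set l : ℝ := D * (e - η) with hl
  set P : ℝ := D * (D - 1) + 2 * l with hP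
  set p : ℝ := (d : ℝ) * (d + 1) - 2 * d * η with hp
  have hl0 : 0 < l := mul_pos (by linarith) (by linarith)
  have hlD : l ≤ D := by rw [hl]; nlinarith
  have hp0 : 0 ≤ p := by
    have hinv : 0 < 1 / (d : ℝ) := by positivity
    have : η ≤ (d + 1) / 4 := by linarith
    rw [hp]; nlinarith
  have hpP : p ≤ P := by
    have e1 : P - p = (e - 1) * (2 * η - e) := by
      have : (D : ℝ) = d + 1 - e := by linarith
      rw [hP, hp, hl, this]; ring
    have e2 : 0 ≤ ((e : ℝ) - 1) * (2 * η - e) := by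
      rcases Nat.eq_or_lt_of_le he with h | h
      · rw [← h]; simp
      · have : (2 : ℝ) ≤ e := by exact_mod_cast h
        exact mul_nonneg (by linarith) (by linarith)
    linarith
  have hε' : 0 < ε / D := by positivity
  obtain ⟨C, hC, H⟩ := chain hB hT hS hI d D e l P (ε / D) hde he hD hl0 hlD h3 hP hε' (D - 1) 0
    (by omega)
  have hd2 : (1 : ℝ) ≤ 2 ^ d := one_le_pow₀ (by norm_num)
  refine ⟨2 ^ d + C, by linarith, fun n h a hh ha => ?_⟩
  have hN : (0 : ℝ) < 2 ^ n := by positivity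
  have hN1 : (1 : ℝ) ≤ 2 ^ n := one_le_pow₀ (by norm_num)
  have hNe : ∀ t : ℝ, ((2 : ℝ) ^ n) ^ t = (2 : ℝ) ^ ((n : ℝ) * t) := fun t => by
    rw [Real.rpow_mul (by norm_num), Real.rpow_natCast]
  have hh' : (h : ℝ) ≤ n * (e - l / D) := by
    have e1 : (e : ℝ) - l / D = η := by rw [hl]; field_simp; ring
    rw [e1]
    rw [hNe, ← Real.rpow_natCast] at hh
    exact (Real.rpow_le_rpow_left_iff (by norm_num)).mp hh
  have hX := H n h a hh' ha
  rw [lv_zero (by omega)] at hX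
  have hX' : II 0 (2 ^ h) (fun x => (1 + ‖fa d a (2 ^ n) (2 ^ n) x‖ ^ 2) ^ (P / 2)) ≤
      C * ((2 : ℝ) ^ n) ^ (P / 2 + ε) := by
    have e1 : XL d 0 (2 ^ h) P a n 0 =
        II 0 (2 ^ h) (fun x => (1 + ‖fa d a (2 ^ n) (2 ^ n) x‖ ^ 2) ^ (P / 2)) := by
      simp [XL, XX]
    have e2 : ((n : ℝ) - (0 : ℕ)) * (P / 2 - 1) + (((D - 1 : ℕ) : ℝ) + 1) * (ε / D * n) + n =
        n * (P / 2 + ε) := by
      have : ((D - 1 : ℕ) : ℝ) + 1 = D := by
        have : D - 1 + 1 = D := by omega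
        exact_mod_cast this
      rw [this]
      field_simp
      ring
    rw [e1, e2, ← hNe] at hX
    exact hX
  set M : ℝ := ((2 : ℝ) ^ n) ^ (1 / 2 : ℝ) with hM
  have hM0 : 0 < M := by positivity
  have hMe : ∀ t : ℝ, M ^ t = ((2 : ℝ) ^ n) ^ (t / 2) := fun t => by
    rw [hM, ← Real.rpow_mul hN.le]; congr 1; ring
  have hH : (0 : ℝ) < 2 ^ h := by positivity
  have cW : Continuous (Wr (d := d) 0 (2 ^ h)) := hB.wr.cont d 0 _ hH
  have cf : Continuous fun x => ‖fa d a (2 ^ n) (2 ^ n) x‖ := (hB.wr.fa_cont d a _ _).norm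
  have cG : Continuous fun x => (1 + ‖fa d a (2 ^ n) (2 ^ n) x‖ ^ 2) ^ (P / 2) :=
    (continuous_const.add (cf.pow 2)).rpow_const fun _ => Or.inr (by linarith)
  have cF : Continuous fun x => ‖fa d a (2 ^ n) (2 ^ n) x‖ ^ p :=
    cf.rpow_const fun _ => Or.inr hp0
  have iW : Integrable (Wr (d := d) 0 (2 ^ h)) :=
    cW.integrable_of_hasCompactSupport (HasCompactSupport.of_compactSpace _)
  have iG : Integrable fun x => (1 + ‖fa d a (2 ^ n) (2 ^ n) x‖ ^ 2) ^ (P / 2) *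
      Wr (d := d) 0 (2 ^ h) x :=
    (cG.mul cW).integrable_of_hasCompactSupport (HasCompactSupport.of_compactSpace _)
  have iF : Integrable fun x => ‖fa d a (2 ^ n) (2 ^ n) x‖ ^ p * Wr (d := d) 0 (2 ^ h) x :=
    (cF.mul cW).integrable_of_hasCompactSupport (HasCompactSupport.of_compactSpace _)
  have key : II 0 (2 ^ h) (fun x => ‖fa d a (2 ^ n) (2 ^ n) x‖ ^ p) ≤
      M ^ p * (∫ x : TT d, Wr 0 (2 ^ h) x) + M ^ (p - P) *
        II 0 (2 ^ h) (fun x => (1 + ‖fa d a (2 ^ n) (2 ^ n) x‖ ^ 2) ^ (P / 2)) := by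
    unfold II
    rw [← integral_const_mul, ← integral_const_mul,
      ← integral_add (iW.const_mul _) (iG.const_mul _)]
    refine integral_mono iF ((iW.const_mul _).add (iG.const_mul _)) fun x => ?_
    have h5 := pt_split (norm_nonneg (fa d a (2 ^ n) (2 ^ n) x)) hM0 hp0 hpP
    have h6 := (hB.wr.pos d 0 _ x hH).le
    have h7 := mul_le_mul_of_nonneg_right h5 h6
    simp only
    linarith
  have hm := hB.wr.mass d 0 _ hH
  have t1 : M ^ p * (∫ x : TT d, Wr 0 (2 ^ h) x) ≤ 2 ^ d * ((2 : ℝ) ^ n) ^ (p / 2 + ε) := by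
    rw [mul_comm]
    refine mul_le_mul hm ?_ (by positivity) (by positivity)
    rw [hMe]
    exact Real.rpow_le_rpow_of_exponent_le hN1 (by linarith)
  have t2 : M ^ (p - P) *
      II 0 (2 ^ h) (fun x => (1 + ‖fa d a (2 ^ n) (2 ^ n) x‖ ^ 2) ^ (P / 2)) ≤
      C * ((2 : ℝ) ^ n) ^ (p / 2 + ε) := by
    refine (mul_le_mul_of_nonneg_left hX' (by positivity)).trans (le_of_eq ?_)
    rw [hMe, mul_left_comm, ← Real.rpow_add hN]
    congr 2
    ring
  calc _ ≤ _ := key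
    _ ≤ 2 ^ d * ((2 : ℝ) ^ n) ^ (p / 2 + ε) + C * ((2 : ℝ) ^ n) ^ (p / 2 + ε) := add_le_add t1 t2
    _ = _ := by ring

end Pool.Agent.Lib.SC
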