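import Pool.Agent.Lib.SC.Blue

/-! Moments and slow variation. -/

namespace Pool.Agent.Lib.SC

open MeasureTheory Finset Pool.Agent.Lib.WC

namespace CV2

variable {d : ℕ}

theorem sn_cont (G : Seminorm ℝ (V d)) : Continuous G :=
  continuousOn_univ.1 (G.convexOn.continuousOn isOpen_univ)

theorem one_le (G : Seminorm ℝ (V d)) (P : V d) : 1 ≤ 1 + G P :=
  le_add_of_nonneg_right (apply_nonneg G P)

theorem pow_cont (G : Seminorm ℝ (V d)) (m : ℕ) : Continuous fun P => (1 + G P) ^ m :=
  (continuous_const.add (sn_cont G)).pow m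

theorem mom_one (ν : Measure (V d)) [IsProbabilityMeasure ν] (G : Seminorm ℝ (V d)) (m : ℕ)
    (M : ℝ) (h : Mom ν G m M) : 1 ≤ M := by
  refine le_trans ?_ h.2
  have := integral_mono (integrable_const (1 : ℝ)) h.1 fun P => one_le_pow₀ (one_le G P)
  simpa using this

theorem pow_le {G G' : Seminorm ℝ (V d)} {m m' : ℕ} {B : ℝ} (hB : 1 ≤ B)
    (h : ∀ P, G' P ≤ B * G P) (hm : m' ≤ m) (P : V d) :
    (1 + G' P) ^ m' ≤ B ^ m' * (1 + G P) ^ m := by
  calc (1 + G' P) ^ m' ≤ (B * (1 + G P)) ^ m' :=
        pow_le_pow_left₀ (zero_le_one.trans (one_le G' P)) (by have := h P; linarith) _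
    _ = B ^ m' * (1 + G P) ^ m' := mul_pow _ _ _
    _ ≤ _ := mul_le_mul_of_nonneg_left (pow_le_pow_right₀ (one_le G P) hm) (by positivity)

theorem mom_neg (ν : Measure (V d)) (G : Seminorm ℝ (V d)) (m : ℕ) (M : ℝ) (h : Mom ν G m M) :
    Mom (ν.map fun P => -P) G m M := by
  have hm : Measurable fun P : V d => -P := measurable_neg
  constructor
  · rw [integrable_map_measure (pow_cont G m).aestronglyMeasurable hm.aemeasurable]
    simpa [Function.comp_def] using h.1
  · rw [integral_map hm.aemeasurable (pow_cont G m).aestronglyMeasurable]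
    simpa using h.2

theorem cmp_up (h : St_CV1) (ν : Measure (V d)) [IsProbabilityMeasure ν] (F : TT d → ℝ)
    (G : Seminorm ℝ (V d)) (m : ℕ) (K M : ℝ) (x : TT d) (hF : Continuous F) (h0 : ∀ y, 0 ≤ F y)
    (hK : 0 ≤ K) (hD : Dbl F G m K) (hM : Mom ν G m M) : cv ν F x ≤ K * M * F x := by
  calc cv ν F x ≤ ∫ P, K * (1 + G P) ^ m * F x ∂ν :=
        integral_mono (h.intg d ν F x hF) ((hM.1.const_mul K).mul_const _) fun P => hD x P
    _ = K * (∫ P, (1 + G P) ^ m ∂ν) * F x := by rw [integral_mul_const, integral_const_mul]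
    _ ≤ _ := mul_le_mul_of_nonneg_right (mul_le_mul_of_nonneg_left hM.2 hK) (h0 x)

theorem bern {t M : ℝ} (ht : 0 < t) (hM : 0 < M) (m : ℕ) :
    t ^ m * (1 + m * (1 - t / M)) ≤ M ^ m := by
  have h1 : 1 - t / M ≤ M / t - 1 := by
    have e : M / t - 1 - (1 - t / M) = (M - t) ^ 2 / (t * M) := by field_simp
    have : 0 ≤ (M - t) ^ 2 / (t * M) := by positivity
    linarith
  have h2 := one_add_mul_le_pow (a := M / t - 1) (by have := div_pos hM ht; linarith) m
  rw [add_sub_cancel, div_pow, le_div_iff₀ (pow_pos ht m)] at h2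
  have h3 := mul_le_mul_of_nonneg_left h1 (Nat.cast_nonneg (α := ℝ) m)
  nlinarith [pow_pos ht m]

theorem cmp_lo (h : St_CV1) (ν : Measure (V d)) [IsProbabilityMeasure ν] (F : TT d → ℝ)
    (G : Seminorm ℝ (V d)) (m : ℕ) (K M : ℝ) (x : TT d) (hF : Continuous F) (h0 : ∀ y, 0 ≤ F y)
    (hK : 0 ≤ K) (hD : Dbl F G m K) (hM : Mom ν G 1 M) : F x ≤ K * M ^ m * cv ν F x := by
  have hM1 := mom_one ν G 1 M hM
  have hM0 : 0 < M := by linarith
  have key : ∀ P, F x * (1 + m * (1 - (1 + G P) ^ 1 / M)) ≤ K * M ^ m * F (x + pj P) := by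
    intro P
    have h1 := hD (x + pj P) (-P)
    rw [h.pj_neg, add_neg_cancel_right, map_neg_eq_map] at h1
    have h2 := bern (zero_lt_one.trans_le (one_le G P)) hM0 m
    rw [pow_one]
    have h3 : 0 ≤ K * F (x + pj P) := mul_nonneg hK (h0 _)
    rcases le_total 0 (1 + m * (1 - (1 + G P) / M)) with c | c
    · calc _ ≤ K * (1 + G P) ^ m * F (x + pj P) * (1 + m * (1 - (1 + G P) / M)) :=
            mul_le_mul_of_nonneg_right h1 c
        _ = K * F (x + pj P) * ((1 + G P) ^ m * (1 + m * (1 - (1 + G P) / M))) := by ring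
        _ ≤ K * F (x + pj P) * M ^ m := mul_le_mul_of_nonneg_left h2 h3
        _ = _ := by ring
    · calc _ ≤ (0 : ℝ) := mul_nonpos_of_nonneg_of_nonpos (h0 x) c
        _ ≤ K * F (x + pj P) * M ^ m := by positivity
        _ = _ := by ring
  have i1 : Integrable (fun P => (1 + G P) ^ 1 / M) ν := hM.1.div_const M
  have i2 : Integrable (fun P => (m : ℝ) * (1 - (1 + G P) ^ 1 / M)) ν :=
    ((integrable_const 1).sub i1).const_mul _
  have h4 := integral_mono (((integrable_const 1).add i2).const_mul (F x))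
    ((h.intg d ν F x hF).const_mul (K * M ^ m)) key
  simp only [Pi.add_apply] at h4
  rw [integral_const_mul, integral_const_mul, integral_add (integrable_const 1) i2,
    integral_const_mul, integral_sub (integrable_const 1) i1, integral_div] at h4
  simp only [integral_const, probReal_univ, smul_eq_mul, mul_one] at h4
  have h5 : (∫ P, (1 + G P) ^ 1 ∂ν) / M ≤ 1 := (div_le_one hM0).2 hM.2
  have h6 : 0 ≤ F x * (m * (1 - (∫ P, (1 + G P) ^ 1 ∂ν) / M)) :=
    mul_nonneg (h0 x) (mul_nonneg (Nat.cast_nonneg m) (by linarith))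
  unfold cv
  linarith

theorem swap (h : St_CV1) (ν : Measure (V d)) [IsProbabilityMeasure ν] (F w : TT d → ℝ)
    (hF : Continuous F) (hw : Continuous w) :
    ∫ x, cv ν F x * w x = ∫ x, F x * cv (ν.map fun P => -P) w x := by
  have hp := h.pj_cont d
  obtain ⟨A, hA⟩ := isCompact_univ.exists_bound_of_continuousOn hF.continuousOn
  obtain ⟨B, hB⟩ := isCompact_univ.exists_bound_of_continuousOn hw.continuousOn
  have bd : ∀ x y, ‖F x * w y‖ ≤ A * B := fun x y => by
    rw [norm_mul]
    exact mul_le_mul (hA x trivial) (hB y trivial) (norm_nonneg _)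
      ((norm_nonneg _).trans (hA x trivial))
  have i1 : Integrable (Function.uncurry fun (x : TT d) (P : V d) => F (x + pj P) * w x)
      (volume.prod ν) := by
    refine Integrable.of_bound (Continuous.aestronglyMeasurable ?_) (A * B)
      (Filter.Eventually.of_forall fun z => bd _ _)
    unfold Function.uncurry
    fun_prop
  have i2 : Integrable (Function.uncurry fun (x : TT d) (P : V d) => F x * w (x + pj (-P)))
      (volume.prod ν) := by
    refine Integrable.of_bound (Continuous.aestronglyMeasurable ?_) (A * B)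
      (Filter.Eventually.of_forall fun z => bd _ _)
    unfold Function.uncurry
    fun_prop
  have e : ∀ x, cv (ν.map fun P => -P) w x = ∫ P, w (x + pj (-P)) ∂ν := fun x =>
    integral_map measurable_neg.aemeasurable (Continuous.aestronglyMeasurable (by fun_prop))
  simp only [e]
  simp only [cv, ← integral_mul_const, ← integral_const_mul]
  rw [integral_integral_swap i1, integral_integral_swap i2]
  refine integral_congr_ae (Filter.Eventually.of_forall fun P => ?_)
  simp only
  rw [← int_add (fun x => F x * w (x + pj (-P))) (pj P)]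
  simp only [h.pj_neg, add_neg_cancel_right]

end CV2

open CV2 in
theorem blk_CV2 (h : St_CV1) : St_CV2 where
  sn_cont := fun _ G => sn_cont G
  mom_one := fun _ ν _ G m M hM => mom_one ν G m M hM
  mom_le := fun d ν _ G G' m m' M B hB hG hm hM => by
    have hB0 : 0 ≤ B ^ m' := by positivity
    have i1 : Integrable (fun P => (1 + G' P) ^ m') ν :=
      (hM.1.const_mul (B ^ m')).mono' (pow_cont G' m').aestronglyMeasurable
        (Filter.Eventually.of_forall fun P => by
          rw [Real.norm_of_nonneg (pow_nonneg (zero_le_one.trans (one_le G' P)) _)]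
          exact pow_le hB hG hm P)
    refine ⟨i1, (integral_mono i1 (hM.1.const_mul (B ^ m')) (pow_le hB hG hm)).trans ?_⟩
    rw [integral_const_mul]
    exact mul_le_mul_of_nonneg_left hM.2 hB0
  mom_conv := fun d ν₁ ν₂ _ _ G m M₁ M₂ h1 h2 => by
    have hm : Measurable fun z : V d × V d => z.1 + z.2 := by fun_prop
    have i0 := h1.1.mul_prod h2.1
    have le : ∀ z : V d × V d, (1 + G (z.1 + z.2)) ^ m ≤ (1 + G z.1) ^ m * (1 + G z.2) ^ m := by
      intro z
      rw [← mul_pow]
      refine pow_le_pow_left₀ (zero_le_one.trans (one_le G _)) ?_ _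
      have a := map_add_le_add G z.1 z.2
      nlinarith [mul_nonneg (apply_nonneg G z.1) (apply_nonneg G z.2)]
    have i1 : Integrable (fun z : V d × V d => (1 + G (z.1 + z.2)) ^ m) (ν₁.prod ν₂) :=
      i0.mono' ((pow_cont G m).comp (by fun_prop)).aestronglyMeasurable
        (Filter.Eventually.of_forall fun z => by
          rw [Real.norm_of_nonneg (pow_nonneg (zero_le_one.trans (one_le G _)) _)]
          exact le z)
    constructor
    · exact (integrable_map_measure (pow_cont G m).aestronglyMeasurable hm.aemeasurable).2 i1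
    · refine (integral_map hm.aemeasurable (pow_cont G m).aestronglyMeasurable).trans_le ?_
      refine (integral_mono i1 i0 le).trans ?_
      rw [integral_prod_mul (fun P => (1 + G P) ^ m) fun P => (1 + G P) ^ m]
      exact mul_le_mul h1.2 h2.2
        (integral_nonneg fun P => pow_nonneg (zero_le_one.trans (one_le G P)) _)
        (zero_le_one.trans (mom_one ν₁ G m M₁ h1))
  mom_dirac := fun d G m => ⟨integrable_dirac (by simp), by simp⟩
  isK_mono := fun d G m C C' K hC hK =>
    ⟨hK.prob, ⟨hK.mom.1, hK.mom.2.trans hC⟩, fun F hF => Sp_mono (fun ξ hξ P => (hξ P).trans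
      (mul_le_mul_of_nonneg_right hC (apply_nonneg G P))) (hK.band F hF)⟩
  isW_mono := fun d G L C C' W hC hW =>
    ⟨hW.prob, hW.dbl, ⟨hW.mom.1, hW.mom.2.trans hC⟩, fun o f hf x => (hW.up o f hf x).trans
      (mul_le_mul_of_nonneg_right hC (h.nonneg d W _ x fun _ => by positivity))⟩
  dbl_le := fun d F G G' m m' K B hB hK hG hm h0 hD x P => by
    refine (hD x P).trans (mul_le_mul_of_nonneg_right ?_ (h0 x))
    rw [mul_assoc]
    exact mul_le_mul_of_nonneg_left (pow_le hB hG hm P) hK
  dbl_cv := fun d ν _ F G m K hF hD x P => by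
    have h1 := integral_mono (h.intg d ν F (x + pj P) hF)
      ((h.intg d ν F x hF).const_mul (K * (1 + G P) ^ m)) fun R => by
        simp only
        rw [add_right_comm]
        exact hD _ P
    rwa [integral_const_mul] at h1
  cmp_up := fun _ ν _ F G m K M x => cmp_up h ν F G m K M x
  cmp_lo := fun _ ν _ F G m K M x => cmp_lo h ν F G m K M x
  w_up := fun d ν _ F w G m K M hF hw h0 hw0 hK hD hM => by
    have : IsProbabilityMeasure (ν.map fun P => -P) :=
      Measure.isProbabilityMeasure_map measurable_neg.aemeasurable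
    rw [swap h ν F w hF hw, ← integral_const_mul]
    refine integral_mono (cint (hF.mul (h.cont d _ w hw))) (cint (by fun_prop)) fun x => ?_
    have h1 := cmp_up h _ w G m K M x hw hw0 hK hD (mom_neg ν G m M hM)
    simp only
    nlinarith [mul_le_mul_of_nonneg_left h1 (h0 x)]
  w_lo := fun d ν _ F w G m K M hF hw h0 hw0 hK hD hM => by
    have : IsProbabilityMeasure (ν.map fun P => -P) :=
      Measure.isProbabilityMeasure_map measurable_neg.aemeasurable
    have hc := h.cont d (ν.map fun P => -P) w hw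
    rw [swap h ν F w hF hw, ← integral_const_mul]
    refine integral_mono (cint (hF.mul hw)) (cint (by fun_prop)) fun x => ?_
    have h1 := cmp_lo h _ w G m K M x hw hw0 hK hD (mom_neg ν G 1 M hM)
    simp only
    nlinarith [mul_le_mul_of_nonneg_left h1 (h0 x)]

end Pool.Agent.Lib.SC
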