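import Pool.Agent.Lib.SC.Blue

/-! Rational frames adapted to a definite gauge. -/

namespace Pool.Agent.Lib.SC

open Finset

namespace FR

variable {d : ℕ}

theorem le_norm (G : Seminorm ℝ (V d)) (P : V d) :
    G P ≤ (∑ j, G (Pi.single j 1)) * ‖P‖ := by
  have h : P = ∑ j, P j • (Pi.single j 1 : V d) := by
    ext i
    simp [Finset.sum_apply, Pi.single_apply]
  calc G P = G (∑ j, P j • (Pi.single j 1 : V d)) := by rw [← h]
    _ ≤ ∑ j, G (P j • (Pi.single j 1 : V d)) := by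
        refine Finset.le_sum_of_subadditive G (le_of_eq (map_zero G)) (map_add_le_add G) _ _
    _ ≤ ∑ j, G (Pi.single j 1) * ‖P‖ := by
        refine Finset.sum_le_sum fun j _ => ?_
        rw [map_smul_eq_mul, mul_comm]
        exact mul_le_mul_of_nonneg_left (norm_le_pi_norm P j) (apply_nonneg G _)
    _ = _ := by rw [Finset.sum_mul]

theorem cont (G : Seminorm ℝ (V d)) : Continuous G := by
  have hC : 0 ≤ ∑ j, G (Pi.single j (1 : ℝ) : V d) :=
    Finset.sum_nonneg fun j _ => apply_nonneg G _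
  refine (LipschitzWith.of_dist_le_mul (K := ⟨_, hC⟩) fun x y => ?_).continuous
  rw [Real.dist_eq, dist_eq_norm]
  exact (abs_sub_map_le_sub G x y).trans (le_norm G _)

theorem lower (G : Seminorm ℝ (V d)) (hG : ∀ P, G P = 0 → P = 0) :
    ∃ R : ℝ, ∀ P, G P ≤ 1 → ‖P‖ ≤ R := by
  by_cases hne : (Metric.sphere (0 : V d) 1).Nonempty
  · obtain ⟨x, hx, hmin⟩ := (isCompact_sphere (0 : V d) 1).exists_isMinOn hne (cont G).continuousOn
    have hx1 : ‖x‖ = 1 := by simpa using hx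
    have hpos : 0 < G x := by
      refine lt_of_le_of_ne (apply_nonneg G x) fun h => ?_
      have := hG x h.symm
      rw [this] at hx1
      simp at hx1
    refine ⟨1 / G x, fun P hP => ?_⟩
    by_cases h0 : P = 0
    · rw [h0, norm_zero]; positivity
    · have hn : 0 < ‖P‖ := norm_pos_iff.2 h0
      have hm : ‖P‖⁻¹ • P ∈ Metric.sphere (0 : V d) 1 := by
        simp [norm_smul, hn.ne']
      have h1 : G x ≤ G (‖P‖⁻¹ • P) := hmin hm
      rw [map_smul_eq_mul, norm_inv, norm_norm] at h1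
      rw [le_div_iff₀ hpos]
      have h2 : ‖P‖ * G x ≤ ‖P‖ * (‖P‖⁻¹ * G P) := mul_le_mul_of_nonneg_left h1 hn.le
      rw [← mul_assoc, mul_inv_cancel₀ hn.ne', one_mul] at h2
      exact h2.trans hP
  · refine ⟨0, fun P _ => ?_⟩
    by_contra h
    have hn : 0 < ‖P‖ := not_le.1 h
    exact hne ⟨‖P‖⁻¹ • P, by simp [norm_smul, hn.ne']⟩

/-- The admissible rational tuples. -/
def Ad (G : Seminorm ℝ (V d)) (A : Matrix (Fin d) (Fin d) ℝ) : Prop :=
  (∀ i, IsQ (A i)) ∧ ∀ i, G (A i) ≤ 1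

theorem bdd (G : Seminorm ℝ (V d)) (hG : ∀ P, G P = 0 → P = 0) :
    ∃ M : ℝ, ∀ A, Ad G A → |A.det| ≤ M := by
  obtain ⟨R, hR⟩ := lower G hG
  refine ⟨(Fintype.card (Fin d)).factorial • R ^ Fintype.card (Fin d), fun A hA => ?_⟩
  exact Matrix.det_le (abv := AbsoluteValue.abs) fun i j =>
    (norm_le_pi_norm (A i) j).trans (hR _ (hA.2 i))

theorem isQ_smul (q : ℚ) (P : V d) (hP : IsQ P) : IsQ ((q : ℝ) • P) := fun j => by
  obtain ⟨r, hr⟩ := hP j
  exact ⟨q * r, by simp [hr]⟩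

theorem start (G : Seminorm ℝ (V d)) : ∃ A, Ad G A ∧ 0 < |A.det| := by
  obtain ⟨n, hn⟩ := exists_nat_gt (∑ j, G (Pi.single j (1 : ℝ) : V d))
  have hC : 0 ≤ ∑ j, G (Pi.single j (1 : ℝ) : V d) :=
    Finset.sum_nonneg fun j _ => apply_nonneg G _
  have hn0 : (0 : ℝ) < n := lt_of_le_of_lt hC hn
  have hrow : ∀ i, ((n : ℝ)⁻¹ • (1 : Matrix (Fin d) (Fin d) ℝ)) i =
      (n : ℝ)⁻¹ • (Pi.single i 1 : V d) := fun i => by
    ext j
    simp [Matrix.one_apply, Pi.single_apply, eq_comm]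
  refine ⟨(n : ℝ)⁻¹ • (1 : Matrix (Fin d) (Fin d) ℝ), ⟨fun i j => ?_, fun i => ?_⟩, ?_⟩
  · rw [hrow]
    refine ⟨if j = i then (n : ℚ)⁻¹ else 0, ?_⟩
    by_cases h : j = i <;> simp [h]
  · rw [hrow, map_smul_eq_mul, norm_inv, Real.norm_eq_abs, abs_of_pos hn0, inv_mul_le_iff₀ hn0,
      mul_one]
    exact (Finset.single_le_sum (f := fun j => G (Pi.single j (1 : ℝ) : V d))
      (fun j _ => apply_nonneg G _) (Finset.mem_univ i)).trans hn.le
  · rw [Matrix.det_smul, Matrix.det_one, mul_one]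
    exact abs_pos.2 (pow_ne_zero _ (inv_ne_zero hn0.ne'))

theorem near_max (G : Seminorm ℝ (V d)) (hG : ∀ P, G P = 0 → P = 0) :
    ∃ A, Ad G A ∧ 0 < |A.det| ∧ ∀ B, Ad G B → |B.det| ≤ 2 * |A.det| := by
  obtain ⟨M, hM⟩ := bdd G hG
  obtain ⟨A₀, hA₀, h0⟩ := start G
  let S : Set ℝ := {x | ∃ A, Ad G A ∧ x = |A.det|}
  have hb : BddAbove S := ⟨M, fun x ⟨A, hA, hx⟩ => hx ▸ hM A hA⟩
  have hne : S.Nonempty := ⟨_, A₀, hA₀, rfl⟩
  have hs : 0 < sSup S := lt_of_lt_of_le h0 (le_csSup hb ⟨A₀, hA₀, rfl⟩)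
  obtain ⟨x, ⟨A, hA, rfl⟩, hx⟩ := exists_lt_of_lt_csSup hne (half_lt_self hs)
  refine ⟨A, hA, lt_trans (half_pos hs) hx, fun B hB => ?_⟩
  have := le_csSup hb (show |B.det| ∈ S from ⟨B, hB, rfl⟩)
  linarith

theorem cr_rat (G : Seminorm ℝ (V d)) (A : Matrix (Fin d) (Fin d) ℝ) (hA : Ad G A)
    (hm : ∀ B, Ad G B → |B.det| ≤ 2 * |A.det|) (i : Fin d) (P : V d) (hP : IsQ P) :
    |Matrix.cramer A.transpose P i| ≤ 2 * |A.det| * G P := by
  have key : ∀ q : ℚ, G P < q → |Matrix.cramer A.transpose P i| ≤ 2 * |A.det| * q := by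
    intro q hq
    have hq0 : (0 : ℝ) < q := lt_of_le_of_lt (apply_nonneg G P) hq
    have hB : Ad G (A.updateRow i (((q⁻¹ : ℚ) : ℝ) • P)) := by
      refine ⟨fun l => ?_, fun l => ?_⟩
      · by_cases h : l = i
        · rw [h, Matrix.updateRow_self]; exact isQ_smul _ _ hP
        · rw [Matrix.updateRow_ne h]; exact hA.1 l
      · by_cases h : l = i
        · rw [h, Matrix.updateRow_self, map_smul_eq_mul, Rat.cast_inv, norm_inv, Real.norm_eq_abs,
            abs_of_pos hq0, inv_mul_le_iff₀ hq0, mul_one]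
          exact hq.le
        · rw [Matrix.updateRow_ne h]; exact hA.2 l
    have h1 := hm _ hB
    rw [← Matrix.cramer_transpose_apply, map_smul, Pi.smul_apply, smul_eq_mul, abs_mul,
      Rat.cast_inv, abs_inv, abs_of_pos hq0, inv_mul_le_iff₀ hq0] at h1
    linarith
  refine le_of_forall_gt_imp_ge_of_dense fun y hy => ?_
  by_cases h0 : |A.det| = 0
  · obtain ⟨q, hq⟩ := exists_rat_gt (G P)
    have := key q hq
    rw [h0] at this hy
    linarith
  · have hpos : 0 < 2 * |A.det| := by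
      have := lt_of_le_of_ne (abs_nonneg A.det) (Ne.symm h0)
      linarith
    have h1 : G P < y / (2 * |A.det|) := by
      rw [lt_div_iff₀ hpos]; linarith
    obtain ⟨q, hq1, hq2⟩ := exists_rat_btwn h1
    have h2 := key q hq1
    rw [lt_div_iff₀ hpos] at hq2
    linarith

theorem dense_rat : Dense {P : V d | IsQ P} := by
  intro P
  rw [Metric.mem_closure_iff]
  intro ε hε
  have h : ∀ j, ∃ q : ℚ, |P j - q| < ε := fun j => exists_rat_near (P j) hε
  choose q hq using h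
  refine ⟨fun j => (q j : ℝ), fun j => ⟨q j, rfl⟩, ?_⟩
  rw [dist_pi_lt_iff hε]
  intro j
  rw [Real.dist_eq]
  exact hq j

theorem cr_all (G : Seminorm ℝ (V d)) (A : Matrix (Fin d) (Fin d) ℝ) (hA : Ad G A)
    (hm : ∀ B, Ad G B → |B.det| ≤ 2 * |A.det|) (i : Fin d) (P : V d) :
    |Matrix.cramer A.transpose P i| ≤ 2 * |A.det| * G P := by
  have hc : IsClosed {P : V d | |Matrix.cramer A.transpose P i| ≤ 2 * |A.det| * G P} := by
    refine isClosed_le ?_ (continuous_const.mul (cont G))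
    exact ((continuous_apply i).comp
      (Matrix.cramer A.transpose).continuous_of_finiteDimensional).abs
  exact closure_minimal (fun R hR => cr_rat G A hA hm i R hR) hc (dense_rat P)

end FR

theorem blk_FR : St_FR := by
  intro d G hG
  obtain ⟨A, hA, h0, hm⟩ := FR.near_max G hG
  have hd : A.det ≠ 0 := abs_pos.1 h0
  refine ⟨fun i => ((2 : ℚ) : ℝ) • A i, fun i => FR.isQ_smul 2 _ (hA.1 i), fun i => ?_, fun P => ?_⟩
  · rw [map_smul_eq_mul]
    have := hA.2 i
    norm_num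
    linarith
  · refine ⟨fun i => Matrix.cramer A.transpose P i / (2 * A.det), ?_, fun i => ?_⟩
    · have h := Matrix.mulVec_cramer A.transpose P
      rw [Matrix.det_transpose] at h
      ext j
      have hj := congrFun h j
      simp only [Matrix.mulVec, dotProduct, Matrix.transpose_apply, Pi.smul_apply,
        smul_eq_mul] at hj
      simp only [Finset.sum_apply, Pi.smul_apply, smul_eq_mul]
      have h2 : ∑ i, Matrix.cramer A.transpose P i / (2 * A.det) * (((2 : ℚ) : ℝ) * A i j) =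
          (∑ i, A i j * Matrix.cramer A.transpose P i) / A.det := by
        rw [Finset.sum_div]
        refine Finset.sum_congr rfl fun i _ => ?_
        push_cast
        field_simp
      rw [h2, hj]
      field_simp
    · rw [abs_div, abs_mul, abs_two, div_le_iff₀ (by linarith), mul_comm]
      exact FR.cr_all G A hA hm i P

end Pool.Agent.Lib.SC
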