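import Pool.Agent.Lib.SC.Blue

/-! Block GAU: weights and kernels adapted to a gauge. -/

namespace Pool.Agent.Lib.SC

open Finset MeasureTheory Pool.Agent.Lib.WC

namespace GAU

lemma dot_comb {d u : ℕ} (ξ : Fin d → ℤ) (t : Fin u → ℝ) (e : Fin u → V d) :
    dot ξ (∑ i, t i • e i) = ∑ i, t i * dot ξ (e i) := by
  simp only [dot, Finset.sum_apply, Pi.smul_apply, smul_eq_mul, mul_sum]
  rw [sum_comm]
  exact sum_congr rfl fun i _ => sum_congr rfl fun j _ => by ring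

end GAU

theorem blk_GAU (hB : Bas) (hM : St_SLM) (hW : St_SLW) (hS : St_SLB) (hF : St_FR) : St_GAU := by
  intro d L
  obtain ⟨C₁, h1, hC₁⟩ := hM d (L + 2) L
  obtain ⟨C₂, h2, hC₂⟩ := hM d (2 * (L + 1)) L
  obtain ⟨C₃, h3, hC₃⟩ := hW.up d (L + 2) 2 (by omega)
  have p1 : 0 ≤ C₁ * 2 ^ L := by positivity
  have p2 : 0 ≤ C₂ * 2 ^ L := by positivity
  have p4 : (0 : ℝ) ≤ d * (L + 1 : ℕ) := by positivity
  refine ⟨C₁ * 2 ^ L + C₂ * 2 ^ L + C₃ + d * (L + 1 : ℕ), by linarith, fun G hG => ?_⟩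
  obtain ⟨e, he1, he2, he3⟩ := hF d G hG
  refine ⟨⟨sW e (L + 2), hB.sl0.probW d d (L + 2) e (by omega), fun F hF1 hF2 x P => ?_, ?_,
    fun o f hf x => ?_⟩, sK e (2 * (L + 1)), hB.sl0.probK d d _ e (by omega), ?_, fun F hF1 => ?_⟩
  · obtain ⟨t, ht1, ht2⟩ := he3 P
    have h4 := hW.dbl d d (L + 2) e F t x (by omega) he1 hF1 hF2
    rw [← ht1] at h4
    refine h4.trans (mul_le_mul_of_nonneg_right ?_ (hB.cv1.nonneg d _ F x hF2))
    rw [one_mul, pow_mul]
    calc ∏ i, (1 + |t i|) ^ (L + 2) ≤ ∏ _i : Fin d, (1 + G P) ^ (L + 2) :=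
          prod_le_prod (fun _ _ => by positivity) fun i _ => by gcongr; exact ht2 i
      _ = _ := by rw [prod_const, card_univ, Fintype.card_fin]
  · have h4 := ((hC₁ d e G 2 (by norm_num) he2).1 le_rfl).2
    exact ⟨h4.1, h4.2.trans (by linarith)⟩
  · have h4 := hC₃ d e (fun i => o (e i)) f x he1 (Sp_mono (fun ω hω i =>
      (hω (e i)).trans (by exact_mod_cast he2 i)) hf)
    exact h4.trans (mul_le_mul_of_nonneg_right (by linarith)
      (hB.cv1.nonneg d _ _ x fun _ => by positivity))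
  · have h4 := ((hC₂ d e G 2 (by norm_num) he2).1 (by omega)).1
    exact ⟨h4.1, h4.2.trans (by linarith)⟩
  · refine Sp_mono (fun ξ hξ P => ?_) (hS d (L + 1) e F (by omega) he1
      (fun P => (he3 P).imp fun _ h => h.1) hF1)
    obtain ⟨t, ht1, ht2⟩ := he3 P
    have hG0 : 0 ≤ G P := apply_nonneg G P
    have h4 : |dot ξ P| ≤ d * ((L + 1 : ℕ) * G P) := by
      conv_lhs => rw [ht1, GAU.dot_comb]
      refine (abs_sum_le_sum_abs _ _).trans ((sum_le_card_nsmul _ _ ((L + 1 : ℕ) * G P)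
        fun i _ => ?_).trans (by rw [card_univ, Fintype.card_fin, nsmul_eq_mul]))
      rw [abs_mul, mul_comm]
      exact mul_le_mul (hξ i) (ht2 i) (abs_nonneg _) (by positivity)
    refine h4.trans ?_
    rw [← mul_assoc]
    exact mul_le_mul_of_nonneg_right (by linarith) hG0

end Pool.Agent.Lib.SC
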