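import Pool.Agent.Lib.SC.Blue

/-! Taylor coefficients and gauges. -/

namespace Pool.Agent.Lib.SC

open MeasureTheory Finset Pool.Agent.Lib.WC

namespace GE0

theorem key0 (n i : ℕ) (x c : ℝ) :
    ∑ l ∈ range (n + 1), (l.choose i : ℝ) * x ^ (l - i) * ((n.choose l : ℝ) * c ^ (n - l)) =
      (n.choose i : ℝ) * (x + c) ^ (n - i) := by
  rcases lt_or_ge n i with h | h
  · rw [Nat.choose_eq_zero_of_lt h]
    simp only [Nat.cast_zero, zero_mul]
    refine Finset.sum_eq_zero fun l hl => ?_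
    have : l < i := by have := Finset.mem_range.mp hl; omega
    simp [Nat.choose_eq_zero_of_lt this]
  · obtain ⟨k, rfl⟩ := Nat.exists_eq_add_of_le h
    rw [show i + k + 1 = i + (k + 1) by ring, Finset.sum_range_add]
    have h0 : ∑ l ∈ range i, (l.choose i : ℝ) * x ^ (l - i) *
        (((i + k).choose l : ℝ) * c ^ (i + k - l)) = 0 := by
      refine Finset.sum_eq_zero fun l hl => ?_
      simp [Nat.choose_eq_zero_of_lt (Finset.mem_range.mp hl)]
    rw [h0, zero_add, Nat.add_sub_cancel_left, add_pow, Finset.mul_sum]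
    refine Finset.sum_congr rfl fun l _ => ?_
    have h1 : (i + k).choose (i + l) * (i + l).choose i = (i + k).choose i * k.choose l := by
      have := Nat.choose_mul (n := i + k) (k := i + l) (s := i) (by omega)
      simpa [Nat.add_sub_cancel_left] using this
    have h2 : (((i + k).choose (i + l) : ℕ) : ℝ) * ((i + l).choose i : ℝ) =
        ((i + k).choose i : ℝ) * (k.choose l : ℝ) := by exact_mod_cast h1
    rw [Nat.add_sub_cancel_left, show i + k - (i + l) = k - l by omega]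
    linear_combination (x ^ l * c ^ (k - l)) * h2

theorem key1 (d n i : ℕ) (h : n ≤ d) (x c : ℝ) :
    ∑ l ∈ range (d + 1), (l.choose i : ℝ) * x ^ (l - i) * ((n.choose l : ℝ) * c ^ (n - l)) =
      (n.choose i : ℝ) * (x + c) ^ (n - i) := by
  rw [← key0 n i x c]
  symm
  refine Finset.sum_subset (Finset.range_subset_range.mpr (by omega)) fun l _ hl => ?_
  have : n < l := by
    have : ¬ l < n + 1 := fun h' => hl (Finset.mem_range.mpr h')
    omega
  simp [Nat.choose_eq_zero_of_lt this]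

theorem dot_mom (d : ℕ) (m : ℤ) (P : V d) : dot (mom d m) P = ev m P := by
  unfold dot ev mom
  refine Finset.sum_congr rfl fun j _ => ?_
  push_cast
  ring

theorem ev_sub (d : ℕ) (t c : ℝ) (P : V d) :
    ev t P - ev c P = ∑ i ∈ range d, tc c (i + 1) P * (t - c) ^ (i + 1) := by
  unfold ev tc
  simp only [Finset.sum_mul]
  rw [Finset.sum_comm, ← Finset.sum_sub_distrib]
  refine Finset.sum_congr rfl fun j _ => ?_
  have h := key1 d (j.val + 1) 0 (by omega) (t - c) c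
  rw [Finset.sum_range_succ'] at h
  simp only [Nat.choose_zero_right, Nat.cast_one, one_mul, Nat.sub_zero, pow_zero,
    sub_add_cancel] at h
  have h2 : ∑ i ∈ range d, ((j.val + 1).choose (i + 1) : ℝ) * c ^ (j.val + 1 - (i + 1)) * P j *
      (t - c) ^ (i + 1) = P j * ∑ i ∈ range d, (t - c) ^ (i + 1) *
        (((j.val + 1).choose (i + 1) : ℝ) * c ^ (j.val + 1 - (i + 1))) := by
    rw [Finset.mul_sum]
    exact Finset.sum_congr rfl fun i _ => by ring
  rw [h2, ← h]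
  ring

theorem tc_shift (d : ℕ) (c c' : ℝ) (i : ℕ) (P : V d) (hi : 1 ≤ i) :
    tc c' i P = ∑ m ∈ range d, ((m + 1).choose i : ℝ) * (c' - c) ^ (m + 1 - i) * tc c (m + 1) P := by
  unfold tc
  simp only [Finset.mul_sum]
  rw [Finset.sum_comm]
  refine Finset.sum_congr rfl fun j _ => ?_
  have h := key1 d (j.val + 1) i (by omega) (c' - c) c
  rw [Finset.sum_range_succ', Nat.choose_eq_zero_of_lt (show 0 < i by omega)] at h
  simp only [Nat.cast_zero, zero_mul, add_zero, sub_add_cancel] at h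
  rw [← h, Finset.sum_mul]
  exact Finset.sum_congr rfl fun m _ => by ring

theorem tc_zero (d : ℕ) (c : ℝ) (i : ℕ) (P : V d) (h : d < i) : tc c i P = 0 := by
  unfold tc
  refine Finset.sum_eq_zero fun j _ => ?_
  have : j.val + 1 < i := by have := j.isLt; omega
  simp [Nat.choose_eq_zero_of_lt this]

theorem tc_orig (d : ℕ) (P : V d) (j : Fin d) : tc 0 (j.val + 1) P = P j := by
  unfold tc
  rw [Finset.sum_eq_single j]
  · simp
  · intro l _ hl
    have hne : l.val ≠ j.val := fun h => hl (Fin.ext h)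
    rcases lt_or_gt_of_ne hne with h | h
    · simp [Nat.choose_eq_zero_of_lt (show l.val + 1 < j.val + 1 by omega)]
    · have : l.val + 1 - (j.val + 1) ≠ 0 := by omega
      rw [zero_pow this]; simp
  · simp

theorem bx_le (d r : ℕ) (H c A ρ : ℝ) (P : V d) : bx r H P ≤ gn r H c A ρ P := by
  rw [gn_apply]
  have := apply_nonneg (pn (d := d) c A ρ) P
  linarith

theorem pn_le (d r : ℕ) (H c A ρ : ℝ) (P : V d) : pn c A ρ P ≤ gn r H c A ρ P := by
  rw [gn_apply]
  have := apply_nonneg (bx (d := d) r H) P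
  linarith

theorem defn (d r : ℕ) (H c A ρ : ℝ) (P : V d) (hA : A ≠ 0) (hρ : ρ ≠ 0)
    (h : gn r H c A ρ P = 0) : P = 0 := by
  have h1 : pn c A ρ P = 0 :=
    le_antisymm (h ▸ pn_le d r H c A ρ P) (apply_nonneg _ _)
  rw [pn_apply, Finset.sum_eq_zero_iff_of_nonneg (fun i _ => by positivity)] at h1
  have h2 : ∀ i ∈ range d, tc c (i + 1) P = 0 := fun i hi => by
    have h3 := h1 i hi
    have h4 : 0 < |ρ| * |A| ^ i := by
      have := abs_pos.mpr hA
      have := abs_pos.mpr hρ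
      positivity
    rcases mul_eq_zero.mp h3 with h5 | h5
    · exact abs_eq_zero.mp h5
    · exact absurd h5 h4.ne'
  funext j
  rw [← tc_orig d P j, tc_shift d c 0 _ P (by omega)]
  refine Finset.sum_eq_zero fun m hm => ?_
  rw [h2 m hm, mul_zero]

theorem sum_choose_le (d m : ℕ) (hm : m < d) :
    ∑ i ∈ range d, (((m + 1).choose (i + 1) : ℕ) : ℝ) ≤ 2 ^ d := by
  have h := key1 d (m + 1) 0 (by omega) 1 1
  rw [Finset.sum_range_succ'] at h
  simp only [Nat.choose_zero_right, Nat.cast_one, one_mul, Nat.sub_zero, one_pow, mul_one] at h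
  have h2 : ((1 : ℝ) + 1) ^ (m + 1) ≤ 2 ^ d := by
    rw [show (1 : ℝ) + 1 = 2 by norm_num]
    exact pow_le_pow_right₀ (by norm_num) (by omega)
  linarith

theorem pn_shift (d : ℕ) (c c' A A' ρ ρ' F : ℝ) (P : V d) (hc : |c' - c| ≤ A) (hA' : 0 ≤ A')
    (hA : A' ≤ A) (hρ : 0 ≤ ρ) (hρ' : 0 ≤ ρ') (hF : 0 ≤ F) (hρρ : ρ' ≤ F * ρ) :
    pn c' A' ρ' P ≤ 2 ^ d * F * pn c A ρ P := by
  have hA0 : 0 ≤ A := hA'.trans hA
  rw [pn_apply, pn_apply, abs_of_nonneg hA', abs_of_nonneg hρ', abs_of_nonneg hA0,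
    abs_of_nonneg hρ]
  have h1 : ∀ i ∈ range d, |tc c' (i + 1) P| * (ρ' * A' ^ i) ≤
      ∑ m ∈ range d, (((m + 1).choose (i + 1) : ℕ) : ℝ) *
        (F * (|tc c (m + 1) P| * (ρ * A ^ m))) := by
    intro i _
    rw [tc_shift d c c' (i + 1) P (by omega)]
    refine le_trans (mul_le_mul_of_nonneg_right (Finset.abs_sum_le_sum_abs _ _)
      (by positivity)) ?_
    rw [Finset.sum_mul]
    refine Finset.sum_le_sum fun m _ => ?_
    rcases lt_or_ge m i with h | h
    · simp [Nat.choose_eq_zero_of_lt (show m + 1 < i + 1 by omega)]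
    · obtain ⟨k, rfl⟩ := Nat.exists_eq_add_of_le h
      rw [show i + k + 1 - (i + 1) = k by omega, abs_mul, abs_mul, abs_pow, Nat.abs_cast]
      have h2 : |c' - c| ^ k ≤ A ^ k := pow_le_pow_left₀ (abs_nonneg _) hc k
      have h3 : A' ^ i ≤ A ^ i := pow_le_pow_left₀ hA' hA i
      have h4 : |c' - c| ^ k * (ρ' * A' ^ i) ≤ A ^ k * (F * ρ * A ^ i) :=
        mul_le_mul h2 (mul_le_mul hρρ h3 (by positivity) (by positivity)) (by positivity)
          (by positivity)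
      have h5 := mul_le_mul_of_nonneg_left h4
        (show 0 ≤ (((i + k + 1).choose (i + 1) : ℕ) : ℝ) * |tc c (i + k + 1) P| by positivity)
      rw [pow_add]
      nlinarith [h5]
  refine le_trans (Finset.sum_le_sum h1) ?_
  rw [Finset.sum_comm, Finset.mul_sum]
  refine Finset.sum_le_sum fun m hm => ?_
  rw [← Finset.sum_mul, mul_assoc]
  exact mul_le_mul_of_nonneg_right (sum_choose_le d m (Finset.mem_range.mp hm)) (by positivity)

theorem shift (d r : ℕ) (H c c' A A' ρ ρ' F : ℝ) (P : V d) (hc : |c' - c| ≤ A) (hA' : 0 ≤ A')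
    (hA : A' ≤ A) (hρ : 0 ≤ ρ) (hρ' : 0 ≤ ρ') (hF : 1 ≤ F) (hρρ : ρ' ≤ F * ρ) :
    gn r H c' A' ρ' P ≤ 2 ^ d * F * gn r H c A ρ P := by
  rw [gn_apply, gn_apply, mul_add]
  have h1 := pn_shift d c c' A A' ρ ρ' F P hc hA' hA hρ hρ' (by linarith) hρρ
  have h2 : (1 : ℝ) ≤ 2 ^ d * F := by
    have : (1 : ℝ) ≤ 2 ^ d := one_le_pow₀ (by norm_num)
    nlinarith
  have h3 := apply_nonneg (bx (d := d) r H) P
  nlinarith

/-- Evaluation as a linear map. -/
def evL (d : ℕ) (c : ℝ) : V d →ₗ[ℝ] ℝ where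
  toFun := ev c
  map_add' := fun P R => by simp [ev, add_mul, Finset.sum_add_distrib]
  map_smul' := fun t P => by
    simp only [ev, Pi.smul_apply, smul_eq_mul, RingHom.id_apply, Finset.mul_sum]
    exact Finset.sum_congr rfl fun j _ => by ring

theorem cap (d r : ℕ) (H : ℝ) (c σ : ℕ) : ∃ o : V d →ₗ[ℝ] ℝ, ∀ m : ℕ, c ≤ m → m < c + σ →
    ∀ P : V d, |dot (mom d (m : ℤ)) P - o P| ≤ gn r H (c : ℝ) (σ : ℝ) (σ : ℝ) P := by
  refine ⟨evL d c, fun m h1 h2 P => ?_⟩
  rw [dot_mom]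
  change |ev _ P - ev (c : ℝ) P| ≤ _
  refine le_trans ?_ (pn_le d r H _ _ _ P)
  rw [ev_sub, pn_apply]
  refine le_trans (Finset.abs_sum_le_sum_abs _ _) (Finset.sum_le_sum fun i _ => ?_)
  rw [abs_mul, abs_pow, Nat.abs_cast, ← pow_succ']
  refine mul_le_mul_of_nonneg_left (pow_le_pow_left₀ (abs_nonneg _) ?_ _) (abs_nonneg _)
  have h3 : (c : ℝ) ≤ m := by exact_mod_cast h1
  have h4 : (m : ℝ) ≤ c + σ := by exact_mod_cast h2.le
  push_cast
  rw [abs_of_nonneg (by linarith)]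
  linarith

theorem jet_mono (d k r : ℕ) (C C' N c : ℝ) (Ψ : ℕ → V d) (hN : 0 ≤ N) (hC : C ≤ C')
    (h : Jet k r C N c Ψ) : Jet k r C' N c Ψ where
  rat := h.rat
  low := h.low
  high := fun μ i h1 h2 =>
    (h.high μ i h1 h2).trans (mul_le_mul_of_nonneg_right hC (pow_nonneg hN _))
  gap := h.gap
  coef := fun μ j h1 h2 =>
    (h.coef μ j h1 h2).trans (mul_le_mul_of_nonneg_right hC (pow_nonneg hN _))

theorem th_mono (d r k : ℕ) (H H' N ρ ρ' A A' : ℝ) (hN : 0 ≤ N) (hH : H' ≤ H) (hρ : 0 ≤ ρ)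
    (hρρ : ρ ≤ ρ') (hA : 0 ≤ A) (hAA : A ≤ A') (h : Th d r k H N ρ A) : Th d r k H' N ρ' A' := by
  unfold Th at h ⊢
  refine le_trans (mul_le_mul_of_nonneg_right hH (pow_nonneg hN _)) (h.trans ?_)
  refine mul_le_mul_of_nonneg_right ?_ (pow_nonneg hN _)
  exact mul_le_mul hρρ (pow_le_pow_left₀ hA hAA _) (pow_nonneg hA _) (hρ.trans hρρ)

theorem isQ_smul (d : ℕ) (t : ℝ) (P : V d) (ht : ∃ q : ℚ, t = q) (h : IsQ P) : IsQ (t • P) := by
  intro j
  obtain ⟨q, hq⟩ := ht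
  obtain ⟨q', hq'⟩ := h j
  exact ⟨q * q', by simp [hq, hq']⟩

theorem dot_add (d : ℕ) (ξ : Fin d → ℤ) (P R : V d) : dot ξ (P + R) = dot ξ P + dot ξ R := by
  simp [dot, mul_add, Finset.sum_add_distrib]

theorem dot_smul (d : ℕ) (ξ : Fin d → ℤ) (t : ℝ) (P : V d) : dot ξ (t • P) = t * dot ξ P := by
  simp only [dot, Pi.smul_apply, smul_eq_mul, Finset.mul_sum]
  exact Finset.sum_congr rfl fun j _ => by ring

theorem dot_sub (d : ℕ) (ξ ξ' : Fin d → ℤ) (P : V d) : dot (ξ - ξ') P = dot ξ P - dot ξ' P := by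
  simp [dot, sub_mul, Finset.sum_sub_distrib]

theorem dot_sum (d : ℕ) (ι : Type) (s : Finset ι) (ξ : ι → Fin d → ℤ) (P : V d) :
    dot (∑ a ∈ s, ξ a) P = ∑ a ∈ s, dot (ξ a) P := by
  simp only [dot, Finset.sum_apply, Int.cast_sum, Finset.sum_mul]
  exact Finset.sum_comm

end GE0

theorem blk_GE0 : St_GE0 :=
  ⟨GE0.dot_mom, GE0.ev_sub, GE0.tc_shift, GE0.tc_zero, GE0.defn, GE0.pn_shift, GE0.shift,
    GE0.bx_le, GE0.cap, GE0.jet_mono, GE0.th_mono, GE0.isQ_smul, GE0.dot_add, GE0.dot_smul,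
    GE0.dot_sub, GE0.dot_sum⟩

end Pool.Agent.Lib.SC
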