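import Pool.Agent.Lib.SC.Blue

/-! Block GE2: sizes of the jets. -/

namespace Pool.Agent.Lib.SC

open Finset

namespace GE2

variable {d k r μ : ℕ} {C₀ N c : ℝ} {Ψ : ℕ → V d}

lemma high1 (hN : 0 < N) (hJ : Jet k r C₀ N c Ψ) (h1 : 1 ≤ μ) (h2 : μ ≤ k) (n : ℕ) :
    |tc c (μ + n) (Ψ μ)| * N ^ n ≤ C₀ := by
  have h := hJ.high μ (μ + n) h1 h2
  rw [pow_add, mul_comm (N ^ μ), ← mul_assoc] at h
  exact le_of_mul_le_mul_right h (pow_pos hN μ)

lemma tail (hN : 0 < N) (hJ : Jet k r C₀ N c Ψ) (h1 : 1 ≤ μ) (h2 : μ ≤ k) (hC : 0 ≤ C₀) {A : ℝ}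
    (hA : 0 ≤ A) (hAN : A ≤ N) (m : ℕ) :
    |tc c (m + 1) (Ψ μ) - if m + 1 = μ then 1 else 0| * A ^ (m + 1) * N ≤ C₀ * A ^ (μ + 1) := by
  by_cases hm : m + 1 ≤ k
  · rw [hJ.low μ (m + 1) h1 h2 (by omega) hm, sub_self, abs_zero, zero_mul, zero_mul]
    positivity
  · obtain ⟨n, hn⟩ : ∃ n, m + 1 = μ + (n + 1) := ⟨m - μ, by omega⟩
    rw [if_neg (by omega), sub_zero, hn]
    have h := high1 hN hJ h1 h2 (n + 1)
    have h3 : A ^ n ≤ N ^ n := pow_le_pow_left₀ hA hAN n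
    calc |tc c (μ + (n + 1)) (Ψ μ)| * A ^ (μ + (n + 1)) * N
        = |tc c (μ + (n + 1)) (Ψ μ)| * (A ^ n * N) * A ^ (μ + 1) := by ring
      _ ≤ |tc c (μ + (n + 1)) (Ψ μ)| * (N ^ n * N) * A ^ (μ + 1) := by gcongr
      _ ≤ C₀ * A ^ (μ + 1) := by rw [← pow_succ]; gcongr

lemma sum_bd {n : ℕ} {f : ℕ → ℝ} {B : ℝ} (h : ∀ i ∈ range n, f i ≤ B) :
    ∑ i ∈ range n, f i ≤ n * B := by
  simpa using sum_le_card_nsmul (range n) f B h

end GE2

theorem blk_GE2 (h : St_GE0) : St_GE2 := by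
  intro d k r C₀ hk hrk hkd hC
  have hd : (1 : ℝ) ≤ d := by exact_mod_cast hk.trans hkd
  have h2d : (1 : ℝ) ≤ 2 ^ d := one_le_pow₀ (by norm_num)
  have hC0 : 0 ≤ C₀ := by linarith
  have hle : (d : ℝ) * C₀ ≤ d * (2 ^ d * C₀) :=
    mul_le_mul_of_nonneg_left (le_mul_of_one_le_left hC0 h2d) (by linarith)
  refine ⟨d * (2 ^ d * C₀), one_le_mul_of_one_le_of_one_le hd
    (one_le_mul_of_one_le_of_one_le h2d hC), fun N c Ψ μ hN hJ h1 h2 =>
    ⟨fun A ρ hA hAN hρ => ?_, fun H ρ A hH hA hAN hN1 hT => ?_, fun t A ht hAN => ?_,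
      fun c' A i hc hAN hi => ?_⟩⟩
  · rw [pn_apply, abs_of_nonneg hρ, abs_of_pos hA]
    refine (GE2.sum_bd (B := C₀ * (ρ * A ^ (μ - 1))) fun i _ => ?_).trans ?_
    · by_cases hi : i + 1 < μ
      · rw [hJ.low μ (i + 1) h1 h2 (by omega) (by omega), if_neg (by omega), abs_zero, zero_mul]
        positivity
      · obtain ⟨n, hn⟩ : ∃ n, i = μ - 1 + n := ⟨i + 1 - μ, by omega⟩
        have h3 := GE2.high1 hN hJ h1 h2 n
        have h4 : A ^ n ≤ N ^ n := pow_le_pow_left₀ hA.le hAN n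
        rw [show i + 1 = μ + n by omega, hn, pow_add]
        calc |tc c (μ + n) (Ψ μ)| * (ρ * (A ^ (μ - 1) * A ^ n))
            = |tc c (μ + n) (Ψ μ)| * A ^ n * (ρ * A ^ (μ - 1)) := by ring
          _ ≤ |tc c (μ + n) (Ψ μ)| * N ^ n * (ρ * A ^ (μ - 1)) := by gcongr
          _ ≤ _ := by gcongr
    · rw [← mul_assoc, mul_assoc _ ρ]
      exact mul_le_mul_of_nonneg_right hle (by positivity)
  · obtain ⟨g, hg⟩ : ∃ g, d + r + 1 = g + k := ⟨d + r + 1 - k, by omega⟩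
    obtain ⟨n, hn⟩ : ∃ n, k = μ + n := ⟨k - μ, by omega⟩
    unfold Th at hT
    have hρ : 0 ≤ ρ := by
      have h3 : 0 ≤ ρ * (A ^ (k - 1) * N ^ (d + r + 1)) := by
        rw [← mul_assoc]; exact le_trans (by positivity) hT
      exact nonneg_of_mul_nonneg_left h3 (by positivity)
    have h3 : H * N ^ k ≤ ρ * A ^ (k - 1) * N ^ g := by
      rw [hg, two_mul, pow_add, pow_add, ← mul_assoc, ← mul_assoc] at hT
      exact le_of_mul_le_mul_right hT (pow_pos hN k)
    have h4 : H * N ^ μ ≤ ρ * A ^ (μ - 1) * N ^ g := by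
      have h5 : A ^ n ≤ N ^ n := pow_le_pow_left₀ hA.le hAN n
      refine le_of_mul_le_mul_right ?_ (pow_pos hN n)
      calc H * N ^ μ * N ^ n = H * N ^ k := by rw [hn, pow_add, mul_assoc]
        _ ≤ ρ * A ^ (k - 1) * N ^ g := h3
        _ = ρ * A ^ (μ - 1) * N ^ g * A ^ n := by
          rw [show k - 1 = μ - 1 + n by omega, pow_add]; ring
        _ ≤ _ := by gcongr
    have h5 : ∀ j : Fin d, (if r ≤ j.val then |H| * |Ψ μ j| else 0) ≤ C₀ * (ρ * A ^ (μ - 1)) := by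
      intro j
      split_ifs with hj
      · by_cases h6 : j.val + k < r + d
        · rw [hJ.gap μ j hj h6, abs_zero, mul_zero]; positivity
        · rw [abs_of_nonneg hH]
          have h7 := hJ.coef μ j h1 h2
          have h8 : N ^ g ≤ N ^ (j.val + 1) := pow_le_pow_right₀ hN1 (by omega)
          refine le_of_mul_le_mul_right ?_ (pow_pos hN g)
          calc H * |Ψ μ j| * N ^ g ≤ H * |Ψ μ j| * N ^ (j.val + 1) := by gcongr
            _ = H * (|Ψ μ j| * N ^ (j.val + 1)) := by ring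
            _ ≤ H * (C₀ * N ^ μ) := by gcongr
            _ = C₀ * (H * N ^ μ) := by ring
            _ ≤ C₀ * (ρ * A ^ (μ - 1) * N ^ g) := by gcongr
            _ = _ := by ring
      · positivity
    rw [bx_apply]
    refine (sum_le_card_nsmul _ _ _ fun j _ => h5 j).trans ?_
    rw [card_univ, Fintype.card_fin, nsmul_eq_mul, ← mul_assoc, mul_assoc _ ρ]
    exact mul_le_mul_of_nonneg_right hle (by positivity)
  · have hA : 0 ≤ A := (abs_nonneg _).trans ht
    have e : (t - c) ^ μ = ∑ i ∈ range d, (if i + 1 = μ then 1 else 0) * (t - c) ^ (i + 1) := by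
      rw [sum_eq_single (μ - 1) (fun i _ hi => by rw [if_neg (by omega), zero_mul])
        (fun hi => absurd (mem_range.2 (by omega)) hi), if_pos (by omega), one_mul,
        Nat.sub_add_cancel h1]
    rw [h.ev_sub, e, ← sum_sub_distrib]
    refine (mul_le_mul_of_nonneg_right (abs_sum_le_sum_abs _ _) hN.le).trans ?_
    rw [sum_mul]
    refine (GE2.sum_bd (B := C₀ * A ^ (μ + 1)) fun i _ => ?_).trans ?_
    · rw [← sub_mul, abs_mul, abs_pow]
      refine le_trans ?_ (GE2.tail hN hJ h1 h2 hC0 hA hAN i)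
      gcongr
    · rw [← mul_assoc]
      exact mul_le_mul_of_nonneg_right hle (by positivity)
  · have hA : 0 ≤ A := (abs_nonneg _).trans hc
    have e : (μ.choose i : ℝ) * (c' - c) ^ (μ - i) = ∑ m ∈ range d,
        ((m + 1).choose i : ℝ) * (c' - c) ^ (m + 1 - i) * (if m + 1 = μ then 1 else 0) := by
      rw [sum_eq_single (μ - 1) (fun i _ hi => by rw [if_neg (by omega), mul_zero])
        (fun hi => absurd (mem_range.2 (by omega)) hi), if_pos (by omega), mul_one,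
        Nat.sub_add_cancel h1]
    rw [h.tc_shift d c c' i _ hi, e, ← sum_sub_distrib, mul_assoc]
    refine (mul_le_mul_of_nonneg_right (abs_sum_le_sum_abs _ _) (by positivity)).trans ?_
    rw [sum_mul]
    refine (GE2.sum_bd (B := 2 ^ d * (C₀ * A ^ (μ + 1))) fun m hm => ?_).trans (le_of_eq (by ring))
    by_cases him : i ≤ m + 1
    · have h3 := GE2.tail hN hJ h1 h2 hC0 hA hAN m
      have h4 : ((m + 1).choose i : ℝ) ≤ 2 ^ d := by
        have : (m + 1).choose i ≤ 2 ^ d := (Nat.choose_le_two_pow _ _).trans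
          (Nat.pow_le_pow_right (by norm_num) (mem_range.1 hm))
        exact_mod_cast this
      have h5 : A ^ (m + 1) = A ^ (m + 1 - i) * A ^ i := by rw [← pow_add, Nat.sub_add_cancel him]
      rw [← mul_sub, abs_mul, abs_mul, abs_pow, Nat.abs_cast]
      refine le_trans ?_ (mul_le_mul_of_nonneg_left h3 (by positivity))
      rw [h5]
      calc _ ≤ 2 ^ d * A ^ (m + 1 - i) * |tc c (m + 1) (Ψ μ) - if m + 1 = μ then 1 else 0| *
            (N * A ^ i) := by gcongr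
        _ = _ := by ring
    · rw [Nat.choose_eq_zero_of_lt (by omega)]
      simp only [Nat.cast_zero, zero_mul, sub_self, abs_zero]
      positivity

end Pool.Agent.Lib.SC
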