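import Pool.Agent.Lib.SC.Blue
import Pool.Agent.Lib.SCI.ITER

/-! The iteration. -/

namespace Pool.Agent.Lib.SC

theorem blk_ITER : SCI.St_ITER := SCI.blk_ITER

end Pool.Agent.Lib.SC
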