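import Pool.Agent.Lib.SC.Blue

namespace Pool.Agent.Lib.SC

open MeasureTheory Finset Pool.Agent.Lib.WC

namespace LOW

theorem min_sum (s : Finset ℕ) (u : ℕ → ℝ) (lam : ℝ) (hl : 0 ≤ lam) (hu : ∀ b ∈ s, 0 ≤ u b) :
    min (∑ b ∈ s, u b) lam ≤ ∑ b ∈ s, min (u b) lam := by
  by_cases h : ∀ b ∈ s, u b ≤ lam
  · refine (min_le_left _ _).trans (le_of_eq (Finset.sum_congr rfl fun b hb => ?_))
    exact (min_eq_left (h b hb)).symm
  · push Not at h
    obtain ⟨b, hb, hlt⟩ := h
    refine (min_le_right _ _).trans ?_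
    have := Finset.single_le_sum (f := fun b => min (u b) lam)
      (fun c hc => le_min (hu c hc) hl) hb
    rwa [min_eq_right hlt.le] at this

theorem min_mul (T S lam : ℝ) (hT : 1 ≤ T) (hl : 0 ≤ lam) :
    min (T * S) lam ≤ T * min S lam := by
  rcases le_total S lam with h | h
  · rw [min_eq_left h]; exact min_le_left _ _
  · rw [min_eq_right h]
    exact (min_le_right _ _).trans (le_mul_of_one_le_left hl hT)

end LOW

theorem blk_LOW (h : St_CV1) : St_LOW := by
  intro d M ν W K β _ _ _ _ W' f Ω C lam x hM hΩ hC hl hW' hf h1 h2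
  have cN : ∀ b, Continuous fun z => ‖f b z‖ ^ 2 := fun b => (hf b).norm.pow 2
  have cG : ∀ b, Continuous fun z => 1 + ‖f b z‖ ^ 2 := fun b => continuous_const.add (cN b)
  have cS : Continuous fun z => ‖∑ b ∈ range M, f b z‖ ^ 2 :=
    (continuous_finsetSum _ fun b _ => hf b).norm.pow 2
  have cF : Continuous fun z => 1 + ‖∑ b ∈ range M, f b z‖ ^ 2 := continuous_const.add cS
  set F : TT d → ℝ := fun z => 1 + ‖∑ b ∈ range M, f b z‖ ^ 2 with hF
  have cg : Continuous (cv W (cv ν F)) := h.cont d W _ (h.cont d ν _ cF)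
  have cK : Continuous (cv K (cv W (cv ν F))) := h.cont d K _ cg
  have hT : 1 ≤ Ω * C := one_le_mul_of_one_le_of_one_le hΩ hC
  have s1 : cv β (cv K fun y => min (cv W (cv ν F) y) lam) x ≤
      min (cv β (cv K (cv W (cv ν F))) x) lam := by
    refine le_trans ?_ (h.jmin d β _ lam x cK)
    exact h.mono d β _ _ x (h.cont d K _ (cg.min continuous_const)) (cK.min continuous_const)
      fun y => h.jmin d K _ lam y cg
  have e1 : cv K (cv W (cv ν F)) = cv ((ν.conv W).conv K) F := by
    rw [h.conv d (ν.conv W) K F cF, h.conv d ν W _ (h.cont d K _ cF),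
      h.comm d K W _ (h.cont d ν _ cF), h.comm d K ν _ cF, h.comm d W ν _ (h.cont d K _ cF)]
  have cB : ∀ b, Continuous (cv β (cv (W' b) fun z => 1 + ‖f b z‖ ^ 2)) := fun b => by
    have := hW' b
    exact h.cont d β _ (h.cont d (W' b) _ (cG b))
  have s2 : ∀ y, cv β F y ≤
      Ω * C * ∑ b ∈ range M, cv β (cv (W' b) fun z => 1 + ‖f b z‖ ^ 2) y := by
    intro y
    have a1 : cv β F y = 1 + cv β (fun z => ‖∑ b ∈ range M, f b z‖ ^ 2) y := by
      rw [hF, h.add d β (fun _ => 1) _ y continuous_const cS, h.const]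
    have a2 : ∀ b, cv β (cv (W' b) fun z => 1 + ‖f b z‖ ^ 2) y =
        1 + cv β (cv (W' b) fun z => ‖f b z‖ ^ 2) y := fun b => by
      have := hW' b
      have e : (cv (W' b) fun z => 1 + ‖f b z‖ ^ 2) =
          fun w => 1 + cv (W' b) (fun z => ‖f b z‖ ^ 2) w := by
        funext w
        rw [h.add d (W' b) (fun _ => 1) _ w continuous_const (cN b), h.const]
      rw [e, h.add d β (fun _ => 1) _ y continuous_const (h.cont d (W' b) _ (cN b)), h.const]
    have a3 : ∀ b, cv β (fun z => ‖f b z‖ ^ 2) y ≤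
        C * cv β (cv (W' b) fun z => ‖f b z‖ ^ 2) y := fun b => by
      have := hW' b
      rw [← h.smul]
      exact h.mono d β _ _ y (cN b) (continuous_const.mul (h.cont d (W' b) _ (cN b)))
        fun w => h2 b w
    have a4 : ∑ b ∈ range M, cv β (fun z => ‖f b z‖ ^ 2) y ≤
        C * ∑ b ∈ range M, cv β (cv (W' b) fun z => ‖f b z‖ ^ 2) y := by
      rw [Finset.mul_sum]
      exact Finset.sum_le_sum fun b _ => a3 b
    have a5 : (1 : ℝ) ≤ Ω * C * M :=
      one_le_mul_of_one_le_of_one_le hT (by exact_mod_cast hM)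
    simp only [a2, Finset.sum_add_distrib, Finset.sum_const, Finset.card_range, nsmul_eq_mul,
      mul_one]
    have a6 := mul_le_mul_of_nonneg_left a4 (zero_le_one.trans hΩ)
    have a7 := h1 y
    rw [a1]
    nlinarith
  have s3 : cv β (cv K (cv W (cv ν F))) x ≤ Ω * C * ∑ b ∈ range M,
      cv (W' b) (cv (((ν.conv W).conv K).conv β) fun z => 1 + ‖f b z‖ ^ 2) x := by
    rw [e1, h.comm d β _ F cF]
    refine (h.mono d _ _ (fun y => Ω * C * ∑ b ∈ range M,
      cv β (cv (W' b) fun z => 1 + ‖f b z‖ ^ 2) y) x (h.cont d β _ cF)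
      (continuous_const.mul (continuous_finsetSum _ fun b _ => cB b)) s2).trans (le_of_eq ?_)
    rw [h.smul, h.sum d _ ℕ (range M) _ x fun b _ => cB b]
    refine congrArg _ (Finset.sum_congr rfl fun b _ => ?_)
    have := hW' b
    rw [← h.conv d _ β _ (h.cont d (W' b) _ (cG b)), h.comm d _ (W' b) _ (cG b)]
  refine s1.trans ((min_le_min_right lam s3).trans ((LOW.min_mul _ _ _ hT hl).trans ?_))
  refine mul_le_mul_of_nonneg_left (LOW.min_sum _ _ _ hl fun b _ => ?_) (zero_le_one.trans hT)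
  exact h.nonneg d _ _ x fun y => h.nonneg d _ _ y fun z => by positivity

end Pool.Agent.Lib.SC
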