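import Pool.Agent.Lib.SC.Blue
import Pool.Agent.Lib.MP_4e7873_nt.Integ

/-! The small cube estimate from the core estimate. -/

namespace Pool.Agent.Lib.SC

open MeasureTheory Filter Finset WC

namespace MAIN

variable {d : ℕ}

lemma le_vol (x : TT d) {r : ℝ} (h0 : 0 ≤ r) (h1 : r ≤ 1) :
    r ^ d ≤ volume.real (Metric.closedBall x r) := by
  rw [closedBall_pi x h0, Measure.real, volume_pi_pi, ENNReal.toReal_prod]
  refine le_trans (by simp) (prod_le_prod (f := fun _ => r) (fun _ _ => h0) fun j _ => ?_)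
  rw [AddCircle.volume_closedBall, ENNReal.toReal_ofReal (le_min zero_le_one (by linarith))]
  exact le_min h1 (by linarith)

lemma cont_W {R : ℝ} (hR : 0 ≤ R) : Continuous fun x : TT d => ∏ j, wt R (x j) :=
  continuous_finsetProd _ fun j _ => (continuous_wt hR).comp (continuous_apply j)

lemma mass {R δ : ℝ} (hR : 1 ≤ R) {x ξ : TT d} (hx : x ∈ Metric.closedBall ξ δ) :
    (1 / 4 : ℝ) ^ d ≤ ∫ y in Metric.closedBall ξ (δ + 1 / R), ∏ j, wt R ((x - y) j) := by
  have hR0 : 0 < R := by linarith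
  have hc : Continuous fun y : TT d => ∏ j, wt R ((x - y) j) :=
    (cont_W hR0.le).comp (continuous_const.sub continuous_id)
  have h1 : Metric.closedBall x (1 / R) ⊆ Metric.closedBall ξ (δ + 1 / R) :=
    Metric.closedBall_subset_closedBall' (by rw [add_comm]; exact add_le_add_left hx _)
  refine le_trans ?_ (setIntegral_mono_set (cint hc)
    (Eventually.of_forall fun _ => prod_nonneg fun _ _ => wt_nonneg hR0.le _) h1.eventuallyLE)
  refine le_trans ?_ (setIntegral_ge_of_const_le_real (c := (R / 4) ^ d)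
    measurableSet_closedBall (measure_ne_top _ _) (fun y hy => ?_) (cint hc))
  · refine le_trans (le_of_eq ?_) (mul_le_mul_of_nonneg_left
      (le_vol x (by positivity) ((div_le_one hR0).2 hR)) (by positivity))
    rw [← mul_pow]
    congr 1
    field_simp
  · refine le_trans (by simp [div_pow]) (prod_le_prod (f := fun _ => R / 4) (fun _ _ => by positivity)
      fun j _ => ?_)
    have h2 := (mem_ball_iff (by positivity)).1 hy j
    rw [norm_sub_rev, le_div_iff₀ hR0] at h2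
    have h3 : 0 ≤ ‖x j - y j‖ * R := by positivity
    rw [wt, Pi.sub_apply, mul_comm R]
    exact div_le_div_of_nonneg_left hR0.le (by positivity) (by nlinarith)

/-- Averaging the weight over translates. -/
lemma cover {F : TT d → ℝ} (hF : Continuous F) (F0 : ∀ x, 0 ≤ F x) {R B δ : ℝ} (hR : 1 ≤ R)
    (hδ : 0 ≤ δ) (h : ∀ y, ∫ x, F (x + y) * ∏ j, wt R (x j) ≤ B) (ξ : TT d) :
    ∫ x in Metric.closedBall ξ δ, F x ≤ (8 * (δ + 1 / R)) ^ d * B := by
  have hR0 : 0 < R := by linarith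
  have hW := cont_W (d := d) hR0.le
  have W0 : ∀ x : TT d, 0 ≤ ∏ j, wt R (x j) := fun x => prod_nonneg fun _ _ => wt_nonneg hR0.le _
  have hB : 0 ≤ B := (integral_nonneg fun x => mul_nonneg (F0 _) (W0 _)).trans (h 0)
  set A := Metric.closedBall ξ (δ + 1 / R) with hA
  have hc : Continuous fun p : TT d × TT d => F p.1 * ∏ j, wt R ((p.1 - p.2) j) :=
    (hF.comp continuous_fst).mul (hW.comp (continuous_fst.sub continuous_snd))
  have hi : Integrable (Function.uncurry fun x y : TT d => F x * ∏ j, wt R ((x - y) j))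
      (volume.prod (volume.restrict A)) := cint hc
  have h1 : ∫ x, ∫ y in A, F x * ∏ j, wt R ((x - y) j) ≤ (2 * (δ + 1 / R)) ^ d * B := by
    rw [integral_integral_swap hi]
    refine (integral_mono hi.integral_prod_right (integrable_const B) fun y => ?_).trans ?_
    · refine le_of_eq_of_le ?_ (h y)
      rw [← int_add _ y]
      simp
    · rw [integral_const, measureReal_restrict_apply_univ, smul_eq_mul]
      exact mul_le_mul_of_nonneg_right (vol_ball ξ (by positivity)) hB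
  have h2 : (1 / 4 : ℝ) ^ d * ∫ x in Metric.closedBall ξ δ, F x ≤
      ∫ x, ∫ y in A, F x * ∏ j, wt R ((x - y) j) := by
    rw [← integral_const_mul]
    refine le_trans (setIntegral_mono_on (cint (continuous_const.mul hF))
      hi.integral_prod_left.integrableOn measurableSet_closedBall fun x hx => ?_)
      (setIntegral_le_integral hi.integral_prod_left (Eventually.of_forall fun x =>
        integral_nonneg fun y => mul_nonneg (F0 _) (W0 _)))
    simp only [Function.uncurry]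
    rw [integral_const_mul, mul_comm]
    exact mul_le_mul_of_nonneg_left (mass hR hx) (F0 x)
  have h3 : (8 * (δ + 1 / R)) ^ d * B = (2 * (δ + 1 / R)) ^ d * B / (1 / 4) ^ d := by
    rw [mul_div_right_comm, ← div_pow]
    congr 2
    ring
  rw [h3, le_div_iff₀' (by positivity)]
  exact h2.trans h1

/-- A dyadic piece of the Weyl sum. -/
noncomputable def pc (N n : ℕ) (x : TT d) : ℂ :=
  ∑ m ∈ Ico (2 ^ n) (2 ^ (n + 1)), (if m ≤ N then 1 else 0) * ch (mom d (m : ℕ)) x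

lemma cont_pc (N n : ℕ) : Continuous (pc N n : TT d → ℂ) := by unfold pc; fun_prop

lemma S_split {N L : ℕ} (hL : N < 2 ^ L) (x : TT d) : S N x = ∑ n ∈ range L, pc N n x := by
  have h1 : ∀ L : ℕ, ∑ n ∈ range L, pc N n x =
      ∑ m ∈ Ico 1 (2 ^ L), (if m ≤ N then 1 else 0) * ch (mom d (m : ℕ)) x := by
    intro L
    induction L with
    | zero => simp
    | succ L ih =>
      rw [sum_range_succ, ih, pc, sum_Ico_consecutive _ Nat.one_le_two_pow
        (Nat.pow_le_pow_right two_pos L.le_succ)]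
  rw [h1, ← sum_Ico_consecutive _ (by omega : 1 ≤ N + 1) hL, sum_eq_zero (s := Ico (N + 1) _)
    fun m hm => by rw [if_neg (by have := (mem_Ico.1 hm).1; omega), zero_mul], add_zero,
    sum_Ico_eq_sum_range, S, Nat.add_sub_cancel]
  refine sum_congr rfl fun m hm => ?_
  rw [if_pos (by have := mem_range.1 hm; omega), one_mul, ch_mom, add_comm 1 m]
  norm_cast

lemma log_bound {p ε : ℝ} (hp : 0 < p) (hε : 0 < ε) : ∃ C : ℝ, 1 ≤ C ∧ ∀ N : ℕ, 1 ≤ N →
    ((Nat.log 2 N + 1 : ℕ) : ℝ) ^ p ≤ C * (N : ℝ) ^ ε := by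
  have h0 : 0 < ε / p := by positivity
  refine ⟨(2 / (ε / p) + 1) ^ p, Real.one_le_rpow (by linarith [div_pos two_pos h0]) hp.le,
    fun N hN => ?_⟩
  have hN' : (1 : ℝ) ≤ N := by exact_mod_cast hN
  have h1 : (Nat.log 2 N : ℝ) * Real.log 2 ≤ Real.log N := by
    rw [← Real.log_pow]
    exact Real.log_le_log (by positivity) (by exact_mod_cast Nat.pow_log_le_self 2 (by omega))
  have h2 := Real.log_le_rpow_div (by linarith : (0 : ℝ) ≤ N) h0
  have h3 := Real.one_le_rpow hN' h0.le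
  have h4 := Real.log_two_gt_d9
  have h5 : (0 : ℝ) ≤ Nat.log 2 N := Nat.cast_nonneg _
  have h6 : ((Nat.log 2 N + 1 : ℕ) : ℝ) ≤ (2 / (ε / p) + 1) * (N : ℝ) ^ (ε / p) := by
    rw [add_mul, div_mul_eq_mul_div, mul_div_assoc]
    push_cast
    nlinarith
  refine (Real.rpow_le_rpow (by positivity) h6 hp.le).trans (le_of_eq ?_)
  rw [Real.mul_rpow (by positivity) (by positivity), ← Real.rpow_mul (by positivity),
    div_mul_cancel₀ _ hp.ne']

/-- One dyadic piece on a cube. -/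
lemma piece (h : St_CORE) (hd : 3 ≤ d) {s ε : ℝ} (h0 : (d : ℝ) * (d + 1) / 4 + 1 ≤ s)
    (h1 : s ≤ sd d) (hε : 0 < ε) : ∃ C : ℝ, 1 ≤ C ∧ ∀ (N n : ℕ) (δ : ℝ) (ξ : TT d), 2 ^ n ≤ N →
      0 ≤ δ → ∫ x in Metric.closedBall ξ δ, ‖pc N n x‖ ^ (2 * s) ≤
        C * (δ ^ d * (N : ℝ) ^ (s + ε) + (N : ℝ) ^ (2 * s - sd d + ε)) := by
  have hd' : (3 : ℝ) ≤ d := by exact_mod_cast hd
  have hd0 : (0 : ℝ) < d := by linarith
  have hs := sd_cast d
  have hs0 : 0 < s := lt_of_lt_of_le (by positivity) h0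
  obtain ⟨η, hη⟩ : ∃ η : ℝ, d * η = sd d - s := ⟨(sd d - s) / d, by field_simp⟩
  have η0 : 0 ≤ η := nonneg_of_mul_nonneg_right (by linarith : 0 ≤ (d : ℝ) * η) hd0
  obtain ⟨C, hC, h⟩ := h d η ε hd η0 (le_of_mul_le_mul_left (by
    rw [mul_sub, mul_one_div_cancel hd0.ne']; linarith) hd0) hε
  rw [show (d : ℝ) * (d + 1) - 2 * d * η = 2 * s by linarith,
    mul_div_cancel_left₀ _ two_ne_zero] at h
  refine ⟨32 ^ d * C, one_le_mul_of_one_le_of_one_le (one_le_pow₀ (by norm_num)) hC,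
    fun N n δ ξ hn hδ => ?_⟩
  have hn' : (2 : ℝ) ^ n ≤ N := by exact_mod_cast hn
  have hM : (0 : ℝ) < 2 ^ n := by positivity
  have h2 := cover (F := fun x : TT d => ‖pc N n x‖ ^ (2 * s))
    ((Real.continuous_rpow_const (by positivity)).comp (cont_pc N n).norm)
    (fun _ => by positivity) (R := 2 ^ ⌊n * η⌋₊) (B := C * ((2 : ℝ) ^ n) ^ (s + ε))
    (one_le_pow₀ one_le_two) hδ (fun y => by
      refine le_of_eq_of_le ?_ (h n ⌊n * η⌋₊
        (fun m => (if m ≤ N then 1 else 0) * ch (mom d (m : ℕ)) y)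
        ?_ fun m => by split_ifs <;> simp)
      · simp only [II, Wr, fa, Nat.zero_le, if_true, pc, ch_add_pt, mul_assoc, mul_comm (ch _ y),
          pow_succ 2 n, mul_two]
      · rw [← Real.rpow_natCast_mul two_pos.le, ← Real.rpow_natCast]
        exact Real.rpow_le_rpow_of_exponent_le one_le_two (Nat.floor_le (by positivity))) ξ
  have h3 : 1 / (2 : ℝ) ^ ⌊n * η⌋₊ ≤ 2 * ((2 : ℝ) ^ n) ^ (-η) := by
    have h4 : (2 : ℝ) * ((2 : ℝ) ^ n) ^ (-η) = 2 ^ (1 + n * -η) := by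
      rw [Real.rpow_add two_pos, Real.rpow_one, Real.rpow_natCast_mul two_pos.le]
    rw [h4, ← Real.rpow_natCast, one_div, ← Real.rpow_neg two_pos.le]
    exact Real.rpow_le_rpow_of_exponent_le one_le_two (by linarith [Nat.lt_floor_add_one (n * η)])
  have h4 : (δ + 1 / (2 : ℝ) ^ ⌊n * η⌋₊) ^ d ≤ 4 ^ d * (δ ^ d + ((2 : ℝ) ^ n) ^ (s - sd d)) := by
    have h5 : (((2 : ℝ) ^ n) ^ (-η)) ^ d = ((2 : ℝ) ^ n) ^ (s - sd d) := by
      rw [← Real.rpow_mul_natCast hM.le]
      congr 1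
      linarith
    calc _ ≤ (2 * (δ + ((2 : ℝ) ^ n) ^ (-η))) ^ d := pow_le_pow_left₀ (by positivity) (by linarith) d
      _ ≤ 2 ^ d * (2 ^ d * (δ ^ d + (((2 : ℝ) ^ n) ^ (-η)) ^ d)) := by
        rw [mul_pow]
        refine mul_le_mul_of_nonneg_left ((add_pow_le hδ (by positivity) d).trans ?_)
          (by positivity)
        gcongr
        exacts [one_le_two, Nat.sub_le _ _]
      _ = _ := by rw [h5, ← mul_assoc, ← mul_pow]; norm_num
  have h5 : ((2 : ℝ) ^ n) ^ (s + ε) ≤ (N : ℝ) ^ (s + ε) :=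
    Real.rpow_le_rpow hM.le hn' (by positivity)
  have h6 : ((2 : ℝ) ^ n) ^ (s - sd d) * ((2 : ℝ) ^ n) ^ (s + ε) ≤
      (N : ℝ) ^ (2 * s - sd d + ε) := by
    rw [← Real.rpow_add hM, show s - sd d + (s + ε) = 2 * s - sd d + ε by ring]
    exact Real.rpow_le_rpow hM.le hn' (by linarith)
  refine h2.trans ?_
  calc _ ≤ 8 ^ d * (4 ^ d * (δ ^ d + ((2 : ℝ) ^ n) ^ (s - sd d))) *
        (C * ((2 : ℝ) ^ n) ^ (s + ε)) := by rw [mul_pow]; gcongr
    _ = 32 ^ d * C * (δ ^ d * ((2 : ℝ) ^ n) ^ (s + ε) +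
        ((2 : ℝ) ^ n) ^ (s - sd d) * ((2 : ℝ) ^ n) ^ (s + ε)) := by
      rw [show (32 : ℝ) = 8 * 4 by norm_num, mul_pow]; ring
    _ ≤ _ := by gcongr

/-- The whole Weyl sum on a cube, in the middle range of exponents. -/
lemma key (h : St_CORE) (hd : 3 ≤ d) {s ε : ℝ} (h0 : (d : ℝ) * (d + 1) / 4 + 1 ≤ s)
    (h1 : s ≤ sd d) (hε : 0 < ε) : ∃ C : ℝ, 1 ≤ C ∧ ∀ (N : ℕ) (δ : ℝ) (ξ : TT d), 1 ≤ N →
      0 ≤ δ → ∫ x in Metric.closedBall ξ δ, ‖S N x‖ ^ (2 * s) ≤
        C * (δ ^ d * (N : ℝ) ^ (s + ε) + (N : ℝ) ^ (2 * s - sd d + ε)) := by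
  have hs : 1 ≤ s := le_trans (le_add_of_nonneg_left (by positivity)) h0
  obtain ⟨C, hC, h⟩ := piece h hd h0 h1 (half_pos hε)
  obtain ⟨C', hC', h'⟩ := log_bound (p := 2 * s) (by positivity) (half_pos hε)
  refine ⟨C' * C, one_le_mul_of_one_le_of_one_le hC' hC, fun N δ ξ hN hδ => ?_⟩
  have hN0 : (0 : ℝ) < N := by exact_mod_cast hN
  set L := Nat.log 2 N + 1 with hL
  have hL0 : (0 : ℝ) < L := by positivity
  have hc : ∀ n, Continuous fun x : TT d => ‖pc N n x‖ ^ (2 * s) := fun n =>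
    (Real.continuous_rpow_const (by positivity)).comp (cont_pc N n).norm
  calc _ ≤ ∫ x in Metric.closedBall ξ δ,
        (L : ℝ) ^ (2 * s - 1) * ∑ n ∈ range L, ‖pc N n x‖ ^ (2 * s) := by
        refine integral_mono (cint (FIN.cont N (by positivity)))
          (cint (continuous_const.mul (continuous_finsetSum _ fun n _ => hc n))) fun x => ?_
        beta_reduce
        rw [S_split (Nat.lt_pow_succ_log_self one_lt_two N) x]
        refine (Real.rpow_le_rpow (norm_nonneg _) (norm_sum_le _ _) (by positivity)).trans ?_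
        simpa using Real.rpow_sum_le_const_mul_sum_rpow_of_nonneg (range L)
          (f := fun n => ‖pc N n x‖) (p := 2 * s) (by linarith) fun _ _ => norm_nonneg _
    _ ≤ (L : ℝ) ^ (2 * s - 1) * (L * (C * (δ ^ d * (N : ℝ) ^ (s + ε / 2) +
        (N : ℝ) ^ (2 * s - sd d + ε / 2)))) := by
        rw [integral_const_mul, integral_finsetSum _ fun n _ => cint (hc n)]
        refine mul_le_mul_of_nonneg_left ((sum_le_card_nsmul _ _ _ fun n hn => h N n δ ξ ?_ hδ).trans
          (by simp)) (by positivity)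
        exact Nat.pow_le_of_le_log (by omega) (by have := mem_range.1 hn; omega)
    _ ≤ C' * (N : ℝ) ^ (ε / 2) * (C * (δ ^ d * (N : ℝ) ^ (s + ε / 2) +
        (N : ℝ) ^ (2 * s - sd d + ε / 2))) := by
        rw [← mul_assoc, ← Real.rpow_add_one hL0.ne', sub_add_cancel]
        exact mul_le_mul_of_nonneg_right (h' N hN) (by positivity)
    _ = _ := by
        rw [show s + ε = s + ε / 2 + ε / 2 by ring,
          show 2 * s - sd d + ε = 2 * s - sd d + ε / 2 + ε / 2 by ring,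
          Real.rpow_add hN0 (s + ε / 2), Real.rpow_add hN0 (2 * s - sd d + ε / 2)]
        ring

/-- Exponents above the critical one. -/
lemma above {s e C δ : ℝ} {N : ℕ} (hd : 1 ≤ d) (hN : 1 ≤ N) (hs : (sd d : ℝ) ≤ s) (A : Set (TT d))
    (hC : 0 ≤ C) (hδ : 0 ≤ δ) (h : ∫ x in A, ‖S N x‖ ^ (2 * (sd d : ℝ)) ≤ C * (N : ℝ) ^ (sd d + e)) :
    ∫ x in A, ‖S N x‖ ^ (2 * s) ≤
      C * (δ ^ d * (N : ℝ) ^ (s + e) + (N : ℝ) ^ (2 * s - sd d + e)) := by
  have hN0 : (0 : ℝ) < N := by exact_mod_cast hN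
  have hσ : (1 : ℝ) ≤ sd d := by exact_mod_cast one_le_sd hd
  have a1 := FIN.high N (p := 2 * sd d) (q := 2 * s - 2 * sd d) (by linarith) (by linarith) A
  rw [sub_add_cancel] at a1
  refine a1.trans ((mul_le_mul_of_nonneg_left h (by positivity)).trans ?_)
  rw [mul_left_comm, ← Real.rpow_add hN0,
    show 2 * s - 2 * (sd d : ℝ) + (sd d + e) = 2 * s - sd d + e by ring]
  exact mul_le_mul_of_nonneg_left (le_add_of_nonneg_left (by positivity)) hC

/-- The estimate on the torus with a constant. -/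
lemma torus (h : St_CORE) (hd : 1 ≤ d) (hd2 : d ≠ 2) {s ε : ℝ} (hs : 0 < s) (hε : 0 < ε) :
    ∃ C : ℝ, ∀ (N : ℕ) (δ : ℝ) (ξ : TT d), 2 ≤ N → 0 < δ → δ ≤ 1 →
      ((d : ℝ) * (d + 1) / 4 + 1 ≤ s ∨ (N : ℝ) ^ (1 / (d : ℝ) - (d + 1) / 4) ≤ δ) →
      ∫ x in Metric.closedBall ξ δ, ‖S N x‖ ^ (2 * s) ≤
        C * (δ ^ d * (N : ℝ) ^ (s + ε) + (N : ℝ) ^ (2 * s - sd d + ε)) := by
  rcases hd.eq_or_lt with rfl | hd1
  · obtain ⟨C, hC, h⟩ := stVM 1 ε le_rfl hε
    refine ⟨C, fun N δ ξ hN h0 h1 h2 => above le_rfl (by omega) ?_ _ (by linarith) h0.le ?_⟩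
    · have h3 : (1 : ℝ) < (N : ℝ) ^ (1 / ((1 : ℕ) : ℝ) - ((1 : ℕ) + 1) / 4) :=
        Real.one_lt_rpow (by exact_mod_cast hN) (by norm_num)
      have := h2.resolve_right (by linarith)
      norm_num at this ⊢
      linarith
    · refine (setIntegral_le_integral (cint (FIN.cont N (by positivity)))
        (Eventually.of_forall fun _ => by positivity)).trans (le_of_eq_of_le ?_ (h N (by omega)))
      exact integral_congr_ae (Eventually.of_forall fun x => by norm_cast)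
  have hd3 : 3 ≤ d := by omega
  have hd' : (3 : ℝ) ≤ d := by exact_mod_cast hd3
  have hσ := sd_cast d
  have h01 : (d : ℝ) * (d + 1) / 4 + 1 ≤ sd d := by nlinarith
  rcases le_total (sd d : ℝ) s with h1 | h1
  · obtain ⟨C, hC, h⟩ := key h hd3 h01 le_rfl hε
    refine ⟨2 * C, fun N δ ξ hN h2 h3 _ => above hd (by omega) h1 _ (by linarith) h2.le
      ((h N δ ξ (by omega) h2.le).trans ?_)⟩
    rw [show 2 * (sd d : ℝ) - sd d = sd d by ring, ← add_one_mul, ← mul_assoc]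
    have := pow_le_one₀ (n := d) h2.le h3
    exact mul_le_mul_of_nonneg_right (by nlinarith) (by positivity)
  rcases le_or_gt ((d : ℝ) * (d + 1) / 4 + 1) s with h0 | h0
  · obtain ⟨C, -, h⟩ := key h hd3 h0 h1 hε
    exact ⟨C, fun N δ ξ hN h2 _ _ => h N δ ξ (by omega) h2.le⟩
  obtain ⟨C, hC, h⟩ := key h hd3 le_rfl h01 hε
  refine ⟨2 ^ d * (2 * C), fun N δ ξ hN h2 h3 h4 => ?_⟩
  have hN0 : (0 : ℝ) < N := by positivity
  have a1 := h4.resolve_left h0.not_ge
  have a3 : (N : ℝ) ^ (2 * ((d : ℝ) * (d + 1) / 4 + 1) - sd d + ε) ≤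
      δ ^ d * (N : ℝ) ^ ((d : ℝ) * (d + 1) / 4 + 1 + ε) := by
    refine le_trans (le_of_eq ?_) (mul_le_mul_of_nonneg_right
      (pow_le_pow_left₀ (by positivity) a1 d) (by positivity))
    rw [← Real.rpow_mul_natCast hN0.le, ← Real.rpow_add hN0, hσ]
    congr 1
    field_simp
    ring
  refine (FIN.low N (by omega) (C := 2 * C) (e := ε) hs h0.le h2 (by linarith) hε.le ξ
    ((h N δ ξ (by omega) h2.le).trans (by nlinarith))).trans ?_
  exact mul_le_mul_of_nonneg_left (le_add_of_nonneg_right (by positivity)) (by positivity)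

end MAIN

open MP_4e7873_nt in
theorem blk_MAIN (_hB : Bas) (h : St_CORE) : St_MAIN := by
  intro d s ε hd hs hε
  rcases eq_or_ne d 2 with rfl | hd2
  · obtain ⟨N₀, h⟩ := quadratic_case s ε hs hε
    refine ⟨max N₀ 1, fun N hN δ h0 h1 h2 ξ => ?_⟩
    have hN' : (1 : ℝ) ≤ N := by exact_mod_cast le_of_max_le_right hN
    refine (h N (le_of_max_le_left hN) δ h0 h1 (h2.imp (fun h => ?_) fun h => ?_) ξ).trans
      (le_of_eq (by norm_num))
    · norm_num at h
      linarith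
    · exact (Real.rpow_le_rpow_of_exponent_le hN' (by norm_num)).trans h
  obtain ⟨C, h⟩ := MAIN.torus h hd hd2 hs (half_pos hε)
  obtain ⟨N₀, hN₀⟩ := eventually_atTop.1 ((((tendsto_rpow_atTop (half_pos hε)).comp
    tendsto_natCast_atTop_atTop).eventually_ge_atTop C).and (eventually_ge_atTop 2))
  refine ⟨N₀, fun N hN δ h0 h1 h2 ξ => (stBR d N s δ ξ hs h0 h1).trans ?_⟩
  obtain ⟨hbig, hN2⟩ := hN₀ N hN
  have hN0 : (0 : ℝ) < N := by positivity
  refine (h N δ _ hN2 h0 h1 h2).trans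
    ((mul_le_mul_of_nonneg_right hbig (by positivity)).trans (le_of_eq ?_))
  rw [Function.comp, mul_add, mul_left_comm, ← Real.rpow_add hN0, ← Real.rpow_add hN0, sd_cast]
  congr 2
  · congr 1
    ring
  · ring

end Pool.Agent.Lib.SC
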