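import Mathlib

/-! Separated points are determined, with a polynomial loss, by their power sums. -/

namespace Pool.Agent.Lib.SC.H69Mult

open Finset

variable {D : ℕ}

/-- Elementary symmetric sums of a tuple of reals. -/
noncomputable def es (t : Fin D → ℝ) (k : ℕ) : ℝ := ∑ s ∈ powersetCard k univ, ∏ i ∈ s, t i

theorem newton (t : Fin D → ℝ) (k : ℕ) :
    (k : ℝ) * es t k = (-1) ^ (k + 1) *
      ∑ a ∈ antidiagonal k with a.1 < k, (-1) ^ a.1 * es t a.1 * ∑ i, t i ^ a.2 := by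
  have h := congrArg (MvPolynomial.aeval t) (MvPolynomial.mul_esymm_eq_sum (Fin D) ℝ k)
  simpa [es, MvPolynomial.esymm, MvPolynomial.psum, map_sum, map_prod] using h

theorem abs_es_le (t : Fin D → ℝ) (ht : ∀ i, |t i| ≤ 1) (k : ℕ) : |es t k| ≤ 2 ^ D := by
  unfold es
  calc |∑ s ∈ powersetCard k univ, ∏ i ∈ s, t i|
      ≤ ∑ s ∈ powersetCard k (univ : Finset (Fin D)), |∏ i ∈ s, t i| := abs_sum_le_sum_abs _ _
    _ ≤ ∑ _s ∈ powersetCard k (univ : Finset (Fin D)), (1 : ℝ) := by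
        refine sum_le_sum fun s _ => ?_
        rw [abs_prod]
        exact prod_le_one (fun i _ => abs_nonneg _) fun i _ => ht i
    _ = ((D.choose k : ℕ) : ℝ) := by simp
    _ ≤ 2 ^ D := by exact_mod_cast Nat.choose_le_two_pow D k

theorem abs_ps_le (t : Fin D → ℝ) (ht : ∀ i, |t i| ≤ 1) (m : ℕ) : |∑ i, t i ^ m| ≤ D := by
  calc |∑ i, t i ^ m| ≤ ∑ i, |t i ^ m| := abs_sum_le_sum_abs _ _
    _ ≤ ∑ _i : Fin D, (1 : ℝ) := by
        refine sum_le_sum fun i _ => ?_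
        rw [abs_pow]
        exact pow_le_one₀ (abs_nonneg _) (ht i)
    _ = D := by simp

theorem es_sub_le (t u : Fin D → ℝ) (E : ℝ) (hE : 0 ≤ E) (ht : ∀ i, |t i| ≤ 1)
    (hu : ∀ i, |u i| ≤ 1)
    (hp : ∀ m, 1 ≤ m → m ≤ D → |∑ i, t i ^ m - ∑ i, u i ^ m| ≤ E) :
    ∀ k, k ≤ D → |es t k - es u k| ≤ (2 * ((D : ℝ) + 2 ^ D)) ^ k * E := by
  have hA : (1 : ℝ) ≤ 2 * ((D : ℝ) + 2 ^ D) := by
    have h1 : (1 : ℝ) ≤ 2 ^ D := one_le_pow₀ (by norm_num)
    have h2 : (0 : ℝ) ≤ D := Nat.cast_nonneg D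
    linarith
  intro k
  induction k using Nat.strong_induction_on with
  | _ k ih =>
    intro hk
    rcases Nat.eq_zero_or_pos k with rfl | hk0
    · simp [es, hE]
    obtain ⟨j, rfl⟩ : ∃ j, k = j + 1 := ⟨k - 1, by omega⟩
    set A : ℝ := 2 * ((D : ℝ) + 2 ^ D) with hAdef
    have hterm : ∀ a ∈ (antidiagonal (j + 1)).filter (fun a : ℕ × ℕ => a.1 < j + 1),
        |(-1 : ℝ) ^ a.1 * es t a.1 * ∑ i, t i ^ a.2 - (-1) ^ a.1 * es u a.1 * ∑ i, u i ^ a.2| ≤
          A ^ j * ((D : ℝ) + 2 ^ D) * E := by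
      intro a ha
      rw [mem_filter, Finset.HasAntidiagonal.mem_antidiagonal] at ha
      have h1 := ih a.1 ha.2 (by omega)
      have h2 := hp a.2 (by omega) (by omega)
      have h3 := abs_ps_le t ht a.2
      have h4 := abs_es_le u hu a.1
      have h5 : A ^ a.1 ≤ A ^ j := pow_le_pow_right₀ hA (by omega)
      have h6 : (1 : ℝ) ≤ A ^ j := one_le_pow₀ hA
      have e : (-1 : ℝ) ^ a.1 * es t a.1 * ∑ i, t i ^ a.2 -
          (-1) ^ a.1 * es u a.1 * ∑ i, u i ^ a.2 = (-1) ^ a.1 *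
          ((es t a.1 - es u a.1) * ∑ i, t i ^ a.2 +
            es u a.1 * (∑ i, t i ^ a.2 - ∑ i, u i ^ a.2)) := by ring
      rw [e, abs_mul, abs_pow, abs_neg, abs_one, one_pow, one_mul]
      have h7 : |(es t a.1 - es u a.1) * ∑ i, t i ^ a.2| ≤ A ^ j * E * D := by
        rw [abs_mul]
        refine mul_le_mul (h1.trans (mul_le_mul_of_nonneg_right h5 hE)) h3 (abs_nonneg _) ?_
        positivity
      have h8 : |es u a.1 * (∑ i, t i ^ a.2 - ∑ i, u i ^ a.2)| ≤ 2 ^ D * E := by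
        rw [abs_mul]
        exact mul_le_mul h4 h2 (abs_nonneg _) (by positivity)
      have h9 : (2 : ℝ) ^ D * E ≤ A ^ j * (2 ^ D * E) :=
        le_mul_of_one_le_left (by positivity) h6
      calc _ ≤ _ := abs_add_le _ _
        _ ≤ A ^ j * E * D + A ^ j * (2 ^ D * E) := by linarith
        _ = A ^ j * ((D : ℝ) + 2 ^ D) * E := by ring
    have hcard : (((antidiagonal (j + 1)).filter (fun a : ℕ × ℕ => a.1 < j + 1)).card : ℝ) ≤
        2 * ((j + 1 : ℕ) : ℝ) := by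
      have h1 := card_filter_le (antidiagonal (j + 1)) (fun a : ℕ × ℕ => a.1 < j + 1)
      rw [Finset.Nat.card_antidiagonal] at h1
      have h2 : ((antidiagonal (j + 1)).filter (fun a : ℕ × ℕ => a.1 < j + 1)).card ≤
          2 * (j + 1) := by omega
      exact_mod_cast h2
    have hmain : ((j + 1 : ℕ) : ℝ) * |es t (j + 1) - es u (j + 1)| ≤
        2 * ((j + 1 : ℕ) : ℝ) * (A ^ j * ((D : ℝ) + 2 ^ D) * E) := by
      have e : ((j + 1 : ℕ) : ℝ) * |es t (j + 1) - es u (j + 1)| =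
          |((j + 1 : ℕ) : ℝ) * es t (j + 1) - ((j + 1 : ℕ) : ℝ) * es u (j + 1)| := by
        rw [← mul_sub, abs_mul, abs_of_nonneg (Nat.cast_nonneg (j + 1) : (0 : ℝ) ≤ _)]
      rw [e, newton, newton, ← mul_sub, abs_mul, abs_pow, abs_neg, abs_one, one_pow, one_mul,
        ← sum_sub_distrib]
      calc _ ≤ _ := abs_sum_le_sum_abs _ _
        _ ≤ _ := sum_le_card_nsmul _ _ _ hterm
        _ ≤ _ := by
          rw [nsmul_eq_mul]
          exact mul_le_mul_of_nonneg_right hcard (by positivity)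
    have hpos : (0 : ℝ) < ((j + 1 : ℕ) : ℝ) := by positivity
    have h2 : |es t (j + 1) - es u (j + 1)| ≤ 2 * (A ^ j * ((D : ℝ) + 2 ^ D) * E) := by
      refine le_of_mul_le_mul_left ?_ hpos
      linarith
    calc _ ≤ _ := h2
      _ = A ^ (j + 1) * E := by rw [pow_succ, hAdef]; ring

theorem prod_sub_eq (t : Fin D → ℝ) (x : ℝ) :
    ∏ i, (x - t i) = ∑ k ∈ range (D + 1), (-1) ^ k * (es t k * x ^ (D - k)) := by
  have h := congrArg (Polynomial.eval x)
    (Multiset.prod_X_sub_X_eq_sum_esymm ((univ : Finset (Fin D)).val.map t))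
  rw [Multiset.map_map, Polynomial.eval_finsetSum] at h
  have e1 : Polynomial.eval x (Multiset.map ((fun s => Polynomial.X - Polynomial.C s) ∘ t)
      (univ : Finset (Fin D)).val).prod = ∏ i, (x - t i) := by
    rw [← Finset.prod_eq_multiset_prod, Polynomial.eval_prod]
    simp
  rw [e1] at h
  have e2 : Multiset.card ((univ : Finset (Fin D)).val.map t) = D := by simp
  rw [h, e2]
  refine sum_congr rfl fun k _ => ?_
  rw [Finset.esymm_map_val, Polynomial.eval_mul, Polynomial.eval_mul, Polynomial.eval_C]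
  simp [es]

/-- Points with almost equal power sums that are separated from the other points are close. -/
theorem mult (D : ℕ) : ∃ C : ℝ, 1 ≤ C ∧ ∀ (t u : Fin D → ℝ) (E δ : ℝ), 0 ≤ δ → 0 ≤ E →
    (∀ i, |t i| ≤ 1) → (∀ i, |u i| ≤ 1) → (∀ i j, i ≠ j → δ ≤ |u i - t j|) →
    (∀ m, 1 ≤ m → m ≤ D → |∑ i, t i ^ m - ∑ i, u i ^ m| ≤ E) →
    ∀ i, |t i - u i| * δ ^ (D - 1) ≤ C * E := by
  have hA : (1 : ℝ) ≤ 2 * ((D : ℝ) + 2 ^ D) := by
    have h1 : (1 : ℝ) ≤ 2 ^ D := one_le_pow₀ (by norm_num)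
    have h2 : (0 : ℝ) ≤ D := Nat.cast_nonneg D
    linarith
  set A : ℝ := 2 * ((D : ℝ) + 2 ^ D) with hAdef
  refine ⟨(D + 1) * A ^ D, ?_, ?_⟩
  · have h1 : (1 : ℝ) ≤ A ^ D := one_le_pow₀ hA
    have h2 : (0 : ℝ) ≤ D := Nat.cast_nonneg D
    nlinarith
  intro t u E δ hδ hE ht hu hsep hp i
  have h0 : ∏ j, (u i - u j) = 0 := prod_eq_zero (mem_univ i) (sub_self _)
  have h1 : |∏ j, (u i - t j)| ≤ (D + 1) * A ^ D * E := by
    have e : ∏ j, (u i - t j) = ∏ j, (u i - t j) - ∏ j, (u i - u j) := by rw [h0, sub_zero]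
    rw [e, prod_sub_eq, prod_sub_eq, ← sum_sub_distrib]
    calc _ ≤ _ := abs_sum_le_sum_abs _ _
      _ ≤ ∑ _k ∈ range (D + 1), A ^ D * E := by
          refine sum_le_sum fun k hk => ?_
          have hk' : k ≤ D := by simpa [Nat.lt_succ_iff] using hk
          have e2 : (-1 : ℝ) ^ k * (es t k * u i ^ (D - k)) - (-1) ^ k * (es u k * u i ^ (D - k)) =
              (-1) ^ k * ((es t k - es u k) * u i ^ (D - k)) := by ring
          rw [e2, abs_mul, abs_pow, abs_neg, abs_one, one_pow, one_mul, abs_mul, abs_pow]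
          have h2 := es_sub_le t u E hE ht hu hp k hk'
          have h3 : |u i| ^ (D - k) ≤ 1 := pow_le_one₀ (abs_nonneg _) (hu i)
          have h4 : A ^ k ≤ A ^ D := pow_le_pow_right₀ hA hk'
          calc _ ≤ A ^ k * E * 1 := mul_le_mul h2 h3 (by positivity) (by positivity)
            _ ≤ A ^ D * E := by rw [mul_one]; exact mul_le_mul_of_nonneg_right h4 hE
      _ = (D + 1) * A ^ D * E := by simp; ring
  have h2 : δ ^ (D - 1) ≤ ∏ j ∈ univ.erase i, |u i - t j| := by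
    have e : δ ^ (D - 1) = ∏ _j ∈ (univ : Finset (Fin D)).erase i, δ := by
      rw [prod_const, card_erase_of_mem (mem_univ i), card_univ, Fintype.card_fin]
    rw [e]
    exact prod_le_prod (fun _ _ => hδ) fun j hj => hsep i j (ne_of_mem_erase hj).symm
  calc |t i - u i| * δ ^ (D - 1) ≤ |u i - t i| * ∏ j ∈ univ.erase i, |u i - t j| := by
        rw [abs_sub_comm]
        exact mul_le_mul_of_nonneg_left h2 (abs_nonneg _)
    _ = |∏ j, (u i - t j)| := by
        rw [abs_prod, mul_prod_erase univ (fun j => |u i - t j|) (mem_univ i)]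
    _ ≤ _ := h1

end Pool.Agent.Lib.SC.H69Mult
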