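import Pool.Agent.Lib.SC.Blue
import Pool.Agent.Lib.SC.H69Mult

namespace Pool.Agent.Lib.SC

open Finset

theorem blk_MULT : St_MULT := by
  intro D
  obtain ⟨C, hC, h⟩ := H69Mult.mult D
  refine ⟨C, hC, fun t t' κ E hκ hE ht hsep hp i => ?_⟩
  have hκ0 : 0 < κ := by linarith
  have h1 := h t t' E κ⁻¹ (by positivity) hE (fun i => (ht i).1) (fun i => (ht i).2)
    (fun i j hij => by
      rw [abs_sub_comm, inv_le_iff_one_le_mul₀' hκ0]
      exact hsep j i hij.symm)
    (fun m h1 h2 => by rw [← sum_sub_distrib]; exact hp m h1 h2) i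
  have h2 : 0 < κ ^ (D - 1) := by positivity
  rw [inv_pow, ← div_eq_mul_inv, div_le_iff₀ h2] at h1
  calc _ ≤ _ := h1
    _ = _ := by ring

end Pool.Agent.Lib.SC
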