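import Pool.Agent.Lib.SC.Blue

/-! The radial direction. -/

namespace Pool.Agent.Lib.SC

open Finset Pool.Agent.Lib.WC

namespace PHI

theorem lin (hG : St_GE0) {d : ℕ} (hd : 1 ≤ d) (P : V d) (c y y' S N C u : ℝ) (hS : 0 < S)
    (hN : 0 < N) (hu : |y - y'| ≤ u) (huS : u ≤ S)
    (h : ∀ i : ℕ, 1 ≤ i →
      |tc y' i P - (Nat.choose 1 i : ℝ) * (y' - c) ^ (1 - i)| * N * S ^ i ≤ C * S ^ (1 + 1)) :
    |ev y P - ev y' P - (y - y')| ≤ d * (C * (S * u / N)) := by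
  have hu0 : 0 ≤ u := (abs_nonneg _).trans hu
  have e : y - y' = ∑ i ∈ range d,
      (Nat.choose 1 (i + 1) : ℝ) * (y' - c) ^ (1 - (i + 1)) * (y - y') ^ (i + 1) := by
    rw [sum_eq_single 0]
    · simp
    · intro i _ hi
      rw [Nat.choose_eq_zero_of_lt (by omega)]
      simp
    · intro h0
      exact absurd (mem_range.2 (by omega)) h0
  rw [hG.ev_sub d y y' P]
  nth_rewrite 2 [e]
  rw [← sum_sub_distrib]
  refine (abs_sum_le_sum_abs _ _).trans ?_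
  calc _ ≤ ∑ _i ∈ range d, C * (S * u / N) := by
        refine sum_le_sum fun i _ => ?_
        rw [← sub_mul, abs_mul, abs_pow]
        have h1 := h (i + 1) (by omega)
        set a := |tc y' (i + 1) P - (Nat.choose 1 (i + 1) : ℝ) * (y' - c) ^ (1 - (i + 1))|
        have ha : 0 ≤ a := abs_nonneg _
        have h2 : a * S ^ i ≤ C * S / N := by
          rw [le_div_iff₀ hN]
          refine le_of_mul_le_mul_right ?_ hS
          calc a * S ^ i * N * S = a * N * S ^ (i + 1) := by ring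
            _ ≤ C * S ^ (1 + 1) := h1
            _ = _ := by ring
        calc a * |y - y'| ^ (i + 1) = a * |y - y'| ^ i * |y - y'| := by ring
          _ ≤ a * S ^ i * u := by
              gcongr
              exact hu.trans huS
          _ ≤ C * S / N * u := by gcongr
          _ = _ := by ring
    _ = _ := by simp

end PHI

theorem blk_PHI (hG : St_GE0) (h2 : St_GE2) : St_PHI := by
  intro d r k E C₀ hk hr hkd hC₀
  obtain ⟨C₁, hC₁, H2⟩ := h2 d k r C₀ hk hr hkd hC₀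
  refine ⟨⌈(2 ^ d + 1) * C₁⌉₊ + ⌈d * C₁⌉₊ + E + 1, by omega, ?_⟩
  intro N c S σ M c' H Ψ hσ hM hH hJ hMS hc hc' hTh
  set C : ℕ := ⌈(2 ^ d + 1) * C₁⌉₊ + ⌈d * C₁⌉₊ + E + 1 with hC
  have hMσ : 1 ≤ M * σ := Nat.mul_pos hM hσ
  have hS1 : M * σ ≤ S := by omega
  have hSN : S ≤ N := (Nat.le_mul_of_pos_left S hM).trans hMS
  have hσ' : (0 : ℝ) < σ := by exact_mod_cast hσ
  have hM' : (1 : ℝ) ≤ M := by exact_mod_cast hM
  have hS' : (0 : ℝ) < S := by exact_mod_cast (by omega : 0 < S)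
  have hN' : (1 : ℝ) ≤ N := by exact_mod_cast (by omega : 1 ≤ N)
  have hSN' : (S : ℝ) ≤ N := by exact_mod_cast hSN
  have hS1' : ((M * σ : ℕ) : ℝ) ≤ S := by exact_mod_cast hS1
  have hC₁0 : 0 ≤ C₁ := by linarith
  have hCa : (2 ^ d + 1) * C₁ ≤ C := by
    refine (Nat.le_ceil _).trans ?_
    exact_mod_cast (by omega : ⌈(2 ^ d + 1) * C₁⌉₊ ≤ C)
  obtain ⟨g1, g2, -, g4⟩ := H2 N c Ψ 1 (by linarith) hJ le_rfl hk
  have hsm : ∀ G : Seminorm ℝ (V d), G ((σ : ℝ)⁻¹ • Ψ 1) = (σ : ℝ)⁻¹ * G (Ψ 1) := by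
    intro G
    rw [map_smul_eq_mul, Real.norm_eq_abs, abs_of_pos (inv_pos.2 hσ')]
  have hb : bx r H ((σ : ℝ)⁻¹ • Ψ 1) ≤ C₁ := by
    have := g2 H σ S hH hS' hSN' hN' hTh
    rw [hsm, inv_mul_le_iff₀ hσ']
    simpa [mul_comm] using this
  have hp : pn (c' : ℝ) ((M * σ : ℕ) : ℝ) ((M * σ : ℕ) : ℝ) ((σ : ℝ)⁻¹ • Ψ 1) ≤
      2 ^ d * C₁ * M := by
    have a1 := g1 S ((M * σ : ℕ) : ℝ) hS' hSN' (Nat.cast_nonneg _)
    have a0 : |(c' : ℝ) - c| ≤ S := by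
      have b1 : (c : ℝ) ≤ c' := by exact_mod_cast hc
      have b2 : (c' : ℝ) ≤ c + S := by exact_mod_cast (by omega : c' ≤ c + S)
      rw [abs_le]
      constructor <;> linarith
    have a2 := hG.pn_shift d c c' S ((M * σ : ℕ) : ℝ) ((M * σ : ℕ) : ℝ) ((M * σ : ℕ) : ℝ) 1 (Ψ 1)
      a0 (Nat.cast_nonneg _) hS1' (Nat.cast_nonneg _) (Nat.cast_nonneg _) zero_le_one (by simp)
    rw [hsm, inv_mul_le_iff₀ hσ']
    calc _ ≤ 2 ^ d * 1 * (C₁ * ((M * σ : ℕ) : ℝ) * S ^ (1 - 1)) := a2.trans (by gcongr)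
      _ = _ := by
          push_cast
          simp only [pow_zero]
          ring
  have h2d : (0 : ℝ) < 2 ^ d := by positivity
  refine ⟨hG.isQ_smul d _ _ ⟨(σ : ℚ)⁻¹, by simp⟩ (hJ.rat 1), by nlinarith, ?_, ?_⟩
  · rw [gn_apply]
    calc _ ≤ 2 ^ d * C₁ * M + C₁ * M := add_le_add hp (hb.trans (by nlinarith))
      _ = (2 ^ d + 1) * C₁ * M := by ring
      _ ≤ _ := by gcongr
  · intro b b' y y' hb1 hb2 hy hy' hE
    obtain ⟨y1, y2⟩ := mem_Ico.1 hy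
    obtain ⟨y3, y4⟩ := mem_Ico.1 hy'
    have m1 : (b + 1) * σ ≤ M * σ := Nat.mul_le_mul_right _ hb1
    have m2 : (b' + 1) * σ ≤ M * σ := Nat.mul_le_mul_right _ hb2
    rw [add_mul, one_mul] at m1 m2
    have a0 : |(y' : ℝ) - c| ≤ S := by
      have b1 : (c : ℝ) ≤ y' := by exact_mod_cast (by omega : c ≤ y')
      have b2 : (y' : ℝ) ≤ c + S := by exact_mod_cast (by omega : y' ≤ c + S)
      rw [abs_le]
      constructor <;> linarith
    have a1 : |(y : ℝ) - y'| ≤ ((M * σ : ℕ) : ℝ) := by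
      have b1 : (y : ℝ) ≤ y' + ((M * σ : ℕ) : ℝ) := by
        exact_mod_cast (by omega : y ≤ y' + M * σ)
      have b2 : (y' : ℝ) ≤ y + ((M * σ : ℕ) : ℝ) := by
        exact_mod_cast (by omega : y' ≤ y + M * σ)
      rw [abs_le]
      constructor <;> linarith
    have a2 := PHI.lin hG (by omega) (Ψ 1) c y y' S N C₁ _ hS' (by linarith) a1 hS1'
      fun i hi => g4 y' S i a0 hSN' hi
    have a3 : (S : ℝ) * ((M * σ : ℕ) : ℝ) / N ≤ σ := by
      rw [div_le_iff₀ (by linarith)]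
      have : ((M * S : ℕ) : ℝ) ≤ N := by exact_mod_cast hMS
      push_cast at this ⊢
      nlinarith
    rw [hG.dot_smul, hG.dot_sub, hG.dot_mom, hG.dot_mom, abs_mul, abs_of_pos (inv_pos.2 hσ'),
      inv_mul_le_iff₀ hσ'] at hE
    push_cast at hE
    have a4 : (d : ℝ) * (C₁ * (S * ((M * σ : ℕ) : ℝ) / N)) ≤ ⌈d * C₁⌉₊ * σ := by
      calc _ ≤ (d : ℝ) * (C₁ * σ) := by gcongr
        _ = d * C₁ * σ := by ring
        _ ≤ _ := by gcongr; exact Nat.le_ceil _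
    have a5 : (y : ℝ) ≤ y' + (σ * E + ⌈d * C₁⌉₊ * σ) := by
      linarith [(abs_le.1 hE).2, (abs_le.1 a2).1]
    have a6 : y ≤ y' + (σ * E + ⌈d * C₁⌉₊ * σ) := by exact_mod_cast a5
    have a7 : b * σ ≤ (b' + (⌈d * C₁⌉₊ + E + 1)) * σ := by
      have : (b' + (⌈d * C₁⌉₊ + E + 1)) * σ = b' * σ + σ + (σ * E + ⌈d * C₁⌉₊ * σ) := by ring
      omega
    have := Nat.le_of_mul_le_mul_right a7 hσ
    omega

end Pool.Agent.Lib.SC
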