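import Pool.Agent.Lib.SC.Blue

/-! Elementary inequalities for the class functions, the chain and the broad majorant. -/

namespace Pool.Agent.Lib.SC

open Finset

namespace PT

theorem ph_top (B : ℕ) (lam g : ℝ) (hl : 0 < lam) (h : lam ≤ g) : Ph B lam g = lam := by
  unfold Ph
  rw [min_eq_left ((one_le_div hl).2 h), one_pow, mul_one]

theorem ph_nonneg (B : ℕ) (lam g : ℝ) (hl : 0 < lam) (h : 0 ≤ g) : 0 ≤ Ph B lam g := by
  unfold Ph
  have : 0 ≤ min 1 (g / lam) := le_min zero_le_one (by positivity)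
  positivity

theorem sum_aux (B t₀ : ℕ) (g : ℝ) (hg : 1 ≤ g) :
    min g (2 ^ (t₀ + 1)) ≤ 2 * ∑ t ∈ range (t₀ + 1), Ph B (2 ^ t) g := by
  induction t₀ with
  | zero =>
    simp only [zero_add, pow_one, range_one, sum_singleton, pow_zero]
    rw [ph_top B 1 g one_pos hg, mul_one]
    exact min_le_right _ _
  | succ n ih =>
    rw [sum_range_succ]
    have h0 : 0 ≤ ∑ t ∈ range (n + 1), Ph B (2 ^ t) g :=
      sum_nonneg fun t _ => ph_nonneg B _ g (by positivity) (by linarith)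
    by_cases h : (2 : ℝ) ^ (n + 1) ≤ g
    · rw [ph_top B _ g (by positivity) h]
      have := min_le_right g ((2 : ℝ) ^ (n + 1 + 1))
      rw [pow_succ] at this ⊢
      linarith
    · have h' := (not_le.1 h).le
      rw [min_eq_left h'] at ih
      have := ph_nonneg B (2 ^ (n + 1)) g (by positivity) (by linarith)
      have := min_le_left g ((2 : ℝ) ^ (n + 1 + 1))
      linarith

theorem chain (Ψ η : ℕ → ℝ) (A : ℝ) (J : ℕ) (hA : 0 ≤ A)
    (h : ∀ j, j < J → Ψ j ≤ A * Ψ (j + 1) + η j) :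
    Ψ 0 ≤ (2 * A) ^ J * Ψ J ∨ ∃ j, j < J ∧ Ψ 0 ≤ (2 * A) ^ j * Ψ j ∧ Ψ j ≤ 2 * η j := by
  induction J with
  | zero => simp
  | succ n ih =>
    rcases ih fun j hj => h j (by omega) with h1 | ⟨j, hj, h2⟩
    · by_cases hc : Ψ n ≤ 2 * η n
      · exact Or.inr ⟨n, by omega, h1, hc⟩
      · left
        have h3 := h n (by omega)
        have h4 : Ψ n ≤ 2 * A * Ψ (n + 1) := by linarith [not_le.1 hc]
        calc Ψ 0 ≤ (2 * A) ^ n * Ψ n := h1
          _ ≤ (2 * A) ^ n * (2 * A * Ψ (n + 1)) := by gcongr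
          _ = _ := by ring
    · exact Or.inr ⟨j, by omega, h2⟩

theorem high (D q : ℕ) (p e K₀ K lam₀ lam ψ h sig G : ℝ) (hq : 1 ≤ q) (h1 : p / 2 ≤ e)
    (h2 : (q : ℝ) + 1 ≤ e) (h3 : e ≤ p - D) (hl : 0 < lam) (hll : lam ≤ lam₀) (hψ : 0 ≤ ψ)
    (hψ1 : ψ ≤ K₀ * lam₀) (hψ2 : ψ ≤ G * h) (hs : 0 < sig) (hs1 : sig ≤ G * h)
    (hh : h ≤ K * lam) (hG : 1 ≤ G) :
    Tht p D lam₀ ψ ≤ K₀ ^ (p - D - e) * G ^ (e + q) * K ^ (e - (q + 1)) *
      lam ^ (p / 2 - (q + 1)) * (h ^ (2 * q) / sig ^ (q - 1)) := by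
  have hl₀ : 0 < lam₀ := hl.trans_le hll
  have hG0 : 0 < G := by linarith
  have hh0 : 0 < h := (mul_pos_iff_of_pos_left hG0).1 (hs.trans_le hs1)
  have hK₀ : 0 ≤ K₀ := nonneg_of_mul_nonneg_left (hψ.trans hψ1) hl₀
  have hK : 0 ≤ K := nonneg_of_mul_nonneg_left (hh0.le.trans hh) hl
  have hq0 : (0 : ℝ) ≤ q := Nat.cast_nonneg _
  have he : 0 ≤ e := by linarith
  have a1 : ψ ^ (p - D) ≤ K₀ ^ (p - D - e) * lam₀ ^ (p - D - e) * (G ^ e * h ^ e) := by
    have : ψ ^ (p - D) = ψ ^ (p - D - e) * ψ ^ e := by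
      rw [← Real.rpow_add_of_nonneg hψ (by linarith) he]
      congr 1
      ring
    rw [this, ← Real.mul_rpow hK₀ hl₀.le, ← Real.mul_rpow hG0.le hh0.le]
    exact mul_le_mul (Real.rpow_le_rpow hψ hψ1 (by linarith)) (Real.rpow_le_rpow hψ hψ2 he)
      (by positivity) (by positivity)
  have a2 : lam₀ ^ (-(p / 2 - D)) * lam₀ ^ (p - D - e) ≤ lam ^ (p / 2 - e) := by
    rw [← Real.rpow_add hl₀]
    have : -(p / 2 - D) + (p - D - e) = p / 2 - e := by ring
    rw [this]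
    exact Real.rpow_le_rpow_of_nonpos hl hll (by linarith)
  have a3 : h ^ e ≤ K ^ (e - (q + 1)) * lam ^ (e - (q + 1)) * h ^ (q + 1) := by
    have : h ^ e = h ^ (e - (q + 1)) * h ^ (q + 1) := by
      rw [← Real.rpow_natCast h (q + 1), ← Real.rpow_add hh0]
      congr 1
      push_cast
      ring
    rw [this, ← Real.mul_rpow hK hl.le]
    exact mul_le_mul_of_nonneg_right (Real.rpow_le_rpow hh0.le hh (by linarith)) (by positivity)
  have a4 : h ^ (q + 1) ≤ G ^ q * (h ^ (2 * q) / sig ^ (q - 1)) := by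
    rw [← mul_div_assoc, le_div_iff₀ (by positivity)]
    obtain ⟨n, rfl⟩ : ∃ n, q = n + 1 := ⟨q - 1, by omega⟩
    simp only [Nat.add_sub_cancel]
    calc h ^ (n + 1 + 1) * sig ^ n ≤ h ^ (n + 1 + 1) * (G * h) ^ n := by gcongr
      _ = G ^ n * 1 * h ^ (2 * (n + 1)) := by ring
      _ ≤ G ^ n * G * h ^ (2 * (n + 1)) := by gcongr
      _ = _ := by ring
  have a5 : lam ^ (p / 2 - e) * lam ^ (e - (q + 1)) = lam ^ (p / 2 - (q + 1)) := by
    rw [← Real.rpow_add hl]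
    congr 1
    ring
  have a6 : G ^ e * G ^ q = G ^ (e + q) := by
    rw [Real.rpow_add hG0, Real.rpow_natCast]
  unfold Tht
  calc lam₀ ^ (-(p / 2 - D)) * ψ ^ (p - D)
      ≤ lam₀ ^ (-(p / 2 - D)) * (K₀ ^ (p - D - e) * lam₀ ^ (p - D - e) * (G ^ e * h ^ e)) := by
        gcongr
    _ = K₀ ^ (p - D - e) * (lam₀ ^ (-(p / 2 - D)) * lam₀ ^ (p - D - e)) * G ^ e * h ^ e := by
        ring
    _ ≤ K₀ ^ (p - D - e) * lam ^ (p / 2 - e) * G ^ e * (K ^ (e - (q + 1)) * lam ^ (e - (q + 1)) *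
          (G ^ q * (h ^ (2 * q) / sig ^ (q - 1)))) := by
        refine mul_le_mul (by gcongr) (a3.trans (by gcongr)) (by positivity) (by positivity)
    _ = _ := by
        rw [← a5, ← a6]
        ring

end PT

theorem blk_PT : St_PT where
  pos := fun B lam g hl hg => by
    unfold Ph
    have : 0 < min 1 (g / lam) := lt_min one_pos (by positivity)
    positivity
  le := fun B lam g hB hl hg => by
    unfold Ph
    have h0 : 0 ≤ min 1 (g / lam) := le_min zero_le_one (by positivity)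
    have h1 : min 1 (g / lam) ^ B ≤ min 1 (g / lam) :=
      pow_le_of_le_one h0 (min_le_left _ _) (by omega)
    refine (mul_le_mul_of_nonneg_left h1 hl.le).trans (le_min ?_ ?_)
    · calc lam * min 1 (g / lam) ≤ lam * (g / lam) := by gcongr; exact min_le_right _ _
        _ = g := by field_simp
    · calc lam * min 1 (g / lam) ≤ lam * 1 := by gcongr; exact min_le_left _ _
        _ = lam := mul_one _
  cont := fun B lam => by
    unfold Ph
    fun_prop
  dbl := fun B lam g g' K hl hg hg' hK h => by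
    unfold Ph
    have h0 : 0 ≤ min 1 (g' / lam) := le_min zero_le_one (by positivity)
    have h1 : min 1 (g' / lam) ≤ K * min 1 (g / lam) := by
      rw [mul_min_of_nonneg _ _ (by linarith : (0 : ℝ) ≤ K)]
      refine min_le_min (by linarith) ?_
      rw [← mul_div_assoc]
      gcongr
    calc lam * min 1 (g' / lam) ^ B ≤ lam * (K * min 1 (g / lam)) ^ B := by gcongr
      _ = _ := by ring
  pow := fun B a p lam g hl hg hp h => by
    unfold Ph
    have h0 : 0 < min 1 (g / lam) := lt_min one_pos (by positivity)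
    have h1 : (min 1 (g / lam) ^ B) ^ a ≤ (g / lam) ^ (p / 2) := by
      rw [← pow_mul, ← Real.rpow_natCast]
      calc min 1 (g / lam) ^ ((B * a : ℕ) : ℝ) ≤ min 1 (g / lam) ^ (p / 2) :=
            Real.rpow_le_rpow_of_exponent_ge h0 (min_le_left _ _) (by push_cast; exact h)
        _ ≤ _ := Real.rpow_le_rpow h0.le (min_le_right _ _) (by positivity)
    rw [mul_pow, Real.rpow_sub hl, Real.rpow_natCast]
    rw [Real.div_rpow hg.le hl.le] at h1
    calc lam ^ a * (min 1 (g / lam) ^ B) ^ a ≤ lam ^ a * (g ^ (p / 2) / lam ^ (p / 2)) := by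
          gcongr
      _ = _ := by ring
  sum := fun B t₀ g hg =>
    (min_le_min le_rfl (pow_le_pow_right₀ one_le_two (Nat.le_succ _))).trans
      (PT.sum_aux B t₀ g hg)
  chain := fun Ψ η A J hA _ h => PT.chain Ψ η A J hA h
  term := fun D p K₀ lam ψ hD hl hψ h => by
    have hD0 : (0 : ℝ) ≤ D := Nat.cast_nonneg _
    have hK₀ : 0 ≤ K₀ := nonneg_of_mul_nonneg_left (hψ.trans h) hl
    unfold Tht
    have e1 : ψ ^ (p - D) = ψ ^ (p / 2 - D) * ψ ^ (p / 2) := by
      rw [← Real.rpow_add_of_nonneg hψ (by linarith) (by linarith)]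
      congr 1
      ring
    have e2 : ψ ^ (p / 2 - D) ≤ K₀ ^ (p / 2 - D) * lam ^ (p / 2 - D) := by
      rw [← Real.mul_rpow hK₀ hl.le]
      exact Real.rpow_le_rpow hψ h (by linarith)
    have e3 : lam ^ (-(p / 2 - D)) * lam ^ (p / 2 - D) = 1 := by
      rw [← Real.rpow_add hl, neg_add_cancel, Real.rpow_zero]
    calc lam ^ (-(p / 2 - D)) * ψ ^ (p - D)
        ≤ lam ^ (-(p / 2 - D)) * (K₀ ^ (p / 2 - D) * lam ^ (p / 2 - D) * ψ ^ (p / 2)) := by
          rw [e1]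
          gcongr
      _ = K₀ ^ (p / 2 - D) * (lam ^ (-(p / 2 - D)) * lam ^ (p / 2 - D)) * ψ ^ (p / 2) := by ring
      _ = _ := by rw [e3, mul_one]
  high := fun D q p e K₀ K lam₀ lam ψ h sig G hq h1 h2 h3 hl hll hψ hψ1 hψ2 hs hs1 hh hG =>
    PT.high D q p e K₀ K lam₀ lam ψ h sig G hq h1 h2 h3 hl hll hψ hψ1 hψ2 hs hs1 hh hG

end Pool.Agent.Lib.SC
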