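import Pool.Agent.Lib.SC.Blue

namespace Pool.Agent.Lib.SC

open MeasureTheory Finset Pool.Agent.Lib.WC

namespace SL0

variable {d u : ℕ}

theorem den_pos (ψ : Fin u → V d) : 1 ≤ den ψ := by
  unfold den
  split_ifs with h
  · exact h.choose_spec.1
  · exact le_rfl

theorem den_spec {ψ : Fin u → V d} (hψ : ∀ i, IsQ (ψ i)) (i : Fin u) (j : Fin d) :
    ∃ z : ℤ, (den ψ : ℝ) * ψ i j = z := by
  have h : ∃ Q : ℕ, 1 ≤ Q ∧ ∀ i j, ∃ z : ℤ, (Q : ℝ) * ψ i j = z := by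
    choose q hq using hψ
    refine ⟨∏ a : Fin u × Fin d, (q a.1 a.2).den,
      Nat.one_le_iff_ne_zero.2 (Finset.prod_ne_zero_iff.2 fun a _ => (q a.1 a.2).den_nz),
      fun i j => ?_⟩
    obtain ⟨c, hc⟩ : (q i j).den ∣ ∏ a : Fin u × Fin d, (q a.1 a.2).den :=
      Finset.dvd_prod_of_mem (fun a : Fin u × Fin d => (q a.1 a.2).den) (mem_univ (i, j))
    refine ⟨c * (q i j).num, ?_⟩
    have h1 : ((q i j).den : ℝ) * (q i j : ℝ) = (q i j).num := by
      exact_mod_cast Rat.den_mul_eq_num (q i j)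
    rw [hc, hq]
    push_cast
    rw [← h1]
    ring
  unfold den
  rw [dif_pos h]
  exact h.choose_spec.2 i j

theorem round_eq {ψ : Fin u → V d} (hψ : ∀ i, IsQ (ψ i)) (i : Fin u) (j : Fin d) :
    ((round ((den ψ : ℝ) * ψ i j) : ℤ) : ℝ) = den ψ * ψ i j := by
  obtain ⟨z, hz⟩ := den_spec hψ i j
  rw [hz, round_intCast]

theorem mat_apply (ψ : Fin u → V d) (ξ : Fin d → ℤ) (i : Fin u) :
    mat ψ ξ i = ∑ j, ξ j * round ((den ψ : ℝ) * ψ i j) := rfl

theorem mat_eq {ψ : Fin u → V d} (hψ : ∀ i, IsQ (ψ i)) (ξ : Fin d → ℤ) (i : Fin u) :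
    ((mat ψ ξ i : ℤ) : ℝ) = den ψ * dot ξ (ψ i) := by
  rw [mat_apply, dot, Finset.mul_sum]
  push_cast
  refine Finset.sum_congr rfl fun j _ => ?_
  rw [round_eq hψ]
  ring

theorem coe_lft (z : UnitAddCircle) : ((lft z : ℝ) : UnitAddCircle) = z :=
  AddCircle.coe_equivIco

theorem lft_le (z : UnitAddCircle) : |lft z| ≤ 1 / 2 := by
  have h := (AddCircle.equivIco (1 : ℝ) (-(1 / 2)) z).2
  rw [abs_le]
  refine ⟨h.1, ?_⟩
  have h2 := h.2
  unfold lft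
  linarith

theorem lft_abs (z : UnitAddCircle) : |lft z| = ‖z‖ := by
  have h := (AddCircle.norm_coe_eq_abs_iff (p := (1 : ℝ)) (x := lft z) one_ne_zero).2
    (by simpa using lft_le z)
  rw [← h, coe_lft]

theorem coe_sum {ι : Type} (s : Finset ι) (f : ι → ℝ) :
    ((∑ i ∈ s, f i : ℝ) : UnitAddCircle) = ∑ i ∈ s, (f i : UnitAddCircle) :=
  map_sum (QuotientAddGroup.mk' (AddSubgroup.zmultiples (1 : ℝ))) f s

theorem pj_shf {ψ : Fin u → V d} (hψ : ∀ i, IsQ (ψ i)) (v : TT u) :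
    pj (shf ψ v) = tr (mat ψ) v := by
  ext a
  simp only [pj, shf, tr, Finset.sum_apply, Pi.smul_apply, smul_eq_mul]
  rw [coe_sum]
  refine Finset.sum_congr rfl fun i _ => ?_
  have h1 : mat ψ (Pi.single a 1) i = round ((den ψ : ℝ) * ψ i a) := by
    rw [mat_apply, Finset.sum_eq_single a] <;> simp +contextual
  have h2 : (den ψ : ℝ) * lft (v i) * ψ i a = round ((den ψ : ℝ) * ψ i a) • lft (v i) := by
    rw [zsmul_eq_mul, round_eq hψ]
    ring
  rw [h1, h2, AddCircle.coe_zsmul, coe_lft]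

theorem lft_meas : Measurable lft :=
  measurable_subtype_coe.comp (AddCircle.measurableEquivIco (1 : ℝ) (-(1 / 2))).measurable

theorem shf_meas (ψ : Fin u → V d) : Measurable (shf ψ) := by
  refine Finset.measurable_sum _ fun i _ => ?_
  exact ((lft_meas.comp (measurable_pi_apply i)).const_mul _).smul_const _

theorem shf_le (ψ : Fin u → V d) (v : TT u) : ‖shf ψ v‖ ≤ ∑ i, (den ψ : ℝ) * ‖ψ i‖ := by
  refine (norm_sum_le _ _).trans (Finset.sum_le_sum fun i _ => ?_)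
  rw [norm_smul, Real.norm_eq_abs, abs_mul, Nat.abs_cast]
  refine mul_le_mul_of_nonneg_right ?_ (norm_nonneg _)
  have := lft_le (v i)
  have h0 : (0 : ℝ) ≤ den ψ := Nat.cast_nonneg _
  nlinarith

theorem bdd (ψ : Fin u → V d) {Φ : V d → ℝ} (hΦ : Continuous Φ) :
    ∃ C : ℝ, ∀ v, ‖Φ (shf ψ v)‖ ≤ C := by
  obtain ⟨C, hC⟩ := (isCompact_closedBall (0 : V d)
    (∑ i, (den ψ : ℝ) * ‖ψ i‖)).exists_bound_of_continuousOn hΦ.continuousOn
  exact ⟨C, fun v => hC _ (mem_closedBall_zero_iff.2 (shf_le ψ v))⟩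

theorem prob0 {k : TT u → ℝ} (hk : Continuous k) (k0 : ∀ v, 0 ≤ k v) (hp : 0 < ∫ v, k v) :
    IsProbabilityMeasure
      ((volume : Measure (TT u)).withDensity fun v => ENNReal.ofReal (k v / ∫ w, k w)) := by
  refine ⟨?_⟩
  rw [withDensity_apply _ MeasurableSet.univ, Measure.restrict_univ,
    ← ofReal_integral_eq_lintegral_ofReal ((cint hk).div_const _)
      (Filter.Eventually.of_forall fun v => div_nonneg (k0 v) hp.le),
    integral_div, div_self hp.ne', ENNReal.ofReal_one]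

theorem prob (ψ : Fin u → V d) {k : TT u → ℝ} (hk : Continuous k) (k0 : ∀ v, 0 ≤ k v)
    (hp : 0 < ∫ v, k v) : IsProbabilityMeasure (slc ψ k) := by
  haveI := prob0 hk k0 hp
  exact Measure.isProbabilityMeasure_map (shf_meas ψ).aemeasurable

theorem intg (ψ : Fin u → V d) {k : TT u → ℝ} {Φ : V d → ℝ} (hk : Continuous k)
    (k0 : ∀ v, 0 ≤ k v) (hp : 0 < ∫ v, k v) (hΦ : Continuous Φ) :
    Integrable Φ (slc ψ k) ∧ Integrable (fun v => k v * Φ (shf ψ v)) ∧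
      ∫ P, Φ P ∂(slc ψ k) = (∫ v, k v * Φ (shf ψ v)) / ∫ v, k v := by
  haveI := prob0 hk k0 hp
  obtain ⟨C, hC⟩ := bdd ψ hΦ
  have hm : Measurable fun v => Φ (shf ψ v) := hΦ.measurable.comp (shf_meas ψ)
  refine ⟨?_, ?_, ?_⟩
  · refine (integrable_map_measure hΦ.aestronglyMeasurable (shf_meas ψ).aemeasurable).2 ?_
    exact Integrable.of_bound hm.aestronglyMeasurable C (Filter.Eventually.of_forall hC)
  · exact (cint hk).mul_bdd hm.aestronglyMeasurable (Filter.Eventually.of_forall hC)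
  · rw [slc, integral_map (shf_meas ψ).aemeasurable hΦ.aestronglyMeasurable,
      integral_withDensity_eq_integral_toReal_smul
        (hk.measurable.div_const _).ennreal_ofReal
        (Filter.Eventually.of_forall fun v => ENNReal.ofReal_lt_top), ← integral_div]
    refine integral_congr_ae (Filter.Eventually.of_forall fun v => ?_)
    simp only [smul_eq_mul]
    rw [ENNReal.toReal_ofReal (div_nonneg (k0 v) hp.le)]
    ring

theorem pj_cont : Continuous (pj : V d → TT d) :=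
  continuous_pi fun j => (AddCircle.continuous_mk' (1 : ℝ)).comp (continuous_apply j)

theorem cv_eq {ψ : Fin u → V d} {k : TT u → ℝ} {F : TT d → ℝ} (x : TT d) (hψ : ∀ i, IsQ (ψ i))
    (hk : Continuous k) (k0 : ∀ v, 0 ≤ k v) (hp : 0 < ∫ v, k v) (hF : Continuous F) :
    cv (slc ψ k) F x = (∫ v, k v * F (x + tr (mat ψ) v)) / ∫ v, k v := by
  have h := (intg ψ (Φ := fun P => F (x + pj P)) hk k0 hp
    (hF.comp (continuous_const.add pj_cont))).2.2
  simp only [pj_shf hψ] at h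
  exact h

theorem kn_mass (u : ℕ) {Q μ : ℕ} (hQ : 1 ≤ Q) (hμ : 2 ≤ μ) :
    (1 / (5 * 2 ^ μ) : ℝ) ^ u ≤ ∫ v, Kn (fun _ : Fin u => Q) μ v ∧
      ∫ v, Kn (fun _ : Fin u => Q) μ v ≤ 1 := by
  refine ⟨?_, stKER.kn u μ _ (fun _ => hQ) hμ⟩
  have h := integral_fintype_prod_volume_eq_pow (ι := Fin u)
    fun z : UnitAddCircle => (Q : ℝ) * ‖dk Q z‖ ^ μ
  rw [Fintype.card_fin] at h
  unfold Kn
  rw [h]
  exact pow_le_pow_left₀ (by positivity) (stKER.mass Q μ hQ) u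

theorem w1_cont (Q L : ℕ) : Continuous fun z : UnitAddCircle => (Q : ℝ) / (1 + Q * ‖z‖) ^ L :=
  continuous_const.div (by fun_prop) fun z => by positivity

theorem wd_cont (u Q L : ℕ) : Continuous (wd (u := u) Q L) :=
  continuous_finsetProd _ fun i _ => (w1_cont Q L).comp (continuous_apply i)

theorem w1_mass {Q L : ℕ} (hQ : 1 ≤ Q) (hL : 2 ≤ L) :
    (1 / (5 * 3 ^ L) : ℝ) ≤ ∫ z : UnitAddCircle, (Q : ℝ) / (1 + Q * ‖z‖) ^ L ∧
      ∫ z : UnitAddCircle, (Q : ℝ) / (1 + Q * ‖z‖) ^ L ≤ 2 := by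
  have hQ0 : (0 : ℝ) < Q := by exact_mod_cast hQ
  have hL2 : (2 : ℝ) ≤ L := by exact_mod_cast hL
  constructor
  · have h1 := stKER.mass Q L hQ
    have h2 : ∫ z : UnitAddCircle, (Q : ℝ) * ‖dk Q z‖ ^ L ≤
        ∫ z : UnitAddCircle, (3 / 2 : ℝ) ^ L * ((Q : ℝ) / (1 + Q * ‖z‖) ^ L) := by
      refine integral_mono (cint (by fun_prop)) (cint (continuous_const.mul (w1_cont Q L)))
        fun z => ?_
      have h3 := pow_le_pow_left₀ (by positivity) (stKER.decay Q z hQ) L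
      have h4 : (0 : ℝ) < (1 + Q * ‖z‖) ^ L := by positivity
      rw [mul_pow] at h3
      simp only
      rw [← mul_div_assoc, le_div_iff₀ h4]
      nlinarith
    rw [integral_const_mul ((3 / 2 : ℝ) ^ L)] at h2
    have h5 : (0 : ℝ) < (3 / 2 : ℝ) ^ L := by positivity
    refine le_of_mul_le_mul_left (le_trans (le_of_eq ?_) (h1.trans h2)) h5
    rw [div_pow]
    field_simp
  · have h1 := stKER.tail Q L 0 hQ0 (by linarith)
    simp only [sub_zero, Real.rpow_natCast] at h1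
    refine h1.trans ?_
    rw [div_le_iff₀ (by linarith)]
    linarith

theorem wd_mass (u : ℕ) {Q L : ℕ} (hQ : 1 ≤ Q) (hL : 2 ≤ L) :
    (1 / (5 * 3 ^ L) : ℝ) ^ u ≤ ∫ v : TT u, wd Q L v ∧ ∫ v : TT u, wd Q L v ≤ 2 ^ u := by
  have h := integral_fintype_prod_volume_eq_pow (ι := Fin u)
    fun z : UnitAddCircle => (Q : ℝ) / (1 + Q * ‖z‖) ^ L
  rw [Fintype.card_fin] at h
  obtain ⟨h1, h2⟩ := w1_mass hQ hL
  unfold wd
  rw [h]
  exact ⟨pow_le_pow_left₀ (by positivity) h1 u,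
    pow_le_pow_left₀ (le_trans (by positivity) h1) h2 u⟩

theorem wd_nonneg (Q L : ℕ) (v : TT u) : 0 ≤ wd Q L v :=
  Finset.prod_nonneg fun _ _ => by positivity

end SL0

theorem blk_SL0 : St_SL0 where
  den_pos _ _ ψ := SL0.den_pos ψ
  mat_eq _ _ _ hψ := SL0.mat_eq hψ
  pj_shf _ _ _ hψ := SL0.pj_shf hψ
  lft_abs := SL0.lft_abs
  shf_meas _ _ ψ := SL0.shf_meas ψ
  prob _ _ ψ _ hk k0 hp := SL0.prob ψ hk k0 hp
  intg _ _ ψ _ _ hk k0 hp hΦ := SL0.intg ψ hk k0 hp hΦ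
  cv_eq _ _ _ _ _ x hψ hk k0 hp hF := SL0.cv_eq x hψ hk k0 hp hF
  kn_cont _ _ _ := continuous_Kn _ _
  kn_mass u _ _ hQ hμ := SL0.kn_mass u hQ hμ
  wd_cont := SL0.wd_cont
  wd_mass u _ _ hQ hL := SL0.wd_mass u hQ hL
  probK _ u _ ψ hμ := SL0.prob ψ (continuous_Kn _ _) (Kn_nonneg _ _)
    (lt_of_lt_of_le (by positivity) (SL0.kn_mass u (SL0.den_pos ψ) hμ).1)
  probW _ u _ ψ hL := SL0.prob ψ (SL0.wd_cont _ _ _) (SL0.wd_nonneg _ _)
    (lt_of_lt_of_le (by positivity) (SL0.wd_mass u (SL0.den_pos ψ) hL).1)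

end Pool.Agent.Lib.SC
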