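import Pool.Agent.Lib.SC.Blue

/-! Band limitation of averages against the slice kernel. -/

namespace Pool.Agent.Lib.SC

open MeasureTheory Finset Pool.Agent.Lib.WC

namespace SLB

variable {d u : ℕ}

theorem mF_eq (ξ : Fin d → ℤ) (x : TT d) : UnitAddTorus.mFourier ξ x = ch ξ x := by
  rw [ch, ee_sum]
  rfl

theorem vol_eq : (volume : Measure UnitAddCircle) = AddCircle.haarAddCircle := by
  rw [AddCircle.volume_eq_smul_haarAddCircle]
  simp

theorem coeff_eq (f : TT d → ℂ) (ξ : Fin d → ℤ) :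
    UnitAddTorus.mFourierCoeff f ξ = ∫ x, ch (-ξ) x * f x := by
  have h1 : UnitAddTorus.mFourierCoeff f ξ =
      ∫ x, UnitAddTorus.mFourier (-ξ) x • f x
        ∂(Measure.pi fun _ : Fin d => (AddCircle.haarAddCircle : Measure UnitAddCircle)) := rfl
  have h2 : (volume : Measure (TT d)) =
      Measure.pi fun _ : Fin d => (volume : Measure UnitAddCircle) := rfl
  rw [h1, h2, vol_eq]
  simp only [mF_eq, smul_eq_mul]

/-- A continuous function with coefficients supported on a finite set is a trigonometric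
polynomial. -/
theorem mem_of_coeff {S : Set (Fin d → ℤ)} (hS : S.Finite) {f : TT d → ℂ} (hf : Continuous f)
    (h : ∀ ξ, ξ ∉ S → ∫ x, ch (-ξ) x * f x = 0) : f ∈ Sp S := by
  let g : C(UnitAddTorus (Fin d), ℂ) := ⟨f, hf⟩
  have h0 : ∀ ξ, ξ ∉ hS.toFinset → UnitAddTorus.mFourierCoeff g ξ = 0 := fun ξ hξ => by
    have : UnitAddTorus.mFourierCoeff g ξ = UnitAddTorus.mFourierCoeff f ξ := rfl
    rw [this, coeff_eq]
    exact h ξ (by simpa using hξ)
  have hs : Summable (UnitAddTorus.mFourierCoeff g) := summable_of_ne_finset_zero h0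
  have e : f = ∑ ξ ∈ hS.toFinset, UnitAddTorus.mFourierCoeff g ξ • ch ξ := by
    funext x
    have h1 := UnitAddTorus.hasSum_mFourier_series_apply_of_summable hs x
    have h2 : HasSum (fun ξ => UnitAddTorus.mFourierCoeff g ξ • UnitAddTorus.mFourier ξ x)
        (∑ ξ ∈ hS.toFinset, UnitAddTorus.mFourierCoeff g ξ • UnitAddTorus.mFourier ξ x) :=
      hasSum_sum_of_ne_finset_zero fun ξ hξ => by rw [h0 ξ hξ, zero_smul]
    have h3 : f x = _ := h1.unique h2
    rw [h3, Finset.sum_apply]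
    exact Finset.sum_congr rfl fun ξ _ => by rw [mF_eq]; rfl
  rw [e]
  exact Submodule.sum_mem _ fun ξ hξ => Submodule.smul_mem _ _ (ch_mem (by simpa using hξ))

theorem finite_box (μ : ℝ) (ψ : Fin u → V d)
    (hsp : ∀ P : V d, ∃ t : Fin u → ℝ, P = ∑ i, t i • ψ i) :
    {ξ : Fin d → ℤ | ∀ i, |dot ξ (ψ i)| ≤ μ}.Finite := by
  choose t ht using hsp
  refine (Set.Finite.pi' (t := fun j => Set.Icc (-⌈∑ i, |t (Pi.single j 1) i| * μ⌉)
    ⌈∑ i, |t (Pi.single j 1) i| * μ⌉) fun j => Set.finite_Icc _ _).subset fun ξ hξ j => ?_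
  have h1 : (ξ j : ℝ) = dot ξ (Pi.single j 1) := by
    rw [dot, Finset.sum_eq_single j] <;> simp +contextual
  have h2 : dot ξ (Pi.single j 1) = ∑ i, t (Pi.single j 1) i * dot ξ (ψ i) := by
    conv_lhs => rw [ht (Pi.single j 1)]
    simp only [dot, Finset.sum_apply, Pi.smul_apply, smul_eq_mul, Finset.mul_sum]
    rw [Finset.sum_comm]
    exact Finset.sum_congr rfl fun i _ => Finset.sum_congr rfl fun a _ => by ring
  have h3 : |(ξ j : ℝ)| ≤ ∑ i, |t (Pi.single j 1) i| * μ := by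
    rw [h1, h2]
    refine (Finset.abs_sum_le_sum_abs _ _).trans (Finset.sum_le_sum fun i _ => ?_)
    rw [abs_mul]
    exact mul_le_mul_of_nonneg_left (hξ i) (abs_nonneg _)
  have h4 : |ξ j| ≤ ⌈∑ i, |t (Pi.single j 1) i| * μ⌉ := by
    have : ((|ξ j| : ℤ) : ℝ) ≤ (⌈∑ i, |t (Pi.single j 1) i| * μ⌉ : ℤ) := by
      rw [Int.cast_abs]
      exact h3.trans (Int.le_ceil _)
    exact_mod_cast this
  exact abs_le.1 h4

/-- The kernel has no frequencies outside the box. -/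
theorem kn_orth (Q μ : ℕ) (ω : Fin u → ℤ) (i : Fin u) (hi : (μ * Q : ℤ) < |ω i|) :
    ∫ v, ((Kn (fun _ : Fin u => Q) (2 * μ) v : ℝ) : ℂ) * ch ω v = 0 := by
  have hD := dk_prod_mem (fun _ : Fin u => Q) μ
  have h1 : ch ω * (fun v : TT u => ∏ i, dk Q (v i) ^ μ) ∈
      Sp {h | h i < 0 ∨ (μ * Q : ℤ) < h i} := by
    refine Sp_mul (ch_mem (P := {ω}) rfl) hD fun a ha b hb => ?_
    obtain rfl : a = ω := ha
    have h1 := (hb i).1
    have h2 := (hb i).2
    simp only [Set.mem_ofPred_eq, Pi.add_apply]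
    rcases lt_abs.1 hi with h | h
    · right; omega
    · left; omega
  have h2 := Sp_orth h1 hD (Set.disjoint_left.2 fun h h1 h2 => by
    have h3 := (h2 i).1
    have h4 := (h2 i).2
    rcases h1 with h1 | h1 <;> omega)
  have e : ∀ v : TT u, ((Kn (fun _ : Fin u => Q) (2 * μ) v : ℝ) : ℂ) * ch ω v =
      ((∏ _i : Fin u, (Q : ℝ) : ℝ) : ℂ) * ((ch ω * fun v : TT u => ∏ i, dk Q (v i) ^ μ) v *
        (starRingEnd ℂ) (∏ i, dk Q (v i) ^ μ)) := fun v => by
    rw [Kn_eq, Pi.mul_apply, mul_assoc (ch ω v), Complex.mul_conj', Complex.ofReal_mul,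
      Complex.ofReal_pow]
    ring
  simp_rw [e]
  rw [integral_const_mul, h2, mul_zero]

theorem coeff_conv (k : TT u → ℂ) (hk : Continuous k) (M : (Fin d → ℤ) →+ (Fin u → ℤ))
    (G : TT d → ℂ) (hG : Continuous G) (ξ : Fin d → ℤ) :
    ∫ x, ch (-ξ) x * ∫ v, k v * G (x + tr M v) =
      (∫ v, k v * ch (M ξ) v) * ∫ y, ch (-ξ) y * G y := by
  have e1 : ∀ x, ch (-ξ) x * ∫ v, k v * G (x + tr M v) =
      ∫ v, ch (-ξ) x * (k v * G (x + tr M v)) := fun x => (integral_const_mul _ _).symm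
  simp_rw [e1]
  rw [swap_int (f := fun x v => ch (-ξ) x * (k v * G (x + tr M v))) (by fun_prop),
    ← integral_mul_const]
  refine integral_congr_ae (Filter.Eventually.of_forall fun v => ?_)
  have e2 : ∀ x, ch (-ξ) x * (k v * G (x + tr M v)) =
      k v * ch (M ξ) v * (ch (-ξ) (x + tr M v) * G (x + tr M v)) := fun x => by
    have : ch (M ξ) v * ch (-ξ) (tr M v) = 1 := by
      rw [ch_tr, ← ch_add, map_neg, add_neg_cancel, ch_zero]
    rw [ch_add_pt]
    linear_combination (-(ch (-ξ) x * (k v * G (x + tr M v)))) * this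
  simp only [e2]
  rw [integral_const_mul, int_add (fun y => ch (-ξ) y * G y)]

end SLB

theorem blk_SLB (hB : Bas) : St_SLB := by
  intro d μ ψ F hμ hQ hsp hF
  have hm := (hB.sl0.kn_mass d (den ψ) (2 * μ) (hB.sl0.den_pos d d ψ) (by omega)).1
  have hm0 : 0 < ∫ v, Kn (fun _ : Fin d => den ψ) (2 * μ) v := lt_of_lt_of_le (by positivity) hm
  have e : (fun x => ((cv (sK ψ (2 * μ)) F x : ℝ) : ℂ)) =
      (((∫ v, Kn (fun _ : Fin d => den ψ) (2 * μ) v : ℝ) : ℂ))⁻¹ • fun x =>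
        ∫ v, ((Kn (fun _ : Fin d => den ψ) (2 * μ) v : ℝ) : ℂ) * (F (x + tr (mat ψ) v) : ℂ) := by
    funext x
    rw [sK, hB.sl0.cv_eq d d ψ _ F x hQ (continuous_Kn _ _) (Kn_nonneg _ _) hm0 hF,
      Complex.ofReal_div, Pi.smul_apply, smul_eq_mul, div_eq_inv_mul]
    simp only [← Complex.ofReal_mul]
    rw [integral_complex_ofReal]
  rw [e]
  refine Submodule.smul_mem _ _ (SLB.mem_of_coeff (SLB.finite_box _ ψ hsp)
    (cont_int (by fun_prop)) fun ξ hξ => ?_)
  rw [SLB.coeff_conv _ (by fun_prop) (mat ψ) (fun y => (F y : ℂ)) (by fun_prop)]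
  simp only [Set.mem_ofPred_eq, not_forall, not_le] at hξ
  obtain ⟨i, hi⟩ := hξ
  rw [SLB.kn_orth (den ψ) μ (mat ψ ξ) i, zero_mul]
  have h1 := hB.sl0.mat_eq d d ψ hQ ξ i
  have h2 : (0 : ℝ) < den ψ := by exact_mod_cast hB.sl0.den_pos d d ψ
  have h3 : ((μ * den ψ : ℤ) : ℝ) < ((|mat ψ ξ i| : ℤ) : ℝ) := by
    rw [Int.cast_abs, h1, abs_mul, abs_of_pos h2]
    push_cast
    rw [mul_comm]
    exact mul_lt_mul_of_pos_left hi h2
  exact_mod_cast h3

end Pool.Agent.Lib.SC
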