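import Pool.Agent.Lib.SC.Blue

/-! Block SLD: decoupling on a slice. -/

namespace Pool.Agent.Lib.SC

open MeasureTheory Finset Pool.Agent.Lib.WC Polynomial

namespace SLD

/-- The scaled standard family. -/
noncomputable def fam (k : ℕ) (t : ℚ) : Fam k where
  B := { toFun := fun ω => t • (stdFam k).B ω
         map_zero' := by simp
         map_add' := fun a b => by simp [smul_add] }
  B0 := lcoeff ℚ 0
  B_one := fun ω => by simp [(stdFam k).B_one]
  B0_one := by simp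

lemma fam_L (k : ℕ) (t c : ℚ) (ω : Fin k → ℤ) (i : ℕ) :
    (fam k t).L ω ((X - C c) ^ i) = (-c) ^ i +
      ∑ m : Fin k, (i.choose (m.val + 1) : ℚ) * (-c) ^ (i - (m.val + 1)) * (t * ω m) := by
  have : (fam k t).L ω ((X - C c) ^ i) =
      t * (stdFam k).B ω ((X - C c) ^ i) + ((X - C c : ℚ[X]) ^ i).coeff 0 := rfl
  rw [this, stdFam_B, sub_eq_add_neg, ← C_neg, add_comm, mul_sum]
  simp only [coeff_X_add_C_pow, Nat.sub_zero, Nat.choose_zero_right, Nat.cast_one, mul_one]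
  congr 1
  exact sum_congr rfl fun m _ => by ring

lemma choose_sum (k i : ℕ) : ∑ m : Fin k, (i.choose (m.val + 1) : ℝ) ≤ 2 ^ i := by
  have h : ∑ m : Fin k, i.choose (m.val + 1) ≤ 2 ^ i := by
    rw [Fin.sum_univ_eq_sum_range (fun m => i.choose (m + 1)) k, ← Nat.sum_range_choose]
    calc ∑ m ∈ range k, i.choose (m + 1) ≤ ∑ m ∈ range (k + 1), i.choose m := by
          rw [sum_range_succ']; omega
      _ ≤ ∑ m ∈ range (k + 1 + (i + 1)), i.choose m :=
          sum_le_sum_of_subset (range_subset_range.2 (by omega))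
      _ = ∑ m ∈ range (i + 1), i.choose m := by
          refine (sum_subset (range_subset_range.2 (by omega)) fun m _ hm => ?_).symm
          exact Nat.choose_eq_zero_of_lt (by simpa using hm)
  exact_mod_cast h

lemma mem_In {d k μ lam w Q j : ℕ} {ψ : Fin k → V d} (hμ : 1 ≤ μ) (hj : j < w) (hQ : 1 ≤ Q)
    {a ν : Fin k → ℤ} {ξ : Fin d → ℤ} (ha : ∀ m, 0 ≤ a m ∧ a m ≤ μ * Q)
    (hν : ∀ m, (ν m : ℝ) = Q * ((w : ℝ) ^ k * dot ξ (ψ m))) (hξ : ξ ∈ Cn ψ lam (j : ℤ)) :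
    a + ν ∈ In k (fam k ((Q * (w : ℚ) ^ k)⁻¹)) (0 + ((j : ℤ) : ℚ) * 1)
      (((lam + 2 * μ : ℕ) : ℚ) * 1) := by
  intro i hi hik
  have h1 := hξ i hi hik
  have hw : (1 : ℝ) ≤ w := by exact_mod_cast (by omega : 1 ≤ w)
  have hQ' : (0 : ℝ) < Q := by exact_mod_cast hQ
  have hwk : (0 : ℝ) < (w : ℝ) ^ k := by positivity
  rw [fam_L, ← Rat.cast_le (K := ℝ)]
  push_cast at h1 ⊢
  simp only [zero_add, mul_one, Pi.add_apply, Int.cast_add]
  have e : ∀ m : Fin k, (i.choose (m.val + 1) : ℝ) * (-(j : ℝ)) ^ (i - (m.val + 1)) *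
      (((Q : ℝ) * (w : ℝ) ^ k)⁻¹ * ((a m : ℝ) + ν m)) =
      (i.choose (m.val + 1) : ℝ) * (-(j : ℝ)) ^ (i - (m.val + 1)) * dot ξ (ψ m) +
        (i.choose (m.val + 1) : ℝ) * ((-(j : ℝ)) ^ (i - (m.val + 1)) *
          (((Q : ℝ) * (w : ℝ) ^ k)⁻¹ * a m)) := fun m => by
    rw [hν]; field_simp; ring
  simp only [e, sum_add_distrib, ← add_assoc]
  have h2 : |∑ m : Fin k, (i.choose (m.val + 1) : ℝ) * ((-(j : ℝ)) ^ (i - (m.val + 1)) *
      (((Q : ℝ) * (w : ℝ) ^ k)⁻¹ * a m))| ≤ 2 ^ i * μ := by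
    refine (abs_sum_le_sum_abs _ _).trans (le_trans (sum_le_sum (g := fun m : Fin k =>
      (i.choose (m.val + 1) : ℝ) * μ) fun m _ => ?_) ?_)
    · rw [abs_mul, Nat.abs_cast]
      refine mul_le_mul_of_nonneg_left ?_ (Nat.cast_nonneg _)
      have a0 : (0 : ℝ) ≤ a m := by exact_mod_cast (ha m).1
      have a1 : (a m : ℝ) ≤ μ * Q := by exact_mod_cast (ha m).2
      have j1 : (j : ℝ) ^ (i - (m.val + 1)) ≤ (w : ℝ) ^ k :=
        (pow_le_pow_left₀ (Nat.cast_nonneg _) (by exact_mod_cast hj.le) _).trans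
          (pow_le_pow_right₀ hw (by omega))
      rw [abs_mul, abs_pow, abs_neg, Nat.abs_cast, abs_of_nonneg (by positivity)]
      calc _ ≤ (w : ℝ) ^ k * (((Q : ℝ) * (w : ℝ) ^ k)⁻¹ * (μ * Q)) := by gcongr
        _ = μ := by field_simp
    · rw [← sum_mul]
      exact mul_le_mul_of_nonneg_right (choose_sum k i) (Nat.cast_nonneg _)
  have h3 : (2 : ℝ) ^ i * μ ≤ (2 * μ) ^ i := by
    rw [mul_pow]
    exact mul_le_mul_of_nonneg_left (le_self_pow₀ (by exact_mod_cast hμ) (by omega)) (by positivity)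
  refine (abs_add_le _ _).trans ((add_le_add h1 (h2.trans h3)).trans ?_)
  exact pow_add_pow_le (by positivity) (by positivity) (by omega)

end SLD

open SLD in
theorem blk_SLD (hB : Bas) : St_SLD := by
  intro d k μ lam w Dc ψ I h hk hμ hw hψ hD hI hh x
  have hs : 1 ≤ sd k := one_le_sd hk
  set ψ' : Fin k → V d := fun m => ((w : ℝ) ^ k) • ψ m with hψ'
  have hq : ∀ i, IsQ (ψ' i) := fun i =>
    hB.ge0.isQ_smul d _ _ ⟨(w : ℚ) ^ k, by push_cast; rfl⟩ (hψ i)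
  set Q := den ψ' with hQ
  have hQ1 : 1 ≤ Q := hB.sl0.den_pos d k ψ'
  set kap : TT k → ℂ := fun v => ∏ i, dk Q (v i) ^ μ with hkap
  set Z : ℝ := ∫ v, Kn (fun _ : Fin k => Q) (2 * sd k * μ) v with hZ
  have hZ0 : 0 < Z := lt_of_lt_of_le (by positivity)
    (hB.sl0.kn_mass k Q (2 * sd k * μ) hQ1 (by nlinarith)).1
  have hP : (0 : ℝ) ≤ (∏ _i : Fin k, (Q : ℝ)) / Z := by positivity
  have key : ∀ g : TT d → ℂ, Continuous g →
      cv (sK ψ' (2 * sd k * μ)) (fun y => ‖g y‖ ^ (2 * sd k)) x ^ ((sd k : ℝ)⁻¹) =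
        ((∏ _i : Fin k, (Q : ℝ)) / Z) ^ ((sd k : ℝ)⁻¹) *
          nn (sd k) fun v => kap v * g (x + tr (mat ψ') v) := by
    intro g hg
    rw [sK, hB.sl0.cv_eq d k ψ' _ _ x hq (continuous_Kn _ _) (Kn_nonneg _ _) hZ0 (by fun_prop), nn,
      ← Real.mul_rpow hP (integral_nonneg fun _ => by positivity), div_mul_eq_mul_div,
      ← integral_const_mul]
    congr 2
    refine integral_congr_ae (Filter.Eventually.of_forall fun v => ?_)
    simp only
    rw [Kn_eq (fun _ => Q) μ (2 * sd k) v, norm_mul, mul_pow, mul_assoc]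
  have hc : ∀ j ∈ I, Continuous (h j) := fun j hj => Sp_cont (hh j hj)
  have h1 := hD k (fam k ((Q * (w : ℚ) ^ k)⁻¹)) 0 1 0 (I.map Nat.castEmbedding)
    (fun j v => kap v * h j.toNat (x + tr (mat ψ') v)) one_pos
    (fun j hj => by
      obtain ⟨i, hi, rfl⟩ := mem_map.mp hj
      simpa using hI hi) fun j hj => by
      obtain ⟨i, hi, rfl⟩ := mem_map.mp hj
      simp only [Nat.castEmbedding_apply, Int.toNat_natCast]
      refine Sp_mul (dk_prod_mem (fun _ => Q) μ) (Sp_tr (hh i hi) (mat ψ') x) ?_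
      rintro a ha _ ⟨ξ, hξ, rfl⟩
      refine mem_In hμ (mem_range.1 (hI hi)) hQ1 ha (fun m => ?_) hξ
      rw [hB.sl0.mat_eq d k ψ' hq, hB.ge0.dot_smul]
  rw [sum_map, sum_map] at h1
  simp only [Nat.castEmbedding_apply, Int.toNat_natCast] at h1
  rw [key _ (continuous_finsetSum _ hc), sum_congr rfl fun j hj => key _ (hc j hj), ← mul_sum,
    mul_left_comm]
  refine mul_le_mul_of_nonneg_left (le_trans (le_of_eq ?_) h1) (Real.rpow_nonneg hP _)
  congr 1
  ext v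
  simp only [Finset.sum_apply, mul_sum]

end Pool.Agent.Lib.SC
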