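import Pool.Agent.Lib.SC.Blue

/-! Moments of the slice measures. -/

namespace Pool.Agent.Lib.SC

open MeasureTheory Finset Pool.Agent.Lib.WC

namespace SLM

variable {d u : ℕ}

theorem sum_le_prod {ι : Type*} (s : Finset ι) (a : ι → ℝ) (ha : ∀ i, 0 ≤ a i) :
    1 + ∑ i ∈ s, a i ≤ ∏ i ∈ s, (1 + a i) := by
  classical
  induction s using Finset.induction_on with
  | empty => simp
  | insert i s hi ih =>
    rw [Finset.sum_insert hi, Finset.prod_insert hi]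
    have h1 : 0 ≤ ∑ j ∈ s, a j := Finset.sum_nonneg fun j _ => ha j
    have h2 := ha i
    nlinarith [mul_nonneg h2 h1, mul_le_mul_of_nonneg_left ih (by linarith : 0 ≤ 1 + a i)]

/-- The product weight. -/
noncomputable def WW (Q : ℕ) (v : TT u) : ℝ := ∏ i, (1 + (Q : ℝ) * ‖v i‖)

theorem gauge_le (hB : Bas) (ψ : Fin u → V d) (G : Seminorm ℝ (V d)) (B : ℝ) (h1 : 1 ≤ B)
    (hG : ∀ i, G (ψ i) ≤ B) (v : TT u) : 1 + G (shf ψ v) ≤ B * WW (den ψ) v := by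
  have h2 : G (shf ψ v) ≤ ∑ i, (den ψ : ℝ) * ‖v i‖ * B := by
    unfold shf
    refine (Finset.le_sum_of_subadditive G (map_zero G).le (map_add_le_add G) _ _).trans ?_
    refine Finset.sum_le_sum fun i _ => ?_
    rw [map_smul_eq_mul, Real.norm_eq_abs, abs_mul, hB.sl0.lft_abs, Nat.abs_cast]
    exact mul_le_mul_of_nonneg_left (hG i) (by positivity)
  rw [← Finset.sum_mul] at h2
  have h3 := sum_le_prod Finset.univ (fun i => (den ψ : ℝ) * ‖v i‖) fun i => by positivity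
  have h4 := mul_le_mul_of_nonneg_left h3 (by linarith : 0 ≤ B)
  unfold WW
  nlinarith

theorem kn_le (Q μ m : ℕ) (hQ : 1 ≤ Q) (v : TT u) :
    Kn (fun _ : Fin u => Q) (μ + m) v * WW Q v ^ m ≤
      (3 / 2) ^ (m * u) * Kn (fun _ : Fin u => Q) μ v := by
  have e : ((3 / 2 : ℝ)) ^ (m * u) = ∏ _i : Fin u, (3 / 2 : ℝ) ^ m := by
    rw [Finset.prod_const, Finset.card_univ, Fintype.card_fin, pow_mul]
  unfold Kn WW
  rw [e, ← Finset.prod_pow, ← Finset.prod_mul_distrib, ← Finset.prod_mul_distrib]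
  refine Finset.prod_le_prod (fun i _ => by positivity) fun i _ => ?_
  have h := pow_le_pow_left₀ (by positivity) (stKER.decay Q (v i) hQ) m
  rw [mul_pow] at h
  have h0 : 0 ≤ (Q : ℝ) * ‖dk Q (v i)‖ ^ μ := by positivity
  calc (Q : ℝ) * ‖dk Q (v i)‖ ^ (μ + m) * (1 + (Q : ℝ) * ‖v i‖) ^ m
      = (‖dk Q (v i)‖ ^ m * (1 + (Q : ℝ) * ‖v i‖) ^ m) * ((Q : ℝ) * ‖dk Q (v i)‖ ^ μ) := by ring
    _ ≤ (3 / 2) ^ m * ((Q : ℝ) * ‖dk Q (v i)‖ ^ μ) := mul_le_mul_of_nonneg_right h h0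

theorem wd_le (Q L m : ℕ) (v : TT u) : wd Q (L + m) v * WW Q v ^ m ≤ 1 * wd Q L v := by
  unfold wd WW
  rw [one_mul, ← Finset.prod_pow, ← Finset.prod_mul_distrib]
  refine le_of_eq (Finset.prod_congr rfl fun i _ => ?_)
  have : (1 + (Q : ℝ) * ‖v i‖) ≠ 0 := by positivity
  field_simp
  ring

theorem wd_nonneg (Q L : ℕ) (v : TT u) : 0 ≤ wd Q L v :=
  Finset.prod_nonneg fun i _ => by positivity

theorem gen (hB : Bas) (ψ : Fin u → V d) (G : Seminorm ℝ (V d)) (B : ℝ) (h1 : 1 ≤ B)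
    (hG : ∀ i, G (ψ i) ≤ B) (m : ℕ) (k k' : TT u → ℝ) (c D : ℝ) (hk : Continuous k)
    (hk' : Continuous k') (k0 : ∀ v, 0 ≤ k v) (k0' : ∀ v, 0 ≤ k' v) (hc : 0 < c)
    (hm : c ≤ ∫ v, k v) (hm' : 0 < ∫ v, k' v) (hD : 0 ≤ D)
    (hkk : ∀ v, k v * WW (den ψ) v ^ m ≤ D * k' v) (Φ : V d → ℝ) (hΦ : Continuous Φ)
    (Φ0 : ∀ P, 0 ≤ Φ P) :
    Integrable (fun P => (1 + G P) ^ m * Φ P) (slc ψ k) ∧
      ∫ P, (1 + G P) ^ m * Φ P ∂(slc ψ k) ≤ D / c * B ^ m * ∫ v, k' v * Φ (shf ψ v) := by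
  have hG' : Continuous G := hB.cv2.sn_cont d G
  obtain ⟨i1, i2, i3⟩ := hB.sl0.intg d u ψ k (fun P => (1 + G P) ^ m * Φ P) hk k0
    (lt_of_lt_of_le hc hm) (by fun_prop)
  obtain ⟨-, j2, -⟩ := hB.sl0.intg d u ψ k' Φ hk' k0' hm' hΦ
  refine ⟨i1, ?_⟩
  rw [i3]
  have hI : 0 ≤ ∫ v, k' v * Φ (shf ψ v) := integral_nonneg fun v => mul_nonneg (k0' v) (Φ0 _)
  have h2 : ∫ v, k v * ((1 + G (shf ψ v)) ^ m * Φ (shf ψ v)) ≤
      D * B ^ m * ∫ v, k' v * Φ (shf ψ v) := by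
    rw [← integral_const_mul]
    refine integral_mono i2 (j2.const_mul _) fun v => ?_
    have g0 : 0 ≤ 1 + G (shf ψ v) := by have := apply_nonneg G (shf ψ v); linarith
    have a1 := pow_le_pow_left₀ g0 (gauge_le hB ψ G B h1 hG v) m
    rw [mul_pow] at a1
    have hBm : 0 ≤ B ^ m := by positivity
    calc k v * ((1 + G (shf ψ v)) ^ m * Φ (shf ψ v))
        ≤ k v * ((B ^ m * WW (den ψ) v ^ m) * Φ (shf ψ v)) :=
          mul_le_mul_of_nonneg_left (mul_le_mul_of_nonneg_right a1 (Φ0 _)) (k0 v)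
      _ = (k v * WW (den ψ) v ^ m) * (B ^ m * Φ (shf ψ v)) := by ring
      _ ≤ (D * k' v) * (B ^ m * Φ (shf ψ v)) :=
          mul_le_mul_of_nonneg_right (hkk v) (mul_nonneg hBm (Φ0 _))
      _ = D * B ^ m * (k' v * Φ (shf ψ v)) := by ring
  have h3 : 0 ≤ D * B ^ m * ∫ v, k' v * Φ (shf ψ v) := by positivity
  calc (∫ v, k v * ((1 + G (shf ψ v)) ^ m * Φ (shf ψ v))) / ∫ v, k v
      ≤ (D * B ^ m * ∫ v, k' v * Φ (shf ψ v)) / c := div_le_div₀ h3 h2 hc hm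
    _ = D / c * B ^ m * ∫ v, k' v * Φ (shf ψ v) := by ring

end SLM

open SLM in
theorem blk_SLM (hB : Bas) : St_SLM := by
  intro u μ m
  have p1 : (1 : ℝ) ≤ (3 / 2) ^ (m * u) := one_le_pow₀ (by norm_num)
  have p2 : (1 : ℝ) ≤ (5 * 2 ^ (μ + m)) ^ u :=
    one_le_pow₀ (by have : (1 : ℝ) ≤ 2 ^ (μ + m) := one_le_pow₀ (by norm_num); linarith)
  have p3 : (0 : ℝ) ≤ 2 ^ u * (5 * 3 ^ μ) ^ u := by positivity
  have p4 : (1 : ℝ) ≤ (3 / 2) ^ (m * u) * (5 * 2 ^ (μ + m)) ^ u := one_le_mul_of_one_le_of_one_le p1 p2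
  refine ⟨(3 / 2) ^ (m * u) * (5 * 2 ^ (μ + m)) ^ u + 2 ^ u * (5 * 3 ^ μ) ^ u, by linarith, ?_⟩
  intro d ψ G B h1 hG
  have hQ := hB.sl0.den_pos d u ψ
  have hBm : 0 ≤ B ^ m := by positivity
  have kpos : ∀ ν : ℕ, 2 ≤ ν → 0 < ∫ v, Kn (fun _ : Fin u => den ψ) ν v := fun ν hν =>
    lt_of_lt_of_le (by positivity) (hB.sl0.kn_mass u _ ν hQ hν).1
  refine ⟨fun hμ => ?_, fun hμ F x hF F0 => ?_⟩
  · obtain ⟨ν, rfl⟩ : ∃ ν, μ = ν + m := ⟨μ - m, by omega⟩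
    have hν : 2 ≤ ν := by omega
    have hμ' : 2 ≤ ν + m := by omega
    constructor
    · obtain ⟨a1, a2⟩ := gen hB ψ G B h1 hG m _ _ _ _ (hB.sl0.kn_cont u _ (ν + m))
        (hB.sl0.kn_cont u _ ν) (Kn_nonneg _ _) (Kn_nonneg _ _) (by positivity)
        (hB.sl0.kn_mass u _ (ν + m) hQ hμ').1 (kpos ν hν) (by positivity)
        (kn_le (den ψ) ν m hQ) (fun _ => 1) continuous_const fun _ => zero_le_one
      simp only [mul_one] at a1 a2
      refine ⟨a1, a2.trans ?_⟩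
      have b1 := (hB.sl0.kn_mass u _ ν hQ hν).2
      have b2 : ((3 / 2 : ℝ)) ^ (m * u) / (1 / (5 * 2 ^ (ν + m))) ^ u ≤
          (3 / 2) ^ (m * u) * (5 * 2 ^ (ν + m + m)) ^ u := by
        rw [one_div, inv_pow, div_inv_eq_mul]
        gcongr
        · norm_num
        · omega
      calc _ ≤ (3 / 2 : ℝ) ^ (m * u) / (1 / (5 * 2 ^ (ν + m))) ^ u * B ^ m :=
            mul_le_of_le_one_right (by positivity) b1
        _ ≤ _ := mul_le_mul_of_nonneg_right (by linarith) hBm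
    · obtain ⟨a1, a2⟩ := gen hB ψ G B h1 hG m _ _ _ _ (hB.sl0.wd_cont u _ (ν + m))
        (hB.sl0.wd_cont u _ ν) (wd_nonneg _ _) (wd_nonneg _ _) (by positivity)
        (hB.sl0.wd_mass u _ (ν + m) hQ hμ').1
        (lt_of_lt_of_le (by positivity) (hB.sl0.wd_mass u _ ν hQ hν).1) zero_le_one
        (wd_le (den ψ) ν m) (fun _ => 1) continuous_const fun _ => zero_le_one
      simp only [mul_one] at a1 a2
      refine ⟨a1, a2.trans ?_⟩
      have b1 := (hB.sl0.wd_mass u _ ν hQ hν).2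
      have b2 : (1 : ℝ) / (1 / (5 * 3 ^ (ν + m))) ^ u = (5 * 3 ^ (ν + m)) ^ u := by
        rw [one_div, one_div, inv_pow, inv_inv]
      rw [b2]
      calc _ ≤ (5 * 3 ^ (ν + m) : ℝ) ^ u * B ^ m * 2 ^ u :=
            mul_le_mul_of_nonneg_left b1 (by positivity)
        _ = 2 ^ u * (5 * 3 ^ (ν + m)) ^ u * B ^ m := by ring
        _ ≤ _ := mul_le_mul_of_nonneg_right (by linarith) hBm
  · have hΦ : Continuous fun P : V d => F (x + pj P) :=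
      hF.comp (continuous_const.add (hB.cv1.pj_cont d))
    obtain ⟨a1, a2⟩ := gen hB ψ G B h1 hG m _ _ _ _ (hB.sl0.kn_cont u _ (μ + m))
      (hB.sl0.kn_cont u _ μ) (Kn_nonneg _ _) (Kn_nonneg _ _) (by positivity)
      (hB.sl0.kn_mass u _ (μ + m) hQ (by omega)).1 (kpos μ hμ) (by positivity)
      (kn_le (den ψ) μ m hQ) (fun P => F (x + pj P)) hΦ fun _ => F0 _
    refine ⟨a1, a2.trans ?_⟩
    obtain ⟨-, -, c3⟩ := hB.sl0.intg d u ψ _ (fun P => F (x + pj P)) (hB.sl0.kn_cont u (den ψ) μ)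
      (Kn_nonneg _ _) (kpos μ hμ) hΦ
    have hI : 0 ≤ ∫ v, Kn (fun _ : Fin u => den ψ) μ v * F (x + pj (shf ψ v)) :=
      integral_nonneg fun v => mul_nonneg (Kn_nonneg _ _ _) (F0 _)
    have c4 : ∫ v, Kn (fun _ : Fin u => den ψ) μ v * F (x + pj (shf ψ v)) ≤ cv (sK ψ μ) F x := by
      unfold cv sK
      rw [c3]
      exact le_div_self hI (kpos μ hμ) (hB.sl0.kn_mass u _ μ hQ hμ).2
    rw [one_div, inv_pow, div_inv_eq_mul]
    exact mul_le_mul (mul_le_mul_of_nonneg_right (by linarith) hBm) c4 hI (by positivity)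

end Pool.Agent.Lib.SC
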