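import Pool.Agent.Lib.SC.Blue

/-! Block SLO: almost orthogonality on a slice. -/

namespace Pool.Agent.Lib.SC

open MeasureTheory Finset Pool.Agent.Lib.WC

namespace SLO

/-- Schur's test for almost orthogonal functions. -/
lemma schur {u : ℕ} {ι : Type} (s : Finset ι) (h : ι → TT u → ℂ) (rel : ι → ι → Prop) (Ω : ℕ)
    (hc : ∀ a ∈ s, Continuous (h a)) (hsym : ∀ a b, rel a b → rel b a)
    (h0 : ∀ a ∈ s, ∀ b ∈ s, ¬rel a b → ∫ v, h a v * (starRingEnd ℂ) (h b v) = 0)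
    (hΩ : ∀ a ∈ s, ∀ t ⊆ s, (∀ b ∈ t, rel a b) → t.card ≤ Ω) :
    ∫ v, ‖∑ a ∈ s, h a v‖ ^ 2 ≤ Ω * ∑ a ∈ s, ∫ v, ‖h a v‖ ^ 2 := by
  classical
  set n : ι → ℝ := fun a => ∫ v, ‖h a v‖ ^ 2 with hn
  have n0 : ∀ a, 0 ≤ n a := fun a => integral_nonneg fun v => by positivity
  have hcc : ∀ a ∈ s, ∀ b ∈ s, Continuous fun v => h a v * (starRingEnd ℂ) (h b v) :=
    fun a ha b hb => (hc a ha).mul (Complex.continuous_conj.comp (hc b hb))
  have hcr : ∀ a ∈ s, ∀ b ∈ s, Continuous fun v => (h a v * (starRingEnd ℂ) (h b v)).re :=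
    fun a ha b hb => Complex.continuous_re.comp (hcc a ha b hb)
  have e1 : ∀ v, ‖∑ a ∈ s, h a v‖ ^ 2 = ∑ a ∈ s, ∑ b ∈ s, (h a v * (starRingEnd ℂ) (h b v)).re := by
    intro v
    rw [← Complex.normSq_eq_norm_sq, ← Complex.ofReal_re (Complex.normSq _), ← Complex.mul_conj,
      map_sum, sum_mul_sum, Complex.re_sum]
    exact sum_congr rfl fun a _ => Complex.re_sum _ _
  have e2 : ∀ a ∈ s, ∀ b ∈ s, ∫ v, (h a v * (starRingEnd ℂ) (h b v)).re ≤
      (if rel a b then n a / 2 else 0) + (if rel b a then n b / 2 else 0) := by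
    intro a ha b hb
    by_cases hr : rel a b
    · rw [if_pos hr, if_pos (hsym a b hr), ← add_div]
      have ia : Integrable fun v => ‖h a v‖ ^ 2 := cint ((hc a ha).norm.pow 2)
      have ib : Integrable fun v => ‖h b v‖ ^ 2 := cint ((hc b hb).norm.pow 2)
      rw [hn]
      simp only
      rw [← integral_add ia ib, ← integral_div]
      refine integral_mono (cint (hcr a ha b hb)) ((ia.add ib).div_const 2) fun v => ?_
      have h1 := Complex.re_le_norm (h a v * (starRingEnd ℂ) (h b v))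
      rw [norm_mul, Complex.norm_conj] at h1
      simp only
      nlinarith [sq_nonneg (‖h a v‖ - ‖h b v‖)]
    · rw [if_neg hr, if_neg fun h' => hr (hsym b a h'), add_zero]
      have := Complex.reCLM.integral_comp_comm (μ := volume) (cint (hcc a ha b hb))
      rw [h0 a ha b hb hr, map_zero] at this
      exact le_of_eq this
  have e3 : ∀ a ∈ s, ∑ b ∈ s, (if rel a b then n a / 2 else 0) ≤ Ω * (n a / 2) := by
    intro a ha
    rw [← sum_filter, sum_const, nsmul_eq_mul]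
    refine mul_le_mul_of_nonneg_right ?_ (by have := n0 a; positivity)
    exact_mod_cast hΩ a ha _ (filter_subset _ _) fun b hb => (mem_filter.1 hb).2
  simp_rw [e1]
  rw [integral_finsetSum _ fun a ha => cint (continuous_finsetSum _ (hcr a ha))]
  calc _ ≤ ∑ a ∈ s, ∑ b ∈ s,
        ((if rel a b then n a / 2 else 0) + (if rel b a then n b / 2 else 0)) := by
        refine sum_le_sum fun a ha => ?_
        rw [integral_finsetSum _ fun b hb => cint (hcr a ha b hb)]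
        exact sum_le_sum (e2 a ha)
    _ = 2 * ∑ a ∈ s, ∑ b ∈ s, (if rel a b then n a / 2 else 0) := by
        simp_rw [sum_add_distrib]
        rw [two_mul, sum_comm (f := fun a b => if rel b a then n b / 2 else 0)]
    _ ≤ 2 * ∑ a ∈ s, Ω * (n a / 2) :=
        mul_le_mul_of_nonneg_left (sum_le_sum e3) (by norm_num)
    _ = _ := by
        rw [mul_sum, mul_sum]
        exact sum_congr rfl fun a _ => by ring

end SLO

theorem blk_SLO (hB : Bas) : St_SLO := by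
  intro d u μ ψ hμ hQ ι s S G Ω hG hΩ x
  have h0 := hB.sl0
  have hQ1 := h0.den_pos d u ψ
  have hQr : (0 : ℝ) < den ψ := by exact_mod_cast hQ1
  have gc : ∀ a ∈ s, Continuous (G a) := fun a ha => Sp_cont (hG a ha)
  have kpos : 0 < ∫ v, Kn (fun _ : Fin u => den ψ) (2 * μ) v :=
    lt_of_lt_of_le (by positivity) (h0.kn_mass u (den ψ) (2 * μ) hQ1 (by omega)).1
  set D : TT u → ℂ := fun v => ∏ i, dk (den ψ) (v i) ^ μ with hD
  have hcv : ∀ F : TT d → ℂ, Continuous F → cv (sK ψ (2 * μ)) (fun y => ‖F y‖ ^ 2) x =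
      (∏ _i : Fin u, (den ψ : ℝ)) / (∫ v, Kn (fun _ : Fin u => den ψ) (2 * μ) v) *
        ∫ v, ‖D v * F (x + tr (mat ψ) v)‖ ^ 2 := by
    intro F hF
    rw [sK, h0.cv_eq d u ψ _ (fun y => ‖F y‖ ^ 2) x hQ (h0.kn_cont _ _ _) (Kn_nonneg _ _) kpos
      (hF.norm.pow 2), div_mul_eq_mul_div, ← integral_const_mul]
    congr 2
    ext v
    rw [Kn_eq, norm_mul, mul_pow, mul_assoc]
  have hmem : ∀ a ∈ s, (fun v => D v * G a (x + tr (mat ψ) v)) ∈
      Sp {ω | ∃ (α : Fin u → ℤ) (ξ : Fin d → ℤ), (∀ j, 0 ≤ α j ∧ α j ≤ (μ : ℤ) * den ψ) ∧ ξ ∈ S a ∧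
        ω = α + mat ψ ξ} := fun a ha =>
    Sp_mul (dk_prod_mem (fun _ => den ψ) μ) (Sp_tr (hG a ha) (mat ψ) x) (by
      rintro α hα _ ⟨ξ, hξ, rfl⟩
      exact ⟨α, ξ, hα, hξ, rfl⟩)
  have key := SLO.schur s (fun a v => D v * G a (x + tr (mat ψ) v))
    (fun a b => ∃ ξ ∈ S a, ∃ ξ' ∈ S b, ∀ i, |dot (ξ - ξ') (ψ i)| ≤ μ) Ω
    (fun a ha => Sp_cont (hmem a ha))
    (by
      rintro a b ⟨ξ, hξ, ξ', hξ', h⟩
      refine ⟨ξ', hξ', ξ, hξ, fun i => ?_⟩
      rw [hB.ge0.dot_sub, abs_sub_comm, ← hB.ge0.dot_sub]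
      exact h i)
    (fun a ha b hb hr => Sp_orth (hmem a ha) (hmem b hb) (Set.disjoint_left.2 (by
      rintro _ ⟨α, ξ, hα, hξ, rfl⟩ ⟨β, ξ', hβ, hξ', e⟩
      refine hr ⟨ξ, hξ, ξ', hξ', fun i => ?_⟩
      have e1 : mat ψ (ξ - ξ') i = β i - α i := by
        have := congrFun e i
        rw [map_sub]
        simp only [Pi.add_apply, Pi.sub_apply] at this ⊢
        omega
      have e2 : |mat ψ (ξ - ξ') i| ≤ μ * den ψ := by
        rw [e1, abs_le]
        constructor <;> linarith [(hα i).1, (hα i).2, (hβ i).1, (hβ i).2]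
      have e3 : |((mat ψ (ξ - ξ') i : ℤ) : ℝ)| ≤ μ * den ψ := by exact_mod_cast e2
      rw [h0.mat_eq d u ψ hQ, abs_mul, abs_of_pos hQr, mul_comm] at e3
      exact le_of_mul_le_mul_right e3 hQr)))
    hΩ
  rw [hcv (fun y => ∑ a ∈ s, G a y) (continuous_finsetSum _ gc),
    sum_congr rfl fun a ha => hcv (G a) (gc a ha), ← mul_sum, mul_left_comm]
  refine mul_le_mul_of_nonneg_left ?_ (by positivity)
  simpa only [mul_sum] using key

end Pool.Agent.Lib.SC
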