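import Pool.Agent.Lib.SC.Blue

/-! The windows in one direction. -/

namespace Pool.Agent.Lib.SC

open MeasureTheory Finset Pool.Agent.Lib.WC

namespace SLR

theorem Sp_conj {n : ℕ} {P : Set (Fin n → ℤ)} {f : TT n → ℂ} (hf : f ∈ Sp P) :
    (fun v => (starRingEnd ℂ) (f v)) ∈ Sp {h | -h ∈ P} := by
  refine Sp_ind (p := fun f => (fun v => (starRingEnd ℂ) (f v)) ∈ Sp {h | -h ∈ P})
    (fun a ha => ?_) ?_ (fun f g _ _ h1 h2 => ?_) (fun c f _ h => ?_) hf
  · have : (fun v => (starRingEnd ℂ) (ch a v)) = ch (-a) := by ext v; rw [ch_neg]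
    rw [this]
    exact ch_mem (by simpa using ha)
  · have : (fun v => (starRingEnd ℂ) ((0 : TT n → ℂ) v)) = 0 := by ext v; simp
    rw [this]; exact zero_mem _
  · have : (fun v => (starRingEnd ℂ) ((f + g) v)) =
        (fun v => (starRingEnd ℂ) (f v)) + fun v => (starRingEnd ℂ) (g v) := by ext v; simp
    rw [this]; exact add_mem h1 h2
  · have : (fun v => (starRingEnd ℂ) ((c • f) v)) =
        (starRingEnd ℂ) c • fun v => (starRingEnd ℂ) (f v) := by ext v; simp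
    rw [this]; exact Submodule.smul_mem _ _ h

/-- Products of Dirichlet kernels and their conjugates. -/
noncomputable def gm (Q a b : ℕ) (v : TT 1) : ℂ :=
  dk Q (v 0) ^ a * (starRingEnd ℂ) (dk Q (v 0) ^ b)

theorem gm_mem (Q a b μ : ℕ) (ha : a ≤ μ) (hb : b ≤ μ) :
    gm Q a b ∈ Sp {h : Fin 1 → ℤ | |h 0| ≤ μ * Q} := by
  have h1 := dk_prod_mem (fun _ : Fin 1 => Q) a
  have h2 := Sp_conj (dk_prod_mem (fun _ : Fin 1 => Q) b)
  simp only [Fin.prod_univ_one] at h1 h2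
  refine Sp_mul h1 h2 fun x hx y hy => ?_
  have k1 := hx 0
  have k2 := hy 0
  have k3 : (a : ℤ) * Q ≤ μ * Q := by gcongr
  have k4 : (b : ℤ) * Q ≤ μ * Q := by gcongr
  simp only [Pi.neg_apply] at k2
  show |(x + y) 0| ≤ _
  rw [Pi.add_apply, abs_le]
  constructor <;> linarith [k1.1, k1.2, k2.1, k2.2]

theorem kn_eq (Q μ : ℕ) (v : TT 1) :
    ((Kn (fun _ : Fin 1 => Q) (2 * μ) v : ℝ) : ℂ) = Q * gm Q μ μ v := by
  rw [gm, Complex.mul_conj', Kn, Fin.prod_univ_one, norm_pow]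
  push_cast
  ring

theorem ch_one (t : ℤ) (v : TT 1) : ch (fun _ => t) v = ee (t • v 0) := by
  rw [ch, Fin.sum_univ_one]

theorem ch_const_add (s t : ℤ) (v : TT 1) :
    ch (fun _ => s + t) v = ch (fun _ => s) v * ch (fun _ => t) v := by
  rw [ch_one, ch_one, ch_one, add_smul, ee_add]

theorem kn_eq' {Q μ : ℕ} (hQ : 1 ≤ Q) (hμ : 1 ≤ μ) (v : TT 1) :
    ((Kn (fun _ : Fin 1 => Q) (2 * μ) v : ℝ) : ℂ) =
      ∑ y ∈ range Q, gm Q (μ - 1) μ v * ch (fun _ => (y : ℤ)) v := by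
  have hQ0 : (Q : ℂ) ≠ 0 := by exact_mod_cast (by omega : Q ≠ 0)
  have h1 : ∑ y ∈ range Q, ch (fun _ => (y : ℤ)) v = Q * dk Q (v 0) := by
    rw [dk, mul_inv_cancel_left₀ hQ0]
    exact sum_congr rfl fun y _ => by rw [ch_one, natCast_zsmul]
  obtain ⟨m, rfl⟩ : ∃ m, μ = m + 1 := ⟨μ - 1, by omega⟩
  rw [kn_eq, ← mul_sum, h1, gm, gm, Nat.add_sub_cancel]
  ring

theorem int_ch (h : Fin 1 → ℤ) (t : ℤ) :
    ∫ v, ch h v * ch (fun _ => t) v = if h 0 + t = 0 then 1 else 0 := by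
  simp_rw [← ch_add]
  rw [integral_ch]
  refine if_congr ⟨fun h0 => congrFun h0 0, fun h0 => ?_⟩ rfl rfl
  funext i
  rw [Subsingleton.elim i 0]
  exact h0

theorem coef_zero {B t : ℤ} {g : TT 1 → ℂ} (hg : g ∈ Sp {h : Fin 1 → ℤ | |h 0| ≤ B})
    (ht : B < |t|) : ∫ v, g v * ch (fun _ => t) v = 0 := by
  have := Sp_orth hg (ch_mem (P := {fun _ => -t}) rfl) (Set.disjoint_singleton_right.2 fun h => by
    have h' : |-t| ≤ B := h
    rw [abs_neg] at h'
    exact absurd ht (not_lt.2 h'))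
  have e : ∀ v : TT 1, (starRingEnd ℂ) (ch (fun _ => -t) v) = ch (fun _ => t) v := fun v => by
    rw [← ch_neg]
    exact congrArg (fun w => ch w v) (funext fun _ => neg_neg t)
  simpa only [e] using this

theorem count {Q S : ℕ} (hQ : 1 ≤ Q) {a : ℤ} (ha : |a| ≤ S * Q) :
    ∑ s ∈ Icc (-(S : ℤ)) S, ∑ y ∈ range Q, (if a - s * Q + y = 0 then (1 : ℂ) else 0) = 1 := by
  have hQ0 : (0 : ℤ) < Q := by exact_mod_cast hQ
  have e := Int.mul_ediv_add_emod (-a) Q
  have r0 := Int.emod_nonneg (-a) hQ0.ne'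
  have r1 := Int.emod_lt_of_pos (-a) hQ0
  obtain ⟨a1, a2⟩ := abs_le.1 ha
  set q := -a / Q
  set r := -a % Q
  have hq1 : q ≤ S := by
    by_contra h
    have : (S : ℤ) + 1 ≤ q := by omega
    nlinarith
  have hq2 : -(S : ℤ) ≤ q := by
    by_contra h
    have : q + 1 ≤ -(S : ℤ) := by omega
    nlinarith
  rw [sum_eq_single_of_mem (-q) (mem_Icc.2 ⟨by omega, by omega⟩), sum_eq_single_of_mem r.toNat
    (mem_range.2 (by omega)), if_pos]
  · rw [Int.toNat_of_nonneg r0]; linarith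
  · intro y _ hy
    rw [if_neg]
    intro h
    apply hy
    have : (y : ℤ) = r := by linarith
    omega
  · intro s _ hs
    refine sum_eq_zero fun y hy => if_neg fun h => hs ?_
    have hy' : (y : ℤ) < Q := by exact_mod_cast mem_range.1 hy
    have hy0 : (0 : ℤ) ≤ y := Int.natCast_nonneg y
    have h1 : (s + q) * Q = y - r := by linarith
    rcases lt_trichotomy (s + q) 0 with h2 | h2 | h2
    · have : s + q ≤ -1 := by omega
      nlinarith
    · omega
    · have : 1 ≤ s + q := by omega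
      nlinarith

theorem repr {Q μ n : ℕ} (hQ : 1 ≤ Q) {N : ℤ} (hN : |N| ≤ n * Q) {g : TT 1 → ℂ}
    (hg : g ∈ Sp {h : Fin 1 → ℤ | |h 0| ≤ μ * Q}) :
    ∑ s ∈ Icc (-((n + μ : ℕ) : ℤ)) ((n + μ : ℕ) : ℤ), ∑ y ∈ range Q,
      ∫ v, g v * ch (fun _ => N - s * Q + y) v = g 0 := by
  refine Sp_ind (p := fun g => ∑ s ∈ Icc (-((n + μ : ℕ) : ℤ)) ((n + μ : ℕ) : ℤ), ∑ y ∈ range Q,
      ∫ v, g v * ch (fun _ => N - s * Q + y) v = g 0) (fun h hh => ?_) (by simp)
    (fun f f' hf hf' h1 h2 => ?_) (fun c f _ h1 => ?_) hg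
  · have hh' : |h 0| ≤ μ * Q := hh
    have hb : |h 0 + N| ≤ ((n + μ : ℕ) : ℤ) * Q := by
      push_cast
      linarith [abs_add_le (h 0) N]
    have h1 : ch h 0 = 1 := by simp [ch]
    rw [h1, ← count hQ hb]
    refine sum_congr rfl fun s _ => sum_congr rfl fun y _ => ?_
    rw [int_ch]
    exact if_congr (by constructor <;> intro h0 <;> linarith) rfl rfl
  · have := Sp_cont hf
    have := Sp_cont hf'
    rw [Pi.add_apply, ← h1, ← h2, ← sum_add_distrib]
    refine sum_congr rfl fun s _ => ?_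
    rw [← sum_add_distrib]
    refine sum_congr rfl fun y _ => ?_
    simp_rw [Pi.add_apply, add_mul]
    exact integral_add (cint (by fun_prop)) (cint (by fun_prop))
  · rw [Pi.smul_apply, smul_eq_mul, ← h1, mul_sum]
    refine sum_congr rfl fun s _ => ?_
    rw [mul_sum]
    refine sum_congr rfl fun y _ => ?_
    simp_rw [Pi.smul_apply, smul_eq_mul, mul_assoc]
    exact integral_const_mul _ _

/-- The Fourier coefficients of the kernel. -/
noncomputable def ka (Q μ : ℕ) (t : ℤ) : ℂ :=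
  ∫ v : TT 1, ((Kn (fun _ => Q) (2 * μ) v : ℝ) : ℂ) * ch (fun _ => t) v

theorem ka_zero {Q μ : ℕ} {t : ℤ} (ht : (μ : ℤ) * Q < |t|) : ka Q μ t = 0 := by
  rw [ka]
  simp_rw [kn_eq, mul_assoc]
  rw [integral_const_mul, coef_zero (gm_mem Q μ μ μ le_rfl le_rfl) ht, mul_zero]

theorem ka_sum {Q μ n : ℕ} (hQ : 1 ≤ Q) (hμ : 1 ≤ μ) {N : ℤ} (hN : |N| ≤ n * Q) :
    ∑ s ∈ Icc (-((n + μ : ℕ) : ℤ)) ((n + μ : ℕ) : ℤ), ka Q μ (N - s * Q) = 1 := by
  have hm := gm_mem Q (μ - 1) μ μ (Nat.sub_le _ _) le_rfl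
  have hc := Sp_cont hm
  have hQ0 : (Q : ℂ) ≠ 0 := by exact_mod_cast (by omega : Q ≠ 0)
  have h0 : gm Q (μ - 1) μ 0 = 1 := by simp [gm, dk, hQ0]
  rw [← h0, ← repr hQ hN hm]
  refine sum_congr rfl fun s _ => ?_
  rw [ka, ← integral_finsetSum _ fun y _ => cint (by fun_prop)]
  refine integral_congr_ae (Filter.Eventually.of_forall fun v => ?_)
  beta_reduce
  rw [kn_eq' hQ hμ, sum_mul]
  refine sum_congr rfl fun y _ => ?_
  rw [ch_const_add]
  ring

variable {d : ℕ}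

theorem rad_ch (φ : V d) (μ : ℕ) (s : ℤ) (ω : Fin d → ℤ) (x : TT d) :
    rad φ μ s (ch ω) x = ka (den fun _ : Fin 1 => φ) μ
      (mat (fun _ : Fin 1 => φ) ω 0 - s * (den fun _ : Fin 1 => φ)) * ch ω x := by
  rw [rad, ka, ← integral_mul_const]
  refine integral_congr_ae (Filter.Eventually.of_forall fun v => ?_)
  have e : mat (fun _ : Fin 1 => φ) ω = fun _ => mat (fun _ : Fin 1 => φ) ω 0 :=
    funext fun i => by rw [Subsingleton.elim i 0]
  beta_reduce
  rw [ch_add_pt, ch_tr, sub_eq_add_neg, ch_const_add, ← e]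
  ring

theorem rad_add (φ : V d) (μ : ℕ) (s : ℤ) {f g : TT d → ℂ} (hf : Continuous f)
    (hg : Continuous g) (x : TT d) : rad φ μ s (f + g) x = rad φ μ s f x + rad φ μ s g x := by
  rw [rad, rad, rad, ← integral_add (cint (by fun_prop)) (cint (by fun_prop))]
  simp_rw [Pi.add_apply, mul_add]

theorem rad_smul (φ : V d) (μ : ℕ) (s : ℤ) (c : ℂ) (f : TT d → ℂ) (x : TT d) :
    rad φ μ s (c • f) x = c * rad φ μ s f x := by
  rw [rad, rad, ← integral_const_mul]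
  simp_rw [Pi.smul_apply, smul_eq_mul, mul_left_comm _ c]

theorem rad_zero (φ : V d) (μ : ℕ) (s : ℤ) (x : TT d) : rad φ μ s 0 x = 0 := by simp [rad]

end SLR

open SLR in
theorem blk_SLR (hB : Bas) : St_SLR where
  cont d μ φ s f hf := cont_int (f := fun (x : TT d) (v : TT 1) =>
    ((Kn (fun _ => den fun _ : Fin 1 => φ) (2 * μ) v : ℝ) : ℂ) *
      ch (fun _ => -(s * (den fun _ : Fin 1 => φ))) v * f (x + tr (mat fun _ : Fin 1 => φ) v))
    (by fun_prop)
  sum d μ φ s ι I f x hf := by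
    simp only [rad]
    rw [← integral_finsetSum _ fun b hb => cint (by have := hf b hb; fun_prop)]
    simp_rw [mul_sum]
  le d μ φ s f x hμ hφ hf := by
    obtain ⟨m1, m2⟩ := hB.sl0.kn_mass 1 (den fun _ : Fin 1 => φ) (2 * μ)
      (hB.sl0.den_pos _ _ _) (by omega)
    have m0 : 0 < ∫ v, Kn (fun _ : Fin 1 => den fun _ : Fin 1 => φ) (2 * μ) v :=
      lt_of_lt_of_le (by positivity) m1
    rw [bt, sK, hB.sl0.cv_eq d 1 _ _ _ x (fun _ => hφ) (continuous_Kn _ _) (Kn_nonneg _ _) m0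
      hf.norm, le_div_iff₀ m0]
    refine (mul_le_of_le_one_right (norm_nonneg _) m2).trans
      ((norm_integral_le_integral_norm _).trans (le_of_eq ?_))
    refine integral_congr_ae (Filter.Eventually.of_forall fun v => ?_)
    show ‖_ * _ * _‖ = _
    rw [norm_mul, norm_mul, norm_ch, mul_one, Complex.norm_real, Real.norm_of_nonneg (Kn_nonneg _ _ _)]
  mem d μ φ s S f _ hφ hf := by
    refine Sp_ind (p := fun f => rad φ μ s f ∈ Sp (S ∩ {ξ | |dot ξ φ - s| ≤ μ})) (fun ω hω => ?_)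
      ?_ (fun f g hf hg h1 h2 => ?_) (fun c f _ h => ?_) hf
    · have e : rad φ μ s (ch ω) = ka (den fun _ : Fin 1 => φ) μ
          (mat (fun _ : Fin 1 => φ) ω 0 - s * (den fun _ : Fin 1 => φ)) • ch ω :=
        funext fun x => rad_ch φ μ s ω x
      rw [e]
      by_cases h : |dot ω φ - s| ≤ μ
      · exact Submodule.smul_mem _ _ (ch_mem ⟨hω, h⟩)
      · rw [ka_zero, zero_smul]
        · exact zero_mem _
        have hQ : (0 : ℝ) < den fun _ : Fin 1 => φ := by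
          exact_mod_cast hB.sl0.den_pos d 1 fun _ => φ
        have h1 := hB.sl0.mat_eq d 1 (fun _ => φ) (fun _ => hφ) ω 0
        have h2 : (μ : ℝ) * (den fun _ : Fin 1 => φ) <
            |((mat (fun _ : Fin 1 => φ) ω 0 : ℤ) : ℝ) - s * (den fun _ : Fin 1 => φ)| := by
          rw [h1, mul_comm (s : ℝ), ← mul_sub, abs_mul, abs_of_pos hQ, mul_comm]
          exact mul_lt_mul_of_pos_left (not_le.1 h) hQ
        exact_mod_cast h2
    · have e : rad φ μ s (0 : TT d → ℂ) = 0 := funext fun x => rad_zero φ μ s x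
      rw [e]; exact zero_mem _
    · have e : rad φ μ s (f + g) = rad φ μ s f + rad φ μ s g :=
        funext fun x => rad_add φ μ s (Sp_cont hf) (Sp_cont hg) x
      rw [e]; exact add_mem h1 h2
    · have e : rad φ μ s (c • f) = c • rad φ μ s f := funext fun x => rad_smul φ μ s c f x
      rw [e]; exact Submodule.smul_mem _ _ h
  part d μ n φ f x hμ hφ hf := by
    refine Sp_ind (p := fun f => f x =
        ∑ s ∈ Icc (-((n + μ : ℕ) : ℤ)) ((n + μ : ℕ) : ℤ), rad φ μ s f x) (fun ω hω => ?_)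
      ?_ (fun f g hf hg h1 h2 => ?_) (fun c f _ h => ?_) hf
    · simp_rw [rad_ch]
      rw [← sum_mul, ka_sum (hB.sl0.den_pos d 1 fun _ => φ) hμ, one_mul]
      have hQ : (0 : ℝ) < den fun _ : Fin 1 => φ := by
        exact_mod_cast hB.sl0.den_pos d 1 fun _ => φ
      have h1 := hB.sl0.mat_eq d 1 (fun _ => φ) (fun _ => hφ) ω 0
      have h2 : |((mat (fun _ : Fin 1 => φ) ω 0 : ℤ) : ℝ)| ≤ n * (den fun _ : Fin 1 => φ) := by
        rw [h1, abs_mul, abs_of_pos hQ, mul_comm]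
        exact mul_le_mul_of_nonneg_right hω hQ.le
      exact_mod_cast h2
    · simp_rw [rad_zero]
      simp
    · simp_rw [rad_add φ μ _ (Sp_cont hf) (Sp_cont hg)]
      rw [sum_add_distrib, ← h1, ← h2, Pi.add_apply]
    · simp_rw [rad_smul]
      rw [← mul_sum, ← h, Pi.smul_apply, smul_eq_mul]

end Pool.Agent.Lib.SC
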