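import Pool.Agent.Lib.SC.Blue

/-! The slowly varying slice measure: doubling and the uncertainty principle. -/

namespace Pool.Agent.Lib.SC

open MeasureTheory Finset Pool.Agent.Lib.WC

namespace SLW

variable {d u : ℕ}

lemma tr_add (M : (Fin d → ℤ) →+ (Fin u → ℤ)) (v w : TT u) : tr M (v + w) = tr M v + tr M w := by
  ext a; simp [tr, Finset.sum_add_distrib]

lemma dot_single (a : Fin d) (P : V d) : dot (Pi.single a 1) P = P a := by
  unfold dot
  rw [Finset.sum_eq_single a] <;> simp +contextual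

lemma coe_sum (s : Finset (Fin u)) (x : Fin u → ℝ) :
    ((∑ i ∈ s, x i : ℝ) : UnitAddCircle) = ∑ i ∈ s, (x i : UnitAddCircle) :=
  map_sum (QuotientAddGroup.mk' (AddSubgroup.zmultiples (1 : ℝ))) x s

lemma pj_sum (h0 : St_SL0) (ψ : Fin u → V d) (hψ : ∀ i, IsQ (ψ i)) (t : Fin u → ℝ) :
    pj (∑ i, t i • ψ i) = tr (mat ψ) fun i => ((t i / den ψ : ℝ) : UnitAddCircle) := by
  have hQ : (0 : ℝ) < den ψ := by exact_mod_cast h0.den_pos d u ψ
  ext a
  simp only [pj, tr, Finset.sum_apply, Pi.smul_apply, smul_eq_mul]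
  rw [coe_sum]
  refine Finset.sum_congr rfl fun i _ => ?_
  rw [← AddCircle.coe_zsmul, zsmul_eq_mul, h0.mat_eq d u ψ hψ, dot_single]
  congr 1
  field_simp

lemma wd_nonneg (Q L : ℕ) (v : TT u) : 0 ≤ wd Q L v :=
  Finset.prod_nonneg fun _ _ => by positivity

lemma wd_sub_le {Q : ℕ} (hQ : 1 ≤ Q) (L : ℕ) (t : Fin u → ℝ) (v : TT u) :
    wd Q L (v - fun i => ((t i / Q : ℝ) : UnitAddCircle)) ≤ (∏ i, (1 + |t i|) ^ L) * wd Q L v := by
  have hQ' : (0 : ℝ) < Q := by exact_mod_cast hQ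
  unfold wd
  rw [← Finset.prod_mul_distrib]
  refine Finset.prod_le_prod (fun i _ => by positivity) fun i _ => ?_
  set z : UnitAddCircle := ((t i / Q : ℝ) : UnitAddCircle) with hz
  have h1 : (Q : ℝ) * ‖z‖ ≤ |t i| := by
    have := norm_coe_le (t i / Q)
    rw [abs_div, abs_of_pos hQ', le_div_iff₀ hQ'] at this
    linarith
  have h2 : ‖v i‖ ≤ ‖v i - z‖ + ‖z‖ := by
    simpa using norm_add_le (v i - z) z
  have h3 : 1 + (Q : ℝ) * ‖v i‖ ≤ (1 + |t i|) * (1 + Q * ‖v i - z‖) := by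
    have h4 : 0 ≤ |t i| * (Q * ‖v i - z‖) := by positivity
    nlinarith [mul_le_mul_of_nonneg_left h2 hQ'.le]
  have h5 : (1 + (Q : ℝ) * ‖v i‖) ^ L ≤ (1 + |t i|) ^ L * (1 + Q * ‖v i - z‖) ^ L := by
    rw [← mul_pow]; exact pow_le_pow_left₀ (by positivity) h3 L
  show (Q : ℝ) / (1 + Q * ‖v i - z‖) ^ L ≤ (1 + |t i|) ^ L * (Q / (1 + Q * ‖v i‖) ^ L)
  rw [← mul_div_assoc, div_le_div_iff₀ (by positivity) (by positivity)]
  nlinarith [mul_le_mul_of_nonneg_left h5 hQ'.le]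

lemma mass_pos (h0 : St_SL0) {Q L : ℕ} (hQ : 1 ≤ Q) (hL : 2 ≤ L) : 0 < ∫ v : TT u, wd Q L v :=
  lt_of_lt_of_le (by positivity) (h0.wd_mass u Q L hQ hL).1

lemma Kn_le {Q : ℕ} (hQ : 1 ≤ Q) (A L : ℕ) (v : TT u) :
    Kn (fun _ : Fin u => (A + 1) * Q) L v ≤ (((A : ℝ) + 1) * (3 / 2) ^ L) ^ u * wd Q L v := by
  have hQ' : (0 : ℝ) < Q := by exact_mod_cast hQ
  have e : (((A : ℝ) + 1) * (3 / 2) ^ L) ^ u = ∏ _i : Fin u, (((A : ℝ) + 1) * (3 / 2) ^ L) := by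
    simp
  unfold Kn wd
  rw [e, ← Finset.prod_mul_distrib]
  refine Finset.prod_le_prod (fun i _ => by positivity) fun i _ => ?_
  have hr : 1 ≤ (A + 1) * Q := Nat.mul_pos (Nat.succ_pos A) hQ
  have h1 := stKER.decay ((A + 1) * Q) (v i) hr
  have h2 : (1 + (Q : ℝ) * ‖v i‖) ≤ 1 + (((A + 1) * Q : ℕ) : ℝ) * ‖v i‖ := by
    push_cast
    have : 0 ≤ (A : ℝ) * (Q * ‖v i‖) := by positivity
    nlinarith
  have h3 : ‖dk ((A + 1) * Q) (v i)‖ * (1 + (Q : ℝ) * ‖v i‖) ≤ 3 / 2 :=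
    (mul_le_mul_of_nonneg_left h2 (norm_nonneg _)).trans h1
  have h4 : ‖dk ((A + 1) * Q) (v i)‖ ^ L * (1 + (Q : ℝ) * ‖v i‖) ^ L ≤ (3 / 2) ^ L := by
    rw [← mul_pow]; exact pow_le_pow_left₀ (by positivity) h3 L
  rw [← mul_div_assoc, le_div_iff₀ (by positivity)]
  push_cast
  have h5 : (0 : ℝ) ≤ (A + 1) * Q := by positivity
  nlinarith [mul_le_mul_of_nonneg_left h4 h5]

end SLW

open SLW in
theorem blk_SLW (hB : Bas) : St_SLW := by
  have h0 := hB.sl0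
  constructor
  · intro d u L ψ F t x hL hψ hF hF0
    have hQ := h0.den_pos d u ψ
    have hm := mass_pos (u := u) h0 hQ hL
    have hc := h0.wd_cont u (den ψ) L
    unfold sW
    rw [h0.cv_eq d u ψ _ F _ hψ hc (wd_nonneg _ _) hm hF,
      h0.cv_eq d u ψ _ F _ hψ hc (wd_nonneg _ _) hm hF, ← mul_div_assoc, pj_sum h0 ψ hψ t]
    refine div_le_div_of_nonneg_right ?_ hm.le
    set τ : TT u := fun i => ((t i / den ψ : ℝ) : UnitAddCircle) with hτ
    rw [← int_sub (fun v => wd (den ψ) L v * F (x + tr (mat ψ) τ + tr (mat ψ) v)) τ,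
      ← integral_const_mul]
    refine integral_mono (cint (by fun_prop)) (cint (by fun_prop)) fun v => ?_
    have e : x + tr (mat ψ) τ + tr (mat ψ) (v - τ) = x + tr (mat ψ) v := by
      rw [add_assoc, ← tr_add, add_sub_cancel]
    show wd (den ψ) L (v - τ) * F (x + tr (mat ψ) τ + tr (mat ψ) (v - τ)) ≤ _
    rw [e, ← mul_assoc]
    exact mul_le_mul_of_nonneg_right (wd_sub_le hQ L t v) (hF0 _)
  · intro u L A hL
    refine ⟨((L : ℝ) + 3) ^ (u * 2) * (((A : ℝ) + 1) * (3 / 2) ^ L) ^ u * 2 ^ u, ?_, ?_⟩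
    · have h1 : (1 : ℝ) ≤ ((L : ℝ) + 3) ^ (u * 2) :=
        one_le_pow₀ (by linarith [Nat.cast_nonneg (α := ℝ) L])
      have h2 : (1 : ℝ) ≤ (((A : ℝ) + 1) * (3 / 2) ^ L) ^ u :=
        one_le_pow₀ (one_le_mul_of_one_le_of_one_le (by linarith [Nat.cast_nonneg (α := ℝ) A])
          (one_le_pow₀ (by norm_num)))
      exact one_le_mul_of_one_le_of_one_le (one_le_mul_of_one_le_of_one_le h1 h2)
        (one_le_pow₀ (by norm_num))
    intro d ψ o f x hψ hf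
    have hQ := h0.den_pos d u ψ
    have hQ' : (0 : ℝ) < den ψ := by exact_mod_cast hQ
    have hm := mass_pos (u := u) h0 hQ hL
    have hc := h0.wd_cont u (den ψ) L
    have hfc := Sp_cont hf
    have hr : 1 ≤ (A + 1) * den ψ := Nat.mul_pos (Nat.succ_pos A) hQ
    have h1 := stUP d u (mat ψ) (fun i => -(den ψ * o i)) (fun _ => (A + 1) * den ψ) L 2 f x
      (fun _ => hr) hL (by norm_num) (Sp_mono (fun ω hω i => by
        rw [h0.mat_eq d u ψ hψ, ← sub_eq_add_neg, ← mul_sub, abs_mul, abs_of_pos hQ']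
        push_cast
        nlinarith [hω i]) hf)
    have h2 : ∫ v, Kn (fun _ : Fin u => (A + 1) * den ψ) L v * ‖f (x + tr (mat ψ) v)‖ ^ 2 ≤
        (((A : ℝ) + 1) * (3 / 2) ^ L) ^ u * ∫ v, wd (den ψ) L v * ‖f (x + tr (mat ψ) v)‖ ^ 2 := by
      rw [← integral_const_mul]
      refine integral_mono (cint (by fun_prop)) (cint (by fun_prop)) fun v => ?_
      show _ * _ ≤ _ * (_ * _)
      rw [← mul_assoc]
      exact mul_le_mul_of_nonneg_right (Kn_le hQ A L v) (by positivity)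
    have h3 : ∫ v, wd (den ψ) L v * ‖f (x + tr (mat ψ) v)‖ ^ 2 ≤
        2 ^ u * cv (sW ψ L) (fun y => ‖f y‖ ^ 2) x := by
      unfold sW
      rw [h0.cv_eq d u ψ _ _ _ hψ hc (wd_nonneg _ _) hm (by fun_prop), ← mul_div_assoc,
        le_div_iff₀ hm, mul_comm]
      exact mul_le_mul_of_nonneg_right (h0.wd_mass u _ L hQ hL).2
        (integral_nonneg fun v => mul_nonneg (wd_nonneg _ _ _) (by positivity))
    calc ‖f x‖ ^ 2 ≤ _ := h1
      _ ≤ ((L : ℝ) + 3) ^ (u * 2) * ((((A : ℝ) + 1) * (3 / 2) ^ L) ^ u *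
          (2 ^ u * cv (sW ψ L) (fun y => ‖f y‖ ^ 2) x)) :=
        mul_le_mul_of_nonneg_left (h2.trans (mul_le_mul_of_nonneg_left h3 (by positivity)))
          (by positivity)
      _ = _ := by ring

end Pool.Agent.Lib.SC
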