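import Pool.Agent.Lib.SC.Blue

/-! The step inequality. -/

namespace Pool.Agent.Lib.SC

open MeasureTheory Finset Pool.Agent.Lib.WC

namespace STEP

theorem card_sep (D K : ℕ) : (Sep D K).card ≤ K ^ D := by
  refine (card_filter_le _ _).trans ?_
  rw [Fintype.card_piFinset]
  simp

theorem ii_mono (hW : St_WR) {d r : ℕ} {H : ℝ} (hH : 0 < H) {F G : TT d → ℝ} (hF : Continuous F)
    (hG : Continuous G) (h : ∀ x, F x ≤ G x) : II r H F ≤ II r H G :=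
  integral_mono (cint (hF.mul (hW.cont d r H hH))) (cint (hG.mul (hW.cont d r H hH)))
    fun x => mul_le_mul_of_nonneg_right (h x) (hW.pos d r H x hH).le

theorem ii_lin (hW : St_WR) {d r : ℕ} {H : ℝ} (hH : 0 < H) {ι κ : Type} (s : Finset ι)
    (t : Finset κ) (A B : ℝ) {u : ι → TT d → ℝ} {v : κ → TT d → ℝ} (hu : ∀ α, Continuous (u α))
    (hv : ∀ α, Continuous (v α)) :
    II r H (fun x => A * ∑ α ∈ s, u α x + B * ∑ α ∈ t, v α x) =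
      A * ∑ α ∈ s, II r H (u α) + B * ∑ α ∈ t, II r H (v α) := by
  have hw := hW.cont d r H hH
  have h1 : ∀ α, Integrable (fun x => u α x * Wr r H x) := fun α => cint ((hu α).mul hw)
  have h2 : ∀ α, Integrable (fun x => v α x * Wr r H x) := fun α => cint ((hv α).mul hw)
  unfold II
  simp only [add_mul, mul_assoc, Finset.sum_mul]
  rw [integral_add ((integrable_finsetSum _ fun α _ => h1 α).const_mul _)
    ((integrable_finsetSum _ fun α _ => h2 α).const_mul _), integral_const_mul,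
    integral_const_mul, integral_finsetSum _ fun α _ => h1 α,
    integral_finsetSum _ fun α _ => h2 α]

theorem le_jap (z : ℂ) {p : ℝ} (hp : 0 ≤ p) : ‖z‖ ^ p ≤ (1 + ‖z‖ ^ 2) ^ (p / 2) := by
  have h : ‖z‖ ^ p = (‖z‖ ^ 2) ^ (p / 2) := by
    rw [← Real.rpow_natCast, ← Real.rpow_mul (norm_nonneg z)]
    congr 1
    push_cast
    ring
  rw [h]
  exact Real.rpow_le_rpow (by positivity) (by linarith) (by linarith)

theorem arc (hW : St_WR) {d r D Kb σ c : ℕ} {p H Cb Y : ℝ} {a : ℕ → ℂ} (hH : 0 < H) (hp : 0 ≤ p)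
    (hKb : 1 ≤ Kb) (hCb : 0 ≤ Cb) (hY0 : 0 ≤ Y)
    (hbn : ∀ F : ℕ → ℂ, (1 + ‖∑ α ∈ range Kb, F α‖ ^ 2) ^ (p / 2) ≤
      Cb * (1 + ∑ α ∈ range Kb, ‖F α‖ ^ p) +
        (Cb * Kb) ^ p * ∑ α ∈ Sep D Kb, ∏ i, ‖F (α i)‖ ^ (p / D))
    (hY : ∀ α ∈ Sep D Kb, II r H (fun x => ∏ i, ‖fa d a (c + α i * σ) σ x‖ ^ (p / D)) ≤ Y) :
    II r H (fun x => (1 + ‖fa d a c (Kb * σ) x‖ ^ 2) ^ (p / 2)) ≤
      2 * Cb * XX d r H p a c Kb σ + (Cb * Kb) ^ p * Kb ^ D * Y := by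
  have hu : ∀ c σ : ℕ, Continuous fun x => (1 + ‖fa d a c σ x‖ ^ 2) ^ (p / 2) := fun c σ =>
    (continuous_const.add ((hW.fa_cont d a c σ).norm.pow 2)).rpow_const
      fun _ => Or.inr (by linarith)
  have hv : ∀ α : Fin D → ℕ, Continuous fun x => ∏ i, ‖fa d a (c + α i * σ) σ x‖ ^ (p / D) :=
    fun α => continuous_finsetProd _ fun i _ =>
      (hW.fa_cont d a _ σ).norm.rpow_const fun _ => Or.inr (by positivity)
  have h1 : II r H (fun x => (1 + ‖fa d a c (Kb * σ) x‖ ^ 2) ^ (p / 2)) ≤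
      II r H (fun x => 2 * Cb * ∑ α ∈ range Kb, (1 + ‖fa d a (c + α * σ) σ x‖ ^ 2) ^ (p / 2) +
        (Cb * Kb) ^ p * ∑ α ∈ Sep D Kb, ∏ i, ‖fa d a (c + α i * σ) σ x‖ ^ (p / D)) := by
    refine ii_mono hW hH (hu _ _) ((continuous_const.mul
      (continuous_finsetSum _ fun α _ => hu _ _)).add (continuous_const.mul
      (continuous_finsetSum _ fun α _ => hv α))) fun x => ?_
    rw [hW.fa_split]
    refine (hbn fun α => fa d a (c + α * σ) σ x).trans (add_le_add ?_ le_rfl)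
    have h2 : ∑ α ∈ range Kb, ‖fa d a (c + α * σ) σ x‖ ^ p ≤
        ∑ α ∈ range Kb, (1 + ‖fa d a (c + α * σ) σ x‖ ^ 2) ^ (p / 2) :=
      Finset.sum_le_sum fun α _ => le_jap _ hp
    have h3 : (1 : ℝ) ≤ ∑ α ∈ range Kb, (1 + ‖fa d a (c + α * σ) σ x‖ ^ 2) ^ (p / 2) := by
      refine le_trans ?_ (Finset.single_le_sum
        (f := fun α : ℕ => (1 + ‖fa d a (c + α * σ) σ x‖ ^ 2) ^ (p / 2))
        (fun α _ => by positivity) (mem_range.2 hKb))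
      exact Real.one_le_rpow (le_add_of_nonneg_right (by positivity)) (by linarith)
    rw [mul_comm 2 Cb, mul_assoc]
    exact mul_le_mul_of_nonneg_left (by linarith) hCb
  refine h1.trans ?_
  rw [ii_lin hW hH _ _ _ _ (fun α : ℕ => hu _ _) hv]
  refine add_le_add le_rfl ?_
  rw [mul_assoc]
  refine mul_le_mul_of_nonneg_left ?_ (by positivity)
  refine (Finset.sum_le_card_nsmul _ _ _ hY).trans ?_
  rw [nsmul_eq_mul]
  exact mul_le_mul_of_nonneg_right (by exact_mod_cast card_sep D Kb) hY0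

theorem th_of {d r h n k : ℕ} {a b : ℤ} (hk : 1 ≤ k) (hT : SCI.Thk d r h n k a b) {h' a' b' : ℕ}
    (ha : a + h' = a' + h) (hb : b = b') {H N ρ A : ℝ} (hH : H = 2 ^ h') (hN : N = 2 ^ n)
    (hρ : ρ = 2 ^ a') (hA : A = 2 ^ b') : Th d r k H N ρ A := by
  subst hH hN hρ hA hb
  unfold Th
  rw [← pow_mul, ← pow_mul, ← pow_mul, ← pow_add, ← pow_add, ← pow_add]
  refine pow_le_pow_right₀ one_le_two ?_
  unfold SCI.Thk at hT
  obtain ⟨k', rfl⟩ := Nat.exists_eq_add_of_le' hk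
  rw [Nat.add_sub_cancel]
  zify
  push_cast at hT
  nlinarith

theorem xl_sum (hW : St_WR) (d r : ℕ) (H p : ℝ) (a : ℕ → ℂ) {n i u : ℕ} (h : i + u ≤ n) :
    ∑ b ∈ range (2 ^ i), XX d r H p a (2 ^ n + b * 2 ^ (n - i)) (2 ^ u) (2 ^ (n - (i + u))) =
      XL d r H p a n (i + u) := by
  have h1 : 2 ^ u * 2 ^ (n - (i + u)) = 2 ^ (n - i) := by
    rw [← pow_add]; congr 1; omega
  rw [XL, pow_add, hW.xx_sum, h1]

theorem pw1 {n i n0 m1 J s j : ℕ} (hn : n = i + n0 + J * m1 + s) (hj : j ≤ J) :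
    2 ^ s * (2 ^ m1) ^ (J - j) = 2 ^ (n - (i + (n0 + j * m1))) := by
  obtain ⟨j', rfl⟩ := Nat.exists_eq_add_of_le hj
  rw [← pow_mul, ← pow_add, Nat.add_sub_cancel_left, mul_comm m1 j']
  congr 1
  rw [add_mul] at hn
  omega

theorem pw2 (n0 m1 j : ℕ) : 2 ^ n0 * (2 ^ m1) ^ j = 2 ^ (n0 + j * m1) := by
  rw [← pow_mul, ← pow_add, mul_comm m1 j]

theorem rp (u : ℕ) (y : ℝ) : (((2 ^ u : ℕ) : ℝ)) ^ y = (2 : ℝ) ^ ((u : ℝ) * y) := by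
  rw [Real.rpow_mul zero_le_two, Real.rpow_natCast]
  push_cast
  rfl

theorem loss {Cb p ε : ℝ} {CT CB C D n nb m1 m2 J Z : ℕ} (hCb : 1 ≤ Cb) (hp : 0 ≤ p)
    (h1 : Cb ≤ C) (h2 : 2 * CT ≤ C) (h3 : 2 * CB ≤ C) (h4 : ⌈p⌉₊ + D + CT + CB + 2 ≤ C) :
    (Cb * (2 ^ nb : ℕ)) ^ p * ((2 ^ nb : ℕ) : ℝ) ^ D *
      (((CT : ℝ) * (2 ^ nb : ℕ) * ((2 * n + 1 : ℕ) + 1)) ^ CT * (((2 * n + 1 : ℕ) + 1) *
        (((CB : ℝ) * ((2 * n + 1 : ℕ) + 1) * (2 ^ m2 : ℕ)) ^ (CB * (J + 1)) *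
          ((2 ^ m1 : ℕ) : ℝ) ^ CB * (CB * ((2 ^ m2 : ℕ) : ℝ) ^ ε) ^ Z))) ≤
      SCI.Lam C ε n nb m1 m2 J Z := by
  unfold SCI.Lam
  rw [rp m2 ε, mul_comm (m2 : ℝ) ε]
  push_cast
  set A : ℝ := (C : ℝ) * (n + 1) * 2 ^ m2 with hA
  set K : ℝ := 2 ^ nb with hK
  set M : ℝ := 2 ^ m1 with hM
  have hK1 : 1 ≤ K := one_le_pow₀ one_le_two
  have hM1 : 1 ≤ M := one_le_pow₀ one_le_two
  have hw1 : (1 : ℝ) ≤ 2 ^ m2 := one_le_pow₀ one_le_two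
  have hn : (0 : ℝ) ≤ n := Nat.cast_nonneg n
  have hC2 : (2 : ℝ) ≤ C := by exact_mod_cast (by omega : 2 ≤ C)
  have hCT : 2 * (CT : ℝ) ≤ C := by exact_mod_cast h2
  have hCB : 2 * (CB : ℝ) ≤ C := by exact_mod_cast h3
  have hCB0 : (0 : ℝ) ≤ CB := Nat.cast_nonneg _
  have hCT0 : (0 : ℝ) ≤ CT := Nat.cast_nonneg _
  have hA0 : (C : ℝ) * (n + 1) ≤ A := le_mul_of_one_le_right (by positivity) hw1
  have hA1 : Cb ≤ A := by nlinarith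
  have hA2 : 1 ≤ A := hCb.trans hA1
  have e1 : (Cb * K) ^ p ≤ A ^ ⌈p⌉₊ * K ^ ⌈p⌉₊ := by
    rw [← mul_pow, ← Real.rpow_natCast]
    exact (Real.rpow_le_rpow (by positivity) (by gcongr) hp).trans
      (Real.rpow_le_rpow_of_exponent_le (one_le_mul_of_one_le_of_one_le hA2 hK1) (Nat.le_ceil p))
  have e2 : ((CT : ℝ) * K * (2 * n + 1 + 1)) ^ CT ≤ A ^ CT * K ^ CT := by
    rw [← mul_pow]
    refine pow_le_pow_left₀ (by positivity) ?_ _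
    have : (CT : ℝ) * (2 * n + 1 + 1) ≤ A := by nlinarith
    calc (CT : ℝ) * K * (2 * n + 1 + 1) = CT * (2 * n + 1 + 1) * K := by ring
      _ ≤ A * K := by gcongr
  have e3 : (2 * (n : ℝ) + 1 + 1) ≤ A := by nlinarith
  have e4 : ((CB : ℝ) * (2 * n + 1 + 1) * 2 ^ m2) ^ (CB * (J + 1)) ≤ A ^ (CB * (J + 1)) := by
    refine pow_le_pow_left₀ (by positivity) ?_ _
    have : (CB : ℝ) * (2 * n + 1 + 1) ≤ C * (n + 1) := by nlinarith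
    rw [hA]
    gcongr
  have e5 : ((CB : ℝ) * (2 : ℝ) ^ (ε * m2)) ^ Z ≤ ((C : ℝ) * (2 : ℝ) ^ (ε * m2)) ^ Z := by
    refine pow_le_pow_left₀ (by positivity) ?_ _
    gcongr
    linarith
  have e6 : A ^ (⌈p⌉₊ + CT + 1 + CB * (J + 1)) ≤ A ^ (C * (J + 1)) := by
    refine pow_le_pow_right₀ hA2 ?_
    have : (⌈p⌉₊ + CT + 1 + CB) * (J + 1) ≤ C * (J + 1) := Nat.mul_le_mul_right _ (by omega)
    nlinarith [Nat.zero_le ((⌈p⌉₊ + CT + 1) * J)]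
  have e7 : K ^ (⌈p⌉₊ + D + CT) * M ^ CB ≤ (2 : ℝ) ^ (C * (nb + m1)) := by
    rw [mul_comm C, pow_mul, pow_add (2 : ℝ) nb m1, mul_pow]
    exact mul_le_mul (pow_le_pow_right₀ hK1 (by omega)) (pow_le_pow_right₀ hM1 (by omega))
      (by positivity) (by positivity)
  calc _ ≤ A ^ ⌈p⌉₊ * K ^ ⌈p⌉₊ * K ^ D * (A ^ CT * K ^ CT * (A * (A ^ (CB * (J + 1)) * M ^ CB *
        ((C : ℝ) * (2 : ℝ) ^ (ε * m2)) ^ Z))) := by gcongr
    _ = A ^ (⌈p⌉₊ + CT + 1 + CB * (J + 1)) * (K ^ (⌈p⌉₊ + D + CT) * M ^ CB) *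
        ((C : ℝ) * (2 : ℝ) ^ (ε * m2)) ^ Z := by ring
    _ ≤ _ := by gcongr

theorem one (hB : Bas) (hG : St_GE1) (hBN : St_BN) (hT : St_TOP) (hTr : St_TREE) (hBr : St_BROAD)
    (d D r D' : ℕ) (p ε : ℝ) (h3 : 3 ≤ D) (hr : r + 1 ≤ D) (hd : D ≤ d) (hp : (D : ℝ) ≤ p / 2)
    (hε : 0 < ε) (hD' : D' = D ∨ D' + 1 = D) : ∃ C₀ : ℕ, 1 ≤ C₀ ∧ ∀ C : ℕ, C₀ ≤ C →
    ∀ (h n : ℕ) (a : ℕ → ℂ), (∀ y, ‖a y‖ ≤ 1) →
    ∀ (i n0 nb m1 m2 J Z : ℕ) (k z : ℕ → ℕ) (e : ℕ → ℝ),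
    nb ≤ n0 → n0 ≤ i → i + n0 + J * m1 ≤ n → m1 + D * m2 ≤ n0 →
    SCI.Thk d r h n D' ((n : ℤ) - i - n0) ((n : ℤ) - i) →
    SCI.Thk d r h n (D - 1) ((n : ℤ) - i - n0 - J * m1) ((n : ℤ) - i) →
    (∀ j, j < J → (k j = D ∨ k j + 1 = D) ∧ p / 2 ≤ e j ∧ (sd (k j - 1) : ℝ) + 1 ≤ e j ∧
      e j ≤ p - D' ∧ z j ≤ Z ∧ z j * m2 + m1 ≤ n0 + j * m1 ∧
      SCI.Thk d r h n (k j) ((n : ℤ) - i - n0 - (j + 1) * m1 - 3 * D * m2)
        ((n : ℤ) - i - z j * m2)) →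
    ∀ c : ℕ, 2 ^ n ≤ c → c + 2 ^ (n - i) ≤ 2 * 2 ^ n →
    II r (2 ^ h) (fun x => (1 + ‖fa d a c (2 ^ (n - i)) x‖ ^ 2) ^ (p / 2)) ≤
      C * XX d r (2 ^ h) p a c (2 ^ nb) (2 ^ (n - (i + nb))) + SCI.Lam C ε n nb m1 m2 J Z *
      ((2 : ℝ) ^ (n0 * (p / 2 - D') + (n0 + J * m1) * (p / 2 - 1)) *
          XX d r (2 ^ h) p a c (2 ^ (n0 + J * m1)) (2 ^ (n - (i + (n0 + J * m1)))) +
        ∑ j ∈ range J, (2 : ℝ) ^ (n0 * (p - D' - e j) +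
          (n0 + j * m1) * (e j - (sd (k j - 1) + 1)) +
          (n0 + j * m1 - z j * m2) * (sd (k j - 1) : ℝ)) *
          XX d r (2 ^ h) p a c (2 ^ (n0 + j * m1)) (2 ^ (n - (i + (n0 + j * m1))))) := by
  have hW := hB.wr
  have hD3 : (3 : ℝ) ≤ D := by exact_mod_cast h3
  have hD'D : D' ≤ D := by omega
  have hD'r : (D' : ℝ) ≤ p / 2 := le_trans (by exact_mod_cast hD'D) hp
  have hp2 : 2 ≤ p := by linarith
  obtain ⟨C0, hC0, hG⟩ := hG d (D - 1) r (by omega) (by omega)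
  obtain ⟨m, μ, hm, hμ, hBr⟩ := hBr d r D D' ((2 * d + 2) * d) p h3 hr hd hD'r hp2
  obtain ⟨C1, hC1, hTr⟩ := hTr d r (D - 1) m μ p C0 (by omega) (by omega) (by omega) hm hμ hp2 hC0
  obtain ⟨CB, hCB, hBr⟩ := hBr C0 C1 ε hC0 hC1 hε
  obtain ⟨CT, hCT, hT⟩ := hT d r D' ((2 * d + 2) * d) p C1 (by omega) (by omega) (by omega)
    (by linarith) hC1
  obtain ⟨Cb, hCb, hBN⟩ := hBN D' p (by omega) (by linarith)
  refine ⟨2 * ⌈Cb⌉₊ + 2 * CT + 2 * CB + ⌈p⌉₊ + D' + 2, by omega,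
    fun C hC h n a ha i n0 nb m1 m2 J Z k z e h1 h2 h4 h5 t1 t2 hj c hc1 hc2 => ?_⟩
  obtain ⟨s, hn⟩ := Nat.exists_eq_add_of_le h4
  obtain ⟨n1, hn1⟩ := Nat.exists_eq_add_of_le h1
  have hnZ : (n : ℤ) = i + n0 + J * m1 + s := by exact_mod_cast hn
  have hH : (0 : ℝ) < 2 ^ h := by positivity
  have o2 : ∀ u : ℕ, 1 ≤ 2 ^ u := fun u => Nat.one_le_two_pow
  have c2 : ∀ u : ℕ, ((2 ^ u : ℕ) : ℝ) = 2 ^ u := fun u => by push_cast; rfl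
  have eS : 2 ^ n0 * (2 ^ m1) ^ J * 2 ^ s = 2 ^ (n - i) := by
    rw [pw2, ← pow_add]; congr 1; omega
  have eK : 2 ^ nb * 2 ^ n1 = 2 ^ n0 := by rw [← pow_add, ← hn1]
  have e0 : 2 ^ s * (2 ^ m1) ^ J = 2 ^ (n - (i + n0)) := by
    rw [pw2]; congr 1; omega
  have e1 : 2 ^ n1 * (2 ^ s * (2 ^ m1) ^ J) = 2 ^ (n - (i + nb)) := by
    rw [e0, ← pow_add]; congr 1; omega
  have eS' : 2 ^ nb * 2 ^ n1 * (2 ^ s * (2 ^ m1) ^ J) = 2 ^ (n - i) := by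
    rw [eK, e0, ← pow_add]; congr 1; omega
  obtain ⟨Ψ, hΨ⟩ := hG (2 ^ n) c (o2 n) hc1 (by omega)
  have t2' : Th d r (D - 1) (2 ^ h) ((2 ^ n : ℕ) : ℝ) ((2 ^ s : ℕ) : ℝ)
      ((2 ^ n0 * (2 ^ m1) ^ J * 2 ^ s : ℕ) : ℝ) :=
    th_of (by omega) t2 (h' := h) (a' := s) (b' := n - i) (by linarith) (by omega) rfl (c2 n) (c2 s)
      (by rw [eS, c2])
  obtain ⟨g, Kk, hg⟩ := hTr (2 ^ n) c (2 ^ s) (2 ^ n0) (2 ^ m1) J (2 ^ h) a Ψ (o2 _) (o2 _) (o2 _)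
    hH ha hΨ (by
      rw [eS, ← pow_add]
      exact Nat.pow_le_pow_right two_pos (by omega)) t2'
  have hb := fun t₀ => hBr (2 ^ n) c (2 ^ s) (2 ^ n0) (2 ^ m1) J (2 ^ m2) Z t₀ (2 ^ h) a Ψ g Kk k z
    (fun j => 2 ^ (n0 + j * m1 - z j * m2)) e (o2 _) (o2 _) (o2 _) (o2 _) hH hΨ hc1
    (by rw [eS]; exact hc2) (by
      rw [eS, ← pow_mul, ← pow_add, ← pow_add, mul_comm m2 D]
      exact Nat.pow_le_pow_right two_pos (by omega)) t2' hg (fun j hjJ => by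
      obtain ⟨q1, q2, q3, q4, q5, q6, q7⟩ := hj j hjJ
      refine ⟨q1, q2, q3, q4, q5, ?_, Nat.pow_le_pow_right two_pos (by omega), ?_⟩
      · rw [pw2, ← pow_mul, ← pow_add, mul_comm m2 (z j)]
        congr 1
        omega
      · have hj1 : (j + 1) * m1 ≤ J * m1 := Nat.mul_le_mul_right _ hjJ
        have hj2 : (j + 1) * m1 = j * m1 + m1 := by ring
        refine th_of (by omega) q7 (h' := h + m2 * (3 * D)) (a' := n - (i + (n0 + (j + 1) * m1)))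
          (b' := n - i - z j * m2) ?_ ?_ ?_ (c2 n) ?_ ?_
        · rw [Nat.cast_sub (by omega)]
          push_cast
          ring
        · rw [Nat.cast_sub (by omega), Nat.cast_sub (by omega)]
          push_cast
          ring
        · rw [c2, ← pow_mul, ← pow_add]
        · rw [pw1 hn hjJ, c2]
        · rw [pw1 hn hjJ.le, ← pow_add, c2]
          congr 1
          omega)
  set Y : ℝ := (2 : ℝ) ^ (n0 * (p / 2 - D') + (n0 + J * m1) * (p / 2 - 1)) *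
          XX d r (2 ^ h) p a c (2 ^ (n0 + J * m1)) (2 ^ (n - (i + (n0 + J * m1)))) +
        ∑ j ∈ range J, (2 : ℝ) ^ (n0 * (p - D' - e j) +
          (n0 + j * m1) * (e j - (sd (k j - 1) + 1)) +
          (n0 + j * m1 - z j * m2) * (sd (k j - 1) : ℝ)) *
          XX d r (2 ^ h) p a c (2 ^ (n0 + j * m1)) (2 ^ (n - (i + (n0 + j * m1)))) with hYdef
  have hY0 : 0 ≤ Y := add_nonneg (mul_nonneg (by positivity) (hW.xx_nonneg _ _ _ _ _ _ _ _ hH))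
    (Finset.sum_nonneg fun j _ => mul_nonneg (by positivity) (hW.xx_nonneg _ _ _ _ _ _ _ _ hH))
  have hY : ((2 ^ n0 : ℕ) : ℝ) ^ (p / 2 - D') * ((2 ^ n0 * (2 ^ m1) ^ J : ℕ) : ℝ) ^ (p / 2 - 1) *
        XX d r (2 ^ h) p a c (2 ^ n0 * (2 ^ m1) ^ J) (2 ^ s) +
      ∑ j ∈ range J, ((2 ^ n0 : ℕ) : ℝ) ^ (p - D' - e j) *
        ((2 ^ n0 * (2 ^ m1) ^ j : ℕ) : ℝ) ^ (e j - (sd (k j - 1) + 1)) *
        ((2 ^ (n0 + j * m1 - z j * m2) : ℕ) : ℝ) ^ sd (k j - 1) *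
        XX d r (2 ^ h) p a c (2 ^ n0 * (2 ^ m1) ^ j) (2 ^ s * (2 ^ m1) ^ (J - j)) = Y := by
    rw [hYdef]
    congr 1
    · rw [pw2, rp, rp, ← Real.rpow_add two_pos, show n - (i + (n0 + J * m1)) = s by omega]
      push_cast
      rfl
    · refine Finset.sum_congr rfl fun j hjJ => ?_
      have hjJ := mem_range.1 hjJ
      obtain ⟨-, -, -, -, -, q6, -⟩ := hj j hjJ
      rw [pw2, pw1 hn hjJ.le, rp, rp, ← Real.rpow_natCast _ (sd (k j - 1)), rp,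
        ← Real.rpow_add two_pos, ← Real.rpow_add two_pos, Nat.cast_sub (by omega)]
      push_cast
      rfl
  have hsum : ∑ t ∈ range (2 * n + 1 + 1),
      II r (2 ^ h) (fun x => Tht p D' (2 ^ t) (Ps (g 0) (2 ^ n0) (2 ^ t) x)) ≤
      (((2 * n + 1 : ℕ) : ℝ) + 1) * ((((CB : ℝ) * ((2 * n + 1 : ℕ) + 1) * (2 ^ m2 : ℕ)) ^
        (CB * (J + 1)) * ((2 ^ m1 : ℕ) : ℝ) ^ CB * (CB * ((2 ^ m2 : ℕ) : ℝ) ^ ε) ^ Z) * Y) := by
    refine (Finset.sum_le_card_nsmul _ _ _ fun t ht => ?_).trans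
      (by rw [card_range, nsmul_eq_mul, Nat.cast_succ])
    refine (hb t).trans ?_
    rw [hY]
    have ht' : (t : ℝ) ≤ (2 * n + 1 : ℕ) := by
      have := mem_range.1 ht
      exact_mod_cast (by omega : t ≤ 2 * n + 1)
    gcongr
  have htop := hT (2 ^ n) c (2 ^ s * (2 ^ m1) ^ J) (2 ^ nb) (2 ^ n1) (2 * n + 1) (2 ^ h) a (g 0)
    (by rw [e0]; exact o2 _) (o2 _) (o2 _) hH hc1 (by rw [eS']; exact hc2) (by
      rw [eS', eK, ← pow_add]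
      exact Nat.pow_le_pow_right two_pos (by omega))
    (th_of (by omega) t1 (h' := h) (a' := n - (i + n0)) (b' := n - i)
      (by rw [Nat.cast_sub (by omega)]; push_cast; ring) (by omega) rfl (c2 n) (by rw [e0, c2])
      (by rw [eS', c2])) (hg.cont 0) (fun b x => ⟨hg.one_le 0 b x, (hg.le_sq 0 b x).trans (by
        rw [Nat.sub_zero, e0, c2, ← pow_mul, pow_succ]
        have q1 : (2 : ℝ) ^ ((n - (i + n0)) * 2) ≤ 2 ^ (2 * n) :=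
          pow_le_pow_right₀ one_le_two (by omega)
        have q2 : (1 : ℝ) ≤ 2 ^ (2 * n) := one_le_pow₀ one_le_two
        linarith)⟩) hg.top (hg.dbl 0)
  rw [eK, e1] at htop
  have harc := arc hW (d := d) (r := r) (D := D') (Kb := 2 ^ nb) (σ := 2 ^ (n - (i + nb))) (c := c)
    (a := a) hH (by linarith : 0 ≤ p) (o2 nb) (by linarith : 0 ≤ Cb) (by positivity) (hBN (2 ^ nb))
    fun α hα => (htop α hα).trans (mul_le_mul_of_nonneg_left hsum (by positivity))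
  rw [← pow_add, show nb + (n - (i + nb)) = n - i by omega] at harc
  refine harc.trans (add_le_add ?_ ?_)
  · refine mul_le_mul_of_nonneg_right ?_ (hW.xx_nonneg _ _ _ _ _ _ _ _ hH)
    have q1 : ((2 * ⌈Cb⌉₊ : ℕ) : ℝ) ≤ C := by exact_mod_cast (by omega : 2 * ⌈Cb⌉₊ ≤ C)
    have q2 := Nat.le_ceil Cb
    push_cast at q1
    linarith
  · have q1 : ((⌈Cb⌉₊ : ℕ) : ℝ) ≤ C := by exact_mod_cast (by omega : ⌈Cb⌉₊ ≤ C)
    have q := loss (ε := ε) (CT := CT) (CB := CB) (C := C) (D := D') (n := n) (nb := nb) (m1 := m1)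
      (m2 := m2) (J := J) (Z := Z) hCb (by linarith : 0 ≤ p) ((Nat.le_ceil Cb).trans q1)
      (by omega) (by omega) (by omega)
    refine le_trans (le_of_eq ?_) (mul_le_mul_of_nonneg_right q hY0)
    ring

theorem summ (hW : St_WR) {d r : ℕ} {H p : ℝ} {a : ℕ → ℂ} {n i nb n0 m1 J : ℕ} {C Λ A0 : ℝ}
    {A : ℕ → ℝ} (h1 : nb ≤ n0) (h4 : i + n0 + J * m1 ≤ n)
    (h : ∀ c : ℕ, 2 ^ n ≤ c → c + 2 ^ (n - i) ≤ 2 * 2 ^ n →
      II r H (fun x => (1 + ‖fa d a c (2 ^ (n - i)) x‖ ^ 2) ^ (p / 2)) ≤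
        C * XX d r H p a c (2 ^ nb) (2 ^ (n - (i + nb))) + Λ *
          (A0 * XX d r H p a c (2 ^ (n0 + J * m1)) (2 ^ (n - (i + (n0 + J * m1)))) +
            ∑ j ∈ range J,
              A j * XX d r H p a c (2 ^ (n0 + j * m1)) (2 ^ (n - (i + (n0 + j * m1)))))) :
    XL d r H p a n i ≤ C * XL d r H p a n (i + nb) + Λ * (A0 * XL d r H p a n (i + n0 + J * m1) +
      ∑ j ∈ range J, A j * XL d r H p a n (i + n0 + j * m1)) := by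
  have e : 2 ^ i * 2 ^ (n - i) = 2 ^ n := by rw [← pow_add]; congr 1; omega
  have e' : XL d r H p a n i = ∑ b ∈ range (2 ^ i), II r H fun x =>
      (1 + ‖fa d a (2 ^ n + b * 2 ^ (n - i)) (2 ^ (n - i)) x‖ ^ 2) ^ (p / 2) := rfl
  rw [e']
  refine le_trans (Finset.sum_le_sum fun b hb => h (2 ^ n + b * 2 ^ (n - i)) (by omega) ?_)
    (le_of_eq ?_)
  · have := Nat.mul_le_mul_right (2 ^ (n - i)) (Nat.succ_le_of_lt (mem_range.1 hb))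
    rw [e, Nat.succ_mul] at this
    omega
  · rw [Finset.sum_add_distrib, ← Finset.mul_sum, ← Finset.mul_sum, Finset.sum_add_distrib,
      ← Finset.mul_sum, Finset.sum_comm, xl_sum hW _ _ _ _ _ (by omega),
      xl_sum hW _ _ _ _ _ (by omega), add_assoc i n0]
    congr 3
    refine Finset.sum_congr rfl fun j hj => ?_
    have := Nat.mul_le_mul_right m1 (mem_range.1 hj).le
    rw [← Finset.mul_sum, xl_sum hW _ _ _ _ _ (by omega), add_assoc i n0]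

end STEP

open STEP in
theorem blk_STEP (hB : Bas) (hG : St_GE1) (hBN : St_BN) (hT : St_TOP) (hTr : St_TREE)
    (hBr : St_BROAD) : St_STEP := by
  intro d D r p ε h3 hr hd hp hε
  obtain ⟨C1, h1, H1⟩ := one hB hG hBN hT hTr hBr d D r D p ε h3 hr hd hp hε (Or.inl rfl)
  obtain ⟨C2, -, H2⟩ := one hB hG hBN hT hTr hBr d D r (D - 1) p ε h3 hr hd hp hε
    (Or.inr (by omega))
  refine ⟨C1 + C2, by omega, fun h n a ha => ?_⟩
  intro i n0 nb m1 m2 J D' Z k z e _ q1 q2 q3 _ _ q4 hD' t1 t2 hj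
  rcases hD' with rfl | hD'
  · exact summ hB.wr q1 q3
      (H1 (C1 + C2) (by omega) h n a ha i n0 nb m1 m2 J Z k z e q1 q2 q3 q4 t1 t2 hj)
  · obtain rfl : D' = D - 1 := by omega
    exact summ hB.wr q1 q3
      (H2 (C1 + C2) (by omega) h n a ha i n0 nb m1 m2 J Z k z e q1 q2 q3 q4 t1 t2 hj)

end Pool.Agent.Lib.SC
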