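import Pool.Agent.Lib.SC.Blue

/-! The multilinear estimate. -/

namespace Pool.Agent.Lib.SC

open MeasureTheory Finset Pool.Agent.Lib.WC

namespace TOP

theorem card_le {D : ℕ} (b : Fin D → ℕ) (R : ℕ) (t : Finset (Fin D → ℕ))
    (h : ∀ b' ∈ t, ∀ i, b i ≤ b' i + R ∧ b' i ≤ b i + R) : t.card ≤ (2 * R + 1) ^ D := by
  have hs : t ⊆ Fintype.piFinset fun i => Icc (b i - R) (b i + R) := by
    intro b' hb'
    rw [Fintype.mem_piFinset]
    intro i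
    have := h b' hb' i
    rw [Finset.mem_Icc]
    omega
  refine (Finset.card_le_card hs).trans ?_
  rw [Fintype.card_piFinset]
  calc ∏ i, (Icc (b i - R) (b i + R)).card ≤ ∏ _i : Fin D, (2 * R + 1) := by
        refine Finset.prod_le_prod' fun i _ => ?_
        rw [Nat.card_Icc]
        omega
    _ = (2 * R + 1) ^ D := by simp

theorem fa_block (hB : Bas) (d : ℕ) (a : ℕ → ℂ) (c σ K₁ α : ℕ) (y : TT d) :
    ∑ b ∈ Ico (α * K₁) ((α + 1) * K₁), fa d a (c + b * σ) σ y =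
      fa d a (c + α * (K₁ * σ)) (K₁ * σ) y := by
  rw [hB.wr.fa_split, Finset.sum_Ico_eq_sum_range]
  have e : (α + 1) * K₁ - α * K₁ = K₁ := by rw [Nat.add_mul, one_mul, Nat.add_sub_cancel_left]
  rw [e]
  refine Finset.sum_congr rfl fun b _ => ?_
  have e2 : c + (α * K₁ + b) * σ = c + α * (K₁ * σ) + b * σ := by ring
  rw [e2]

theorem cont_tht {d : ℕ} (p : ℝ) (D : ℕ) (hp : 2 * (D : ℝ) ≤ p) (lam : ℝ) (g : ℕ → TT d → ℝ)
    (hg : ∀ b, Continuous (g b)) (K : ℕ) :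
    Continuous fun x => Tht p D lam (Ps g K lam x) := by
  have h1 : Continuous (Ps g K lam) :=
    continuous_finsetSum _ fun b _ => (hg b).min continuous_const
  have h2 : (0 : ℝ) ≤ p - D := by
    have : (0 : ℝ) ≤ D := Nat.cast_nonneg D
    linarith
  exact continuous_const.mul (h1.rpow_const fun _ => Or.inr h2)

theorem intg {d : ℕ} {F : TT d → ℝ} (h : Continuous F) : Integrable F :=
  h.integrable_of_hasCompactSupport (HasCompactSupport.of_compactSpace _)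

theorem const_le (X : ℝ) (CG D m C Kb T : ℕ) (hX : 0 ≤ X) (hG : 1 ≤ CG) (hK : 1 ≤ Kb)
    (h1 : X * (3 * CG) ^ D ≤ C) (h2 : D * D ≤ C) (h3 : m ≤ C) (h4 : 1 ≤ C) :
    X * (((2 * (CG * Kb ^ (D - 1)) + 1) ^ D : ℕ) : ℝ) * ((T : ℝ) + 1) ^ m ≤
      ((C : ℝ) * Kb * (T + 1)) ^ C := by
  have hK' : (1 : ℝ) ≤ Kb := by exact_mod_cast hK
  have hC' : (1 : ℝ) ≤ C := by exact_mod_cast h4
  have hT : (1 : ℝ) ≤ (T : ℝ) + 1 := by
    have : (0 : ℝ) ≤ T := Nat.cast_nonneg T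
    linarith
  have a1 : 2 * (CG * Kb ^ (D - 1)) + 1 ≤ 3 * CG * Kb ^ (D - 1) := by
    have : 1 ≤ CG * Kb ^ (D - 1) := Nat.mul_pos hG (Nat.pow_pos hK)
    nlinarith
  have a2 : (2 * (CG * Kb ^ (D - 1)) + 1) ^ D ≤ (3 * CG) ^ D * Kb ^ C := by
    refine (Nat.pow_le_pow_left a1 D).trans ?_
    rw [mul_pow, ← pow_mul]
    refine Nat.mul_le_mul_left _ (Nat.pow_le_pow_right hK ?_)
    exact (Nat.mul_le_mul_right _ (Nat.sub_le _ _)).trans h2
  have a3 : (((2 * (CG * Kb ^ (D - 1)) + 1) ^ D : ℕ) : ℝ) ≤ (3 * CG) ^ D * (Kb : ℝ) ^ C := by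
    exact_mod_cast a2
  have a4 : ((T : ℝ) + 1) ^ m ≤ ((T : ℝ) + 1) ^ C := pow_le_pow_right₀ hT h3
  have a5 : (C : ℝ) ≤ (C : ℝ) ^ C := le_self_pow₀ hC' (by omega)
  calc X * (((2 * (CG * Kb ^ (D - 1)) + 1) ^ D : ℕ) : ℝ) * ((T : ℝ) + 1) ^ m
      ≤ X * ((3 * CG) ^ D * (Kb : ℝ) ^ C) * ((T : ℝ) + 1) ^ C := by gcongr
    _ = X * (3 * CG) ^ D * (Kb : ℝ) ^ C * ((T : ℝ) + 1) ^ C := by ring
    _ ≤ (C : ℝ) ^ C * (Kb : ℝ) ^ C * ((T : ℝ) + 1) ^ C := by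
        gcongr
        exact h1.trans a5
    _ = ((C : ℝ) * Kb * (T + 1)) ^ C := by rw [mul_pow, mul_pow]

end TOP

theorem blk_TOP (hB : Bas) (SLM : St_SLM) (SLO : St_SLO) (TOPG : St_TOPG) (TOP0 : St_TOP0) :
    St_TOP := by
  intro d r D L p C₁ hD hr hDd hp hC₁
  obtain ⟨m, h0⟩ := TOP0 D L p hD hp
  obtain ⟨CG, hG1, hG⟩ := TOPG d r D (m + 2) hD hr hDd
  obtain ⟨CM, hM1, hM⟩ := SLM D (2 * (m + 2)) m
  obtain ⟨CN, hN1, hN⟩ := SLM D (2 * (m + 2) + m) 1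
  have hG1' : (1 : ℝ) ≤ CG := by exact_mod_cast hG1
  have hA : (1 : ℝ) ≤ CM * (CG : ℝ) ^ m := one_le_mul_of_one_le_of_one_le hM1 (one_le_pow₀ hG1')
  have hA2 : (1 : ℝ) ≤ ((2 : ℝ) ^ d * 1) ^ L :=
    one_le_pow₀ (by rw [mul_one]; exact one_le_pow₀ (by norm_num))
  obtain ⟨C₂, hC₂⟩ : ∃ C₂ : ℝ, C₂ = C₁ * (CM * (CG : ℝ) ^ m) * ((2 : ℝ) ^ d * 1) ^ L := ⟨_, rfl⟩
  have e1 : C₁ ≤ C₂ := by
    rw [hC₂, mul_assoc]
    exact le_mul_of_one_le_right (by linarith) (one_le_mul_of_one_le_of_one_le hA hA2)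
  have e2 : CM * (CG : ℝ) ^ m ≤ C₂ := by
    rw [hC₂]
    exact (le_mul_of_one_le_left (by linarith) hC₁).trans
      (le_mul_of_one_le_right (by positivity) hA2)
  have e3 : ((2 : ℝ) ^ d * 1) ^ L ≤ C₂ := by
    rw [hC₂]
    exact le_mul_of_one_le_left (by linarith) (one_le_mul_of_one_le_of_one_le hC₁ hA)
  obtain ⟨C₀, hC₀, h0⟩ := h0 C₂ (hC₁.trans e1)
  obtain ⟨X, hX⟩ : ∃ X : ℝ, X = (CN * (CG : ℝ) ^ 1) ^ (2 * d) * C₀ := ⟨_, rfl⟩
  have hX0 : 0 ≤ X := by rw [hX]; positivity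
  refine ⟨⌈X * (3 * CG) ^ D⌉₊ + D * D + m + 1, by omega, ?_⟩
  intro N c σ Kb K₁ T H a g hσ hKb hK₁ hH hNc hc2 hKN hTh hgc hg1 hfg hgd α hα
  obtain ⟨ψ, hψQ, hψG, hψ⟩ := hG N c σ Kb K₁ H hσ hKb hK₁ hH.le hNc hc2 hKN hTh
  have p1 : IsProbabilityMeasure (sK ψ (2 * (m + 2))) := hB.sl0.probK _ _ _ _ (by omega)
  have p2 : IsProbabilityMeasure (sK ψ (2 * (m + 2) + m)) := hB.sl0.probK _ _ _ _ (by omega)
  obtain ⟨hM2, hM3⟩ := hM d ψ _ CG hG1' hψG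
  obtain ⟨hN2, -⟩ := hN d ψ (bx r H) CG hG1' fun i => (hB.ge0.bx_le _ _ _ _ _ _ _).trans (hψG i)
  have hαK : ∀ i, α i < Kb := by
    intro i
    have := (Finset.mem_filter.1 hα).1
    rw [Fintype.mem_piFinset] at this
    exact Finset.mem_range.1 (this i)
  have hp0 : 0 ≤ p / D := by
    have : (0 : ℝ) ≤ D := Nat.cast_nonneg D
    exact div_nonneg (by linarith) this
  have hF : Continuous fun x : TT d =>
      ∏ i, ‖fa d a (c + α i * (K₁ * σ)) (K₁ * σ) x‖ ^ (p / D) :=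
    continuous_finsetProd _ fun i _ =>
      (hB.wr.fa_cont d a _ _).norm.rpow_const fun _ => Or.inr hp0
  have hF0 : ∀ x : TT d, 0 ≤ ∏ i, ‖fa d a (c + α i * (K₁ * σ)) (K₁ * σ) x‖ ^ (p / D) :=
    fun x => Finset.prod_nonneg fun i _ => Real.rpow_nonneg (norm_nonneg _) _
  have hw := hB.wr.cont d r H hH
  have hw0 : ∀ x : TT d, 0 ≤ Wr r H x := fun x => (hB.wr.pos d r H x hH).le
  have key : ∀ x : TT d, cv (sK ψ (2 * (m + 2) + m))
      (fun y => ∏ i, ‖fa d a (c + α i * (K₁ * σ)) (K₁ * σ) y‖ ^ (p / D)) x ≤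
      C₀ * (((2 * (CG * Kb ^ (D - 1)) + 1) ^ D : ℕ) : ℝ) * ((T : ℝ) + 1) ^ m *
        ∑ t ∈ range (T + 1), Tht p D (2 ^ t) (Ps g (Kb * K₁) (2 ^ t) x) := by
    intro x
    have h := h0 d D ((2 * (CG * Kb ^ (D - 1)) + 1) ^ D) T (Kb * K₁) (sK ψ (2 * (m + 2) + m))
      (sK ψ (2 * (m + 2))) (gn r H (c : ℝ) ((Kb * K₁ * σ : ℕ) : ℝ) σ) ψ ((m + 2 : ℕ) : ℝ)
      (fun i => Ico (α i * K₁) ((α i + 1) * K₁)) (fun b => fa d a (c + b * σ) σ)
      (fun b => {ω | ∃ y : ℕ, c + b * σ ≤ y ∧ y < c + b * σ + σ ∧ ω = mom d (y : ℤ)}) g x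
      ?_ ?_ (SLO d D (m + 2) ψ (by omega) hψQ) ?_ (fun b => hB.wr.fa_mem d a _ _)
      (fun b => hg1 b x) ?_ ?_ ?_
    · simp only [TOP.fa_block hB] at h
      exact h
    · intro F hFc hFn
      obtain ⟨i1, i2⟩ := hM3 (by omega) F x hFc hFn
      exact ⟨i1, i2.trans (mul_le_mul_of_nonneg_right e2 (hB.cv1.nonneg _ _ _ _ hFn))⟩
    · obtain ⟨⟨i1, i2⟩, -⟩ := hM2 (by omega)
      exact ⟨i1, i2.trans e2⟩
    · intro i b hb
      rw [Finset.mem_Ico] at hb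
      rw [Finset.mem_range]
      exact hb.2.trans_le (Nat.mul_le_mul_right _ (hαK i))
    · intro b y
      exact (hfg b y).trans (mul_le_mul_of_nonneg_right e1 (zero_le_one.trans (hg1 b y).1))
    · intro b hb
      have hs : σ ≤ Kb * K₁ * σ := Nat.le_mul_of_pos_left _ (Nat.mul_pos hKb hK₁)
      have hb2 : b * σ ≤ Kb * K₁ * σ := Nat.mul_le_mul_right _ hb.le
      have hd := hB.cv2.dbl_le d (g b) _ (gn r H (c : ℝ) ((Kb * K₁ * σ : ℕ) : ℝ) σ) L L 1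
        ((2 : ℝ) ^ d * 1) (by rw [mul_one]; exact one_le_pow₀ (by norm_num)) zero_le_one
        (fun P => hB.ge0.shift d r H (c : ℝ) ((c + b * σ : ℕ) : ℝ) ((Kb * K₁ * σ : ℕ) : ℝ) σ σ σ 1 P
          (by
            rw [Nat.cast_add, add_sub_cancel_left, abs_of_nonneg (Nat.cast_nonneg _)]
            exact_mod_cast hb2)
          (Nat.cast_nonneg _) (by exact_mod_cast hs) (Nat.cast_nonneg _) (Nat.cast_nonneg _) le_rfl
          (by rw [one_mul])) le_rfl (fun y => zero_le_one.trans (hg1 b y).1) (hgd b)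
      intro y P
      refine (hd y P).trans ?_
      rw [one_mul]
      have := zero_le_one.trans (hg1 b y).1
      have := apply_nonneg (gn (d := d) r H (c : ℝ) ((Kb * K₁ * σ : ℕ) : ℝ) σ) P
      gcongr
    · intro b hb t ht hbt
      refine TOP.card_le b _ t fun b' hb' => ?_
      obtain ⟨ξ, ξ', h1, h2⟩ := hbt b' hb'
      have hb2 := ht hb'
      rw [Fintype.mem_piFinset] at hb hb2
      choose y hy using fun i => (h1 i).1
      choose y' hy' using fun i => (h1 i).2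
      have q1 : ξ = fun i => mom d (y i : ℤ) := funext fun i => (hy i).2.2
      have q2 : ξ' = fun i => mom d (y' i : ℤ) := funext fun i => (hy' i).2.2
      rw [q1, q2] at h2
      exact hψ α hα b b' y y' (fun i => ⟨hb i, hb2 i⟩)
        (fun i => ⟨Finset.mem_Ico.2 ⟨(hy i).1, (hy i).2.1⟩, Finset.mem_Ico.2 ⟨(hy' i).1, (hy' i).2.1⟩⟩)
        h2
  have lo := hB.cv2.w_lo d (sK ψ (2 * (m + 2) + m)) _ (Wr r H) (bx r H) (2 * d) 1 _ hF hw hF0 hw0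
    zero_le_one (hB.wr.dbl d r H hH) (hN2 (by omega)).1
  have hT := fun t : ℕ => TOP.cont_tht p D hp ((2 : ℝ) ^ t) g hgc (Kb * K₁)
  have hsum : ∫ x, (C₀ * (((2 * (CG * Kb ^ (D - 1)) + 1) ^ D : ℕ) : ℝ) * ((T : ℝ) + 1) ^ m *
        ∑ t ∈ range (T + 1), Tht p D (2 ^ t) (Ps g (Kb * K₁) (2 ^ t) x)) * Wr r H x =
      C₀ * (((2 * (CG * Kb ^ (D - 1)) + 1) ^ D : ℕ) : ℝ) * ((T : ℝ) + 1) ^ m *
        ∑ t ∈ range (T + 1), II r H fun x => Tht p D (2 ^ t) (Ps g (Kb * K₁) (2 ^ t) x) := by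
    simp only [mul_assoc, II]
    rw [integral_const_mul, integral_const_mul, integral_const_mul, ← integral_finsetSum]
    · simp only [Finset.sum_mul]
    · exact fun t _ => TOP.intg ((hT t).mul hw)
  have up : ∫ x, cv (sK ψ (2 * (m + 2) + m))
      (fun y => ∏ i, ‖fa d a (c + α i * (K₁ * σ)) (K₁ * σ) y‖ ^ (p / D)) x * Wr r H x ≤
      C₀ * (((2 * (CG * Kb ^ (D - 1)) + 1) ^ D : ℕ) : ℝ) * ((T : ℝ) + 1) ^ m *
        ∑ t ∈ range (T + 1), II r H fun x => Tht p D (2 ^ t) (Ps g (Kb * K₁) (2 ^ t) x) := by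
    rw [← hsum]
    refine integral_mono (TOP.intg ((hB.cv1.cont _ _ _ hF).mul hw))
      (TOP.intg ((continuous_const.mul (continuous_finsetSum _ fun t _ => hT t)).mul hw))
      fun x => mul_le_mul_of_nonneg_right (key x) (hw0 x)
  have hS : 0 ≤ ∑ t ∈ range (T + 1),
      II r H fun x => Tht p D (2 ^ t) (Ps g (Kb * K₁) (2 ^ t) x) := by
    refine Finset.sum_nonneg fun t _ => integral_nonneg fun x => mul_nonneg ?_ (hw0 x)
    refine mul_nonneg (Real.rpow_nonneg (by positivity) _) (Real.rpow_nonneg ?_ _)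
    exact Finset.sum_nonneg fun b _ => le_min (zero_le_one.trans (hg1 b x).1) (by positivity)
  have fin := TOP.const_le X CG D m (⌈X * (3 * CG) ^ D⌉₊ + D * D + m + 1) Kb T hX0 hG1 hKb
    ((Nat.le_ceil _).trans (by exact_mod_cast (by omega))) (by omega) (by omega) (by omega)
  refine le_trans ?_ (mul_le_mul_of_nonneg_right fin hS)
  refine lo.trans ?_
  rw [one_mul, hX]
  refine (mul_le_mul_of_nonneg_left up (by positivity)).trans (le_of_eq ?_)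
  ring

end Pool.Agent.Lib.SC
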