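import Pool.Agent.Lib.SC.Blue

/-! The local multilinear estimate. -/

namespace Pool.Agent.Lib.SC

open MeasureTheory Finset Pool.Agent.Lib.WC

namespace TOP0

/-- Frequencies of a product. -/
lemma prod_mem {d : ℕ} {ι : Type} [DecidableEq ι] (s : Finset ι) (f : ι → TT d → ℂ)
    (S : ι → Set (Fin d → ℤ)) (h : ∀ i, f i ∈ Sp (S i)) :
    (fun y => ∏ i ∈ s, f i y) ∈
      Sp {ω | ∃ ξ : ι → Fin d → ℤ, (∀ i ∈ s, ξ i ∈ S i) ∧ ω = ∑ i ∈ s, ξ i} := by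
  induction s using Finset.induction_on with
  | empty =>
    have : (fun y : TT d => ∏ i ∈ (∅ : Finset ι), f i y) = ch 0 := by ext x; simp
    rw [this]
    exact ch_mem ⟨fun _ => 0, by simp, by simp⟩
  | insert i s hi ih =>
    have e : (fun y => ∏ j ∈ insert i s, f j y) = f i * fun y => ∏ j ∈ s, f j y := by
      ext y
      rw [prod_insert hi]
      rfl
    rw [e]
    refine Sp_mul (h i) ih ?_
    rintro a ha _ ⟨ξ, h1, rfl⟩
    have k : ∀ j ∈ s, Function.update ξ i a j = ξ j := fun j hj =>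
      Function.update_of_ne (ne_of_mem_of_not_mem hj hi) _ _
    refine ⟨Function.update ξ i a, fun j hj => ?_, ?_⟩
    · rcases mem_insert.1 hj with rfl | hj
      · rwa [Function.update_self]
      · rw [k j hj]
        exact h1 j hj
    · rw [sum_insert hi, Function.update_self, sum_congr rfl k]

/-- The square mean of the product. -/
lemma l2 {d u D L m Ω : ℕ} {κ' : Measure (V d)} {G : Seminorm ℝ (V d)} {ψ : Fin u → V d}
    {E c C₁ : ℝ} {A B : Fin D → Finset ℕ} {f : ℕ → TT d → ℂ} {S : ℕ → Set (Fin d → ℤ)} {x : TT d}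
    {lam : Fin D → ℝ} (hc : 0 ≤ c) (hl : ∀ i, 0 ≤ lam i) (hm : L * D ≤ m) (hM : Mom κ' G m C₁)
    (hO : Orth ψ E κ') (hBA : ∀ i, B i ⊆ A i) (hf : ∀ b, f b ∈ Sp (S b))
    (hp : ∀ i, ∀ b ∈ B i, ∀ P, ‖f b (x + pj P)‖ ^ 2 ≤ c * (1 + G P) ^ L * lam i)
    (hΩ : ∀ b ∈ Fintype.piFinset A, ∀ t ⊆ Fintype.piFinset A,
      (∀ b' ∈ t, ∃ ξ ξ' : Fin D → Fin d → ℤ, (∀ i, ξ i ∈ S (b i) ∧ ξ' i ∈ S (b' i)) ∧
        ∀ l, |dot (∑ i, ξ i - ∑ i, ξ' i) (ψ l)| ≤ E) → t.card ≤ Ω) :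
    cv κ' (fun y => ‖∏ i, ∑ b ∈ B i, f b y‖ ^ 2) x ≤
      Ω * (c ^ D * C₁ * ∏ i, (((B i).card : ℝ) * lam i)) := by
  have e : (fun y => ‖∏ i, ∑ b ∈ B i, f b y‖ ^ 2) =
      fun y => ‖∑ b ∈ Fintype.piFinset B, ∏ i, f (b i) y‖ ^ 2 := by
    funext y
    rw [prod_univ_sum]
  have hsub : Fintype.piFinset B ⊆ Fintype.piFinset A := Fintype.piFinset_subset _ _ hBA
  rw [e]
  refine (hO (Fin D → ℕ) (Fintype.piFinset B)
    (fun b => {ω | ∃ ξ : Fin D → Fin d → ℤ, (∀ i ∈ univ, ξ i ∈ S (b i)) ∧ ω = ∑ i, ξ i})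
    (fun b y => ∏ i, f (b i) y) Ω
    (fun b _ => prod_mem univ (fun i => f (b i)) (fun i => S (b i)) fun i => hf _)
    (fun b hb t ht h => hΩ b (hsub hb) t (ht.trans hsub) fun b' hb' => ?_) x).trans
    (mul_le_mul_of_nonneg_left ?_ (Nat.cast_nonneg _))
  · obtain ⟨_, ⟨ξ, h1, rfl⟩, _, ⟨ξ', h2, rfl⟩, h3⟩ := h b' hb'
    exact ⟨ξ, ξ', fun i => ⟨h1 i (mem_univ _), h2 i (mem_univ _)⟩, h3⟩
  · have hL : 0 ≤ c ^ D * ∏ i, lam i := mul_nonneg (pow_nonneg hc _) (prod_nonneg fun i _ => hl i)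
    have k : ∀ b ∈ Fintype.piFinset B,
        cv κ' (fun y => ‖∏ i, f (b i) y‖ ^ 2) x ≤ (c ^ D * ∏ i, lam i) * C₁ := fun b hb => by
      refine le_trans ?_ (mul_le_mul_of_nonneg_left hM.2 hL)
      rw [← integral_const_mul]
      refine integral_mono_of_nonneg (Filter.Eventually.of_forall fun P => by positivity)
        (hM.1.const_mul _) (Filter.Eventually.of_forall fun P => ?_)
      have g1 : (1 : ℝ) ≤ 1 + G P := le_add_of_nonneg_right (apply_nonneg G P)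
      have k1 : ‖∏ i, f (b i) (x + pj P)‖ ^ 2 ≤ ∏ i, (c * (1 + G P) ^ L * lam i) := by
        rw [norm_prod, ← prod_pow]
        exact prod_le_prod (fun i _ => by positivity) fun i _ =>
          hp i _ (Fintype.mem_piFinset.1 hb i) P
      refine k1.trans ?_
      rw [prod_mul_distrib, prod_const, card_univ, Fintype.card_fin, mul_pow, ← pow_mul,
        mul_right_comm]
      exact mul_le_mul_of_nonneg_left (pow_le_pow_right₀ g1 hm) hL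
    refine (sum_le_sum k).trans (le_of_eq ?_)
    rw [sum_const, Fintype.card_piFinset, nsmul_eq_mul, prod_mul_distrib]
    push_cast
    ring

/-- The pointwise bound for one class. -/
lemma pt1 {B : Finset ℕ} {z : ℕ → ℂ} {w lam q : ℝ} (hq : 0 ≤ q) (hw : 0 ≤ w) (hl : 0 ≤ lam)
    (h : ∀ b ∈ B, ‖z b‖ ^ 2 ≤ w * lam) :
    ‖∑ b ∈ B, z b‖ ^ (2 + 2 * q) ≤ w ^ q * ((B.card : ℝ) ^ 2 * lam) ^ q * ‖∑ b ∈ B, z b‖ ^ 2 := by
  have h1 : ‖∑ b ∈ B, z b‖ ^ 2 ≤ w * ((B.card : ℝ) ^ 2 * lam) := by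
    have k1 : ‖∑ b ∈ B, z b‖ ^ 2 ≤ (∑ b ∈ B, ‖z b‖) ^ 2 :=
      pow_le_pow_left₀ (norm_nonneg _) (norm_sum_le _ _) 2
    have k2 : (∑ b ∈ B, ‖z b‖) ^ 2 ≤ B.card * ∑ b ∈ B, ‖z b‖ ^ 2 := sq_sum_le_card_mul_sum_sq
    have k3 : ∑ b ∈ B, ‖z b‖ ^ 2 ≤ B.card * (w * lam) := by
      rw [← nsmul_eq_mul, ← sum_const]
      exact sum_le_sum h
    have k4 := mul_le_mul_of_nonneg_left k3 (Nat.cast_nonneg B.card : (0 : ℝ) ≤ B.card)
    calc _ ≤ (B.card : ℝ) * (B.card * (w * lam)) := k1.trans (k2.trans k4)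
      _ = _ := by ring
  generalize hN : ‖∑ b ∈ B, z b‖ = N at h1 ⊢
  have N0 : 0 ≤ N := hN ▸ norm_nonneg _
  have e : N ^ (2 + 2 * q) = (N ^ 2) ^ q * N ^ 2 := by
    rw [Real.rpow_add_of_nonneg N0 (by norm_num) (by linarith), Real.rpow_mul N0, Real.rpow_two,
      mul_comm]
  rw [e, ← Real.mul_rpow hw (by positivity)]
  exact mul_le_mul_of_nonneg_right (Real.rpow_le_rpow (by positivity) h1 hq) (by positivity)

/-- Splitting into classes. -/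
lemma split {n : ℕ} (F : ℕ → ℂ) {s : ℝ} (hs : 0 ≤ s) :
    ‖∑ t ∈ range (n + 1), F t‖ ^ s ≤ ((n : ℝ) + 1) ^ s * ∑ t ∈ range (n + 1), ‖F t‖ ^ s := by
  obtain ⟨t₀, h0, h1⟩ := exists_max_image (range (n + 1)) (fun t => ‖F t‖) nonempty_range_add_one
  have k1 : ‖∑ t ∈ range (n + 1), F t‖ ≤ ((n : ℝ) + 1) * ‖F t₀‖ := by
    refine (norm_sum_le _ _).trans ((sum_le_card_nsmul _ _ _ h1).trans (le_of_eq ?_))
    rw [card_range, nsmul_eq_mul]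
    push_cast
    ring
  refine (Real.rpow_le_rpow (norm_nonneg _) k1 hs).trans ?_
  rw [Real.mul_rpow (by positivity) (norm_nonneg _)]
  exact mul_le_mul_of_nonneg_left
    (single_le_sum (f := fun t => ‖F t‖ ^ s) (fun t _ => by positivity) h0) (by positivity)

/-- One factor against the broad majorant. -/
lemma fac {D : ℕ} {p q n lam ψ : ℝ} (hq : 0 ≤ q) (hp : p = (2 + 2 * q) * D) (hn : 0 ≤ n)
    (hl : 0 < lam) (h : n * lam ≤ ψ) : ((n ^ 2 * lam) ^ q * (n * lam)) ^ D ≤ Tht p D lam ψ := by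
  have h0 : 0 ≤ n * lam := mul_nonneg hn hl.le
  have ψ0 : 0 ≤ ψ := h0.trans h
  have k1 : n ^ 2 * lam ≤ ψ ^ 2 * lam⁻¹ := by
    have e : n ^ 2 * lam = (n * lam) ^ 2 * lam⁻¹ := by field_simp
    rw [e]
    exact mul_le_mul_of_nonneg_right (pow_le_pow_left₀ h0 h 2) (inv_nonneg.2 hl.le)
  have k2 : (n ^ 2 * lam) ^ q * (n * lam) ≤ (ψ ^ 2 * lam⁻¹) ^ q * ψ :=
    mul_le_mul (Real.rpow_le_rpow (by positivity) k1 hq) h h0 (by positivity)
  refine (pow_le_pow_left₀ (by positivity) k2 D).trans (le_of_eq ?_)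
  have e1 : (ψ ^ 2 * lam⁻¹) ^ q * ψ = lam ^ (-q) * ψ ^ (2 * q + 1) := by
    rw [Real.mul_rpow (by positivity) (inv_nonneg.2 hl.le), Real.inv_rpow hl.le,
      Real.rpow_neg hl.le, Real.rpow_add_of_nonneg ψ0 (by linarith) zero_le_one, Real.rpow_one,
      Real.rpow_mul ψ0, Real.rpow_two]
    ring
  rw [e1, Tht, mul_pow, ← Real.rpow_mul_natCast hl.le, ← Real.rpow_mul_natCast ψ0, hp]
  congr 2 <;> ring

lemma tht_nonneg (p : ℝ) (D : ℕ) {lam ψ : ℝ} (hl : 0 ≤ lam) (h : 0 ≤ ψ) : 0 ≤ Tht p D lam ψ := by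
  unfold Tht
  positivity

/-- The dyadic class of a number. -/
lemma cls {T : ℕ} {y : ℝ} (h1 : 1 ≤ y) (h2 : y ≤ 2 ^ T) :
    Nat.log 2 ⌊y⌋₊ ∈ range (T + 1) ∧ (2 : ℝ) ^ Nat.log 2 ⌊y⌋₊ ≤ y ∧ y ≤ 2 * 2 ^ Nat.log 2 ⌊y⌋₊ := by
  have y0 : 0 ≤ y := by linarith
  have f1 : 1 ≤ ⌊y⌋₊ := Nat.le_floor (by exact_mod_cast h1)
  have a1 : 2 ^ Nat.log 2 ⌊y⌋₊ ≤ ⌊y⌋₊ := Nat.pow_log_le_self 2 (by omega)
  have a2 : ⌊y⌋₊ + 1 ≤ 2 ^ (Nat.log 2 ⌊y⌋₊ + 1) := Nat.lt_pow_succ_log_self (by norm_num) _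
  have b1 : (2 : ℝ) ^ Nat.log 2 ⌊y⌋₊ ≤ y :=
    le_trans (by exact_mod_cast a1) (Nat.floor_le y0)
  refine ⟨mem_range.2 (Nat.lt_succ_of_le ?_), b1, ?_⟩
  · exact (pow_le_pow_iff_right₀ (by norm_num : (1 : ℝ) < 2)).1 (b1.trans h2)
  · have b2 : ((⌊y⌋₊ : ℝ) + 1) ≤ 2 ^ (Nat.log 2 ⌊y⌋₊ + 1) := by exact_mod_cast a2
    rw [pow_succ] at b2
    linarith [Nat.lt_floor_add_one y]

end TOP0

open TOP0

theorem blk_TOP0 (_hB : Bas) : St_TOP0 := by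
  intro D L p hD hp
  have D0 : (0 : ℝ) < D := by exact_mod_cast hD
  obtain ⟨q, hq⟩ : ∃ q : ℝ, q = p / D / 2 - 1 := ⟨_, rfl⟩
  have hs : p / D = 2 + 2 * q := by rw [hq]; ring
  have hq0 : 0 ≤ q := by
    have : 2 ≤ p / D := by rwa [le_div_iff₀ D0]
    linarith
  have hpq : p = (2 + 2 * q) * D := by rw [← hs]; field_simp
  have hpc : p ≤ (⌈p⌉₊ : ℝ) := Nat.le_ceil p
  have hDc : D ≤ ⌈p⌉₊ := by exact_mod_cast (by linarith : (D : ℝ) ≤ (⌈p⌉₊ : ℝ))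
  obtain ⟨m, hm⟩ : ∃ m : ℕ, m = L * ⌈p⌉₊ + ⌈p⌉₊ + D := ⟨_, rfl⟩
  have hm1 : L * D ≤ m := by
    have := Nat.mul_le_mul_left L hDc
    omega
  have hm2 : (L : ℝ) * q * D ≤ m := by
    have k : q * D ≤ (⌈p⌉₊ : ℝ) := by nlinarith
    have k2 := mul_le_mul_of_nonneg_left k (Nat.cast_nonneg L : (0 : ℝ) ≤ L)
    rw [hm]
    push_cast
    nlinarith
  have hm3 : p + D ≤ m := by
    rw [hm]
    push_cast
    have : (0 : ℝ) ≤ L * (⌈p⌉₊ : ℝ) := by positivity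
    linarith
  refine ⟨m, fun C₁ hC₁ => ?_⟩
  obtain ⟨c, hc⟩ : ∃ c : ℝ, c = 2 * C₁ ^ 2 := ⟨_, rfl⟩
  have c1 : 1 ≤ c := by nlinarith
  have c0 : 0 ≤ c := by linarith
  have C0 : 0 ≤ C₁ := by linarith
  refine ⟨(c ^ q) ^ D * C₁ * (c ^ D * C₁), one_le_mul_of_one_le_of_one_le
    (one_le_mul_of_one_le_of_one_le (one_le_pow₀ (Real.one_le_rpow c1 hq0)) hC₁)
    (one_le_mul_of_one_le_of_one_le (one_le_pow₀ c1) hC₁), ?_⟩
  intro d u Ω T K κ κ' _ _ G ψ E A f S g x hdom hM hO hA hf hg hfg hdbl hΩ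
  obtain ⟨cl, hcl⟩ : ∃ cl : ℕ → ℕ, ∀ b, cl b ∈ range (T + 1) ∧ (2 : ℝ) ^ cl b ≤ g b x ∧
      g b x ≤ 2 * 2 ^ cl b := ⟨fun b => Nat.log 2 ⌊g b x⌋₊, fun b => cls (hg b).1 (hg b).2⟩
  obtain ⟨B, hBd⟩ : ∃ B : Fin D → ℕ → Finset ℕ, ∀ i t, B i t = (A i).filter fun b => cl b = t :=
    ⟨_, fun _ _ => rfl⟩
  have hBA : ∀ i t, B i t ⊆ A i := fun i t => hBd i t ▸ filter_subset _ _
  have hBc : ∀ i t, ∀ b ∈ B i t, cl b = t := fun i t b hb => by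
    rw [hBd] at hb
    exact (mem_filter.1 hb).2
  have hsum : ∀ i y, ∑ b ∈ A i, f b y = ∑ t ∈ range (T + 1), ∑ b ∈ B i t, f b y := fun i y => by
    simp only [hBd]
    exact (sum_fiberwise_of_maps_to (fun b _ => (hcl b).1) _).symm
  have hpt : ∀ i t, ∀ b ∈ B i t, ∀ P, ‖f b (x + pj P)‖ ^ 2 ≤ c * (1 + G P) ^ L * 2 ^ t :=
    fun i t b hb P => by
      have g1 : (0 : ℝ) ≤ (1 + G P) ^ L := by positivity
      have k1 := hdbl b (mem_range.1 (hA i (hBA i t hb))) x P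
      have k2 := (hcl b).2.2
      rw [hBc i t b hb] at k2
      calc _ ≤ C₁ * g b (x + pj P) := hfg b _
        _ ≤ C₁ * (C₁ * (1 + G P) ^ L * (2 * 2 ^ t)) := mul_le_mul_of_nonneg_left
          (k1.trans (mul_le_mul_of_nonneg_left k2 (mul_nonneg C0 g1))) C0
        _ = _ := by rw [hc]; ring
  have hmin : ∀ (t b : ℕ), 0 ≤ min (g b x) ((2 : ℝ) ^ t) := fun t b =>
    le_min (by linarith [(hg b).1]) (by positivity)
  have hU : ∀ i t, ((B i t).card : ℝ) * 2 ^ t ≤ Ps g K (2 ^ t) x := fun i t => by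
    rw [← nsmul_eq_mul, ← sum_const]
    refine le_trans (sum_le_sum fun b hb => ?_)
      (sum_le_sum_of_subset_of_nonneg ((hBA i t).trans (hA i)) fun b _ _ => hmin t b)
    refine le_min ?_ le_rfl
    rw [← hBc i t b hb]
    exact (hcl b).2.1
  obtain ⟨Θ, hΘ⟩ : ∃ Θ : ℝ, Θ = ∑ t ∈ range (T + 1), Tht p D (2 ^ t) (Ps g K (2 ^ t) x) := ⟨_, rfl⟩
  have hΘt : ∀ t, 0 ≤ Tht p D (2 ^ t) (Ps g K (2 ^ t) x) := fun t =>
    tht_nonneg p D (by positivity) (sum_nonneg fun b _ => hmin t b)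
  have Θ0 : 0 ≤ Θ := hΘ ▸ sum_nonneg fun t _ => hΘt t
  rw [← hΘ]
  have hcont : ∀ τ : Fin D → ℕ, Continuous fun y => ‖∏ i, ∑ b ∈ B i (τ i), f b y‖ ^ 2 := fun τ =>
    (continuous_finsetProd _ fun i _ => continuous_finsetSum _ fun b _ =>
      Sp_cont (hf b)).norm.pow 2
  obtain ⟨co, hco⟩ : ∃ co : (Fin D → ℕ) → ℝ, ∀ τ, co τ = ((T : ℝ) + 1) ^ p * (c ^ q) ^ D *
      ∏ i, (((B i (τ i)).card : ℝ) ^ 2 * 2 ^ τ i) ^ q := ⟨_, fun _ => rfl⟩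
  have hW0 : ∀ (τ : Fin D → ℕ) i, (0 : ℝ) ≤ (((B i (τ i)).card : ℝ) ^ 2 * 2 ^ τ i) ^ q := fun τ i =>
    Real.rpow_nonneg (mul_nonneg (sq_nonneg _) (pow_nonneg zero_le_two _)) _
  have co0 : ∀ τ, 0 ≤ co τ := fun τ => by
    rw [hco]
    exact mul_nonneg (by positivity) (prod_nonneg fun i _ => hW0 τ i)
  have hI := fun τ : Fin D → ℕ => hdom _ (hcont τ) fun y => by positivity
  have hpw : ∀ P, ∏ i, ‖∑ b ∈ A i, f b (x + pj P)‖ ^ (p / D) ≤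
      ∑ τ ∈ Fintype.piFinset fun _ : Fin D => range (T + 1),
        co τ * ((1 + G P) ^ m * ‖∏ i, ∑ b ∈ B i (τ i), f b (x + pj P)‖ ^ 2) := fun P => by
    have g1 : (1 : ℝ) ≤ 1 + G P := le_add_of_nonneg_right (apply_nonneg G P)
    have k1 : ∏ i, ‖∑ b ∈ A i, f b (x + pj P)‖ ^ (p / D) ≤ ∏ i : Fin D, (((T : ℝ) + 1) ^ (p / D) *
        ∑ t ∈ range (T + 1), ‖∑ b ∈ B i t, f b (x + pj P)‖ ^ (p / D)) :=
      prod_le_prod (fun i _ => by positivity) fun i _ => by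
        rw [hsum]
        exact split _ (by linarith)
    refine k1.trans ?_
    rw [prod_mul_distrib, prod_const, card_univ, Fintype.card_fin, prod_univ_sum, mul_sum,
      ← Real.rpow_mul_natCast (by positivity), div_mul_cancel₀ _ D0.ne']
    refine sum_le_sum fun τ _ => ?_
    have k2 : ∏ i, ‖∑ b ∈ B i (τ i), f b (x + pj P)‖ ^ (p / D) ≤
        ∏ i, ((c * (1 + G P) ^ L) ^ q * (((B i (τ i)).card : ℝ) ^ 2 * 2 ^ τ i) ^ q *
          ‖∑ b ∈ B i (τ i), f b (x + pj P)‖ ^ 2) :=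
      prod_le_prod (fun i _ => by positivity) fun i _ => by
        rw [hs]
        exact pt1 hq0 (by positivity) (by positivity) fun b hb => hpt i _ b hb P
    have k3 : ((c * (1 + G P) ^ L) ^ q) ^ D ≤ (c ^ q) ^ D * (1 + G P) ^ m := by
      rw [Real.mul_rpow c0 (by positivity), mul_pow]
      refine mul_le_mul_of_nonneg_left ?_ (by positivity)
      rw [← Real.rpow_natCast_mul (by linarith), ← Real.rpow_mul_natCast (by linarith),
        ← Real.rpow_natCast]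
      exact Real.rpow_le_rpow_of_exponent_le g1 hm2
    rw [prod_mul_distrib, prod_mul_distrib, prod_const, card_univ, Fintype.card_fin, prod_pow,
      ← norm_prod] at k2
    have k4 : (0 : ℝ) ≤ ∏ i, (((B i (τ i)).card : ℝ) ^ 2 * 2 ^ τ i) ^ q :=
      prod_nonneg fun i _ => hW0 τ i
    rw [hco]
    generalize ‖∏ i, ∑ b ∈ B i (τ i), f b (x + pj P)‖ = N at k2 ⊢
    generalize (∏ i, (((B i (τ i)).card : ℝ) ^ 2 * 2 ^ τ i) ^ q) = W at k2 k4 ⊢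
    have k5 := k2.trans (mul_le_mul_of_nonneg_right (mul_le_mul_of_nonneg_right k3 k4) (sq_nonneg N))
    calc _ ≤ ((T : ℝ) + 1) ^ p * ((c ^ q) ^ D * (1 + G P) ^ m * W * N ^ 2) :=
          mul_le_mul_of_nonneg_left k5 (by positivity)
      _ = _ := by ring
  have hterm : ∀ τ ∈ Fintype.piFinset fun _ : Fin D => range (T + 1),
      co τ * ∫ P, (1 + G P) ^ m * ‖∏ i, ∑ b ∈ B i (τ i), f b (x + pj P)‖ ^ 2 ∂κ ≤
        ((T : ℝ) + 1) ^ p * ((c ^ q) ^ D * C₁ * (c ^ D * C₁) * Ω * Θ) := fun τ hτ => by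
    have k1 := l2 (B := fun i => B i (τ i)) (lam := fun i => (2 : ℝ) ^ τ i) (x := x) c0
      (fun i => by positivity) hm1 hM hO (fun i => hBA i _) hf (fun i b hb P => hpt i _ b hb P) hΩ
    have k2 := (hI τ).2.trans (mul_le_mul_of_nonneg_left k1 C0)
    have k3 : ∏ i, ((((B i (τ i)).card : ℝ) ^ 2 * 2 ^ τ i) ^ q *
        (((B i (τ i)).card : ℝ) * 2 ^ τ i)) ≤ Θ := by
      refine le_of_pow_le_pow_left₀ (n := D) (by omega) Θ0 ?_
      rw [← prod_pow]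
      refine (prod_le_prod (g := fun _ => Θ) (fun i _ => pow_nonneg (mul_nonneg (hW0 τ i)
        (mul_nonneg (Nat.cast_nonneg _) (pow_nonneg zero_le_two _))) _) fun i _ => ?_).trans
        (le_of_eq (by rw [prod_const, card_univ, Fintype.card_fin]))
      refine (fac hq0 hpq (Nat.cast_nonneg _) (by positivity) (hU i (τ i))).trans ?_
      rw [hΘ]
      exact single_le_sum (f := fun t => Tht p D (2 ^ t) (Ps g K (2 ^ t) x)) (fun t _ => hΘt t)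
        (Fintype.mem_piFinset.1 hτ i)
    rw [prod_mul_distrib] at k3
    refine (mul_le_mul_of_nonneg_left k2 (co0 τ)).trans ?_
    rw [hco]
    generalize (∏ i, (((B i (τ i)).card : ℝ) ^ 2 * 2 ^ τ i) ^ q) = W at k3 ⊢
    generalize (∏ i, (((B i (τ i)).card : ℝ) * 2 ^ τ i)) = U at k3 ⊢
    calc _ = ((T : ℝ) + 1) ^ p * ((c ^ q) ^ D * C₁ * (c ^ D * C₁) * Ω * (W * U)) := by ring
      _ ≤ _ := mul_le_mul_of_nonneg_left (mul_le_mul_of_nonneg_left k3 (by positivity))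
        (by positivity)
  refine (integral_mono_of_nonneg (Filter.Eventually.of_forall fun P =>
    prod_nonneg fun i _ => by positivity)
    (integrable_finsetSum _ fun τ _ => (hI τ).1.const_mul (co τ))
    (Filter.Eventually.of_forall hpw)).trans ?_
  rw [integral_finsetSum _ fun τ _ => (hI τ).1.const_mul (co τ)]
  simp only [integral_const_mul]
  refine (sum_le_sum hterm).trans ?_
  rw [sum_const, Fintype.card_piFinset, prod_const, card_range, card_univ, Fintype.card_fin,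
    nsmul_eq_mul]
  have T1 : (1 : ℝ) ≤ (T : ℝ) + 1 := le_add_of_nonneg_left (Nat.cast_nonneg _)
  have k : ((T : ℝ) + 1) ^ D * ((T : ℝ) + 1) ^ p ≤ ((T : ℝ) + 1) ^ m := by
    rw [← Real.rpow_natCast, ← Real.rpow_natCast, ← Real.rpow_add (by linarith)]
    exact Real.rpow_le_rpow_of_exponent_le T1 (by linarith)
  push_cast
  calc _ = (c ^ q) ^ D * C₁ * (c ^ D * C₁) * Ω * (((T : ℝ) + 1) ^ D * ((T : ℝ) + 1) ^ p) * Θ := by
        ring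
    _ ≤ _ := mul_le_mul_of_nonneg_right (mul_le_mul_of_nonneg_left k (by positivity)) Θ0

end Pool.Agent.Lib.SC
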