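import Pool.Agent.Lib.SC.Blue

namespace Pool.Agent.Lib.SC

open MeasureTheory Finset Pool.Agent.Lib.WC

namespace TOPG

theorem loc {c σ K₁ a b y : ℕ} (hb : b ∈ Ico (a * K₁) ((a + 1) * K₁))
    (hy : y ∈ Ico (c + b * σ) (c + b * σ + σ)) :
    c + a * (K₁ * σ) ≤ y ∧ y ≤ c + (a + 1) * (K₁ * σ) := by
  rw [mem_Ico] at hb hy
  have h1 : a * K₁ * σ ≤ b * σ := Nat.mul_le_mul_right σ hb.1
  have h2 : (b + 1) * σ ≤ (a + 1) * K₁ * σ := Nat.mul_le_mul_right σ hb.2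
  constructor
  · rw [← mul_assoc]; omega
  · rw [← mul_assoc]
    rw [add_mul b 1 σ, one_mul] at h2
    omega

theorem near {c σ b b' y y' n : ℕ} {R : ℝ} (hσ : 1 ≤ σ)
    (hy : y ∈ Ico (c + b * σ) (c + b * σ + σ)) (hy' : y' ∈ Ico (c + b' * σ) (c + b' * σ + σ))
    (h : (y : ℝ) - y' ≤ R * σ) (hn : R + 1 ≤ n) : b ≤ b' + n := by
  rw [mem_Ico] at hy hy'
  have h1 : ((c + b * σ : ℕ) : ℝ) ≤ y := by exact_mod_cast hy.1
  have h2 : (y' : ℝ) ≤ ((c + b' * σ + σ : ℕ) : ℝ) := by exact_mod_cast hy'.2.le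
  have h3 : (0 : ℝ) < σ := by exact_mod_cast hσ
  push_cast at h1 h2
  have h4 : (b : ℝ) * σ ≤ (b' + (R + 1)) * σ := by linarith
  have h5 : (b : ℝ) ≤ b' + n := (le_of_mul_le_mul_right h4 h3).trans (by linarith)
  exact_mod_cast h5

theorem sep {c T a a' y y' : ℕ} (h1 : y ≤ c + (a + 1) * T) (h2 : c + a' * T ≤ y')
    (h : a + 2 ≤ a') : (T : ℝ) ≤ (y' : ℝ) - y := by
  have h3 : (a + 2) * T ≤ a' * T := Nat.mul_le_mul_right T h
  have h4 : T + y ≤ y' := by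
    rw [add_mul] at h1 h3
    omega
  have h5 : ((T + y : ℕ) : ℝ) ≤ y' := by exact_mod_cast h4
  push_cast at h5
  linarith

end TOPG

theorem blk_TOPG (GE0 : St_GE0) (GE1 : St_GE1) (GE2 : St_GE2) (MULT : St_MULT) : St_TOPG := by
  intro d r D E hD hr hd
  obtain ⟨C₀, hC₀, h1⟩ := GE1 d D r hr hd
  obtain ⟨C₂, hC₂, h2⟩ := GE2 d D r C₀ hD hr hd hC₀
  obtain ⟨C₃, hC₃, h3⟩ := MULT D
  have hE0 : (0 : ℝ) ≤ E + 2 * D * C₂ := by positivity
  have hF0 : (0 : ℝ) ≤ C₃ * (E + 2 * D * C₂) := by positivity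
  obtain ⟨C, hC⟩ := exists_nat_ge (C₃ * (E + 2 * D * C₂) + 1 + 2 * C₂)
  have hC1 : 1 ≤ C := by
    have : (1 : ℝ) ≤ C := by linarith
    exact_mod_cast this
  refine ⟨C, hC1, ?_⟩
  intro N c σ Kb K₁ H hσ hKb hK₁ hH hNc hc2 hKS hTh
  have hK1 : 1 ≤ Kb * K₁ := Nat.mul_pos hKb hK₁
  have hS1 : 1 ≤ Kb * K₁ * σ := Nat.mul_pos hK1 hσ
  have hSN : Kb * K₁ * σ ≤ N := (Nat.le_mul_of_pos_left _ hK1).trans hKS
  have hN1 : 1 ≤ N := hS1.trans hSN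
  obtain ⟨Ψ, hΨ⟩ := h1 N c hN1 hNc (by omega)
  have hσ0 : (0 : ℝ) < σ := by exact_mod_cast hσ
  have hKb0 : (1 : ℝ) ≤ Kb := by exact_mod_cast hKb
  have hK0 : (0 : ℝ) < K₁ := by exact_mod_cast hK₁
  have hN0 : (1 : ℝ) ≤ N := by exact_mod_cast hN1
  have hKS' : (Kb : ℝ) * K₁ * ((Kb * K₁ * σ : ℕ) : ℝ) ≤ N := by exact_mod_cast hKS
  have hSN' : ((Kb * K₁ * σ : ℕ) : ℝ) ≤ N := by exact_mod_cast hSN
  have hSe : ((Kb * K₁ * σ : ℕ) : ℝ) = Kb * K₁ * σ := by push_cast; rfl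
  have hSq : ∃ q : ℚ, ((Kb * K₁ * σ : ℕ) : ℝ) = q := ⟨(Kb * K₁ * σ : ℕ), by simp⟩
  generalize ((Kb * K₁ * σ : ℕ) : ℝ) = S at hTh hKS' hSN' hSe hSq ⊢
  have hS0 : 0 < S := by rw [hSe]; positivity
  have hG := fun m : Fin D => h2 N c Ψ (m.val + 1) (by linarith) hΨ (by omega) m.isLt
  refine ⟨fun m => (S ^ m.val * σ)⁻¹ • Ψ (m.val + 1), fun m => ?_, fun m => ?_, ?_⟩
  · obtain ⟨q, rfl⟩ := hSq
    exact GE0.isQ_smul d _ _ ⟨(q ^ m.val * σ)⁻¹, by push_cast; rfl⟩ (hΨ.rat _)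
  · have hp : 0 < S ^ m.val * σ := by positivity
    have a1 := (hG m).1 S σ hS0 hSN' hσ0.le
    have a2 := (hG m).2.1 H σ S hH hS0 hSN' hN0 hTh
    rw [Nat.add_sub_cancel] at a1 a2
    rw [map_smul_eq_mul, gn_apply, Real.norm_of_nonneg (inv_pos.2 hp).le, inv_mul_le_iff₀ hp]
    have : 2 * C₂ ≤ C := by linarith
    nlinarith
  intro α hα b b' y y' hb hy hm
  rw [Sep, mem_filter, Fintype.mem_piFinset] at hα
  have l1 := fun i => TOPG.loc (hb i).1 (hy i).1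
  have l2 := fun i => TOPG.loc (hb i).2 (hy i).2
  have hin : ∀ (i : Fin D) (z : ℕ), c + α i * (K₁ * σ) ≤ z → z ≤ c + (α i + 1) * (K₁ * σ) →
      |(z : ℝ) - c| ≤ S := by
    intro i z z1 z2
    have a1 : (α i + 1) * (K₁ * σ) ≤ Kb * (K₁ * σ) :=
      Nat.mul_le_mul_right _ (mem_range.1 (hα.1 i))
    have a2 : c ≤ z := by omega
    have a3 : z ≤ c + Kb * (K₁ * σ) := by omega
    have a4 : (c : ℝ) ≤ z := by exact_mod_cast a2
    have a5 : (z : ℝ) ≤ c + Kb * (K₁ * σ) := by exact_mod_cast a3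
    rw [abs_of_nonneg (by linarith), hSe]
    linarith
  have hK : (0 : ℝ) < Kb * K₁ := by positivity
  have key := h3 (fun i => ((y i : ℝ) - c) / S) (fun i => ((y' i : ℝ) - c) / S) Kb
    ((E + 2 * D * C₂) / (Kb * K₁)) hKb0 (by positivity) ?_ ?_ ?_
  · intro i
    have a1 := key i
    rw [← sub_div, abs_div, abs_of_pos hS0, div_le_iff₀ hS0] at a1
    have a2 : C₃ * (Kb : ℝ) ^ (D - 1) * ((E + 2 * D * C₂) / (Kb * K₁)) * S =
        C₃ * (E + 2 * D * C₂) * (Kb : ℝ) ^ (D - 1) * σ := by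
      rw [hSe]; field_simp
    rw [a2, abs_le] at a1
    have a3 : (1 : ℝ) ≤ (Kb : ℝ) ^ (D - 1) := one_le_pow₀ hKb0
    have a4 : C₃ * (E + 2 * D * C₂) * (Kb : ℝ) ^ (D - 1) + 1 ≤ ((C * Kb ^ (D - 1) : ℕ) : ℝ) := by
      push_cast
      have : C₃ * (E + 2 * D * C₂) + 1 ≤ C := by linarith
      nlinarith
    exact ⟨TOPG.near hσ (hy i).1 (hy i).2 (by linarith [a1.2]) a4,
      TOPG.near hσ (hy i).2 (hy i).1 (by linarith [a1.1]) a4⟩
  · intro i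
    constructor
    · rw [abs_div, abs_of_pos hS0, div_le_one hS0]
      exact hin i _ (l1 i).1 (l1 i).2
    · rw [abs_div, abs_of_pos hS0, div_le_one hS0]
      exact hin i _ (l2 i).1 (l2 i).2
  · intro i l hil
    have a1 : ((K₁ * σ : ℕ) : ℝ) ≤ |(y i : ℝ) - c - (y' l - c)| := by
      rcases hα.2 i l hil with h | h
      · have := TOPG.sep (l1 i).2 (l2 l).1 h
        exact le_abs.2 (Or.inr (by linarith))
      · have := TOPG.sep (l2 l).2 (l1 i).1 h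
        exact le_abs.2 (Or.inl (by linarith))
    rw [← sub_div, abs_div, abs_of_pos hS0, ← mul_div_assoc, one_le_div hS0, hSe, mul_assoc]
    push_cast at a1
    exact mul_le_mul_of_nonneg_left a1 (by linarith)
  · intro μ hμ1 hμD
    obtain ⟨m, rfl⟩ : ∃ m, μ = m + 1 := ⟨μ - 1, by omega⟩
    have a0 := hm ⟨m, hμD⟩
    have hp : 0 < S ^ m * σ := by positivity
    rw [GE0.dot_smul, GE0.dot_sub, GE0.dot_sum, GE0.dot_sum, abs_mul, abs_of_pos (inv_pos.2 hp),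
      inv_mul_le_iff₀ hp, ← sum_sub_distrib] at a0
    simp only [GE0.dot_mom, Int.cast_natCast] at a0
    have a1 : ∀ (i : Fin D) (z : ℕ), c + α i * (K₁ * σ) ≤ z → z ≤ c + (α i + 1) * (K₁ * σ) →
        |ev z (Ψ (m + 1)) - ev c (Ψ (m + 1)) - ((z : ℝ) - c) ^ (m + 1)| ≤ C₂ * (S ^ m * σ) := by
      intro i z z1 z2
      have a2 := (hG ⟨m, hμD⟩).2.2.1 z S (hin i z z1 z2) hSN'
      have a3 : S ^ (m + 1 + 1) ≤ S ^ m * σ * N := by
        have a4 : S ^ (m + 1 + 1) = S ^ m * σ * (Kb * K₁ * S) := by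
          have : S ^ (m + 1 + 1) = S ^ m * S * S := by ring
          rw [this]
          nth_rewrite 2 [hSe]
          ring
        rw [a4]
        exact mul_le_mul_of_nonneg_left hKS' hp.le
      have a5 : C₂ * S ^ (m + 1 + 1) ≤ C₂ * (S ^ m * σ) * N := by
        rw [mul_assoc]
        exact mul_le_mul_of_nonneg_left a3 (by linarith)
      exact le_of_mul_le_mul_right (a2.trans a5) (by linarith)
    have a6 : ∑ i, ((((y i : ℝ) - c) / S) ^ (m + 1) - (((y' i : ℝ) - c) / S) ^ (m + 1)) =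
        (∑ i, (ev (y i) (Ψ (m + 1)) - ev (y' i) (Ψ (m + 1))) -
          ∑ i, ((ev (y i) (Ψ (m + 1)) - ev c (Ψ (m + 1)) - ((y i : ℝ) - c) ^ (m + 1)) -
            (ev (y' i) (Ψ (m + 1)) - ev c (Ψ (m + 1)) - ((y' i : ℝ) - c) ^ (m + 1)))) /
          S ^ (m + 1) := by
      rw [← sum_sub_distrib, sum_div]
      refine sum_congr rfl fun i _ => ?_
      rw [div_pow, div_pow]
      ring
    have a7 : |∑ i, ((ev (y i) (Ψ (m + 1)) - ev c (Ψ (m + 1)) - ((y i : ℝ) - c) ^ (m + 1)) -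
        (ev (y' i) (Ψ (m + 1)) - ev c (Ψ (m + 1)) - ((y' i : ℝ) - c) ^ (m + 1)))| ≤
        D * (2 * (C₂ * (S ^ m * σ))) := by
      refine (abs_sum_le_sum_abs _ _).trans ?_
      refine (sum_le_card_nsmul _ _ (2 * (C₂ * (S ^ m * σ))) fun i _ => ?_).trans (by simp)
      refine (abs_sub _ _).trans ?_
      linarith [a1 i _ (l1 i).1 (l1 i).2, a1 i _ (l2 i).1 (l2 i).2]
    have hq : 0 < S ^ (m + 1) := by positivity
    rw [a6, abs_div, abs_of_pos hq, div_le_iff₀ hq]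
    refine (abs_sub _ _).trans ?_
    have a8 : (E + 2 * D * C₂) / (Kb * K₁) * S ^ (m + 1) = (E + 2 * D * C₂) * (S ^ m * σ) := by
      rw [pow_succ]
      nth_rewrite 2 [hSe]
      field_simp
    rw [a8]
    linarith

end Pool.Agent.Lib.SC
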