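import Pool.Agent.Lib.SC.Blue

/-! The transition to the next state. -/

namespace Pool.Agent.Lib.SC

open MeasureTheory Finset Pool.Agent.Lib.WC

namespace TRANS

variable {d : ℕ}

/-- The weight of a state splits off one factor. -/
theorem Wr_split (r : Fin d) (H : ℝ) (x : TT d) :
    Wr r.val H x = wt H (x r) * Wr (r.val + 1) H x := by
  unfold Wr
  rw [← Finset.mul_prod_erase univ _ (mem_univ r), ← Finset.mul_prod_erase univ
    (fun j : Fin d => if r.val + 1 ≤ j.val then wt H (x j) else 1) (mem_univ r)]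
  rw [if_pos le_rfl, if_neg (by omega), one_mul]
  congr 1
  refine Finset.prod_congr rfl fun j hj => ?_
  have : j.val ≠ r.val := fun h => (Finset.mem_erase.1 hj).1 (Fin.ext h)
  by_cases h : r.val ≤ j.val
  · rw [if_pos h, if_pos (by omega)]
  · rw [if_neg h, if_neg (by omega)]

/-- The mass of one factor. -/
theorem int_wt (hB : Bas) {H : ℝ} (hH : 0 < H) (y : UnitAddCircle) :
    ∫ v : TT 1, wt H (y - v 0) ≤ 2 := by
  have h1 := hB.wr.mass 1 0 H hH
  have h2 : ∫ v : TT 1, wt H (y - v 0) = ∫ v : TT 1, Wr 0 H v := by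
    rw [← int_sub (fun v : TT 1 => Wr 0 H v) (fun _ => y)]
    refine integral_congr_ae (.of_forall fun v => ?_)
    simp [Wr, wt, norm_sub_rev y]
  rw [h2]
  simpa using h1

/-- Averaging along a direction of slow variation removes one factor of the weight. -/
theorem avg (hB : Bas) (r : Fin d) {H : ℝ} (hH : 0 < H) (F : TT d → ℝ) (hF : Continuous F)
    (F0 : ∀ x, 0 ≤ F x) (G : Seminorm ℝ (V d)) (m : ℕ) (hD : Dbl F G m 1) (E : V d) (hE : E r = 1)
    (B : ℝ) (hG : G E ≤ B) (hb : bx (r.val + 1) H E ≤ B) :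
    II r.val H F ≤ 2 * ((1 + B) ^ m * (1 + B) ^ (2 * d)) * II (r.val + 1) H F := by
  have hB0 : 0 ≤ B := (apply_nonneg G E).trans hG
  have cW := hB.wr.cont d (r.val + 1) H hH
  have cw := continuous_wt hH.le
  have W0 : ∀ x : TT d, 0 ≤ Wr (r.val + 1) H x := fun x => (hB.wr.pos d _ H x hH).le
  set K : ℝ := (1 + B) ^ m * (1 + B) ^ (2 * d) with hK
  have K0 : 0 ≤ K := by positivity
  have cc : Continuous fun q : TT 1 × TT d =>
      K * (F q.2 * Wr (r.val + 1) H q.2) * wt H (q.2 r - q.1 0) :=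
    (continuous_const.mul ((hF.comp continuous_snd).mul (cW.comp continuous_snd))).mul
      (cw.comp (((continuous_apply r).comp continuous_snd).sub
        ((continuous_apply 0).comp continuous_fst)))
  have key : ∀ v : TT 1, II r.val H F ≤
      ∫ x : TT d, K * (F x * Wr (r.val + 1) H x) * wt H (x r - v 0) := by
    intro v
    obtain ⟨t, ht, htv⟩ := AddCircle.eq_coe_Ico (v 0)
    have ht1 : ‖-t‖ ≤ 1 := by
      rw [norm_neg, Real.norm_of_nonneg ht.1]; exact ht.2.le
    have sm : ∀ S : Seminorm ℝ (V d), S E ≤ B → S ((-t) • E) ≤ B := fun S hS => by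
      rw [map_smul_eq_mul]
      exact (mul_le_of_le_one_left (apply_nonneg S E) ht1).trans hS
    unfold II
    rw [← int_add (fun x => F x * Wr r.val H x) (pj ((-t) • E))]
    refine integral_mono (cint ?_) (cint (cc.comp (Continuous.prodMk_right v))) fun x => ?_
    · exact (hF.mul (hB.wr.cont d r.val H hH)).comp (continuous_id.add continuous_const)
    · have e1 : (x + pj ((-t) • E)) r = x r - v 0 := by
        simp only [Pi.add_apply, pj, Pi.smul_apply, hE, smul_eq_mul, mul_one]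
        rw [← htv, sub_eq_add_neg]
        rfl
      have a1 : F (x + pj ((-t) • E)) ≤ (1 + B) ^ m * F x := by
        refine (hD x _).trans ?_
        rw [one_mul]
        exact mul_le_mul_of_nonneg_right (pow_le_pow_left₀ (by positivity)
          (by linarith [sm G hG]) m) (F0 x)
      have a2 : Wr (r.val + 1) H (x + pj ((-t) • E)) ≤ (1 + B) ^ (2 * d) * Wr (r.val + 1) H x := by
        refine (hB.wr.dbl d (r.val + 1) H hH x _).trans ?_
        rw [one_mul]
        exact mul_le_mul_of_nonneg_right (pow_le_pow_left₀ (by positivity)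
          (by linarith [sm _ hb]) _) (W0 x)
      have w0 : 0 ≤ wt H (x r - v 0) := wt_nonneg hH.le _
      show F (x + pj ((-t) • E)) * Wr r.val H (x + pj ((-t) • E)) ≤ _
      rw [Wr_split, e1]
      calc F (x + pj ((-t) • E)) * (wt H (x r - v 0) * Wr (r.val + 1) H (x + pj ((-t) • E)))
          ≤ ((1 + B) ^ m * F x) * (wt H (x r - v 0) * ((1 + B) ^ (2 * d) * Wr (r.val + 1) H x)) :=
            mul_le_mul a1 (mul_le_mul_of_nonneg_left a2 w0) (mul_nonneg w0 (W0 _))
              (mul_nonneg (by positivity) (F0 x))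
        _ = K * (F x * Wr (r.val + 1) H x) * wt H (x r - v 0) := by rw [hK]; ring
  calc II r.val H F = ∫ _v : TT 1, II r.val H F := by simp
    _ ≤ ∫ v : TT 1, ∫ x : TT d, K * (F x * Wr (r.val + 1) H x) * wt H (x r - v 0) :=
        integral_mono (integrable_const _) (cint (cont_int cc)) key
    _ = ∫ x : TT d, ∫ v : TT 1, K * (F x * Wr (r.val + 1) H x) * wt H (x r - v 0) := swap_int cc
    _ ≤ ∫ x : TT d, 2 * K * (F x * Wr (r.val + 1) H x) := by
        refine integral_mono (cint (cont_int (f := fun (x : TT d) (v : TT 1) =>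
          K * (F x * Wr (r.val + 1) H x) * wt H (x r - v 0)) (cc.comp continuous_swap)))
          (cint (continuous_const.mul (hF.mul cW))) fun x => ?_
        show ∫ v : TT 1, K * (F x * Wr (r.val + 1) H x) * wt H (x r - v 0) ≤ _
        rw [integral_const_mul]
        have := mul_le_mul_of_nonneg_left (int_wt hB hH (x r))
          (mul_nonneg K0 (mul_nonneg (F0 x) (W0 x)))
        linarith
    _ = 2 * K * II (r.val + 1) H F := by rw [integral_const_mul]; rfl

/-- Taylor coefficients of a monomial. -/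
theorem tc_single (r : Fin d) (c : ℝ) (i : ℕ) :
    tc c i (Pi.single r (1 : ℝ) : V d) = ((r.val + 1).choose i : ℝ) * c ^ (r.val + 1 - i) := by
  unfold tc
  rw [Finset.sum_eq_single r (fun j _ hj => by simp [Pi.single_eq_of_ne hj]) (by simp)]
  simp

/-- The coefficients of `(X - c) ^ (r + 1)`. -/
noncomputable def yv (r : Fin d) (c : ℝ) : V d := fun j => tc (-c) (j.val + 1) (Pi.single r (1 : ℝ))

theorem tc_yv (hB : Bas) (r : Fin d) (c : ℝ) (i : ℕ) (hi : 1 ≤ i) :
    tc c i (yv r c) = if i = r.val + 1 then 1 else 0 := by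
  have h := hB.ge0.tc_shift d (-c) 0 i (Pi.single r (1 : ℝ)) hi
  have e : tc c i (yv r c) = tc 0 i (Pi.single r (1 : ℝ) : V d) := by
    rw [h, Finset.sum_range, zero_sub, neg_neg]
    rfl
  rw [e, tc_single]
  split_ifs with h1
  · simp [h1]
  · rcases lt_or_gt_of_ne h1 with h2 | h2
    · rw [zero_pow (by omega), mul_zero]
    · rw [Nat.choose_eq_zero_of_lt h2, Nat.cast_zero, zero_mul]

theorem yv_self (r : Fin d) (c : ℝ) : yv r c r = 1 := by
  simp [yv, tc_single]

theorem yv_gt (r j : Fin d) (c : ℝ) (h : r.val + 1 ≤ j.val) : yv r c j = 0 := by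
  rw [yv, tc_single, Nat.choose_eq_zero_of_lt (by omega), Nat.cast_zero, zero_mul]

theorem tc_sub (c : ℝ) (i : ℕ) (P R : V d) : tc c i (P - R) = tc c i P - tc c i R := by
  simp [tc, mul_sub, Finset.sum_sub_distrib]

/-- The direction of slow variation. -/
theorem geo (hB : Bas) (GE1 : St_GE1) (D : ℕ) (r : Fin d) (h1 : r.val + 2 ≤ D) (h2 : D ≤ d) :
    ∃ B : ℝ, 0 ≤ B ∧ ∀ (N c σ : ℕ) (H : ℝ), 1 ≤ σ → σ ≤ N → N ≤ c → c ≤ 2 * N → 0 < H →
      H ≤ (N : ℝ) ^ (d + 1 - D) → σ ^ D * N ^ (r.val + 1) ≤ N ^ D →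
      ∃ E : V d, E r = 1 ∧ gn (r.val + 1) H (c : ℝ) (σ : ℝ) (σ : ℝ) E ≤ B := by
  obtain ⟨C, hC, hJ⟩ := GE1 d (D - 1) r.val (by omega) (by omega)
  refine ⟨d * C + d * C, by positivity, fun N c σ H hσ hσN hNc hc hH hHN hs => ?_⟩
  obtain ⟨Ψ, hΨ⟩ := hJ N c (by omega) hNc hc
  have hN1 : (1 : ℝ) ≤ N := by exact_mod_cast (show 1 ≤ N by omega)
  have hN0 : (0 : ℝ) < N := by linarith
  have hσ0 : (0 : ℝ) ≤ σ := Nat.cast_nonneg σ
  refine ⟨yv r c - Ψ (r.val + 1), ?_, ?_⟩
  · rw [Pi.sub_apply, yv_self, hΨ.gap _ r le_rfl (by omega), sub_zero]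
  · rw [gn_apply, pn_apply, bx_apply]
    refine add_le_add ?_ ?_
    · refine (Finset.sum_le_card_nsmul _ _ C fun i _ => ?_).trans (by simp)
      rw [tc_sub, tc_yv hB r c (i + 1) (by omega)]
      by_cases hi : i + 1 ≤ D - 1
      · rw [hΨ.low _ (i + 1) (by omega) (by omega) (by omega) hi, sub_self, abs_zero, zero_mul]
        linarith
      · rw [if_neg (by omega), zero_sub, abs_neg, abs_of_nonneg hσ0, ← pow_succ']
        have a1 := hΨ.high (r.val + 1) (i + 1) (by omega) (by omega)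
        have a2 : σ ^ (i + 1) * N ^ (r.val + 1) ≤ N ^ (i + 1) := by
          obtain ⟨e, he⟩ : ∃ e, i + 1 = e + D := ⟨i + 1 - D, by omega⟩
          rw [he, pow_add σ, pow_add N e, mul_assoc]
          exact Nat.mul_le_mul (Nat.pow_le_pow_left hσN e) hs
        have a3 : (σ : ℝ) ^ (i + 1) * (N : ℝ) ^ (r.val + 1) ≤ (N : ℝ) ^ (i + 1) := by
          exact_mod_cast a2
        refine le_of_mul_le_mul_right ?_ (pow_pos hN0 (r.val + 1))
        rw [mul_assoc]
        exact (mul_le_mul_of_nonneg_left a3 (abs_nonneg _)).trans a1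
    · refine (Finset.sum_le_card_nsmul _ _ C fun j _ => ?_).trans (by simp)
      split_ifs with hj
      · rw [Pi.sub_apply, yv_gt r j c hj, zero_sub, abs_neg, abs_of_pos hH]
        by_cases hg : j.val + (D - 1) < r.val + d
        · rw [hΨ.gap _ j (by omega) hg, abs_zero, mul_zero]
          linarith
        · have a1 := hΨ.coef (r.val + 1) j (by omega) (by omega)
          have a2 : H * (N : ℝ) ^ (r.val + 1) ≤ (N : ℝ) ^ (j.val + 1) := by
            refine (mul_le_mul_of_nonneg_right hHN (by positivity)).trans ?_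
            rw [← pow_add]
            exact pow_le_pow_right₀ hN1 (by omega)
          refine le_of_mul_le_mul_right ?_ (pow_pos hN0 (r.val + 1))
          calc H * |Ψ (r.val + 1) j| * (N : ℝ) ^ (r.val + 1)
              = |Ψ (r.val + 1) j| * (H * (N : ℝ) ^ (r.val + 1)) := by ring
            _ ≤ |Ψ (r.val + 1) j| * (N : ℝ) ^ (j.val + 1) :=
                mul_le_mul_of_nonneg_left a2 (abs_nonneg _)
            _ ≤ _ := a1
      · linarith

end TRANS

open TRANS in
theorem blk_TRANS (hB : Bas) (GAU : St_GAU) (GE1 : St_GE1) : St_TRANS := by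
  intro d D r p h1 h2 hp
  obtain ⟨B, hB0, hgeo⟩ := geo hB GE1 D (⟨r, by omega⟩ : Fin d) h1 h2
  obtain ⟨C, hC, hgau⟩ := GAU d (2 * d)
  have hC0 : 0 ≤ C := by linarith
  have hCp : 1 ≤ C ^ (p / 2) := Real.one_le_rpow hC (by linarith)
  have hK : 1 ≤ (1 + B) ^ ((2 * d + 2) * d) * (1 + B) ^ (2 * d) :=
    one_le_mul_of_one_le_of_one_le (one_le_pow₀ (by linarith)) (one_le_pow₀ (by linarith))
  refine ⟨C ^ (p / 2) * (2 * ((1 + B) ^ ((2 * d + 2) * d) * (1 + B) ^ (2 * d)) * C),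
    one_le_mul_of_one_le_of_one_le hCp (one_le_mul_of_one_le_of_one_le (by linarith) hC),
    fun N c σ H a hσ hσN hNc hc hH hHN hs => ?_⟩
  obtain ⟨E, hE, hGE⟩ := hgeo N c σ H hσ hσN hNc hc hH hHN hs
  have hσ0 : (σ : ℝ) ≠ 0 := by exact_mod_cast (show σ ≠ 0 by omega)
  obtain ⟨⟨W, hW⟩, -⟩ := hgau (gn (r + 1) H (c : ℝ) (σ : ℝ) (σ : ℝ))
    fun P => hB.ge0.defn d (r + 1) H c σ σ P hσ0 hσ0
  have := hW.prob
  obtain ⟨o, ho⟩ := hB.ge0.cap d (r + 1) H c σ
  have hf : fa d a c σ ∈ Sp {ω | ∀ P, |dot ω P - o P| ≤ gn (r + 1) H (c : ℝ) (σ : ℝ) (σ : ℝ) P} := by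
    refine Sp_mono ?_ (hB.wr.fa_mem d a c σ)
    rintro ω ⟨m, hm1, hm2, rfl⟩
    exact ho m hm1 hm2
  have cf : Continuous fun x => ‖fa d a c σ x‖ ^ 2 := (hB.wr.fa_cont d a c σ).norm.pow 2
  have c1 : Continuous fun x => 1 + ‖fa d a c σ x‖ ^ 2 := continuous_const.add cf
  have cg : Continuous fun x => (1 + ‖fa d a c σ x‖ ^ 2) ^ (p / 2) :=
    c1.rpow_const fun x => Or.inr (by linarith)
  have g0 : ∀ x, 0 ≤ (1 + ‖fa d a c σ x‖ ^ 2) ^ (p / 2) := fun x => by positivity
  have cG := hB.cv1.cont d W _ cg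
  have G0 := fun x => hB.cv1.nonneg d W _ x g0
  have pt : ∀ x, (1 + ‖fa d a c σ x‖ ^ 2) ^ (p / 2) ≤
      C ^ (p / 2) * cv W (fun y => (1 + ‖fa d a c σ y‖ ^ 2) ^ (p / 2)) x := by
    intro x
    have a1 := hW.up o _ hf x
    have a2 : cv W (fun y => 1 + ‖fa d a c σ y‖ ^ 2) x =
        1 + cv W (fun y => ‖fa d a c σ y‖ ^ 2) x := by
      rw [hB.cv1.add d W (fun _ => 1) _ x continuous_const cf, hB.cv1.const]
    have a3 : 1 + ‖fa d a c σ x‖ ^ 2 ≤ C * cv W (fun y => 1 + ‖fa d a c σ y‖ ^ 2) x := by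
      rw [a2]; linarith
    have a4 : 0 ≤ cv W (fun y => 1 + ‖fa d a c σ y‖ ^ 2) x :=
      hB.cv1.nonneg d W _ x fun y => by positivity
    refine (Real.rpow_le_rpow (by positivity) a3 (by linarith)).trans ?_
    rw [Real.mul_rpow hC0 a4]
    exact mul_le_mul_of_nonneg_left (hB.cv1.jpow d W _ (p / 2) x c1 (fun y => by positivity)
      (by linarith)) (by positivity)
  have s1 : II r H (fun x => (1 + ‖fa d a c σ x‖ ^ 2) ^ (p / 2)) ≤
      C ^ (p / 2) * II r H (cv W fun y => (1 + ‖fa d a c σ y‖ ^ 2) ^ (p / 2)) := by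
    unfold II
    rw [← integral_const_mul]
    refine integral_mono (cint (cg.mul (hB.wr.cont d r H hH)))
      (cint (continuous_const.mul (cG.mul (hB.wr.cont d r H hH)))) fun x => ?_
    have := mul_le_mul_of_nonneg_right (pt x) (hB.wr.pos d r H x hH).le
    simp only [] at this ⊢
    linarith
  have s2 := avg hB (⟨r, by omega⟩ : Fin d) hH _ cG G0 _ _ (hW.dbl _ cg g0) E hE B hGE
    ((hB.ge0.bx_le d (r + 1) H c σ σ E).trans hGE)
  have s3 : II (r + 1) H (cv W fun y => (1 + ‖fa d a c σ y‖ ^ 2) ^ (p / 2)) ≤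
      C * II (r + 1) H fun x => (1 + ‖fa d a c σ x‖ ^ 2) ^ (p / 2) := by
    have hm := hB.cv2.mom_le d W _ (bx (r + 1) H) (2 * d) (2 * d) C 1 le_rfl
      (fun P => by rw [one_mul]; exact hB.ge0.bx_le d (r + 1) H c σ σ P) le_rfl hW.mom
    have := hB.cv2.w_up d W _ _ _ _ 1 _ cg (hB.wr.cont d (r + 1) H hH) g0
      (fun y => (hB.wr.pos d (r + 1) H y hH).le) zero_le_one (hB.wr.dbl d (r + 1) H hH) hm
    simpa only [one_pow, one_mul, II] using this
  refine s1.trans ?_
  rw [mul_assoc, mul_assoc]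
  refine mul_le_mul_of_nonneg_left (s2.trans ?_) (by positivity)
  exact mul_le_mul_of_nonneg_left s3 (by positivity)

end Pool.Agent.Lib.SC
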