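import Pool.Agent.Lib.SC.Blue

/-! The tree of square functions below a top arc. -/

namespace Pool.Agent.Lib.SC

open MeasureTheory Finset Pool.Agent.Lib.WC

namespace TREE

variable {d : ℕ}

/-- The accumulated measures. -/
noncomputable def nu (M : ℕ) (W K : ℕ → ℕ → Measure (V d)) (β : ℕ → Measure (V d)) :
    ℕ → ℕ → Measure (V d)
  | 0, _ => Measure.dirac 0
  | j + 1, b => (((nu M W K β j (b / M)).conv (W j (b / M))).conv (K j (b / M))).conv (β j)

theorem nu_prob (M : ℕ) (W K : ℕ → ℕ → Measure (V d)) (β : ℕ → Measure (V d))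
    (hW : ∀ j b, IsProbabilityMeasure (W j b)) (hK : ∀ j b, IsProbabilityMeasure (K j b))
    (hβ : ∀ j, IsProbabilityMeasure (β j)) : ∀ j b, IsProbabilityMeasure (nu M W K β j b)
  | 0, _ => by unfold nu; infer_instance
  | j + 1, b => by
    have := nu_prob M W K β hW hK hβ j (b / M)
    have := hW j (b / M)
    have := hK j (b / M)
    have := hβ j
    unfold nu
    infer_instance

theorem nu_mom (h2 : St_CV2) (M J : ℕ) (W K : ℕ → ℕ → Measure (V d)) (β : ℕ → Measure (V d))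
    (hW : ∀ j b, IsProbabilityMeasure (W j b)) (hK : ∀ j b, IsProbabilityMeasure (K j b))
    (hβ : ∀ j, IsProbabilityMeasure (β j)) (G : Seminorm ℝ (V d)) (m : ℕ) (a b c : ℝ)
    (mW : ∀ j t, Mom (W j t) G m a) (mK : ∀ j t, Mom (K j t) G m b)
    (mβ : ∀ j, j < J → Mom (β j) G m c) :
    ∀ j t, j ≤ J → Mom (nu M W K β j t) G m ((a * b * c) ^ j)
  | 0, _, _ => by
    unfold nu
    rw [pow_zero]
    exact h2.mom_dirac d G m
  | j + 1, t, hj => by
    have := nu_prob M W K β hW hK hβ j (t / M)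
    have := hW j (t / M)
    have := hK j (t / M)
    have := hβ j
    have ih := nu_mom h2 M J W K β hW hK hβ G m a b c mW mK mβ j (t / M) (by omega)
    have h1 := h2.mom_conv d _ _ G m _ _ ih (mW j (t / M))
    have h3 := h2.mom_conv d _ _ G m _ _ h1 (mK j (t / M))
    have h4 := h2.mom_conv d _ _ G m _ _ h3 (mβ j (by omega))
    have e : (a * b * c) ^ (j + 1) = (a * b * c) ^ j * a * b * c := by ring
    unfold nu
    rw [e]
    exact h4

theorem up_fa (hB : Bas) (r : ℕ) (H : ℝ) (a : ℕ → ℂ) (c σ L : ℕ) (C : ℝ) (W : Measure (V d))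
    (hW : IsW (gn r H (c : ℝ) (σ : ℝ) (σ : ℝ)) L C W) (x : TT d) :
    ‖fa d a c σ x‖ ^ 2 ≤ C * cv W (fun y => ‖fa d a c σ y‖ ^ 2) x := by
  obtain ⟨o, ho⟩ := hB.ge0.cap d r H c σ
  refine hW.up o _ (Sp_mono ?_ (hB.wr.fa_mem d a c σ)) x
  rintro ω ⟨m, h1, h2, rfl⟩ P
  exact ho m h1 h2 P

theorem int_le (hB : Bas) (r : ℕ) (H p : ℝ) (hH : 0 < H) (hp : 2 ≤ p) (W ν : Measure (V d))
    [IsProbabilityMeasure W] [IsProbabilityMeasure ν] (F : TT d → ℝ) (hF : Continuous F)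
    (F0 : ∀ x, 0 ≤ F x) (a b : ℝ) (mW : Mom W (bx r H) (2 * d) a)
    (mν : Mom ν (bx r H) (2 * d) b) :
    II r H (fun x => cv W (cv ν F) x ^ (p / 2)) ≤ a * b * II r H fun x => F x ^ (p / 2) := by
  have h1 := hB.cv1
  have h2 := hB.cv2
  have hq : (1 : ℝ) ≤ p / 2 := by linarith
  have hq0 : (0 : ℝ) ≤ p / 2 := by linarith
  have cF : Continuous fun x => F x ^ (p / 2) := hF.rpow_const fun _ => Or.inr hq0
  have F1 : ∀ x, 0 ≤ F x ^ (p / 2) := fun x => Real.rpow_nonneg (F0 x) _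
  have cν : Continuous (cv ν F) := h1.cont d ν F hF
  have ν0 : ∀ x, 0 ≤ cv ν F x := fun x => h1.nonneg d ν F x F0
  have cν' : Continuous (cv ν fun x => F x ^ (p / 2)) := h1.cont d ν _ cF
  have ν0' : ∀ x, 0 ≤ cv ν (fun x => F x ^ (p / 2)) x := fun x => h1.nonneg d ν _ x F1
  have cw := hB.wr.cont d r H hH
  have w0 : ∀ x : TT d, 0 ≤ Wr r H x := fun x => (hB.wr.pos d r H x hH).le
  have hd := hB.wr.dbl d r H hH
  have pt : ∀ x, cv W (cv ν F) x ^ (p / 2) ≤ cv W (cv ν fun x => F x ^ (p / 2)) x := fun x =>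
    (h1.jpow d W _ _ x cν ν0 hq).trans (h1.mono d W _ _ x
      (cν.rpow_const fun _ => Or.inr hq0) cν' fun y => h1.jpow d ν F _ y hF F0 hq)
  have cW : Continuous (cv W (cv ν F)) := h1.cont d W _ cν
  have cW' : Continuous (cv W (cv ν fun x => F x ^ (p / 2))) := h1.cont d W _ cν'
  have a1 : 1 ≤ a := h2.mom_one d W _ _ _ mW
  have s1 := h2.w_up d W _ (Wr r H) (bx r H) (2 * d) 1 a cν' cw ν0' w0 zero_le_one hd mW
  have s2 := h2.w_up d ν _ (Wr r H) (bx r H) (2 * d) 1 b cF cw F1 w0 zero_le_one hd mν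
  unfold II
  calc ∫ x, cv W (cv ν F) x ^ (p / 2) * Wr r H x
      ≤ ∫ x, cv W (cv ν fun x => F x ^ (p / 2)) x * Wr r H x :=
        integral_mono (cint ((cW.rpow_const fun _ => Or.inr hq0).mul cw)) (cint (cW'.mul cw))
          fun x => mul_le_mul_of_nonneg_right (pt x) (w0 x)
    _ ≤ 1 * a * ∫ x, cv ν (fun x => F x ^ (p / 2)) x * Wr r H x := s1
    _ ≤ 1 * a * (1 * b * ∫ x, F x ^ (p / 2) * Wr r H x) :=
        mul_le_mul_of_nonneg_left s2 (by linarith)
    _ = a * b * ∫ x, F x ^ (p / 2) * Wr r H x := by ring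

theorem orth_fa (hB : Bas) (φ : V d) (μ : ℕ) (κ : Measure (V d))
    (hO : Orth (fun _ : Fin 1 => φ) μ κ) (a : ℕ → ℂ) (c σ M C : ℕ)
    (hC : ∀ b b' y y' : ℕ, b < M → b' < M → y ∈ Ico (c + b * σ) (c + b * σ + σ) →
      y' ∈ Ico (c + b' * σ) (c + b' * σ + σ) →
      |dot (mom d (y : ℤ) - mom d (y' : ℤ)) φ| ≤ μ → b ≤ b' + C) (x : TT d) :
    cv κ (fun z => ‖∑ b ∈ range M, fa d a (c + b * σ) σ z‖ ^ 2) x ≤
      ((2 * C + 1 : ℕ) : ℝ) * ∑ b ∈ range M, cv κ (fun z => ‖fa d a (c + b * σ) σ z‖ ^ 2) x := by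
  refine hO ℕ (range M)
    (fun b => {ω | ∃ m : ℕ, c + b * σ ≤ m ∧ m < c + b * σ + σ ∧ ω = mom d (m : ℤ)})
    (fun b => fa d a (c + b * σ) σ) (2 * C + 1) (fun b _ => hB.wr.fa_mem d a _ _) ?_ x
  intro b hb t ht h
  have hsub : t ⊆ Icc (b - C) (b + C) := by
    intro b' hb'
    obtain ⟨ξ, ⟨y, y1, y2, rfl⟩, ξ', ⟨y', y1', y2', rfl⟩, hd⟩ := h b' hb'
    have hd0 := hd 0
    have hb1 := mem_range.1 hb
    have hb2 := mem_range.1 (ht hb')
    have e1 := hC b b' y y' hb1 hb2 (mem_Ico.2 ⟨y1, y2⟩) (mem_Ico.2 ⟨y1', y2'⟩) hd0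
    have hd1 : |dot (mom d (y' : ℤ) - mom d (y : ℤ)) φ| ≤ μ := by
      rw [hB.ge0.dot_sub] at hd0 ⊢
      rwa [abs_sub_comm]
    have e2 := hC b' b y' y hb2 hb1 (mem_Ico.2 ⟨y1', y2'⟩) (mem_Ico.2 ⟨y1, y2⟩) hd1
    exact mem_Icc.2 ⟨by omega, e2⟩
  have := card_le_card hsub
  rw [Nat.card_Icc] at this
  omega

end TREE

open TREE in
theorem blk_TREE (hB : Bas) (SLM : St_SLM) (SLO : St_SLO) (GAU : St_GAU) (PHI : St_PHI)
    (LOW : St_LOW) : St_TREE := by
  intro d r k m μ p C₀ hk hrk hkd hm hμ hp hC₀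
  have h1 := hB.cv1
  have h2 := hB.cv2
  obtain ⟨CW, hCW, HW⟩ := GAU d (2 * d)
  obtain ⟨CK, hCK, HK⟩ := GAU d m
  obtain ⟨CP, hCP, HP⟩ := PHI d r k μ C₀ hk hrk hkd hC₀
  obtain ⟨CS, hCS, HS⟩ := SLM 1 (2 * μ) (2 * d)
  have hCP' : (1 : ℝ) ≤ CP := by exact_mod_cast hCP
  set Cβ : ℝ := CS * (CP : ℝ) ^ (2 * d) with hCβ
  have hβ1 : 1 ≤ Cβ := one_le_mul_of_one_le_of_one_le hCS (one_le_pow₀ hCP')
  set Ω : ℝ := ((2 * CP + 1 : ℕ) : ℝ) with hΩ
  have hΩ1 : 1 ≤ Ω := by rw [hΩ]; exact_mod_cast Nat.le_add_left 1 _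
  have e1 : 1 ≤ CW * CK := one_le_mul_of_one_le_of_one_le hCW hCK
  have e2 : 1 ≤ CW * CK * Cβ := one_le_mul_of_one_le_of_one_le e1 hβ1
  have e3 : CW * CK * Cβ ≤ CW * CK * Cβ * Ω := le_mul_of_one_le_right (by linarith) hΩ1
  have e4 : CW * CK ≤ CW * CK * Cβ := le_mul_of_one_le_right (by linarith) hβ1
  have e5 : CW ≤ CW * CK := le_mul_of_one_le_right (by linarith) hCK
  have e6 : CK ≤ CW * CK := le_mul_of_one_le_left (by linarith) hCW
  have e7 : Ω * CW ≤ CW * CK * Cβ * Ω := by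
    rw [mul_comm Ω]
    exact mul_le_mul_of_nonneg_right (by linarith) (by linarith)
  refine ⟨CW * CK * Cβ * Ω, by linarith, ?_⟩
  intro N c σ K₀ M J H a Ψ hσ hK₀ hM hH ha hJ hN hTh
  have hs : ∀ j, 1 ≤ σ * M ^ (J - j) := fun j => Nat.mul_pos hσ (pow_pos hM _)
  have hdef : ∀ j b : ℕ, ∀ P : V d, gn r H ((c + b * (σ * M ^ (J - j)) : ℕ) : ℝ)
      ((σ * M ^ (J - j) : ℕ) : ℝ) ((σ * M ^ (J - j) : ℕ) : ℝ) P = 0 → P = 0 := fun j b P => by
    have : ((σ * M ^ (J - j) : ℕ) : ℝ) ≠ 0 := by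
      have := hs j
      exact_mod_cast (by omega : σ * M ^ (J - j) ≠ 0)
    exact hB.ge0.defn d r H _ _ _ P this this
  choose W hW using fun j b => (HW _ (hdef j b)).1
  choose K hK using fun j b => (HK _ (hdef j b)).2
  set β : ℕ → Measure (V d) := fun j => bt (((σ * M ^ (J - (j + 1)) : ℕ) : ℝ)⁻¹ • Ψ 1) μ with hβ
  have pW : ∀ j b, IsProbabilityMeasure (W j b) := fun j b => (hW j b).prob
  have pK : ∀ j b, IsProbabilityMeasure (K j b) := fun j b => (hK j b).prob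
  have pβ : ∀ j, IsProbabilityMeasure (β j) := fun j => hB.sl0.probK d 1 (2 * μ) _ (by omega)
  have pν := nu_prob M W K β pW pK pβ
  have hsplit : ∀ j, j < J → σ * M ^ (J - j) = M * (σ * M ^ (J - (j + 1))) := fun j hj => by
    have : J - j = J - (j + 1) + 1 := by omega
    rw [this, pow_succ]; ring
  have hphi := fun (j b : ℕ) (hj : j < J) (hb : b < K₀ * M ^ j) =>
    HP N c (K₀ * M ^ J * σ) (σ * M ^ (J - (j + 1))) M (c + b * (σ * M ^ (J - j))) H Ψ (hs _) hM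
      hH.le hJ hN (Nat.le_add_right _ _)
      (by
        rw [← hsplit j hj, add_assoc, ← Nat.succ_mul]
        refine Nat.add_le_add_left ?_ _
        have e : K₀ * M ^ J * σ = K₀ * M ^ j * (σ * M ^ (J - j)) := by
          have : J = j + (J - j) := by omega
          conv_lhs => rw [this, pow_add]
          ring
        rw [e]
        exact Nat.mul_le_mul_right _ hb)
      (hB.ge0.th_mono d r k H H N σ _ _ _ (Nat.cast_nonneg _) le_rfl (Nat.cast_nonneg _)
        (by exact_mod_cast Nat.le_mul_of_pos_right _ (pow_pos hM _)) (Nat.cast_nonneg _) le_rfl hTh)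
  have mW : ∀ j b, Mom (W j b) (bx r H) (2 * d) CW := fun j b => by
    have := pW j b
    have := h2.mom_le d (W j b) _ (bx r H) (2 * d) (2 * d) CW 1 le_rfl
      (fun P => by rw [one_mul]; exact hB.ge0.bx_le d r H _ _ _ P) le_rfl (hW j b).mom
    rwa [one_pow, one_mul] at this
  have mK : ∀ j b, Mom (K j b) (bx r H) (2 * d) CK := fun j b => by
    have := pK j b
    have := h2.mom_le d (K j b) _ (bx r H) m (2 * d) CK 1 le_rfl
      (fun P => by rw [one_mul]; exact hB.ge0.bx_le d r H _ _ _ P) hm (hK j b).mom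
    rwa [one_pow, one_mul] at this
  have mβ : ∀ j, j < J → Mom (β j) (bx r H) (2 * d) Cβ := fun j hj =>
    ((HS d (fun _ : Fin 1 => ((σ * M ^ (J - (j + 1)) : ℕ) : ℝ)⁻¹ • Ψ 1) (bx r H) CP hCP'
      fun _ => (hphi j 0 hj (Nat.mul_pos hK₀ (pow_pos hM _))).2.1).1 (by omega)).1
  have mν := nu_mom h2 M J W K β pW pK pβ (bx r H) (2 * d) CW CK Cβ mW mK mβ
  have cF : ∀ c' s' : ℕ, Continuous fun z : TT d => 1 + ‖fa d a c' s' z‖ ^ 2 := fun c' s' =>
    continuous_const.add ((hB.wr.fa_cont d a c' s').norm.pow 2)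
  have F0 : ∀ (c' s' : ℕ) (z : TT d), 0 ≤ 1 + ‖fa d a c' s' z‖ ^ 2 := fun _ _ _ => by positivity
  refine ⟨fun j b => cv (W j b) (cv (nu M W K β j b) fun z =>
    1 + ‖fa d a (c + b * (σ * M ^ (J - j))) (σ * M ^ (J - j)) z‖ ^ 2), K, ?_, ?_, ?_, ?_, ?_, ?_,
    ?_, ?_⟩
  · intro j b
    have := pW j b
    have := pν j b
    exact h1.cont d _ _ (h1.cont d _ _ (cF _ _))
  · intro j b x
    have := pW j b
    have := pν j b
    refine (h1.const d (W j b) 1 x).ge.trans (h1.mono d _ _ _ x continuous_const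
      (h1.cont d _ _ (cF _ _)) fun y => ?_)
    refine (h1.const d (nu M W K β j b) 1 y).ge.trans (h1.mono d _ _ _ y continuous_const
      (cF _ _) fun z => ?_)
    exact le_add_of_nonneg_right (by positivity)
  · intro j b x
    have := pW j b
    have := pν j b
    refine le_trans (h1.mono d _ _ _ x (h1.cont d _ _ (cF _ _)) continuous_const fun y => ?_)
      (h1.const d (W j b) _ x).le
    refine le_trans (h1.mono d _ _ _ y (cF _ _) continuous_const fun z => ?_)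
      (h1.const d (nu M W K β j b) _ y).le
    exact add_le_add le_rfl (pow_le_pow_left₀ (norm_nonneg _) (hB.wr.fa_le d a _ _ z ha) 2)
  · intro j b
    have := pν j b
    exact (hW j b).dbl _ (h1.cont d _ _ (cF _ _)) fun x => h1.nonneg d _ _ x (F0 _ _)
  · intro b x
    have := pW 0 b
    have u := up_fa hB r H a _ _ _ _ _ (hW 0 b) x
    have e : nu M W K β 0 b = Measure.dirac 0 := by unfold nu; rfl
    rw [e, h1.dirac]
    have v : cv (W 0 b) (fun y => ‖fa d a (c + b * (σ * M ^ (J - 0))) (σ * M ^ (J - 0)) y‖ ^ 2) x ≤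
        cv (W 0 b) (fun y => 1 + ‖fa d a (c + b * (σ * M ^ (J - 0))) (σ * M ^ (J - 0)) y‖ ^ 2) x :=
      h1.mono d _ _ _ x ((hB.wr.fa_cont d a _ _).norm.pow 2) (cF _ _) fun y => by linarith
    have v0 := h1.nonneg d (W 0 b) _ x (F0 (c + b * (σ * M ^ (J - 0))) (σ * M ^ (J - 0)))
    exact u.trans ((mul_le_mul_of_nonneg_left v (by linarith)).trans
      (mul_le_mul_of_nonneg_right (by linarith) v0))
  · intro j b hj _
    have := pW j b
    have := pν j b
    refine (int_le hB r H p hH hp (W j b) (nu M W K β j b) _ (cF _ _) (F0 _ _) _ _ (mW j b)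
      (mν j b hj)).trans (mul_le_mul_of_nonneg_right ?_ ?_)
    · rw [pow_succ']
      exact mul_le_mul (by linarith) (pow_le_pow_left₀ (by linarith) e3 j) (by positivity)
        (by linarith)
    · exact integral_nonneg fun x => mul_nonneg (Real.rpow_nonneg (F0 _ _ x) _)
        (hB.wr.pos d r H x hH).le
  · intro j b
    exact h2.isK_mono d _ m CK _ _ (by linarith) (hK j b)
  · intro j b lam x hj hb hlam
    have := pW j b
    have := pK j b
    have := pν j b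
    have := pβ j
    obtain ⟨q1, -, -, q4⟩ := hphi j b hj hb
    have hc : ∀ b' : ℕ, c + (b * M + b') * (σ * M ^ (J - (j + 1))) =
        c + b * (σ * M ^ (J - j)) + b' * (σ * M ^ (J - (j + 1))) := fun b' => by
      rw [hsplit j hj]; ring
    have hL := LOW d M (nu M W K β j b) (W j b) (K j b) (β j) (fun b' => W (j + 1) (b * M + b'))
      (fun b' => fa d a (c + b * (σ * M ^ (J - j)) + b' * (σ * M ^ (J - (j + 1))))
        (σ * M ^ (J - (j + 1)))) Ω CW lam x hM hΩ1 hCW hlam (fun b' => pW _ _)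
      (fun b' => hB.wr.fa_cont d a _ _)
      (orth_fa hB _ μ _ (SLO d 1 μ _ (by omega) fun _ => q1) a _ _ M CP q4)
      (fun b' y => by
        have := up_fa hB r H a _ _ _ _ _ (hW (j + 1) (b * M + b')) y
        rwa [hc b'] at this)
    have ef : (fun z => 1 + ‖∑ b' ∈ range M, fa d a
        (c + b * (σ * M ^ (J - j)) + b' * (σ * M ^ (J - (j + 1)))) (σ * M ^ (J - (j + 1))) z‖ ^ 2) =
        fun z => 1 + ‖fa d a (c + b * (σ * M ^ (J - j))) (σ * M ^ (J - j)) z‖ ^ 2 := by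
      funext z
      rw [← hB.wr.fa_split, ← hsplit j hj]
    rw [ef] at hL
    refine hL.trans ?_
    have es : ∀ b' ∈ range M, min (cv (W (j + 1) (b * M + b'))
        (cv ((((nu M W K β j b).conv (W j b)).conv (K j b)).conv (β j)) fun z => 1 + ‖fa d a
          (c + b * (σ * M ^ (J - j)) + b' * (σ * M ^ (J - (j + 1)))) (σ * M ^ (J - (j + 1))) z‖ ^ 2)
          x) lam = min (cv (W (j + 1) (b * M + b')) (cv (nu M W K β (j + 1) (b * M + b')) fun z =>
          1 + ‖fa d a (c + (b * M + b') * (σ * M ^ (J - (j + 1)))) (σ * M ^ (J - (j + 1))) z‖ ^ 2)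
          x) lam := fun b' hb' => by
      have hd : (b * M + b') / M = b := by
        rw [add_comm, Nat.add_mul_div_right _ _ hM, Nat.div_eq_of_lt (mem_range.1 hb'), zero_add]
      have e : nu M W K β (j + 1) (b * M + b') =
          (((nu M W K β j b).conv (W j b)).conv (K j b)).conv (β j) := by
        rw [nu, hd]
      rw [e, hc b']
    rw [sum_congr rfl es]
    refine mul_le_mul_of_nonneg_right e7 (sum_nonneg fun b' _ => le_min ?_ hlam)
    exact h1.nonneg d _ _ x fun y => h1.nonneg d _ _ y (F0 _ _)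

end Pool.Agent.Lib.SC
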