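import Pool.Agent.Lib.SC.Blue

/-! Block WR: the weights of the states, arcs and the trivial estimates. -/

namespace Pool.Agent.Lib.SC

open MeasureTheory Finset Pool.Agent.Lib.WC

namespace WR

lemma cont (d r : ℕ) (H : ℝ) (hH : 0 < H) : Continuous (Wr (d := d) r H) := by
  unfold Wr
  refine continuous_finsetProd _ fun j _ => ?_
  split_ifs
  · exact (continuous_wt hH.le).comp (continuous_apply j)
  · exact continuous_const

lemma pos (d r : ℕ) (H : ℝ) (x : TT d) (hH : 0 < H) : 0 < Wr r H x := by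
  unfold Wr
  refine prod_pos fun j _ => ?_
  split_ifs
  · unfold wt; positivity
  · exact one_pos

lemma dbl (d r : ℕ) (H : ℝ) (hH : 0 < H) : Dbl (Wr (d := d) r H) (bx r H) (2 * d) 1 := by
  intro x P
  have h0 : 0 ≤ bx r H P := apply_nonneg _ _
  have h1 : (1 + bx r H P) ^ (2 * d) = ∏ _j : Fin d, (1 + bx r H P) ^ 2 := by
    rw [prod_const, card_univ, Fintype.card_fin, pow_mul]
  rw [one_mul, h1]
  unfold Wr
  rw [← prod_mul_distrib]
  refine prod_le_prod (fun j _ => ?_) fun j _ => ?_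
  · split_ifs
    · exact wt_nonneg hH.le _
    · exact zero_le_one
  · split_ifs with hj
    · have h2 := SV.wt_sub hH.le (x j) (-(pj P j))
      rw [sub_neg_eq_add, norm_neg] at h2
      refine h2.trans (mul_le_mul_of_nonneg_right ?_ (wt_nonneg hH.le _))
      have h3 : H * ‖pj P j‖ ≤ bx r H P := by
        rw [bx_apply]
        refine le_trans ?_ (single_le_sum (f := fun j : Fin d =>
          if r ≤ j.val then |H| * |P j| else 0) (fun i _ => ?_) (mem_univ j))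
        · simp only [if_pos hj, abs_of_pos hH]
          exact mul_le_mul_of_nonneg_left (norm_coe_le _) hH.le
        · split_ifs
          · positivity
          · exact le_rfl
      have h4 : 0 ≤ H * ‖pj P j‖ := by positivity
      gcongr
    · rw [mul_one]
      exact one_le_pow₀ (by linarith)

lemma mass (d r : ℕ) (H : ℝ) (hH : 0 < H) : ∫ x : TT d, Wr r H x ≤ 2 ^ d := by
  unfold Wr
  rw [integral_fintype_prod_volume_eq_prod fun (j : Fin d) (z : UnitAddCircle) =>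
    if r ≤ j.val then wt H z else 1]
  refine (prod_le_prod (g := fun _ => 2) (fun i _ => integral_nonneg fun z => ?_)
    fun i _ => ?_).trans (by simp)
  · dsimp only
    split_ifs
    · exact wt_nonneg hH.le _
    · exact zero_le_one
  · split_ifs
    · have := KER.tail H 2 0 hH one_lt_two
      simp only [sub_zero, Real.rpow_two] at this
      exact this.trans (by norm_num)
    · simp

lemma fa_mem (d : ℕ) (a : ℕ → ℂ) (c σ : ℕ) :
    fa d a c σ ∈ Sp {ω | ∃ m : ℕ, c ≤ m ∧ m < c + σ ∧ ω = mom d (m : ℤ)} := by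
  have h : fa d a c σ = ∑ m ∈ Ico c (c + σ), a m • ch (mom d (m : ℤ)) := by
    funext x
    simp [fa]
  rw [h]
  refine Submodule.sum_mem _ fun m hm => Submodule.smul_mem _ _ (ch_mem ?_)
  exact ⟨m, (mem_Ico.1 hm).1, (mem_Ico.1 hm).2, rfl⟩

lemma fa_cont (d : ℕ) (a : ℕ → ℂ) (c σ : ℕ) : Continuous (fa d a c σ) := Sp_cont (fa_mem d a c σ)

lemma fa_split (d : ℕ) (a : ℕ → ℂ) (c σ K : ℕ) (x : TT d) :
    fa d a c (K * σ) x = ∑ b ∈ range K, fa d a (c + b * σ) σ x := by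
  induction K with
  | zero => simp [fa]
  | succ K ih =>
    rw [sum_range_succ, ← ih]
    unfold fa
    rw [sum_Ico_consecutive _ (by omega) (by omega), add_mul, one_mul, add_assoc]

lemma fa_le (d : ℕ) (a : ℕ → ℂ) (c σ : ℕ) (x : TT d) (ha : ∀ m, ‖a m‖ ≤ 1) :
    ‖fa d a c σ x‖ ≤ σ := by
  unfold fa
  refine (norm_sum_le _ _).trans ((sum_le_sum (g := fun _ => (1 : ℝ)) fun m _ => ?_).trans ?_)
  · rw [norm_mul]
    have : ‖ch (mom d (m : ℤ)) x‖ = 1 := by simp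
    rw [this, mul_one]
    exact ha m
  · simp

lemma xx_nonneg (d r : ℕ) (H p : ℝ) (a : ℕ → ℂ) (c K σ : ℕ) (hH : 0 < H) :
    0 ≤ XX d r H p a c K σ :=
  sum_nonneg fun _ _ => integral_nonneg fun x =>
    mul_nonneg (by positivity) (pos d r H x hH).le

lemma xx_sum (d r : ℕ) (H p : ℝ) (a : ℕ → ℂ) (c K K' σ : ℕ) :
    XX d r H p a c (K * K') σ = ∑ b ∈ range K, XX d r H p a (c + b * (K' * σ)) K' σ := by
  induction K with
  | zero => simp [XX]
  | succ K ih =>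
    rw [sum_range_succ, ← ih]
    unfold XX
    rw [add_mul, one_mul, sum_range_add]
    congr 1
    refine sum_congr rfl fun b _ => ?_
    rw [show c + (K * K' + b) * σ = c + K * (K' * σ) + b * σ by ring]

lemma pt {K : ℕ} (hK : 1 ≤ K) {p : ℝ} (hp : 1 ≤ p) (f : ℕ → ℂ) :
    (1 + ‖∑ b ∈ range K, f b‖ ^ 2) ^ (p / 2) ≤
      (K : ℝ) ^ (p - 1) * ∑ b ∈ range K, (1 + ‖f b‖ ^ 2) ^ (p / 2) := by
  have hu : ∀ b, ‖(1 + (‖f b‖ : ℂ) * Complex.I : ℂ)‖ = √(1 + ‖f b‖ ^ 2) := fun b => by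
    have := Complex.norm_add_mul_I 1 ‖f b‖
    simpa using this
  have hs : ∑ b ∈ range K, (1 + (‖f b‖ : ℂ) * Complex.I : ℂ) =
      ((K : ℝ) : ℂ) + ((∑ b ∈ range K, ‖f b‖ : ℝ) : ℂ) * Complex.I := by
    rw [sum_add_distrib, ← sum_mul]
    simp
  have h1 : √(1 + ‖∑ b ∈ range K, f b‖ ^ 2) ≤ ∑ b ∈ range K, √(1 + ‖f b‖ ^ 2) := by
    have h2 := norm_sum_le (range K) fun b => (1 + (‖f b‖ : ℂ) * Complex.I : ℂ)
    simp only [hu] at h2
    rw [hs, Complex.norm_add_mul_I] at h2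
    refine le_trans (Real.sqrt_le_sqrt ?_) h2
    have h3 : (1 : ℝ) ≤ K := by exact_mod_cast hK
    have h4 := norm_sum_le (range K) f
    have h5 : ‖∑ b ∈ range K, f b‖ ^ 2 ≤ (∑ b ∈ range K, ‖f b‖) ^ 2 := by gcongr
    nlinarith
  have he : ∀ t : ℝ, 0 ≤ t → t ^ (p / 2) = √t ^ p := fun t ht => by
    rw [Real.sqrt_eq_rpow, ← Real.rpow_mul ht]
    congr 1
    ring
  rw [he _ (by positivity), sum_congr rfl fun b _ => he (1 + ‖f b‖ ^ 2) (by positivity)]
  refine (Real.rpow_le_rpow (Real.sqrt_nonneg _) h1 (by linarith)).trans ?_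
  have := Real.rpow_sum_le_const_mul_sum_rpow_of_nonneg (range K)
    (f := fun b => √(1 + ‖f b‖ ^ 2)) hp fun b _ => Real.sqrt_nonneg _
  simpa using this

lemma cont_pow (d r : ℕ) {H p : ℝ} (hH : 0 < H) (a : ℕ → ℂ) (c σ : ℕ) :
    Continuous fun x : TT d => (1 + ‖fa d a c σ x‖ ^ 2) ^ (p / 2) * Wr r H x := by
  refine Continuous.mul (Continuous.rpow_const ?_ fun x => Or.inl ?_) (cont d r H hH)
  · exact continuous_const.add ((fa_cont d a c σ).norm.pow 2)
  · positivity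

lemma one_arc (d r : ℕ) {H p : ℝ} (hH : 0 < H) (hp : 1 ≤ p) (a : ℕ → ℂ) (c σ : ℕ) {K : ℕ}
    (hK : 1 ≤ K) : II r H (fun x => (1 + ‖fa d a c (K * σ) x‖ ^ 2) ^ (p / 2)) ≤
      (K : ℝ) ^ (p - 1) * XX d r H p a c K σ := by
  unfold XX II
  rw [← integral_finset_sum _ fun b _ => cint (cont_pow d r hH a _ σ), ← integral_const_mul]
  refine integral_mono (cint (cont_pow d r hH a _ _)) (cint (continuous_const.mul
    (continuous_finsetSum _ fun b _ => cont_pow d r hH a _ σ))) fun x => ?_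
  dsimp only
  rw [← sum_mul, ← mul_assoc, fa_split]
  exact mul_le_mul_of_nonneg_right (pt hK hp _) (pos d r H x hH).le

lemma triv (d r : ℕ) (H p : ℝ) (a : ℕ → ℂ) (n i k : ℕ) (hH : 0 < H) (hp : 1 ≤ p)
    (hn : i + k ≤ n) : XL d r H p a n i ≤ 2 ^ ((p - 1) * k) * XL d r H p a n (i + k) := by
  unfold XL
  have h1 : 2 ^ (n - i) = 2 ^ k * 2 ^ (n - (i + k)) := by
    rw [← pow_add]
    congr 1
    omega
  have h2 : (2 : ℝ) ^ ((p - 1) * k) = ((2 ^ k : ℕ) : ℝ) ^ (p - 1) := by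
    rw [mul_comm, Real.rpow_mul (by norm_num), Real.rpow_natCast]
    norm_num
  rw [pow_add 2 i k, xx_sum, h1, h2, mul_sum]
  conv_lhs => unfold XX
  exact sum_le_sum fun b _ => one_arc d r hH hp a _ _ Nat.one_le_two_pow

lemma last (d r : ℕ) (H p : ℝ) (a : ℕ → ℂ) (n : ℕ) (hH : 0 < H) (hp : 0 ≤ p)
    (ha : ∀ m, ‖a m‖ ≤ 1) : XL d r H p a n n ≤ 2 ^ (p / 2) * 2 ^ d * 2 ^ n := by
  unfold XL XX
  refine (sum_le_sum (g := fun _ => (2 : ℝ) ^ (p / 2) * 2 ^ d) fun b _ => ?_).trans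
    (by simp [mul_comm])
  unfold II
  refine le_trans ?_ (mul_le_mul_of_nonneg_left (mass d r H hH) (by positivity))
  rw [← integral_const_mul]
  refine integral_mono (cint (cont_pow d r hH a _ _))
    (cint (continuous_const.mul (cont d r H hH))) fun x => ?_
  refine mul_le_mul_of_nonneg_right ?_ (pos d r H x hH).le
  refine Real.rpow_le_rpow (by positivity) ?_ (by linarith)
  have h1 := fa_le d a (2 ^ n + b * 2 ^ (n - n)) (2 ^ (n - n)) x ha
  have h2 : ((2 ^ (n - n) : ℕ) : ℝ) = 1 := by simp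
  rw [h2] at h1
  have h3 := norm_nonneg (fa d a (2 ^ n + b * 2 ^ (n - n)) (2 ^ (n - n)) x)
  nlinarith

end WR

theorem blk_WR : St_WR :=
  ⟨WR.cont, WR.pos, WR.dbl, WR.mass, WR.fa_cont, WR.fa_mem, WR.fa_split, WR.fa_le, WR.xx_nonneg,
    WR.xx_sum, WR.triv, WR.last⟩

end Pool.Agent.Lib.SC
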