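import Pool.Agent.Lib.SC.B_CV1
import Pool.Agent.Lib.SC.B_CV2
import Pool.Agent.Lib.SC.B_WR
import Pool.Agent.Lib.SC.B_SL0
import Pool.Agent.Lib.SC.B_GE0
import Pool.Agent.Lib.SC.B_SLM
import Pool.Agent.Lib.SC.B_SLO
import Pool.Agent.Lib.SC.B_SLD
import Pool.Agent.Lib.SC.B_SLR
import Pool.Agent.Lib.SC.B_SLW
import Pool.Agent.Lib.SC.B_SLB
import Pool.Agent.Lib.SC.B_FR
import Pool.Agent.Lib.SC.B_GAU
import Pool.Agent.Lib.SC.B_GE1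
import Pool.Agent.Lib.SC.B_GE2
import Pool.Agent.Lib.SC.B_TRANS
import Pool.Agent.Lib.SC.B_MULT
import Pool.Agent.Lib.SC.B_TOPG
import Pool.Agent.Lib.SC.B_PHI
import Pool.Agent.Lib.SC.B_CG
import Pool.Agent.Lib.SC.B_BN
import Pool.Agent.Lib.SC.B_TOP0
import Pool.Agent.Lib.SC.B_TOP
import Pool.Agent.Lib.SC.B_LOW
import Pool.Agent.Lib.SC.B_TREE
import Pool.Agent.Lib.SC.B_PT
import Pool.Agent.Lib.SC.B_CH
import Pool.Agent.Lib.SC.B_REF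
import Pool.Agent.Lib.SC.B_CONE
import Pool.Agent.Lib.SC.B_BROAD
import Pool.Agent.Lib.SC.B_STEP
import Pool.Agent.Lib.SC.B_ITER
import Pool.Agent.Lib.SC.B_CORE
import Pool.Agent.Lib.SC.B_MAIN
import Pool.Agent.Lib.SC.Asm

/-! All blocks, unconditionally. -/

namespace Pool.Agent.Lib.SC

theorem stMAIN : St_MAIN :=
  asm blk_CV1 blk_CV2 blk_WR blk_SL0 blk_GE0 blk_SLM blk_SLO blk_SLD blk_SLR blk_SLW blk_SLB blk_FR
    blk_GAU blk_GE1 blk_GE2 blk_TRANS blk_MULT blk_TOPG blk_PHI blk_CG blk_BN blk_TOP0 blk_TOP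
    blk_LOW blk_TREE blk_PT blk_CH blk_REF blk_CONE blk_BROAD blk_STEP blk_ITER blk_CORE blk_MAIN

end Pool.Agent.Lib.SC
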