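import Pool.Agent.Lib.SC.Blue

/-! The pointwise chain and its integration. -/

namespace Pool.Agent.Lib.SC

open MeasureTheory Finset Pool.Agent.Lib.WC

namespace BROAD

theorem point (hP : St_PT) {ι : Type} (I : Finset ι) (J D : ℕ) (p A Cη F K₀ lam₀ G : ℝ)
    (Ψ : ℕ → ℝ) (hh sg : ℕ → ι → ℝ) (lam : ι → ℝ) (K e : ℕ → ℝ) (q : ℕ → ℕ)
    (hD : (D : ℝ) ≤ p / 2) (hp : 0 ≤ p) (hA : 1 ≤ A) (hC : 0 ≤ Cη) (hF : 1 ≤ F) (hl0 : 0 < lam₀)
    (hG : (2 * A) ^ J * F * (2 * Cη * I.card + 1) ≤ G) (hΨ : ∀ j, 0 ≤ Ψ j)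
    (h0 : Ψ 0 ≤ K₀ * lam₀) (hh0 : ∀ j i, 0 ≤ hh j i) (hK : ∀ j, 0 ≤ K j)
    (hlam : ∀ i ∈ I, 0 < lam i ∧ lam i ≤ lam₀)
    (hch : ∀ j, j < J → Ψ j ≤ A * Ψ (j + 1) + Cη * ∑ i ∈ I, hh j i)
    (hsg : ∀ j, j < J → ∀ i ∈ I, 0 < sg j i ∧ sg j i ≤ F * Ψ j ∧ hh j i ≤ K j * lam i)
    (he : ∀ j, j < J → 1 ≤ q j ∧ p / 2 ≤ e j ∧ (q j : ℝ) + 1 ≤ e j ∧ e j ≤ p - D) :
    Tht p D lam₀ (Ψ 0) ≤ K₀ ^ (p / 2 - D) * ((2 * A) ^ J * Ψ J) ^ (p / 2) +
      ∑ j ∈ range J, ∑ i ∈ I, K₀ ^ (p - D - e j) * G ^ (e j + q j) * K j ^ (e j - (q j + 1)) *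
        lam i ^ (p / 2 - (q j + 1)) * (hh j i ^ (2 * q j) / sg j i ^ (q j - 1)) := by
  have hK₀ : 0 ≤ K₀ := by
    by_contra hneg
    have : K₀ * lam₀ < 0 := mul_neg_of_neg_of_pos (lt_of_not_ge hneg) hl0
    linarith [hΨ 0]
  have h2A : (1 : ℝ) ≤ 2 * A := by linarith
  have hAJ : (1 : ℝ) ≤ (2 * A) ^ J := one_le_pow₀ h2A
  have hcI : (0 : ℝ) ≤ 2 * Cη * I.card := by positivity
  have hG1 : 1 ≤ G := by
    refine le_trans ?_ hG
    have h1 : (1 : ℝ) ≤ (2 * A) ^ J * F := one_le_mul_of_one_le_of_one_le hAJ hF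
    exact one_le_mul_of_one_le_of_one_le h1 (by linarith)
  have hterm : ∀ j ∈ range J, ∀ i ∈ I, 0 ≤ K₀ ^ (p - D - e j) * G ^ (e j + q j) *
      K j ^ (e j - (q j + 1)) * lam i ^ (p / 2 - (q j + 1)) *
      (hh j i ^ (2 * q j) / sg j i ^ (q j - 1)) := by
    intro j hj i hi
    have h1 := (hsg j (mem_range.1 hj) i hi).1
    have h2 := (hlam i hi).1
    have h3 := hh0 j i
    have h4 := hK j
    have h5 : 0 ≤ G := by linarith
    positivity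
  have hsum : 0 ≤ ∑ j ∈ range J, ∑ i ∈ I, K₀ ^ (p - D - e j) * G ^ (e j + q j) *
      K j ^ (e j - (q j + 1)) * lam i ^ (p / 2 - (q j + 1)) *
      (hh j i ^ (2 * q j) / sg j i ^ (q j - 1)) :=
    sum_nonneg fun j hj => sum_nonneg fun i hi => hterm j hj i hi
  have hT : Ψ 0 ≤ (2 * A) ^ J * Ψ J → Tht p D lam₀ (Ψ 0) ≤
      K₀ ^ (p / 2 - D) * ((2 * A) ^ J * Ψ J) ^ (p / 2) := by
    intro h
    refine (hP.term D p K₀ lam₀ (Ψ 0) hD hl0 (hΨ 0) h0).trans ?_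
    exact mul_le_mul_of_nonneg_left (Real.rpow_le_rpow (hΨ 0) h (by linarith))
      (Real.rpow_nonneg hK₀ _)
  rcases hP.chain Ψ (fun j => Cη * ∑ i ∈ I, hh j i) A J (by linarith) hΨ hch with h | ⟨j, hj, h1, h2⟩
  · linarith [hT h]
  rcases I.eq_empty_or_nonempty with hI | hI
  · have h3 : Ψ j ≤ 0 := by simpa [hI] using h2
    have h4 : Ψ 0 ≤ (2 * A) ^ J * Ψ J := by
      have h5 : (2 * A) ^ j * Ψ j ≤ 0 := mul_nonpos_of_nonneg_of_nonpos (by positivity) h3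
      have h6 : 0 ≤ (2 * A) ^ J * Ψ J := mul_nonneg (by positivity) (hΨ J)
      linarith
    linarith [hT h4]
  obtain ⟨i, hi, hmax⟩ := exists_max_image I (hh j) hI
  have hs : ∑ i' ∈ I, hh j i' ≤ I.card * hh j i := by
    have := sum_le_card_nsmul I (hh j) (hh j i) hmax
    simpa using this
  have hΨj : Ψ j ≤ (2 * Cη * I.card + 1) * hh j i := by
    have h3 : Cη * ∑ i' ∈ I, hh j i' ≤ Cη * (I.card * hh j i) := mul_le_mul_of_nonneg_left hs hC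
    have h4 := hh0 j i
    nlinarith
  have hjJ : (2 * A) ^ j ≤ (2 * A) ^ J := pow_le_pow_right₀ h2A hj.le
  have hb : 0 ≤ (2 * Cη * I.card + 1) * hh j i := mul_nonneg (by linarith) (hh0 j i)
  have hGh : (2 * A) ^ J * F * ((2 * Cη * I.card + 1) * hh j i) ≤ G * hh j i := by
    rw [← mul_assoc]
    exact mul_le_mul_of_nonneg_right hG (hh0 j i)
  have ha : Ψ 0 ≤ G * hh j i := by
    refine le_trans ?_ hGh
    calc Ψ 0 ≤ (2 * A) ^ j * Ψ j := h1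
      _ ≤ (2 * A) ^ J * ((2 * Cη * I.card + 1) * hh j i) :=
        mul_le_mul hjJ hΨj (hΨ j) (by positivity)
      _ ≤ (2 * A) ^ J * F * ((2 * Cη * I.card + 1) * hh j i) := by
        refine mul_le_mul_of_nonneg_right ?_ hb
        exact le_mul_of_one_le_right (by positivity) hF
  obtain ⟨s1, s2, s3⟩ := hsg j hj i hi
  have hc : sg j i ≤ G * hh j i := by
    refine le_trans ?_ hGh
    calc sg j i ≤ F * Ψ j := s2
      _ ≤ F * ((2 * Cη * I.card + 1) * hh j i) := mul_le_mul_of_nonneg_left hΨj (by linarith)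
      _ ≤ (2 * A) ^ J * F * ((2 * Cη * I.card + 1) * hh j i) := by
        refine mul_le_mul_of_nonneg_right ?_ hb
        exact le_mul_of_one_le_left (by linarith) hAJ
  obtain ⟨e1, e2, e3, e4⟩ := he j hj
  have key := hP.high D (q j) p (e j) K₀ (K j) lam₀ (lam i) (Ψ 0) (hh j i) (sg j i) G e1 e2 e3 e4
    (hlam i hi).1 (hlam i hi).2 (hΨ 0) h0 ha s1 hc s3 hG1
  have hjr : j ∈ range J := mem_range.2 hj
  have h7 := single_le_sum (hterm j hjr) hi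
  have h8 := single_le_sum (f := fun j => ∑ i ∈ I, K₀ ^ (p - D - e j) * G ^ (e j + q j) *
      K j ^ (e j - (q j + 1)) * lam i ^ (p / 2 - (q j + 1)) *
      (hh j i ^ (2 * q j) / sg j i ^ (q j - 1)))
    (fun j hj => sum_nonneg fun i hi => hterm j hj i hi) hjr
  have h9 : 0 ≤ K₀ ^ (p / 2 - D) * ((2 * A) ^ J * Ψ J) ^ (p / 2) :=
    mul_nonneg (Real.rpow_nonneg hK₀ _) (Real.rpow_nonneg (mul_nonneg (by positivity) (hΨ J)) _)
  linarith

variable {d : ℕ}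

theorem II_int (hB : Bas) (r : ℕ) {H : ℝ} (hH : 0 < H) {F : TT d → ℝ} (hF : Continuous F) :
    Integrable fun x => F x * Wr r H x :=
  (hF.mul (hB.wr.cont d r H hH)).integrable_of_hasCompactSupport (HasCompactSupport.of_compactSpace _)

theorem II_mono (hB : Bas) (r : ℕ) {H : ℝ} (hH : 0 < H) {F G : TT d → ℝ} (hF : Continuous F)
    (hG : Continuous G) (h : ∀ x, F x ≤ G x) : II r H F ≤ II r H G :=
  integral_mono (II_int hB r hH hF) (II_int hB r hH hG) fun x =>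
    mul_le_mul_of_nonneg_right (h x) (hB.wr.pos d r H x hH).le

theorem II_nonneg (hB : Bas) (r : ℕ) {H : ℝ} (hH : 0 < H) {F : TT d → ℝ} (h : ∀ x, 0 ≤ F x) :
    0 ≤ II r H F :=
  integral_nonneg fun x => mul_nonneg (h x) (hB.wr.pos d r H x hH).le

theorem II_smul (r : ℕ) (H t : ℝ) (F : TT d → ℝ) : II r H (fun x => t * F x) = t * II r H F := by
  simp only [II, mul_assoc, integral_const_mul]

theorem II_add (hB : Bas) (r : ℕ) {H : ℝ} (hH : 0 < H) {F G : TT d → ℝ} (hF : Continuous F)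
    (hG : Continuous G) : II r H (fun x => F x + G x) = II r H F + II r H G := by
  simp only [II, add_mul]
  exact integral_add (II_int hB r hH hF) (II_int hB r hH hG)

theorem II_sum (hB : Bas) (r : ℕ) {H : ℝ} (hH : 0 < H) {ι : Type} (s : Finset ι)
    {F : ι → TT d → ℝ} (hF : ∀ i ∈ s, Continuous (F i)) :
    II r H (fun x => ∑ i ∈ s, F i x) = ∑ i ∈ s, II r H (F i) := by
  simp only [II, sum_mul]
  exact integral_finsetSum s fun i hi => II_int hB r hH (hF i hi)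

theorem Ps_cont (g : ℕ → TT d → ℝ) (hg : ∀ b, Continuous (g b)) (K : ℕ) (lam : ℝ) :
    Continuous (Ps g K lam) :=
  continuous_finsetSum _ fun b _ => (hg b).min continuous_const

theorem Ps_nonneg (g : ℕ → TT d → ℝ) (K : ℕ) {lam : ℝ} (hl : 0 ≤ lam) (x : TT d)
    (hg : ∀ b, 0 ≤ g b x) : 0 ≤ Ps g K lam x :=
  sum_nonneg fun b _ => le_min (hg b) hl

theorem Ps_le (g : ℕ → TT d → ℝ) (K : ℕ) (lam : ℝ) (x : TT d) : Ps g K lam x ≤ K * lam := by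
  have := sum_le_card_nsmul (range K) (fun b => min (g b x) lam) lam fun b _ => min_le_right _ _
  simpa [Ps] using this

theorem Ps_rpow (g : ℕ → TT d → ℝ) (K : ℕ) {lam s : ℝ} (hl : 0 ≤ lam) (hs : 1 ≤ s) (x : TT d)
    (hg : ∀ b, 0 ≤ g b x) : Ps g K lam x ^ s ≤ (K : ℝ) ^ (s - 1) * ∑ b ∈ range K, g b x ^ s := by
  have h1 : Ps g K lam x ≤ ∑ b ∈ range K, g b x := sum_le_sum fun b _ => min_le_left _ _
  refine (Real.rpow_le_rpow (Ps_nonneg g K hl x hg) h1 (by linarith)).trans ?_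
  have := Real.rpow_sum_le_const_mul_sum_rpow_of_nonneg (range K) hs fun b _ => hg b
  simpa using this

end BROAD

end Pool.Agent.Lib.SC
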