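import Pool.Agent.Lib.SC.B_BROADa

/-! The high frequency terms of the chain. -/

namespace Pool.Agent.Lib.SC

open MeasureTheory Finset Pool.Agent.Lib.WC

namespace BROAD

variable {d : ℕ}

theorem Ph_dbl (hP : St_PT) {g : TT d → ℝ} {G : Seminorm ℝ (V d)} {L : ℕ} (B : ℕ) {lam : ℝ}
    (hl : 0 < lam) (hg : ∀ x, 0 ≤ g x) (h : Dbl g G L 1) :
    Dbl (fun x => Ph B lam (g x)) G (L * B) 1 := by
  intro x P
  have h1 : (1 : ℝ) ≤ (1 + G P) ^ L := one_le_pow₀ (by linarith [apply_nonneg G P])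
  have h2 := hP.dbl B lam (g x) (g (x + pj P)) ((1 + G P) ^ L) hl (hg _) (hg _) h1
    (by simpa using h x P)
  simpa [pow_mul] using h2

theorem hi_cont (hB : Bas) (hR : St_SLR) (φ : V d) (μ : ℕ) (s : ℤ) (Kk : ℕ → Measure (V d))
    (v : ℕ → TT d → ℝ) (I : Finset ℕ) (hK : ∀ b, IsProbabilityMeasure (Kk b))
    (hv : ∀ b, Continuous (v b)) : Continuous (hi φ μ s Kk v I) := by
  refine hR.cont d μ φ s _ (continuous_finsetSum _ fun b _ => ?_)
  have := hK b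
  exact Complex.continuous_ofReal.comp (hB.cv1.cont d (Kk b) (v b) (hv b))

theorem hi_le (hB : Bas) (hR : St_SLR) (φ : V d) (μ : ℕ) (s : ℤ) (Kk : ℕ → Measure (V d))
    (v : ℕ → TT d → ℝ) (K : ℕ) (lam : ℝ) (hμ : 1 ≤ μ) (hφ : IsQ φ)
    (hK : ∀ b, IsProbabilityMeasure (Kk b)) (hv : ∀ b, Continuous (v b))
    (h0 : ∀ b x, 0 ≤ v b x) (h1 : ∀ b x, v b x ≤ lam) (x : TT d) :
    ‖hi φ μ s Kk v (range K) x‖ ≤ K * lam := by
  have hc : Continuous fun x => ∑ b ∈ range K, ((cv (Kk b) (v b) x : ℝ) : ℂ) := by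
    refine continuous_finsetSum _ fun b _ => ?_
    have := hK b
    exact Complex.continuous_ofReal.comp (hB.cv1.cont d (Kk b) (v b) (hv b))
  have : IsProbabilityMeasure (bt φ μ) := hB.sl0.probK d 1 (2 * μ) _ (by omega)
  refine (hR.le d μ φ s _ x hμ hφ hc).trans ?_
  refine (hB.cv1.mono d (bt φ μ) _ (fun _ => (K : ℝ) * lam) x hc.norm continuous_const
    fun y => ?_).trans (hB.cv1.const d _ _ x).le
  refine (norm_sum_le _ _).trans ?_
  have : ∀ b ∈ range K, ‖((cv (Kk b) (v b) y : ℝ) : ℂ)‖ ≤ lam := by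
    intro b _
    have := hK b
    rw [Complex.norm_real, Real.norm_eq_abs, abs_of_nonneg (hB.cv1.nonneg d _ _ y (h0 b))]
    exact (hB.cv1.mono d (Kk b) _ (fun _ => lam) y (hv b) continuous_const (h1 b)).trans
      (hB.cv1.const d _ _ y).le
  simpa using sum_le_card_nsmul (range K) _ lam this

/-- The conclusion of the cone inequality for the class functions. -/
theorem high (hB : Bas) (hP : St_PT) (r B K q : ℕ) {H p lam lam₀ F E X C₁ : ℝ} (hH : 0 < H)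
    (hB1 : 1 ≤ B) (hp : 0 ≤ p) (hpB : p / 2 ≤ B) (hl : 0 < lam) (hll : lam ≤ lam₀) (hF : 0 ≤ F)
    (hE : 0 ≤ E) (g : ℕ → TT d → ℝ) (hg : ∀ b, Continuous (g b)) (h1 : ∀ b x, 1 ≤ g b x)
    (hX : ∑ b ∈ range K, II r H (fun x => g b x ^ (p / 2)) ≤ C₁ * X) (h sig : TT d → ℝ)
    (hs : ∀ x, sig x ≤ F * ∑ b ∈ range K, Ph B lam (g b x))
    (hI : II r H h ≤ E * ∑ b ∈ range K, II r H fun x => Ph B lam (g b x) ^ (q + 1)) :
    (∀ x, sig x ≤ F * Ps g K lam₀ x) ∧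
      lam ^ (p / 2 - (q + 1)) * II r H h ≤ E * (C₁ * X) := by
  refine ⟨fun x => (hs x).trans (mul_le_mul_of_nonneg_left (sum_le_sum fun b _ => ?_) hF), ?_⟩
  · exact (hP.le B lam (g b x) hB1 hl (by linarith [h1 b x])).trans (min_le_min_left _ hll)
  have h2 : ∀ b ∈ range K, II r H (fun x => Ph B lam (g b x) ^ (q + 1)) ≤
      lam ^ (((q + 1 : ℕ) : ℝ) - p / 2) * II r H (fun x => g b x ^ (p / 2)) := by
    intro b _
    rw [← II_smul]
    refine II_mono hB r hH (((hP.cont B lam).comp (hg b)).pow _)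
      (continuous_const.mul ((hg b).rpow_const fun x => Or.inr (by linarith))) fun x => ?_
    refine hP.pow B (q + 1) p lam (g b x) hl (by linarith [h1 b x]) hp (hpB.trans ?_)
    have : (1 : ℝ) ≤ ((q + 1 : ℕ) : ℝ) := by exact_mod_cast Nat.succ_le_succ (Nat.zero_le q)
    exact le_mul_of_one_le_right (Nat.cast_nonneg _) this
  have h3 := sum_le_sum h2
  rw [← mul_sum] at h3
  have h4 : 0 < lam ^ (((q + 1 : ℕ) : ℝ) - p / 2) := Real.rpow_pos_of_pos hl _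
  have h5 : 0 < lam ^ (p / 2 - (q + 1)) := Real.rpow_pos_of_pos hl _
  have h6 : lam ^ (p / 2 - (q + 1)) * lam ^ (((q + 1 : ℕ) : ℝ) - p / 2) = 1 := by
    rw [← Real.rpow_add hl]
    simp
  calc lam ^ (p / 2 - (q + 1)) * II r H h
      ≤ lam ^ (p / 2 - (q + 1)) * (E * (lam ^ (((q + 1 : ℕ) : ℝ) - p / 2) * (C₁ * X))) := by
        refine mul_le_mul_of_nonneg_left (hI.trans (mul_le_mul_of_nonneg_left ?_ hE)) h5.le
        exact h3.trans (mul_le_mul_of_nonneg_left hX h4.le)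
    _ = (lam ^ (p / 2 - (q + 1)) * lam ^ (((q + 1 : ℕ) : ℝ) - p / 2)) * (E * (C₁ * X)) := by ring
    _ = E * (C₁ * X) := by rw [h6, one_mul]

/-- Integration of the pointwise bound. -/
theorem integ (hB : Bas) (hP : St_PT) {ι : Type} (I : Finset ι) (r J D : ℕ)
    {H p A Cη F K₀ lam₀ G XJ : ℝ} (Ψ : ℕ → TT d → ℝ) (hh sg : ℕ → ι → TT d → ℝ) (lam : ι → ℝ)
    (K e Y : ℕ → ℝ) (q : ℕ → ℕ) (hH : 0 < H)
    (hD : (D : ℝ) ≤ p / 2) (hp : 0 ≤ p) (hA : 1 ≤ A) (hC : 0 ≤ Cη) (hF : 1 ≤ F) (hl0 : 0 < lam₀)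
    (hK₀ : 0 ≤ K₀) (hG : (2 * A) ^ J * F * (2 * Cη * I.card + 1) ≤ G) (hG0 : 0 ≤ G)
    (hΨ : ∀ j x, 0 ≤ Ψ j x) (hΨc : ∀ j, Continuous (Ψ j))
    (h0 : ∀ x, Ψ 0 x ≤ K₀ * lam₀) (hh0 : ∀ j i x, 0 ≤ hh j i x) (hhc : ∀ j i, Continuous (hh j i))
    (hK : ∀ j, 0 ≤ K j) (hlam : ∀ i ∈ I, 0 < lam i ∧ lam i ≤ lam₀)
    (hch : ∀ j x, j < J → Ψ j x ≤ A * Ψ (j + 1) x + Cη * ∑ i ∈ I, hh j i x)
    (hsg : ∀ j, j < J → ∀ i ∈ I, Continuous (sg j i) ∧ (∀ x, 0 < sg j i x ∧ sg j i x ≤ F * Ψ j x ∧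
      hh j i x ≤ K j * lam i) ∧ lam i ^ (p / 2 - (q j + 1)) *
        II r H (fun x => hh j i x ^ (2 * q j) / sg j i x ^ (q j - 1)) ≤ Y j)
    (he : ∀ j, j < J → 1 ≤ q j ∧ p / 2 ≤ e j ∧ (q j : ℝ) + 1 ≤ e j ∧ e j ≤ p - D)
    (hXJ : II r H (fun x => Ψ J x ^ (p / 2)) ≤ XJ) :
    II r H (fun x => Tht p D lam₀ (Ψ 0 x)) ≤ K₀ ^ (p / 2 - D) * (((2 * A) ^ J) ^ (p / 2) * XJ) +
      ∑ j ∈ range J, I.card * (K₀ ^ (p - D - e j) * G ^ (e j + q j) * K j ^ (e j - (q j + 1)) *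
        Y j) := by
  have hD0 : (0 : ℝ) ≤ D := Nat.cast_nonneg D
  have hc1 : Continuous fun x => K₀ ^ (p / 2 - D) * (((2 * A) ^ J) ^ (p / 2) * Ψ J x ^ (p / 2)) :=
    continuous_const.mul (continuous_const.mul ((hΨc J).rpow_const fun x => Or.inr (by linarith)))
  have hc2 : ∀ j ∈ range J, ∀ i ∈ I, Continuous fun x =>
      K₀ ^ (p - D - e j) * G ^ (e j + q j) * K j ^ (e j - (q j + 1)) *
        lam i ^ (p / 2 - (q j + 1)) * (hh j i x ^ (2 * q j) / sg j i x ^ (q j - 1)) := by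
    intro j hj i hi
    obtain ⟨s1, s2, _⟩ := hsg j (mem_range.1 hj) i hi
    exact continuous_const.mul (((hhc j i).pow _).div (s1.pow _) fun x => (pow_pos (s2 x).1 _).ne')
  have hc3 : ∀ j ∈ range J, Continuous fun x => ∑ i ∈ I,
      K₀ ^ (p - D - e j) * G ^ (e j + q j) * K j ^ (e j - (q j + 1)) *
        lam i ^ (p / 2 - (q j + 1)) * (hh j i x ^ (2 * q j) / sg j i x ^ (q j - 1)) :=
    fun j hj => continuous_finsetSum _ (hc2 j hj)
  have hc0 : Continuous fun x => Tht p D lam₀ (Ψ 0 x) :=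
    continuous_const.mul ((hΨc 0).rpow_const fun x => Or.inr (by linarith))
  have h1 := II_mono hB r hH hc0 (hc1.add (continuous_finsetSum _ hc3)) fun x => by
    have := point hP I J D p A Cη F K₀ lam₀ G (fun j => Ψ j x) (fun j i => hh j i x)
      (fun j i => sg j i x) lam K e q hD hp hA hC hF hl0 hG (fun j => hΨ j x) (h0 x)
      (fun j i => hh0 j i x) hK hlam (fun j hj => hch j x hj)
      (fun j hj i hi => (hsg j hj i hi).2.1 x) he
    rwa [Real.mul_rpow (by positivity) (hΨ J x)] at this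
  refine h1.trans ((II_add hB r hH hc1 (continuous_finsetSum _ hc3)).le.trans ?_)
  rw [II_sum hB r hH _ hc3, II_smul, II_smul]
  refine add_le_add ?_ (sum_le_sum fun j hj => ?_)
  · exact mul_le_mul_of_nonneg_left (mul_le_mul_of_nonneg_left hXJ (by positivity))
      (Real.rpow_nonneg hK₀ _)
  · rw [II_sum hB r hH _ (hc2 j hj)]
    have : ∀ i ∈ I, II r H (fun x => K₀ ^ (p - D - e j) * G ^ (e j + q j) *
        K j ^ (e j - (q j + 1)) * lam i ^ (p / 2 - (q j + 1)) *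
        (hh j i x ^ (2 * q j) / sg j i x ^ (q j - 1))) ≤
        K₀ ^ (p - D - e j) * G ^ (e j + q j) * K j ^ (e j - (q j + 1)) * Y j := by
      intro i hi
      rw [II_smul, mul_assoc]
      have := hK j
      exact mul_le_mul_of_nonneg_left (hsg j (mem_range.1 hj) i hi).2.2 (by positivity)
    simpa using sum_le_card_nsmul I _ _ this

end BROAD

end Pool.Agent.Lib.SC
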