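import Pool.Agent.Lib.SC.B_BROADb

/-! Bookkeeping of the constants. -/

namespace Pool.Agent.Lib.SC

open Finset

namespace BROAD

theorem card_le (t₀ n : ℕ) (s₁ : ℤ) :
    (((range (t₀ + 1)) ×ˢ ((Icc (-(n : ℤ)) (n : ℤ)).filter fun s => s₁ < |s|)).card : ℝ) ≤
      ((t₀ : ℝ) + 1) * (2 * n + 1) := by
  rw [card_product, card_range]
  have h1 : ((Icc (-(n : ℤ)) (n : ℤ)).filter fun s => s₁ < |s|).card ≤ 2 * n + 1 := by
    refine (card_filter_le _ _).trans ?_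
    rw [Int.card_Icc]
    omega
  have h2 : (((Icc (-(n : ℤ)) (n : ℤ)).filter fun s => s₁ < |s|).card : ℝ) ≤ 2 * n + 1 := by
    exact_mod_cast h1
  push_cast
  exact mul_le_mul_of_nonneg_left h2 (by positivity)

theorem consts (D n₁ Cc J j : ℕ) (Y M A F G nI C₁ p x : ℝ) (hY : 1 ≤ Y) (hM : 1 ≤ M) (hA0 : 1 ≤ A)
    (hA : 2 * A ≤ Y ^ D) (hF0 : 0 ≤ F) (hF : F ≤ (Y * M) ^ Cc) (hI0 : 0 ≤ nI) (hI : nI ≤ Y * M)
    (hC0 : 1 ≤ C₁) (hC : C₁ ≤ Y) (hG1 : 1 ≤ G) (hG : G ≤ (2 * A) ^ J * F * (Y * M) ^ 2)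
    (hj : j ≤ J) (hp0 : 0 ≤ p) (hp : p ≤ n₁) (hx : x ≤ n₁) (C : ℕ)
    (hCC : D * n₁ + 1 + ((Cc + 2) * n₁ + Cc + 1) ≤ C) :
    ((2 * A) ^ J) ^ p * C₁ ^ (J + 1) ≤ Y ^ (C * (J + 1)) * M ^ C ∧
      nI * G ^ x * F * C₁ ^ (j + 1) ≤ Y ^ (C * (J + 1)) * M ^ C := by
  have hYM : 1 ≤ Y * M := one_le_mul_of_one_le_of_one_le hY hM
  have h2A : (1 : ℝ) ≤ 2 * A := by linarith
  have hAJ : (2 * A) ^ J ≤ Y ^ (D * J) := by
    rw [pow_mul]
    exact pow_le_pow_left₀ (by linarith) hA J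
  have hAJ1 : (1 : ℝ) ≤ (2 * A) ^ J := one_le_pow₀ h2A
  have hCJ : C₁ ^ (J + 1) ≤ Y ^ (J + 1) := pow_le_pow_left₀ (by linarith) hC _
  have hCj : C₁ ^ (j + 1) ≤ Y ^ (J + 1) :=
    (pow_le_pow_right₀ hC0 (by omega)).trans hCJ
  have hMC : (1 : ℝ) ≤ M ^ C := one_le_pow₀ hM
  constructor
  · have h1 : ((2 * A) ^ J) ^ p ≤ Y ^ (D * J * n₁) := by
      refine (Real.rpow_le_rpow_of_exponent_le hAJ1 hp).trans ?_
      rw [Real.rpow_natCast, pow_mul]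
      exact pow_le_pow_left₀ (by linarith) hAJ _
    calc ((2 * A) ^ J) ^ p * C₁ ^ (J + 1) ≤ Y ^ (D * J * n₁) * Y ^ (J + 1) :=
          mul_le_mul h1 hCJ (by positivity) (by positivity)
      _ = Y ^ (D * J * n₁ + (J + 1)) := (pow_add _ _ _).symm
      _ ≤ Y ^ (C * (J + 1)) := by
          refine pow_le_pow_right₀ hY ?_
          have : (D * n₁ + 1) * (J + 1) ≤ C * (J + 1) := Nat.mul_le_mul_right _ (by omega)
          nlinarith [Nat.zero_le (D * n₁)]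
      _ ≤ _ := le_mul_of_one_le_right (by positivity) hMC
  · have h1 : G ≤ Y ^ (D * J) * (Y * M) ^ (Cc + 2) := by
      refine hG.trans ?_
      rw [pow_add, ← mul_assoc]
      exact mul_le_mul_of_nonneg_right (mul_le_mul hAJ hF hF0 (by positivity)) (by positivity)
    have h2 : G ^ x ≤ Y ^ (D * J * n₁) * (Y * M) ^ ((Cc + 2) * n₁) := by
      refine (Real.rpow_le_rpow_of_exponent_le hG1 hx).trans ?_
      rw [Real.rpow_natCast, pow_mul Y (D * J), pow_mul (Y * M), ← mul_pow]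
      exact pow_le_pow_left₀ (by linarith) h1 _
    have h3 : 0 ≤ G ^ x := Real.rpow_nonneg (by linarith) _
    set E := (Cc + 2) * n₁ + Cc + 1 with hE
    calc nI * G ^ x * F * C₁ ^ (j + 1)
        ≤ (Y * M) * (Y ^ (D * J * n₁) * (Y * M) ^ ((Cc + 2) * n₁)) * (Y * M) ^ Cc * Y ^ (J + 1) := by
          refine mul_le_mul (mul_le_mul (mul_le_mul hI h2 h3 (by positivity)) hF hF0
            (by positivity)) hCj (by positivity) (by positivity)
      _ = Y ^ (D * J * n₁ + (J + 1) + E) * M ^ E := by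
          rw [hE]; ring
      _ ≤ Y ^ (C * (J + 1)) * M ^ C := by
          refine mul_le_mul (pow_le_pow_right₀ hY ?_) (pow_le_pow_right₀ hM (by omega))
            (by positivity) (by positivity)
          have : (D * n₁ + 1 + E) * (J + 1) ≤ C * (J + 1) := Nat.mul_le_mul_right _ (by omega)
          nlinarith [Nat.zero_le (D * n₁), Nat.zero_le (E * J)]

theorem sd_mono {a b : ℕ} (h : a ≤ b) : WC.sd a ≤ WC.sd b :=
  Nat.div_le_div_right (Nat.mul_le_mul h (by omega))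

theorem sd_pos {a : ℕ} (h : 1 ≤ a) : 1 ≤ WC.sd a := sd_mono (a := 1) h

theorem cpow_mono {a b : ℕ} {x : ℝ} (ha : 1 ≤ a) (h : a ≤ b) (hx : 1 ≤ x) :
    ((a : ℝ) * x) ^ a ≤ ((b : ℝ) * x) ^ b := by
  have h1 : (1 : ℝ) ≤ a := by exact_mod_cast ha
  have h2 : (a : ℝ) ≤ b := by exact_mod_cast h
  have h3 : (a : ℝ) * x ≤ b * x := mul_le_mul_of_nonneg_right h2 (by linarith)
  have h4 : (1 : ℝ) ≤ b * x := one_le_mul_of_one_le_of_one_le (by linarith) hx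
  exact (pow_le_pow_left₀ (by positivity) h3 a).trans (pow_le_pow_right₀ h4 h)

end BROAD

end Pool.Agent.Lib.SC
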