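import Pool.Agent.Lib.SC.B_BROADc

/-! One level of the chain. -/

namespace Pool.Agent.Lib.SC

open MeasureTheory Finset Pool.Agent.Lib.WC

namespace BROAD

variable {d : ℕ}

/-- The conclusion of the cone block with the constant `C`. -/
def ConeAt (d r D k μ L m : ℕ) (C₀ ε : ℝ) (C : ℕ) : Prop :=
    ∀ (N c σ M T w z : ℕ) (s : ℤ) (H : ℝ) (Φ : ℕ → V d) (v : ℕ → TT d → ℝ)
      (Kk : ℕ → Measure (V d)), 1 ≤ σ → 1 ≤ M → M ≤ T → 1 ≤ w → 0 < H →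
      Jet (D - 1) r C₀ N c Φ → N ≤ c → c + w ^ z * T * (M * σ) ≤ 2 * N →
      M * w ^ D * (w ^ z * T * (M * σ)) ≤ N → ((w ^ D : ℕ) : ℤ) ≤ |s| →
      Th d r k (H * w ^ (3 * D)) N σ ((T * (M * σ) : ℕ) : ℝ) →
      Th d r (D - 1) H N σ ((w ^ z * T * (M * σ) : ℕ) : ℝ) →
      (∀ b, Continuous (v b)) → (∀ b x, 0 < v b x) →
      (∀ b, Dbl (v b) (gn r H ((c + b * (M * σ) : ℕ) : ℝ) ((M * σ : ℕ) : ℝ) ((M * σ : ℕ) : ℝ)) L 1) →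
      (∀ b, IsK (gn r H ((c + b * (M * σ) : ℕ) : ℝ) ((M * σ : ℕ) : ℝ) ((M * σ : ℕ) : ℝ)) m C₀ (Kk b)) →
      ∃ sig : TT d → ℝ, Continuous sig ∧ (∀ x, 0 < sig x) ∧
        (∀ x, sig x ≤ ((C : ℝ) * M * w) ^ C * ∑ b ∈ range (w ^ z * T), v b x) ∧
        II r H (fun x => ‖hi ((σ : ℝ)⁻¹ • Φ 1) μ s Kk v (range (w ^ z * T)) x‖ ^ (2 * sd (k - 1)) /
            sig x ^ (sd (k - 1) - 1)) ≤
          ((C : ℝ) * M * w) ^ C * (C * (w : ℝ) ^ ε) ^ z * (T : ℝ) ^ sd (k - 1) *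
            ∑ b ∈ range (w ^ z * T), II r H fun x => v b x ^ (sd (k - 1) + 1)

theorem level (hB : Bas) (hP : St_PT) {r D k μ L B m C C' : ℕ} {C₀ C₁ ε p H : ℝ}
    (hc : ConeAt d r D k μ (L * B) m (C₀ + C₁) ε C) (hC1 : 1 ≤ C) (hCC : C ≤ C') (hC₀ : 1 ≤ C₀)
    (hC₁ : 1 ≤ C₁) (hε : 0 < ε) (hB1 : 1 ≤ B) (hp : 0 ≤ p) (hpB : p / 2 ≤ B)
    {N c σ K₀ M J w Z j z T : ℕ} {a : ℕ → ℂ} {Φ : ℕ → V d} {g : ℕ → ℕ → TT d → ℝ}
    {Kk : ℕ → ℕ → Measure (V d)} (hσ : 1 ≤ σ) (hM : 1 ≤ M) (hw : 1 ≤ w) (hH : 0 < H)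
    (hJet : Jet (D - 1) r C₀ N c Φ) (hN : N ≤ c) (hcS : c + K₀ * M ^ J * σ ≤ 2 * N)
    (hMS : M * w ^ D * (K₀ * M ^ J * σ) ≤ N)
    (hTh : Th d r (D - 1) H N σ ((K₀ * M ^ J * σ : ℕ) : ℝ))
    (hT : Tr r H p a c σ K₀ M J (Φ 1) L m μ C₁ g Kk) (hj : j < J) (hz : z ≤ Z)
    (hK : K₀ * M ^ j = w ^ z * T) (hMT : M ≤ T)
    (hTk : Th d r k (H * w ^ (3 * D)) N ((σ * M ^ (J - (j + 1)) : ℕ) : ℝ)
      ((T * (σ * M ^ (J - j)) : ℕ) : ℝ)) {lam lam₀ : ℝ} (hl : 0 < lam) (hll : lam ≤ lam₀) {s : ℤ}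
    (hs : ((w ^ D : ℕ) : ℤ) ≤ |s|) :
    ∃ sig : TT d → ℝ, Continuous sig ∧ (∀ x, 0 < sig x) ∧
      (∀ x, sig x ≤ ((C' : ℝ) * (M * w)) ^ C' * Ps (g j) (K₀ * M ^ j) lam₀ x) ∧
      lam ^ (p / 2 - (sd (k - 1) + 1)) * II r H (fun x =>
        ‖hi (((σ * M ^ (J - (j + 1)) : ℕ) : ℝ)⁻¹ • Φ 1) μ s (Kk j) (fun b y => Ph B lam (g j b y))
          (range (K₀ * M ^ j)) x‖ ^ (2 * sd (k - 1)) / sig x ^ (sd (k - 1) - 1)) ≤
        ((C' : ℝ) * (M * w)) ^ C' * (C' * (w : ℝ) ^ ε) ^ Z * (T : ℝ) ^ sd (k - 1) *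
          (C₁ ^ (j + 1) * XX d r H p a c (K₀ * M ^ j) (σ * M ^ (J - j))) := by
  have e1 : σ * M ^ (J - j) = M * (σ * M ^ (J - (j + 1))) := by
    have : J - j = J - (j + 1) + 1 := by omega
    rw [this, pow_succ]; ring
  have e2 : w ^ z * T * (M * (σ * M ^ (J - (j + 1)))) = K₀ * M ^ J * σ := by
    rw [← hK, ← e1]
    have : M ^ J = M ^ j * M ^ (J - j) := by rw [← pow_add]; congr 1; omega
    rw [this]; ring
  have hσ' : σ ≤ σ * M ^ (J - (j + 1)) := Nat.le_mul_of_pos_right _ (by positivity)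
  have hg0 : ∀ b x, 0 ≤ g j b x := fun b x => by linarith [hT.one_le j b x]
  obtain ⟨sig, s1, s2, s3, s4⟩ := hc N c (σ * M ^ (J - (j + 1))) M T w z s H Φ
    (fun b y => Ph B lam (g j b y)) (Kk j) (hσ.trans hσ') hM hMT hw hH
    (hB.ge0.jet_mono d _ r C₀ _ N c Φ (Nat.cast_nonneg _) (by linarith) hJet) hN
    (by rw [e2]; exact hcS) (by rw [e2]; exact hMS) hs (by rw [← e1]; exact hTk)
    (by
      rw [e2]
      exact hB.ge0.th_mono d r _ H H N σ _ _ _ (Nat.cast_nonneg _) le_rfl (Nat.cast_nonneg _)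
        (by exact_mod_cast hσ') (Nat.cast_nonneg _) le_rfl hTh)
    (fun b => (hP.cont B lam).comp (hT.cont j b))
    (fun b x => hP.pos B lam _ hl (by linarith [hT.one_le j b x]))
    (fun b => by rw [← e1]; exact Ph_dbl hP B hl (hg0 b) (hT.dbl j b))
    (fun b => by rw [← e1]; exact hB.cv2.isK_mono d _ m C₁ _ _ (by linarith) (hT.ker j b))
  rw [← hK] at s3 s4
  have hMw : (1 : ℝ) ≤ (M : ℝ) * w := by exact_mod_cast Nat.mul_pos hM hw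
  have hF : ((C : ℝ) * M * w) ^ C ≤ ((C' : ℝ) * (M * w)) ^ C' := by
    rw [mul_assoc]; exact cpow_mono hC1 hCC hMw
  have hwε : (1 : ℝ) ≤ (w : ℝ) ^ ε := Real.one_le_rpow (by exact_mod_cast hw) hε.le
  have hCr : (C : ℝ) ≤ C' := by exact_mod_cast hCC
  have hC1r : (1 : ℝ) ≤ C := by exact_mod_cast hC1
  have hZ : ((C : ℝ) * (w : ℝ) ^ ε) ^ z ≤ (C' * (w : ℝ) ^ ε) ^ Z :=
    (pow_le_pow_left₀ (by positivity) (mul_le_mul_of_nonneg_right hCr (by linarith)) z).trans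
      (pow_le_pow_right₀ (one_le_mul_of_one_le_of_one_le (by linarith) hwε) hz)
  have hX : ∑ b ∈ range (K₀ * M ^ j), II r H (fun x => g j b x ^ (p / 2)) ≤
      C₁ ^ (j + 1) * XX d r H p a c (K₀ * M ^ j) (σ * M ^ (J - j)) := by
    rw [XX, mul_sum]
    exact sum_le_sum fun b hb => hT.int j b hj.le (mem_range.1 hb)
  obtain ⟨t1, t2⟩ := high hB hP r B (K₀ * M ^ j) (sd (k - 1)) hH hB1 hp hpB hl hll
    (F := ((C : ℝ) * M * w) ^ C) (by positivity) (by positivity) (g j) (hT.cont j) (hT.one_le j)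
    hX _ sig s3 s4
  refine ⟨sig, s1, s2, fun x => (t1 x).trans (mul_le_mul_of_nonneg_right hF
    (Ps_nonneg _ _ (by linarith) x fun b => hg0 b x)), t2.trans ?_⟩
  have hXX := hB.wr.xx_nonneg d r H p a c (K₀ * M ^ j) (σ * M ^ (J - j)) hH
  refine mul_le_mul_of_nonneg_right (mul_le_mul_of_nonneg_right ?_ (by positivity))
    (by positivity)
  exact mul_le_mul hF hZ (by positivity) (by positivity)

end BROAD

end Pool.Agent.Lib.SC
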