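import Pool.Agent.Lib.SC.Blue

namespace Pool.Agent.Lib.SC

open MeasureTheory Finset Pool.Agent.Lib.WC

namespace CV1

variable {d : ℕ}

theorem pj_add (P R : V d) : pj (P + R) = pj P + pj R := by
  funext j
  simp [pj]

theorem pj_neg (P : V d) : pj (-P) = -pj P := by
  funext j
  simp [pj]

theorem pj_zero : pj (0 : V d) = 0 := by
  funext j
  simp [pj]

theorem pj_cont : Continuous (pj : V d → TT d) :=
  continuous_pi fun j => (AddCircle.continuous_mk' (1 : ℝ)).comp (continuous_apply j)

theorem bdd {F : TT d → ℝ} (hF : Continuous F) : ∃ C : ℝ, ∀ y, ‖F y‖ ≤ C := by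
  obtain ⟨C, hC⟩ := isCompact_univ.exists_bound_of_continuousOn hF.continuousOn
  exact ⟨C, fun y => hC y trivial⟩

theorem intg' {X : Type} [TopologicalSpace X] [MeasurableSpace X] [OpensMeasurableSpace X]
    (ν : Measure X) [IsFiniteMeasure ν] {F : TT d → ℝ} (hF : Continuous F) {g : X → TT d}
    (hg : Continuous g) : Integrable (fun P => F (g P)) ν := by
  obtain ⟨C, hC⟩ := bdd hF
  exact Integrable.of_bound (hF.comp hg).measurable.aestronglyMeasurable C
    (Filter.Eventually.of_forall fun P => hC _)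

theorem intg (ν : Measure (V d)) [IsProbabilityMeasure ν] (F : TT d → ℝ) (x : TT d)
    (hF : Continuous F) : Integrable (fun P => F (x + pj P)) ν :=
  intg' ν hF (continuous_const.add pj_cont)

theorem cont (ν : Measure (V d)) [IsProbabilityMeasure ν] (F : TT d → ℝ) (hF : Continuous F) :
    Continuous (cv ν F) := by
  obtain ⟨C, hC⟩ := bdd hF
  exact continuous_of_dominated (bound := fun _ => C) (fun x => (intg ν F x hF).1)
    (fun x => Filter.Eventually.of_forall fun P => hC _) (integrable_const C)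
    (Filter.Eventually.of_forall fun P => hF.comp (continuous_id.add continuous_const))

theorem mono (ν : Measure (V d)) [IsProbabilityMeasure ν] (F G : TT d → ℝ) (x : TT d)
    (hF : Continuous F) (hG : Continuous G) (h : ∀ y, F y ≤ G y) : cv ν F x ≤ cv ν G x :=
  integral_mono (intg ν F x hF) (intg ν G x hG) fun _ => h _

theorem const (ν : Measure (V d)) [IsProbabilityMeasure ν] (t : ℝ) (x : TT d) :
    cv ν (fun _ => t) x = t := by
  simp [cv]

theorem conv (ν₁ ν₂ : Measure (V d)) [IsProbabilityMeasure ν₁] [IsProbabilityMeasure ν₂]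
    (F : TT d → ℝ) (hF : Continuous F) : cv (ν₁.conv ν₂) F = cv ν₁ (cv ν₂ F) := by
  funext x
  unfold cv
  rw [integral_conv (intg (ν₁.conv ν₂) F x hF)]
  simp only [pj_add, add_assoc]

theorem comm (ν₁ ν₂ : Measure (V d)) [IsProbabilityMeasure ν₁] [IsProbabilityMeasure ν₂]
    (F : TT d → ℝ) (hF : Continuous F) : cv ν₁ (cv ν₂ F) = cv ν₂ (cv ν₁ F) := by
  rw [← conv ν₁ ν₂ F hF, ← conv ν₂ ν₁ F hF, Measure.conv_comm]

theorem jpow (ν : Measure (V d)) [IsProbabilityMeasure ν] (F : TT d → ℝ) (q : ℝ) (x : TT d)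
    (hF : Continuous F) (h0 : ∀ y, 0 ≤ F y) (hq : 1 ≤ q) :
    cv ν F x ^ q ≤ cv ν (fun y => F y ^ q) x := by
  have hc : Continuous fun t : ℝ => t ^ q := Real.continuous_rpow_const (by linarith)
  exact (convexOn_rpow hq).map_integral_le hc.continuousOn isClosed_Ici
    (Filter.Eventually.of_forall fun P => h0 _) (intg ν F x hF)
    (intg ν (fun y => F y ^ q) x (hc.comp hF))

end CV1

theorem blk_CV1 : St_CV1 where
  pj_add := fun _ => CV1.pj_add
  pj_neg := fun _ => CV1.pj_neg
  pj_cont := fun _ => CV1.pj_cont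
  intg := fun _ ν _ F x hF => CV1.intg ν F x hF
  cont := fun _ ν _ F hF => CV1.cont ν F hF
  mono := fun _ ν _ F G x hF hG h => CV1.mono ν F G x hF hG h
  nonneg := fun _ _ _ _ h => integral_nonneg fun _ => h _
  const := fun _ ν _ t x => CV1.const ν t x
  add := fun _ ν _ F G x hF hG => integral_add (CV1.intg ν F x hF) (CV1.intg ν G x hG)
  smul := fun _ _ t _ _ => integral_const_mul t _
  sum := fun _ ν _ _ s F x h => integral_finsetSum s fun a ha => CV1.intg ν (F a) x (h a ha)
  conv := fun _ ν₁ ν₂ _ _ F hF => CV1.conv ν₁ ν₂ F hF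
  comm := fun _ ν₁ ν₂ _ _ F hF => CV1.comm ν₁ ν₂ F hF
  dirac := fun _ F => by
    funext x
    simp [cv, CV1.pj_zero]
  jpow := fun _ ν _ F q x hF h0 hq => CV1.jpow ν F q x hF h0 hq
  jmin := fun _ ν _ F t x hF => le_min
    (CV1.mono ν _ F x (hF.min continuous_const) hF fun _ => min_le_left _ _)
    ((CV1.mono ν _ (fun _ => t) x (hF.min continuous_const) continuous_const
      fun _ => min_le_right _ _).trans (CV1.const ν t x).le)

end Pool.Agent.Lib.SC
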