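import Mathlib

/-! Jets at one point of polynomials with prescribed exponents are free. -/

namespace Pool.Agent.Lib.SC.H69Jet

open Finset Polynomial

theorem det_choose_ne_zero {n : ℕ} (v : Fin n → ℕ) (hv : Function.Injective v) :
    (Matrix.of fun a i : Fin n => ((v a).choose i : ℚ)).det ≠ 0 := by
  have h := Matrix.det_eval_matrixOfPolynomials_eq_det_vandermonde (fun a => (v a : ℚ))
    (fun i => descPochhammer ℚ i) (fun i => descPochhammer_natDegree ℚ i)
    (fun i => monic_descPochhammer ℚ i)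
  have h1 : (Matrix.vandermonde fun a => (v a : ℚ)).det ≠ 0 :=
    Matrix.det_vandermonde_ne_zero_iff.2 fun a b hab => hv (by exact_mod_cast hab)
  have e : (Matrix.of fun a i : Fin n => (descPochhammer ℚ i).eval (v a : ℚ)) =
      Matrix.of fun a i : Fin n => ((i : ℕ).factorial : ℚ) *
        (Matrix.of fun a i : Fin n => ((v a).choose i : ℚ)) a i := by
    ext a i
    rw [Matrix.of_apply, Matrix.of_apply, Matrix.of_apply,
      descPochhammer_eval_eq_descFactorial ℚ, Nat.descFactorial_eq_factorial_mul_choose]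
    push_cast
    ring
  rw [h, e, Matrix.det_mul_row] at h1
  exact right_ne_zero_of_mul h1

/-- Prescribed jets from `k + 1` distinct exponents. -/
theorem exists_jet (k : ℕ) (E : Finset ℕ) (hE : E.card = k + 1) (μ : ℕ) :
    ∃ ψ : ℕ → ℚ, (∀ j, j ∉ E → ψ j = 0) ∧
      ∀ i, i ≤ k → ∑ j ∈ E, (j.choose i : ℚ) * ψ j = if i = μ then 1 else 0 := by
  classical
  let v : Fin (k + 1) → ℕ := fun a => E.orderEmbOfFin hE a
  have hv : Function.Injective v := (E.orderEmbOfFin hE).injective
  let A : Matrix (Fin (k + 1)) (Fin (k + 1)) ℚ := Matrix.of fun a i => ((v a).choose i : ℚ)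
  have hA : IsUnit A.det := isUnit_iff_ne_zero.2 (det_choose_ne_zero v hv)
  let b : Fin (k + 1) → ℚ := fun i => if (i : ℕ) = μ then 1 else 0
  let c : Fin (k + 1) → ℚ := Matrix.vecMul b A⁻¹
  have hc : Matrix.vecMul c A = b := by
    simp only [c]
    rw [Matrix.vecMul_vecMul, Matrix.nonsing_inv_mul A hA, Matrix.vecMul_one]
  have himg : univ.image v = E := by
    have h := E.image_orderEmbOfFin_univ hE
    exact h
  refine ⟨fun j => ∑ a, if v a = j then c a else 0, fun j hj => ?_, fun i hi => ?_⟩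
  · refine sum_eq_zero fun a _ => if_neg fun h => hj ?_
    rw [← h]
    exact orderEmbOfFin_mem E hE a
  · have h1 := congrFun hc ⟨i, Nat.lt_succ_of_le hi⟩
    simp only [Matrix.vecMul, dotProduct, A, Matrix.of_apply, b] at h1
    rw [← h1, ← himg, sum_image fun a _ b _ h => hv h]
    refine sum_congr rfl fun a _ => ?_
    beta_reduce
    rw [sum_eq_single a]
    · simp [mul_comm]
    · intro b _ hb
      exact if_neg fun h => hb (hv h)
    · simp

/-- The exponents `0, …, r` and `r + d - k + 1, …, d`. -/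
theorem exists_jet_gap (r k d μ : ℕ) (hrk : r ≤ k) (hkd : k ≤ d) :
    ∃ ψ : ℕ → ℚ, (∀ j, r < j → j ≤ r + d - k → ψ j = 0) ∧ (∀ j, d < j → ψ j = 0) ∧
      ∀ i, i ≤ k → ∑ j ∈ range (d + 1), (j.choose i : ℚ) * ψ j = if i = μ then 1 else 0 := by
  classical
  have hdis : Disjoint (range (r + 1)) (Ioc (r + d - k) d) := by
    rw [disjoint_left]
    intro j h1 h2
    rw [mem_range] at h1
    rw [mem_Ioc] at h2
    omega
  have hcard : (range (r + 1) ∪ Ioc (r + d - k) d).card = k + 1 := by
    rw [card_union_of_disjoint hdis, card_range, Nat.card_Ioc]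
    omega
  obtain ⟨ψ, h0, h1⟩ := exists_jet k _ hcard μ
  refine ⟨ψ, fun j h2 h3 => h0 j ?_, fun j h2 => h0 j ?_, fun i hi => ?_⟩
  · simp only [mem_union, mem_range, mem_Ioc]; omega
  · simp only [mem_union, mem_range, mem_Ioc]; omega
  · rw [← h1 i hi]
    symm
    refine sum_subset (fun j hj => ?_) fun j _ hj => ?_
    · simp only [mem_union, mem_range, mem_Ioc] at hj ⊢; omega
    · rw [h0 j hj, mul_zero]

end Pool.Agent.Lib.SC.H69Jet
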