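import Pool.Agent.Lib.SC.Blue
import Pool.Agent.Lib.SC.H69Jet

/-! Block GE1: the basis with prescribed jets. -/

namespace Pool.Agent.Lib.SC

open Finset

namespace GE1

lemma tc_eq {d : ℕ} {c : ℝ} (hc : 0 < c) (μ i : ℕ) (ψ : ℕ → ℝ) :
    tc c i (fun j : Fin d => c ^ μ / c ^ (j.val + 1) * ψ (j.val + 1)) =
      c ^ μ / c ^ i * ∑ j : Fin d, ((j.val + 1).choose i : ℝ) * ψ (j.val + 1) := by
  rw [tc, mul_sum]
  refine sum_congr rfl fun j _ => ?_
  by_cases h : i ≤ j.val + 1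
  · obtain ⟨n, hn⟩ := Nat.exists_eq_add_of_le h
    rw [hn, Nat.add_sub_cancel_left, pow_add]
    field_simp
  · rw [Nat.choose_eq_zero_of_lt (by omega)]
    simp

lemma scale {N c x B : ℝ} {μ k i : ℕ} (hN : 0 < N) (h1 : N ≤ c) (h2 : c ≤ 2 * N) (hμ : μ ≤ k)
    (hx : |x| ≤ B) : |c ^ μ / c ^ i * x| * N ^ i ≤ 2 ^ k * B * N ^ μ := by
  have hc : 0 < c := hN.trans_le h1
  have h3 : N ^ i ≤ c ^ i := pow_le_pow_left₀ hN.le h1 i
  have h4 : c ^ μ ≤ 2 ^ k * N ^ μ :=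
    (pow_le_pow_left₀ hc.le h2 μ).trans (by
      rw [mul_pow]
      exact mul_le_mul_of_nonneg_right (pow_le_pow_right₀ (by norm_num) hμ) (by positivity))
  have hB : 0 ≤ B := (abs_nonneg x).trans hx
  rw [abs_mul, abs_of_pos (by positivity)]
  calc c ^ μ / c ^ i * |x| * N ^ i ≤ c ^ μ / c ^ i * B * c ^ i := by gcongr
    _ = c ^ μ * B := by field_simp
    _ ≤ 2 ^ k * N ^ μ * B := by gcongr
    _ = _ := by ring

end GE1

theorem blk_GE1 (_h : St_GE0) : St_GE1 := by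
  intro d k r hrk hkd
  choose ψ h1 h2 h3 using fun μ => H69Jet.exists_jet_gap r k d μ hrk hkd
  set B : ℝ := 1 + ∑ μ ∈ range (k + 1), ∑ j : Fin d, |(ψ μ (j.val + 1) : ℝ)| with hB
  have hs : ∀ μ, μ ≤ k → ∑ j : Fin d, |(ψ μ (j.val + 1) : ℝ)| ≤ B := fun μ hμ => by
    have := single_le_sum (f := fun μ => ∑ j : Fin d, |(ψ μ (j.val + 1) : ℝ)|)
      (fun _ _ => sum_nonneg fun _ _ => abs_nonneg _) (mem_range.2 (Nat.lt_succ_of_le hμ))
    linarith
  have hB1 : 1 ≤ B := by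
    have : 0 ≤ ∑ μ ∈ range (k + 1), ∑ j : Fin d, |(ψ μ (j.val + 1) : ℝ)| :=
      sum_nonneg fun _ _ => sum_nonneg fun _ _ => abs_nonneg _
    linarith
  have h2d : (1 : ℝ) ≤ 2 ^ d := one_le_pow₀ (by norm_num)
  have h2k : (1 : ℝ) ≤ 2 ^ k := one_le_pow₀ (by norm_num)
  refine ⟨2 ^ k * (2 ^ d * B), one_le_mul_of_one_le_of_one_le h2k
    (one_le_mul_of_one_le_of_one_le h2d hB1), fun N c hN h4 h5 => ?_⟩
  have hN' : (0 : ℝ) < N := by exact_mod_cast hN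
  have h4' : (N : ℝ) ≤ c := by exact_mod_cast h4
  have h5' : (c : ℝ) ≤ 2 * N := by exact_mod_cast h5
  have hc : (0 : ℝ) < c := hN'.trans_le h4'
  refine ⟨fun μ j => (c : ℝ) ^ μ / (c : ℝ) ^ (j.val + 1) * (ψ μ (j.val + 1) : ℝ),
    fun μ j => ⟨(c : ℚ) ^ μ / (c : ℚ) ^ (j.val + 1) * ψ μ (j.val + 1), by push_cast; rfl⟩,
    fun μ i _ _ hi hik => ?_, fun μ i _ hμ => ?_, fun μ j h6 h7 => ?_, fun μ j _ hμ => ?_⟩
  · rw [GE1.tc_eq hc μ i fun j => (ψ μ j : ℝ)]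
    have h6 := h3 μ i hik
    rw [sum_range_succ', Nat.choose_eq_zero_of_lt (show 0 < i by omega), Nat.cast_zero, zero_mul,
      add_zero, ← Fin.sum_univ_eq_sum_range (fun j => (((j + 1).choose i : ℕ) : ℚ) * ψ μ (j + 1))]
      at h6
    have h7 : ∑ j : Fin d, ((j.val + 1).choose i : ℝ) * (ψ μ (j.val + 1) : ℝ) =
        ((if i = μ then 1 else 0 : ℚ) : ℝ) := by
      rw [← h6]; push_cast; rfl
    rw [h7]
    split_ifs with h8
    · rw [h8, div_self (pow_pos hc μ).ne']; simp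
    · simp
  · rw [GE1.tc_eq hc μ i fun j => (ψ μ j : ℝ)]
    refine GE1.scale hN' h4' h5' hμ ((abs_sum_le_sum_abs _ _).trans ?_)
    refine le_trans (sum_le_sum fun j _ => ?_) (le_trans (le_of_eq (mul_sum _ _ _).symm)
      (mul_le_mul_of_nonneg_left (hs μ hμ) (by positivity)))
    rw [abs_mul, Nat.abs_cast]
    refine mul_le_mul_of_nonneg_right ?_ (abs_nonneg _)
    have h6 : (j.val + 1).choose i ≤ 2 ^ d :=
      (Nat.choose_le_two_pow _ _).trans (Nat.pow_le_pow_right (by norm_num) j.isLt)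
    exact_mod_cast h6
  · rw [h1 μ (j.val + 1) (by omega) (by omega)]; simp
  · refine GE1.scale hN' h4' h5' hμ ?_
    have h6 := single_le_sum (f := fun j : Fin d => |(ψ μ (j.val + 1) : ℝ)|)
      (fun _ _ => abs_nonneg _) (mem_univ j)
    exact (h6.trans (hs μ hμ)).trans (le_mul_of_one_le_left (by linarith) h2d)

end Pool.Agent.Lib.SC
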