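import Pool.Agent.Lib.SC.Blue

/-! One level of the refined decoupling inequality. -/

namespace Pool.Agent.Lib.SC

open MeasureTheory Finset Pool.Agent.Lib.WC

namespace REF

variable {d : ℕ}

theorem dbl_div (hB : Bas) {G : Seminorm ℝ (V d)} {m q : ℕ} {K : ℝ} (hq : 1 ≤ q) (hK : 1 ≤ K)
    {w s : TT d → ℝ} (hw0 : ∀ x, 0 ≤ w x) (hw : Dbl w G m K) (hs0 : ∀ x, 0 < s x)
    (hs : Dbl s G m K) : Dbl (fun x => w x / s x ^ (q - 1)) G (m * q) (K ^ q) := by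
  intro x P
  obtain ⟨q, rfl⟩ : ∃ t, q = t + 1 := ⟨q - 1, by omega⟩
  simp only [Nat.add_sub_cancel]
  have hG : 0 ≤ G P := apply_nonneg G P
  set A : ℝ := K * (1 + G P) ^ m with hA
  have hA0 : 0 < A := by positivity
  have h1 : s x ≤ A * s (x + pj P) := by
    have := hs (x + pj P) (-P)
    rw [hB.cv1.pj_neg, map_neg_eq_map, add_neg_cancel_right] at this
    exact this
  have h2 : s x ^ q ≤ A ^ q * s (x + pj P) ^ q := by
    rw [← mul_pow]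
    exact pow_le_pow_left₀ (hs0 x).le h1 q
  have h3 : w (x + pj P) ≤ A * w x := hw x P
  have hp : 0 < s (x + pj P) ^ q := pow_pos (hs0 _) q
  have hx : 0 < s x ^ q := pow_pos (hs0 _) q
  have e : K ^ (q + 1) * (1 + G P) ^ (m * (q + 1)) = A * A ^ q := by
    rw [hA, pow_mul, ← mul_pow, pow_succ']
  rw [e, div_le_iff₀ hp, mul_assoc, mul_assoc, div_mul_eq_mul_div, ← mul_div_assoc,
    ← mul_div_assoc, le_div_iff₀ hx]
  calc w (x + pj P) * s x ^ q ≤ (A * w x) * (A ^ q * s (x + pj P) ^ q) :=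
        mul_le_mul h3 h2 hx.le (mul_nonneg hA0.le (hw0 x))
    _ = A * (A ^ q * (w x * s (x + pj P) ^ q)) := by ring

theorem dbl_sum {G : Seminorm ℝ (V d)} {m : ℕ} {K : ℝ} {I : Finset ℕ} {s : ℕ → TT d → ℝ}
    (hs : ∀ j ∈ I, Dbl (s j) G m K) : Dbl (fun x => ∑ j ∈ I, s j x) G m K := by
  intro x P
  rw [Finset.mul_sum]
  exact Finset.sum_le_sum fun j hj => hs j hj x P

theorem pointwise {q : ℕ} (hq : 1 ≤ q) {I : Finset ℕ} (hI : I.Nonempty) {a s : ℕ → ℝ}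
    {F Dc : ℝ} (hF : 0 ≤ F) (hD : 0 ≤ Dc) (ha : ∀ j ∈ I, 0 ≤ a j) (hs : ∀ j ∈ I, 0 < s j)
    (h : F ^ ((q : ℝ)⁻¹) ≤ Dc * ∑ j ∈ I, a j ^ ((q : ℝ)⁻¹)) :
    F / (∑ j ∈ I, s j) ^ (q - 1) ≤ Dc ^ q * ∑ j ∈ I, a j / s j ^ (q - 1) := by
  have hq0 : q ≠ 0 := by omega
  have hT : 0 < (∑ j ∈ I, s j) ^ (q - 1) := pow_pos (Finset.sum_pos hs hI) _
  have h1 : F ≤ Dc ^ q * (∑ j ∈ I, a j ^ ((q : ℝ)⁻¹)) ^ q := by
    have := pow_le_pow_left₀ (Real.rpow_nonneg hF _) h q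
    rwa [Real.rpow_inv_natCast_pow hF hq0, mul_pow] at this
  have h2 := radon I (b := fun j => a j ^ ((q : ℝ)⁻¹)) (σ := s)
    (fun j hj => Real.rpow_nonneg (ha j hj) _) hs hq
  have h3 : ∑ j ∈ I, (a j ^ ((q : ℝ)⁻¹)) ^ q / s j ^ (q - 1) = ∑ j ∈ I, a j / s j ^ (q - 1) :=
    Finset.sum_congr rfl fun j hj => by rw [Real.rpow_inv_natCast_pow (ha j hj) hq0]
  rw [h3] at h2
  rw [div_le_iff₀ hT]
  calc F ≤ Dc ^ q * (∑ j ∈ I, a j ^ ((q : ℝ)⁻¹)) ^ q := h1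
    _ ≤ Dc ^ q * ((∑ j ∈ I, s j) ^ (q - 1) * ∑ j ∈ I, a j / s j ^ (q - 1)) :=
        mul_le_mul_of_nonneg_left h2 (pow_nonneg hD q)
    _ = Dc ^ q * (∑ j ∈ I, a j / s j ^ (q - 1)) * (∑ j ∈ I, s j) ^ (q - 1) := by ring

theorem intg {F : TT d → ℝ} (hF : Continuous F) : Integrable F :=
  hF.integrable_of_hasCompactSupport (HasCompactSupport.of_compactSpace F)

end REF

open REF in
theorem blk_REF (hB : Bas) : St_REF := by
  intro q m K M hq hm hK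
  have hK0 : 0 ≤ K := by linarith
  have hM1 : (1 : ℝ) ≤ max M 1 := le_max_right _ _
  refine ⟨K ^ q * (max M 1) ^ (m * q) * (K ^ q * max M 1), ?_, ?_⟩
  · have h1 : (1 : ℝ) ≤ K ^ q := one_le_pow₀ hK
    have h2 : (1 : ℝ) ≤ (max M 1) ^ (m * q) := one_le_pow₀ hM1
    exact one_le_mul_of_one_le_of_one_le (one_le_mul_of_one_le_of_one_le h1 h2)
      (one_le_mul_of_one_le_of_one_le h1 hM1)
  intro d κ _ G Dc I h sg w hD hI hMom hwc hw0 hw hh hdec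
  have hMeq : max M 1 = M := max_eq_left (hB.cv2.mom_one d κ G _ M hMom)
  rw [hMeq]
  have hM0 : 0 ≤ M := by rw [← hMeq]; linarith
  have hmq : 1 ≤ m * q := Nat.one_le_iff_ne_zero.2 (Nat.mul_ne_zero (by omega) (by omega))
  have hMom1 : Mom κ G 1 M := by
    have := hB.cv2.mom_le d κ G G (m * q) 1 M 1 le_rfl (fun P => by rw [one_mul]) hmq hMom
    simpa using this
  have hKq : 0 ≤ K ^ q := pow_nonneg hK0 q
  -- the total weight
  have hS0 : ∀ x, 0 < ∑ j ∈ I, sg j x := fun x =>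
    Finset.sum_pos (fun j hj => (hh j hj).2.2.1 x) hI
  have hSc : Continuous fun x => ∑ j ∈ I, sg j x :=
    continuous_finset_sum _ fun j hj => (hh j hj).2.1
  have huc : Continuous fun x => w x / (∑ j ∈ I, sg j x) ^ (q - 1) :=
    hwc.div (hSc.pow _) fun x => (pow_pos (hS0 x) _).ne'
  have hu0 : ∀ x, 0 ≤ w x / (∑ j ∈ I, sg j x) ^ (q - 1) := fun x =>
    div_nonneg (hw0 x) (pow_pos (hS0 x) _).le
  have hud := dbl_div hB hq hK hw0 hw hS0 (dbl_sum fun j hj => (hh j hj).2.2.2)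
  have hFc : Continuous fun y => ‖∑ j ∈ I, h j y‖ ^ (2 * q) :=
    (continuous_finset_sum _ fun j hj => (hh j hj).1).norm.pow _
  have hF0 : ∀ y, 0 ≤ ‖∑ j ∈ I, h j y‖ ^ (2 * q) := fun y => by positivity
  have h1 := hB.cv2.w_lo d κ _ _ G (m * q) (K ^ q) M hFc huc hF0 hu0 hKq hud hMom1
  -- the pieces
  have hjc : ∀ j ∈ I, Continuous fun y => ‖h j y‖ ^ (2 * q) := fun j hj => (hh j hj).1.norm.pow _
  have hj0 : ∀ j y, 0 ≤ ‖h j y‖ ^ (2 * q) := fun j y => by positivity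
  have hvc : ∀ j ∈ I, Continuous fun x => w x / sg j x ^ (q - 1) := fun j hj =>
    hwc.div ((hh j hj).2.1.pow _) fun x => (pow_pos ((hh j hj).2.2.1 x) _).ne'
  have hv0 : ∀ j ∈ I, ∀ x, 0 ≤ w x / sg j x ^ (q - 1) := fun j hj x =>
    div_nonneg (hw0 x) (pow_pos ((hh j hj).2.2.1 x) _).le
  have h2 : ∀ j ∈ I, ∫ x, cv κ (fun y => ‖h j y‖ ^ (2 * q)) x * (w x / sg j x ^ (q - 1)) ≤
      K ^ q * M * ∫ x, ‖h j x‖ ^ (2 * q) * (w x / sg j x ^ (q - 1)) := fun j hj =>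
    hB.cv2.w_up d κ _ _ G (m * q) (K ^ q) M (hjc j hj) (hvc j hj) (hj0 j) (hv0 j hj) hKq
      (dbl_div hB hq hK hw0 hw (hh j hj).2.2.1 (hh j hj).2.2.2) hMom
  have hpc : ∀ j ∈ I, Continuous fun x =>
      cv κ (fun y => ‖h j y‖ ^ (2 * q)) x * (w x / sg j x ^ (q - 1)) := fun j hj =>
    (hB.cv1.cont d κ _ (hjc j hj)).mul (hvc j hj)
  have h3 : ∫ x, cv κ (fun y => ‖∑ j ∈ I, h j y‖ ^ (2 * q)) x *
        (w x / (∑ j ∈ I, sg j x) ^ (q - 1)) ≤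
      Dc ^ q * ∑ j ∈ I, ∫ x, cv κ (fun y => ‖h j y‖ ^ (2 * q)) x * (w x / sg j x ^ (q - 1)) := by
    rw [← integral_finset_sum _ fun j hj => intg (hpc j hj), ← integral_const_mul]
    refine integral_mono (intg ((hB.cv1.cont d κ _ hFc).mul huc))
      (intg (continuous_const.mul (continuous_finset_sum _ hpc))) fun x => ?_
    have hp := pointwise hq hI (a := fun j => cv κ (fun y => ‖h j y‖ ^ (2 * q)) x)
      (s := fun j => sg j x) (hB.cv1.nonneg d κ _ x hF0) hD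
      (fun j _ => hB.cv1.nonneg d κ _ x (hj0 j)) (fun j hj => (hh j hj).2.2.1 x) (hdec x)
    have hp2 := mul_le_mul_of_nonneg_right hp (hw0 x)
    have e1 : ∑ j ∈ I, cv κ (fun y => ‖h j y‖ ^ (2 * q)) x * (w x / sg j x ^ (q - 1)) =
        (∑ j ∈ I, cv κ (fun y => ‖h j y‖ ^ (2 * q)) x / sg j x ^ (q - 1)) * w x := by
      rw [Finset.sum_mul]
      exact Finset.sum_congr rfl fun j _ => by ring
    show cv κ (fun y => ‖∑ j ∈ I, h j y‖ ^ (2 * q)) x * (w x / (∑ j ∈ I, sg j x) ^ (q - 1)) ≤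
      Dc ^ q * ∑ j ∈ I, cv κ (fun y => ‖h j y‖ ^ (2 * q)) x * (w x / sg j x ^ (q - 1))
    rw [e1, ← mul_assoc]
    refine le_trans (le_of_eq ?_) hp2
    ring
  have e2 : ∫ x, ‖∑ j ∈ I, h j x‖ ^ (2 * q) / (∑ j ∈ I, sg j x) ^ (q - 1) * w x =
      ∫ x, ‖∑ j ∈ I, h j x‖ ^ (2 * q) * (w x / (∑ j ∈ I, sg j x) ^ (q - 1)) :=
    integral_congr_ae (Filter.Eventually.of_forall fun x => by ring)
  have e3 : ∑ j ∈ I, ∫ x, ‖h j x‖ ^ (2 * q) / sg j x ^ (q - 1) * w x =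
      ∑ j ∈ I, ∫ x, ‖h j x‖ ^ (2 * q) * (w x / sg j x ^ (q - 1)) :=
    Finset.sum_congr rfl fun j _ =>
      integral_congr_ae (Filter.Eventually.of_forall fun x => by ring)
  rw [e2, e3]
  have h4 : ∑ j ∈ I, ∫ x, cv κ (fun y => ‖h j y‖ ^ (2 * q)) x * (w x / sg j x ^ (q - 1)) ≤
      K ^ q * M * ∑ j ∈ I, ∫ x, ‖h j x‖ ^ (2 * q) * (w x / sg j x ^ (q - 1)) := by
    rw [Finset.mul_sum]
    exact Finset.sum_le_sum h2
  have hc : 0 ≤ K ^ q * M ^ (m * q) := mul_nonneg hKq (pow_nonneg hM0 _)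
  calc _ ≤ K ^ q * M ^ (m * q) * ∫ x, cv κ (fun y => ‖∑ j ∈ I, h j y‖ ^ (2 * q)) x *
          (w x / (∑ j ∈ I, sg j x) ^ (q - 1)) := h1
    _ ≤ K ^ q * M ^ (m * q) * (Dc ^ q * (K ^ q * M *
          ∑ j ∈ I, ∫ x, ‖h j x‖ ^ (2 * q) * (w x / sg j x ^ (q - 1)))) :=
        mul_le_mul_of_nonneg_left
          (h3.trans (mul_le_mul_of_nonneg_left h4 (pow_nonneg hD q))) hc
    _ = _ := by ring

end Pool.Agent.Lib.SC
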