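import Pool.Agent.Lib.SC.Defs
import Pool.Agent.Lib.SCI.IterDefs

/-! Statements of the blocks of the small cube estimate. -/

namespace Pool.Agent.Lib.SC

open MeasureTheory Finset Pool.Agent.Lib.WC

/-! ### Averaging -/

/-- Linear and order properties of averages. -/
structure St_CV1 : Prop where
  pj_add : ∀ (d : ℕ) (P R : V d), pj (P + R) = pj P + pj R
  pj_neg : ∀ (d : ℕ) (P : V d), pj (-P) = -pj P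
  pj_cont : ∀ d : ℕ, Continuous (pj : V d → TT d)
  intg : ∀ (d : ℕ) (ν : Measure (V d)) [IsProbabilityMeasure ν] (F : TT d → ℝ) (x : TT d),
    Continuous F → Integrable (fun P => F (x + pj P)) ν
  cont : ∀ (d : ℕ) (ν : Measure (V d)) [IsProbabilityMeasure ν] (F : TT d → ℝ),
    Continuous F → Continuous (cv ν F)
  mono : ∀ (d : ℕ) (ν : Measure (V d)) [IsProbabilityMeasure ν] (F G : TT d → ℝ) (x : TT d),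
    Continuous F → Continuous G → (∀ y, F y ≤ G y) → cv ν F x ≤ cv ν G x
  nonneg : ∀ (d : ℕ) (ν : Measure (V d)) (F : TT d → ℝ) (x : TT d), (∀ y, 0 ≤ F y) → 0 ≤ cv ν F x
  const : ∀ (d : ℕ) (ν : Measure (V d)) [IsProbabilityMeasure ν] (t : ℝ) (x : TT d),
    cv ν (fun _ => t) x = t
  add : ∀ (d : ℕ) (ν : Measure (V d)) [IsProbabilityMeasure ν] (F G : TT d → ℝ) (x : TT d),
    Continuous F → Continuous G → cv ν (fun y => F y + G y) x = cv ν F x + cv ν G x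
  smul : ∀ (d : ℕ) (ν : Measure (V d)) (t : ℝ) (F : TT d → ℝ) (x : TT d),
    cv ν (fun y => t * F y) x = t * cv ν F x
  sum : ∀ (d : ℕ) (ν : Measure (V d)) [IsProbabilityMeasure ν] (ι : Type) (s : Finset ι)
    (F : ι → TT d → ℝ) (x : TT d), (∀ a ∈ s, Continuous (F a)) →
    cv ν (fun y => ∑ a ∈ s, F a y) x = ∑ a ∈ s, cv ν (F a) x
  conv : ∀ (d : ℕ) (ν₁ ν₂ : Measure (V d)) [IsProbabilityMeasure ν₁] [IsProbabilityMeasure ν₂]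
    (F : TT d → ℝ), Continuous F → cv (ν₁.conv ν₂) F = cv ν₁ (cv ν₂ F)
  comm : ∀ (d : ℕ) (ν₁ ν₂ : Measure (V d)) [IsProbabilityMeasure ν₁] [IsProbabilityMeasure ν₂]
    (F : TT d → ℝ), Continuous F → cv ν₁ (cv ν₂ F) = cv ν₂ (cv ν₁ F)
  dirac : ∀ (d : ℕ) (F : TT d → ℝ), cv (Measure.dirac (0 : V d)) F = F
  jpow : ∀ (d : ℕ) (ν : Measure (V d)) [IsProbabilityMeasure ν] (F : TT d → ℝ) (q : ℝ) (x : TT d),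
    Continuous F → (∀ y, 0 ≤ F y) → 1 ≤ q → cv ν F x ^ q ≤ cv ν (fun y => F y ^ q) x
  jmin : ∀ (d : ℕ) (ν : Measure (V d)) [IsProbabilityMeasure ν] (F : TT d → ℝ) (t : ℝ) (x : TT d),
    Continuous F → cv ν (fun y => min (F y) t) x ≤ min (cv ν F x) t

/-- Moments and slow variation. -/
structure St_CV2 : Prop where
  sn_cont : ∀ (d : ℕ) (G : Seminorm ℝ (V d)), Continuous G
  mom_one : ∀ (d : ℕ) (ν : Measure (V d)) [IsProbabilityMeasure ν] (G : Seminorm ℝ (V d)) (m : ℕ)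
    (M : ℝ), Mom ν G m M → 1 ≤ M
  mom_le : ∀ (d : ℕ) (ν : Measure (V d)) [IsProbabilityMeasure ν] (G G' : Seminorm ℝ (V d))
    (m m' : ℕ) (M B : ℝ), 1 ≤ B → (∀ P, G' P ≤ B * G P) → m' ≤ m → Mom ν G m M →
    Mom ν G' m' (B ^ m' * M)
  mom_conv : ∀ (d : ℕ) (ν₁ ν₂ : Measure (V d)) [IsProbabilityMeasure ν₁] [IsProbabilityMeasure ν₂]
    (G : Seminorm ℝ (V d)) (m : ℕ) (M₁ M₂ : ℝ), Mom ν₁ G m M₁ → Mom ν₂ G m M₂ →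
    Mom (ν₁.conv ν₂) G m (M₁ * M₂)
  mom_dirac : ∀ (d : ℕ) (G : Seminorm ℝ (V d)) (m : ℕ), Mom (Measure.dirac (0 : V d)) G m 1
  isK_mono : ∀ (d : ℕ) (G : Seminorm ℝ (V d)) (m : ℕ) (C C' : ℝ) (K : Measure (V d)), C ≤ C' →
    IsK G m C K → IsK G m C' K
  isW_mono : ∀ (d : ℕ) (G : Seminorm ℝ (V d)) (L : ℕ) (C C' : ℝ) (W : Measure (V d)), C ≤ C' →
    IsW G L C W → IsW G L C' W
  dbl_le : ∀ (d : ℕ) (F : TT d → ℝ) (G G' : Seminorm ℝ (V d)) (m m' : ℕ) (K B : ℝ), 1 ≤ B → 0 ≤ K →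
    (∀ P, G P ≤ B * G' P) → m ≤ m' → (∀ x, 0 ≤ F x) → Dbl F G m K → Dbl F G' m' (K * B ^ m)
  dbl_cv : ∀ (d : ℕ) (ν : Measure (V d)) [IsProbabilityMeasure ν] (F : TT d → ℝ)
    (G : Seminorm ℝ (V d)) (m : ℕ) (K : ℝ), Continuous F → Dbl F G m K → Dbl (cv ν F) G m K
  cmp_up : ∀ (d : ℕ) (ν : Measure (V d)) [IsProbabilityMeasure ν] (F : TT d → ℝ)
    (G : Seminorm ℝ (V d)) (m : ℕ) (K M : ℝ) (x : TT d), Continuous F → (∀ y, 0 ≤ F y) → 0 ≤ K →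
    Dbl F G m K → Mom ν G m M → cv ν F x ≤ K * M * F x
  cmp_lo : ∀ (d : ℕ) (ν : Measure (V d)) [IsProbabilityMeasure ν] (F : TT d → ℝ)
    (G : Seminorm ℝ (V d)) (m : ℕ) (K M : ℝ) (x : TT d), Continuous F → (∀ y, 0 ≤ F y) → 0 ≤ K →
    Dbl F G m K → Mom ν G 1 M → F x ≤ K * M ^ m * cv ν F x
  w_up : ∀ (d : ℕ) (ν : Measure (V d)) [IsProbabilityMeasure ν] (F w : TT d → ℝ)
    (G : Seminorm ℝ (V d)) (m : ℕ) (K M : ℝ), Continuous F → Continuous w → (∀ y, 0 ≤ F y) →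
    (∀ y, 0 ≤ w y) → 0 ≤ K → Dbl w G m K → Mom ν G m M →
    ∫ x, cv ν F x * w x ≤ K * M * ∫ x, F x * w x
  w_lo : ∀ (d : ℕ) (ν : Measure (V d)) [IsProbabilityMeasure ν] (F w : TT d → ℝ)
    (G : Seminorm ℝ (V d)) (m : ℕ) (K M : ℝ), Continuous F → Continuous w → (∀ y, 0 ≤ F y) →
    (∀ y, 0 ≤ w y) → 0 ≤ K → Dbl w G m K → Mom ν G 1 M →
    ∫ x, F x * w x ≤ K * M ^ m * ∫ x, cv ν F x * w x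

/-- The weights of the states, arcs and the trivial estimates. -/
structure St_WR : Prop where
  cont : ∀ (d r : ℕ) (H : ℝ), 0 < H → Continuous (Wr (d := d) r H)
  pos : ∀ (d r : ℕ) (H : ℝ) (x : TT d), 0 < H → 0 < Wr r H x
  dbl : ∀ (d r : ℕ) (H : ℝ), 0 < H → Dbl (Wr (d := d) r H) (bx r H) (2 * d) 1
  mass : ∀ (d r : ℕ) (H : ℝ), 0 < H → ∫ x : TT d, Wr r H x ≤ 2 ^ d
  fa_cont : ∀ (d : ℕ) (a : ℕ → ℂ) (c σ : ℕ), Continuous (fa d a c σ)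
  fa_mem : ∀ (d : ℕ) (a : ℕ → ℂ) (c σ : ℕ),
    fa d a c σ ∈ Sp {ω | ∃ m : ℕ, c ≤ m ∧ m < c + σ ∧ ω = mom d (m : ℤ)}
  fa_split : ∀ (d : ℕ) (a : ℕ → ℂ) (c σ K : ℕ) (x : TT d),
    fa d a c (K * σ) x = ∑ b ∈ range K, fa d a (c + b * σ) σ x
  fa_le : ∀ (d : ℕ) (a : ℕ → ℂ) (c σ : ℕ) (x : TT d), (∀ m, ‖a m‖ ≤ 1) → ‖fa d a c σ x‖ ≤ σ
  xx_nonneg : ∀ (d r : ℕ) (H p : ℝ) (a : ℕ → ℂ) (c K σ : ℕ), 0 < H → 0 ≤ XX d r H p a c K σ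
  xx_sum : ∀ (d r : ℕ) (H p : ℝ) (a : ℕ → ℂ) (c K K' σ : ℕ),
    XX d r H p a c (K * K') σ = ∑ b ∈ range K, XX d r H p a (c + b * (K' * σ)) K' σ
  triv : ∀ (d r : ℕ) (H p : ℝ) (a : ℕ → ℂ) (n i k : ℕ), 0 < H → 1 ≤ p → i + k ≤ n →
    XL d r H p a n i ≤ 2 ^ ((p - 1) * k) * XL d r H p a n (i + k)
  last : ∀ (d r : ℕ) (H p : ℝ) (a : ℕ → ℂ) (n : ℕ), 0 < H → 0 ≤ p → (∀ m, ‖a m‖ ≤ 1) →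
    XL d r H p a n n ≤ 2 ^ (p / 2) * 2 ^ d * 2 ^ n

/-! ### Slices -/

/-- The slice measures. -/
structure St_SL0 : Prop where
  den_pos : ∀ (d u : ℕ) (ψ : Fin u → V d), 1 ≤ den ψ
  mat_eq : ∀ (d u : ℕ) (ψ : Fin u → V d), (∀ i, IsQ (ψ i)) → ∀ ξ i,
    ((mat ψ ξ i : ℤ) : ℝ) = den ψ * dot ξ (ψ i)
  pj_shf : ∀ (d u : ℕ) (ψ : Fin u → V d), (∀ i, IsQ (ψ i)) → ∀ v, pj (shf ψ v) = tr (mat ψ) v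
  lft_abs : ∀ z, |lft z| = ‖z‖
  shf_meas : ∀ (d u : ℕ) (ψ : Fin u → V d), Measurable (shf ψ)
  prob : ∀ (d u : ℕ) (ψ : Fin u → V d) (k : TT u → ℝ), Continuous k → (∀ v, 0 ≤ k v) →
    0 < ∫ v, k v → IsProbabilityMeasure (slc ψ k)
  intg : ∀ (d u : ℕ) (ψ : Fin u → V d) (k : TT u → ℝ) (Φ : V d → ℝ), Continuous k →
    (∀ v, 0 ≤ k v) → 0 < ∫ v, k v → Continuous Φ →
    Integrable Φ (slc ψ k) ∧ Integrable (fun v => k v * Φ (shf ψ v)) ∧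
      ∫ P, Φ P ∂(slc ψ k) = (∫ v, k v * Φ (shf ψ v)) / ∫ v, k v
  cv_eq : ∀ (d u : ℕ) (ψ : Fin u → V d) (k : TT u → ℝ) (F : TT d → ℝ) (x : TT d),
    (∀ i, IsQ (ψ i)) → Continuous k → (∀ v, 0 ≤ k v) → 0 < ∫ v, k v → Continuous F →
    cv (slc ψ k) F x = (∫ v, k v * F (x + tr (mat ψ) v)) / ∫ v, k v
  kn_cont : ∀ (u Q μ : ℕ), Continuous (Kn (fun _ : Fin u => Q) μ)
  kn_mass : ∀ (u Q μ : ℕ), 1 ≤ Q → 2 ≤ μ → (1 / (5 * 2 ^ μ) : ℝ) ^ u ≤ ∫ v, Kn (fun _ : Fin u => Q) μ v ∧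
    ∫ v, Kn (fun _ : Fin u => Q) μ v ≤ 1
  wd_cont : ∀ (u Q L : ℕ), Continuous (wd (u := u) Q L)
  wd_mass : ∀ (u Q L : ℕ), 1 ≤ Q → 2 ≤ L → (1 / (5 * 3 ^ L) : ℝ) ^ u ≤ ∫ v : TT u, wd Q L v ∧
    ∫ v : TT u, wd Q L v ≤ 2 ^ u
  probK : ∀ (d u μ : ℕ) (ψ : Fin u → V d), 2 ≤ μ → IsProbabilityMeasure (sK ψ μ)
  probW : ∀ (d u L : ℕ) (ψ : Fin u → V d), 2 ≤ L → IsProbabilityMeasure (sW ψ L)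

/-- Moments of the slice measures. -/
def St_SLM : Prop :=
  ∀ u μ m : ℕ, ∃ C : ℝ, 1 ≤ C ∧ ∀ (d : ℕ) (ψ : Fin u → V d) (G : Seminorm ℝ (V d)) (B : ℝ), 1 ≤ B →
    (∀ i, G (ψ i) ≤ B) →
    (m + 2 ≤ μ → Mom (sK ψ μ) G m (C * B ^ m) ∧ Mom (sW ψ μ) G m (C * B ^ m)) ∧
    (2 ≤ μ → ∀ (F : TT d → ℝ) (x : TT d), Continuous F → (∀ y, 0 ≤ F y) →
      Integrable (fun P => (1 + G P) ^ m * F (x + pj P)) (sK ψ (μ + m)) ∧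
      ∫ P, (1 + G P) ^ m * F (x + pj P) ∂(sK ψ (μ + m)) ≤ C * B ^ m * cv (sK ψ μ) F x)

/-- Almost orthogonality on a slice. -/
def St_SLO : Prop :=
  ∀ (d u μ : ℕ) (ψ : Fin u → V d), 1 ≤ μ → (∀ i, IsQ (ψ i)) → Orth ψ μ (sK ψ (2 * μ))

/-- Decoupling on a slice. -/
def St_SLD : Prop :=
  ∀ (d k μ lam w : ℕ) (Dc : ℝ) (ψ : Fin k → V d) (I : Finset ℕ) (h : ℕ → TT d → ℂ), 1 ≤ k → 1 ≤ μ →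
    1 ≤ w → (∀ i, IsQ (ψ i)) → DecR k (lam + 2 * μ) w Dc → I ⊆ range w →
    (∀ j ∈ I, h j ∈ Sp (Cn ψ lam (j : ℤ))) → ∀ x,
    cv (sK (fun m => ((w : ℝ) ^ k) • ψ m) (2 * sd k * μ)) (fun y => ‖∑ j ∈ I, h j y‖ ^ (2 * sd k)) x ^
        ((sd k : ℝ)⁻¹) ≤
      Dc * ∑ j ∈ I, cv (sK (fun m => ((w : ℝ) ^ k) • ψ m) (2 * sd k * μ))
        (fun y => ‖h j y‖ ^ (2 * sd k)) x ^ ((sd k : ℝ)⁻¹)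

/-- The windows. -/
structure St_SLR : Prop where
  cont : ∀ (d μ : ℕ) (φ : V d) (s : ℤ) (f : TT d → ℂ), Continuous f → Continuous (rad φ μ s f)
  sum : ∀ (d μ : ℕ) (φ : V d) (s : ℤ) (ι : Type) (I : Finset ι) (f : ι → TT d → ℂ) (x : TT d),
    (∀ b ∈ I, Continuous (f b)) → rad φ μ s (fun y => ∑ b ∈ I, f b y) x = ∑ b ∈ I, rad φ μ s (f b) x
  le : ∀ (d μ : ℕ) (φ : V d) (s : ℤ) (f : TT d → ℂ) (x : TT d), 1 ≤ μ → IsQ φ → Continuous f →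
    ‖rad φ μ s f x‖ ≤ cv (bt φ μ) (fun y => ‖f y‖) x
  mem : ∀ (d μ : ℕ) (φ : V d) (s : ℤ) (S : Set (Fin d → ℤ)) (f : TT d → ℂ), 1 ≤ μ → IsQ φ →
    f ∈ Sp S → rad φ μ s f ∈ Sp (S ∩ {ξ | |dot ξ φ - s| ≤ μ})
  part : ∀ (d μ n : ℕ) (φ : V d) (f : TT d → ℂ) (x : TT d), 1 ≤ μ → IsQ φ →
    f ∈ Sp {ξ | |dot ξ φ| ≤ n} → f x = ∑ s ∈ Icc (-((n + μ : ℕ) : ℤ)) ((n + μ : ℕ) : ℤ), rad φ μ s f x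

/-- The slowly varying slice measure. -/
structure St_SLW : Prop where
  dbl : ∀ (d u L : ℕ) (ψ : Fin u → V d) (F : TT d → ℝ) (t : Fin u → ℝ) (x : TT d), 2 ≤ L →
    (∀ i, IsQ (ψ i)) → Continuous F → (∀ y, 0 ≤ F y) →
    cv (sW ψ L) F (x + pj (∑ i, t i • ψ i)) ≤ (∏ i, (1 + |t i|) ^ L) * cv (sW ψ L) F x
  up : ∀ u L A : ℕ, 2 ≤ L → ∃ C : ℝ, 1 ≤ C ∧ ∀ (d : ℕ) (ψ : Fin u → V d) (o : Fin u → ℝ)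
    (f : TT d → ℂ) (x : TT d), (∀ i, IsQ (ψ i)) → f ∈ Sp {ω | ∀ i, |dot ω (ψ i) - o i| ≤ A} →
    ‖f x‖ ^ 2 ≤ C * cv (sW ψ L) (fun y => ‖f y‖ ^ 2) x

/-- Band limitation. -/
def St_SLB : Prop :=
  ∀ (d μ : ℕ) (ψ : Fin d → V d) (F : TT d → ℝ), 1 ≤ μ → (∀ i, IsQ (ψ i)) →
    (∀ P : V d, ∃ t : Fin d → ℝ, P = ∑ i, t i • ψ i) → Continuous F →
    (fun x => ((cv (sK ψ (2 * μ)) F x : ℝ) : ℂ)) ∈ Sp {ξ | ∀ i, |dot ξ (ψ i)| ≤ μ}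

/-- Rational frames. -/
def St_FR : Prop :=
  ∀ (d : ℕ) (G : Seminorm ℝ (V d)), (∀ P, G P = 0 → P = 0) → ∃ e : Fin d → V d,
    (∀ i, IsQ (e i)) ∧ (∀ i, G (e i) ≤ 2) ∧
      ∀ P : V d, ∃ t : Fin d → ℝ, P = ∑ i, t i • e i ∧ ∀ i, |t i| ≤ G P

/-- Weights and kernels adapted to a gauge. -/
def St_GAU : Prop :=
  ∀ d L : ℕ, ∃ C : ℝ, 1 ≤ C ∧ ∀ G : Seminorm ℝ (V d), (∀ P, G P = 0 → P = 0) →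
    (∃ W, IsW G L C W) ∧ ∃ K, IsK G L C K

/-! ### Geometry -/

/-- Taylor coefficients and gauges. -/
structure St_GE0 : Prop where
  dot_mom : ∀ (d : ℕ) (m : ℤ) (P : V d), dot (mom d m) P = ev m P
  ev_sub : ∀ (d : ℕ) (t c : ℝ) (P : V d),
    ev t P - ev c P = ∑ i ∈ range d, tc c (i + 1) P * (t - c) ^ (i + 1)
  tc_shift : ∀ (d : ℕ) (c c' : ℝ) (i : ℕ) (P : V d), 1 ≤ i →
    tc c' i P = ∑ m ∈ range d, ((m + 1).choose i : ℝ) * (c' - c) ^ (m + 1 - i) * tc c (m + 1) P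
  tc_zero : ∀ (d : ℕ) (c : ℝ) (i : ℕ) (P : V d), d < i → tc c i P = 0
  defn : ∀ (d r : ℕ) (H c A ρ : ℝ) (P : V d), A ≠ 0 → ρ ≠ 0 → gn r H c A ρ P = 0 → P = 0
  pn_shift : ∀ (d : ℕ) (c c' A A' ρ ρ' F : ℝ) (P : V d), |c' - c| ≤ A → 0 ≤ A' → A' ≤ A → 0 ≤ ρ →
    0 ≤ ρ' → 0 ≤ F → ρ' ≤ F * ρ → pn c' A' ρ' P ≤ 2 ^ d * F * pn c A ρ P
  shift : ∀ (d r : ℕ) (H c c' A A' ρ ρ' F : ℝ) (P : V d), |c' - c| ≤ A → 0 ≤ A' → A' ≤ A → 0 ≤ ρ →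
    0 ≤ ρ' → 1 ≤ F → ρ' ≤ F * ρ → gn r H c' A' ρ' P ≤ 2 ^ d * F * gn r H c A ρ P
  bx_le : ∀ (d r : ℕ) (H c A ρ : ℝ) (P : V d), bx r H P ≤ gn r H c A ρ P
  cap : ∀ (d r : ℕ) (H : ℝ) (c σ : ℕ), ∃ o : V d →ₗ[ℝ] ℝ, ∀ m : ℕ, c ≤ m → m < c + σ →
    ∀ P : V d, |dot (mom d (m : ℤ)) P - o P| ≤ gn r H (c : ℝ) (σ : ℝ) (σ : ℝ) P
  jet_mono : ∀ (d k r : ℕ) (C C' N c : ℝ) (Ψ : ℕ → V d), 0 ≤ N → C ≤ C' → Jet k r C N c Ψ →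
    Jet k r C' N c Ψ
  th_mono : ∀ (d r k : ℕ) (H H' N ρ ρ' A A' : ℝ), 0 ≤ N → H' ≤ H → 0 ≤ ρ → ρ ≤ ρ' → 0 ≤ A →
    A ≤ A' → Th d r k H N ρ A → Th d r k H' N ρ' A'
  isQ_smul : ∀ (d : ℕ) (t : ℝ) (P : V d), (∃ q : ℚ, t = q) → IsQ P → IsQ (t • P)
  dot_add : ∀ (d : ℕ) (ξ : Fin d → ℤ) (P R : V d), dot ξ (P + R) = dot ξ P + dot ξ R
  dot_smul : ∀ (d : ℕ) (ξ : Fin d → ℤ) (t : ℝ) (P : V d), dot ξ (t • P) = t * dot ξ P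
  dot_sub : ∀ (d : ℕ) (ξ ξ' : Fin d → ℤ) (P : V d), dot (ξ - ξ') P = dot ξ P - dot ξ' P
  dot_sum : ∀ (d : ℕ) (ι : Type) (s : Finset ι) (ξ : ι → Fin d → ℤ) (P : V d),
    dot (∑ a ∈ s, ξ a) P = ∑ a ∈ s, dot (ξ a) P

/-- The basic facts. -/
structure Bas : Prop where
  cv1 : St_CV1
  cv2 : St_CV2
  wr : St_WR
  sl0 : St_SL0
  ge0 : St_GE0

/-- The basis with prescribed jets. -/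
def St_GE1 : Prop :=
  ∀ d k r : ℕ, r ≤ k → k ≤ d → ∃ C : ℝ, 1 ≤ C ∧ ∀ N c : ℕ, 1 ≤ N → N ≤ c → c ≤ 2 * N →
    ∃ Ψ : ℕ → V d, Jet k r C (N : ℝ) (c : ℝ) Ψ

/-- Sizes of the jets. -/
def St_GE2 : Prop :=
  ∀ (d k r : ℕ) (C₀ : ℝ), 1 ≤ k → r ≤ k → k ≤ d → 1 ≤ C₀ → ∃ C : ℝ, 1 ≤ C ∧
    ∀ (N c : ℝ) (Ψ : ℕ → V d) (μ : ℕ), 0 < N → Jet k r C₀ N c Ψ → 1 ≤ μ → μ ≤ k →
      (∀ A ρ : ℝ, 0 < A → A ≤ N → 0 ≤ ρ → pn c A ρ (Ψ μ) ≤ C * ρ * A ^ (μ - 1)) ∧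
      (∀ H ρ A : ℝ, 0 ≤ H → 0 < A → A ≤ N → 1 ≤ N → Th d r k H N ρ A →
        bx r H (Ψ μ) ≤ C * ρ * A ^ (μ - 1)) ∧
      (∀ t A : ℝ, |t - c| ≤ A → A ≤ N →
        |ev t (Ψ μ) - ev c (Ψ μ) - (t - c) ^ μ| * N ≤ C * A ^ (μ + 1)) ∧
      (∀ (c' A : ℝ) (i : ℕ), |c' - c| ≤ A → A ≤ N → 1 ≤ i →
        |tc c' i (Ψ μ) - (μ.choose i : ℝ) * (c' - c) ^ (μ - i)| * N * A ^ i ≤ C * A ^ (μ + 1))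

/-- The transition to the next state. -/
def St_TRANS : Prop :=
  ∀ (d D r : ℕ) (p : ℝ), r + 2 ≤ D → D ≤ d → 2 ≤ p → ∃ C : ℝ, 1 ≤ C ∧
    ∀ (N c σ : ℕ) (H : ℝ) (a : ℕ → ℂ), 1 ≤ σ → σ ≤ N → N ≤ c → c ≤ 2 * N → 0 < H →
      H ≤ (N : ℝ) ^ (d + 1 - D) → σ ^ D * N ^ (r + 1) ≤ N ^ D →
      II r H (fun x => (1 + ‖fa d a c σ x‖ ^ 2) ^ (p / 2)) ≤
        C * II (r + 1) H fun x => (1 + ‖fa d a c σ x‖ ^ 2) ^ (p / 2)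

/-- Separated points are determined by their power sums. -/
def St_MULT : Prop :=
  ∀ D : ℕ, ∃ C : ℝ, 1 ≤ C ∧ ∀ (t t' : Fin D → ℝ) (κ E : ℝ), 1 ≤ κ → 0 ≤ E →
    (∀ i, |t i| ≤ 1 ∧ |t' i| ≤ 1) → (∀ i l, i ≠ l → 1 ≤ κ * |t i - t' l|) →
    (∀ m, 1 ≤ m → m ≤ D → |∑ i, (t i ^ m - t' i ^ m)| ≤ E) →
    ∀ i, |t i - t' i| ≤ C * κ ^ (D - 1) * E

/-- The slice of the multilinear estimate. -/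
def St_TOPG : Prop :=
  ∀ (d r D E : ℕ), 1 ≤ D → r ≤ D → D ≤ d → ∃ C : ℕ, 1 ≤ C ∧
    ∀ (N c σ Kb K₁ : ℕ) (H : ℝ), 1 ≤ σ → 1 ≤ Kb → 1 ≤ K₁ → 0 ≤ H → N ≤ c →
      c + Kb * K₁ * σ ≤ 2 * N → Kb * K₁ * (Kb * K₁ * σ) ≤ N →
      Th d r D H N σ ((Kb * K₁ * σ : ℕ) : ℝ) → ∃ ψ : Fin D → V d, (∀ m, IsQ (ψ m)) ∧
      (∀ m, gn r H (c : ℝ) ((Kb * K₁ * σ : ℕ) : ℝ) σ (ψ m) ≤ C) ∧
      ∀ α ∈ Sep D Kb, ∀ b b' y y' : Fin D → ℕ,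
        (∀ i, b i ∈ Ico (α i * K₁) ((α i + 1) * K₁) ∧ b' i ∈ Ico (α i * K₁) ((α i + 1) * K₁)) →
        (∀ i, y i ∈ Ico (c + b i * σ) (c + b i * σ + σ) ∧
          y' i ∈ Ico (c + b' i * σ) (c + b' i * σ + σ)) →
        (∀ m, |dot (∑ i, mom d (y i : ℤ) - ∑ i, mom d (y' i : ℤ)) (ψ m)| ≤ E) →
        ∀ i, b i ≤ b' i + C * Kb ^ (D - 1) ∧ b' i ≤ b i + C * Kb ^ (D - 1)

/-- The radial direction. -/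
def St_PHI : Prop :=
  ∀ (d r k E : ℕ) (C₀ : ℝ), 1 ≤ k → r ≤ k → k ≤ d → 1 ≤ C₀ → ∃ C : ℕ, 1 ≤ C ∧
    ∀ (N c S σ M c' : ℕ) (H : ℝ) (Ψ : ℕ → V d), 1 ≤ σ → 1 ≤ M → 0 ≤ H → Jet k r C₀ N c Ψ →
      M * S ≤ N → c ≤ c' → c' + M * σ ≤ c + S → Th d r k H N σ S →
      IsQ ((σ : ℝ)⁻¹ • Ψ 1) ∧ bx r H ((σ : ℝ)⁻¹ • Ψ 1) ≤ C ∧
      gn r H (c' : ℝ) ((M * σ : ℕ) : ℝ) ((M * σ : ℕ) : ℝ) ((σ : ℝ)⁻¹ • Ψ 1) ≤ C * M ∧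
      ∀ b b' y y' : ℕ, b < M → b' < M → y ∈ Ico (c' + b * σ) (c' + b * σ + σ) →
        y' ∈ Ico (c' + b' * σ) (c' + b' * σ + σ) →
        |dot (mom d (y : ℤ) - mom d (y' : ℤ)) ((σ : ℝ)⁻¹ • Ψ 1)| ≤ E → b ≤ b' + C

/-- The geometry of the cone. -/
def St_CG : Prop :=
  ∀ (d r D k μ : ℕ) (C₀ : ℝ), 2 ≤ k → k ≤ D → D ≤ k + 1 → r + 1 ≤ D → D ≤ d → 1 ≤ C₀ →
    ∃ lam : ℕ, 1 ≤ lam ∧
    ∀ (N cT S c A σ M w : ℕ) (s : ℤ) (H : ℝ) (Φ Ψ : ℕ → V d), 1 ≤ σ → 1 ≤ M → 1 ≤ w → 0 ≤ H →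
      Jet (D - 1) r C₀ N cT Φ → Jet k r C₀ N c Ψ → cT ≤ c → c + w * A ≤ cT + S →
      M * (M * σ) ≤ A → M * w ^ D * S ≤ N → ((w ^ D : ℕ) : ℤ) ≤ |s| →
      Th d r k (H * w ^ (3 * D)) N σ A → Th d r (D - 1) H N σ S →
      ∃ ψ : Fin (k - 1) → V d, (∀ m, IsQ (ψ m)) ∧
        (∀ m, gn r H (c : ℝ) ((w * A : ℕ) : ℝ) ((σ : ℝ) / w ^ D)
          (((w : ℝ) ^ (k - 1)) • ψ m) ≤ lam) ∧
        ∀ j c' : ℕ, j < w → c + j * A ≤ c' → c' + M * σ ≤ c + j * A + A →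
          Body (gn r H (c' : ℝ) ((M * σ : ℕ) : ℝ) ((M * σ : ℕ) : ℝ)) C₀ ∩
            {ξ | |dot ξ ((σ : ℝ)⁻¹ • Φ 1) - s| ≤ μ} ⊆ Cn ψ lam j

/-! ### The step -/

/-- The broad and narrow decomposition. -/
def St_BN : Prop :=
  ∀ (D : ℕ) (p : ℝ), 1 ≤ D → 1 ≤ p → ∃ C : ℝ, 1 ≤ C ∧ ∀ (K : ℕ) (F : ℕ → ℂ),
    (1 + ‖∑ α ∈ range K, F α‖ ^ 2) ^ (p / 2) ≤ C * (1 + ∑ α ∈ range K, ‖F α‖ ^ p) +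
      (C * K) ^ p * ∑ α ∈ Sep D K, ∏ i, ‖F (α i)‖ ^ (p / D)

/-- The local multilinear estimate. -/
def St_TOP0 : Prop :=
  ∀ (D L : ℕ) (p : ℝ), 1 ≤ D → 2 * (D : ℝ) ≤ p → ∃ m : ℕ, ∀ C₁ : ℝ, 1 ≤ C₁ → ∃ C : ℝ, 1 ≤ C ∧
    ∀ (d u Ω T K : ℕ) (κ κ' : Measure (V d)) [IsProbabilityMeasure κ] [IsProbabilityMeasure κ']
      (G : Seminorm ℝ (V d)) (ψ : Fin u → V d) (E : ℝ) (A : Fin D → Finset ℕ)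
      (f : ℕ → TT d → ℂ) (S : ℕ → Set (Fin d → ℤ)) (g : ℕ → TT d → ℝ) (x : TT d),
      (∀ F : TT d → ℝ, Continuous F → (∀ y, 0 ≤ F y) →
        Integrable (fun P => (1 + G P) ^ m * F (x + pj P)) κ ∧
        ∫ P, (1 + G P) ^ m * F (x + pj P) ∂κ ≤ C₁ * cv κ' F x) →
      Mom κ' G m C₁ → Orth ψ E κ' → (∀ i, A i ⊆ range K) → (∀ b, f b ∈ Sp (S b)) →
      (∀ b, 1 ≤ g b x ∧ g b x ≤ 2 ^ T) → (∀ b y, ‖f b y‖ ^ 2 ≤ C₁ * g b y) →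
      (∀ b, b < K → Dbl (g b) G L C₁) →
      (∀ b ∈ Fintype.piFinset A, ∀ t ⊆ Fintype.piFinset A,
        (∀ b' ∈ t, ∃ ξ ξ' : Fin D → Fin d → ℤ, (∀ i, ξ i ∈ S (b i) ∧ ξ' i ∈ S (b' i)) ∧
          ∀ l, |dot (∑ i, ξ i - ∑ i, ξ' i) (ψ l)| ≤ E) → t.card ≤ Ω) →
      cv κ (fun y => ∏ i, ‖∑ b ∈ A i, f b y‖ ^ (p / D)) x ≤
        C * Ω * (T + 1) ^ m * ∑ t ∈ range (T + 1), Tht p D (2 ^ t) (Ps g K (2 ^ t) x)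

/-- The multilinear estimate. -/
def St_TOP : Prop :=
  ∀ (d r D L : ℕ) (p C₁ : ℝ), 1 ≤ D → r ≤ D → D ≤ d → 2 * (D : ℝ) ≤ p → 1 ≤ C₁ → ∃ C : ℕ, 1 ≤ C ∧
    ∀ (N c σ Kb K₁ T : ℕ) (H : ℝ) (a : ℕ → ℂ) (g : ℕ → TT d → ℝ), 1 ≤ σ → 1 ≤ Kb → 1 ≤ K₁ →
      0 < H → N ≤ c → c + Kb * K₁ * σ ≤ 2 * N → Kb * K₁ * (Kb * K₁ * σ) ≤ N →
      Th d r D H N σ ((Kb * K₁ * σ : ℕ) : ℝ) → (∀ b, Continuous (g b)) →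
      (∀ b x, 1 ≤ g b x ∧ g b x ≤ 2 ^ T) → (∀ b x, ‖fa d a (c + b * σ) σ x‖ ^ 2 ≤ C₁ * g b x) →
      (∀ b, Dbl (g b) (gn r H ((c + b * σ : ℕ) : ℝ) σ σ) L 1) → ∀ α ∈ Sep D Kb,
      II r H (fun x => ∏ i, ‖fa d a (c + α i * (K₁ * σ)) (K₁ * σ) x‖ ^ (p / D)) ≤
        ((C : ℝ) * Kb * (T + 1)) ^ C *
          ∑ t ∈ range (T + 1), II r H fun x => Tht p D (2 ^ t) (Ps g (Kb * K₁) (2 ^ t) x)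

/-- The low frequency part. -/
def St_LOW : Prop :=
  ∀ (d M : ℕ) (ν W K β : Measure (V d)) [IsProbabilityMeasure ν] [IsProbabilityMeasure W]
    [IsProbabilityMeasure K] [IsProbabilityMeasure β] (W' : ℕ → Measure (V d)) (f : ℕ → TT d → ℂ)
    (Ω C lam : ℝ) (x : TT d), 1 ≤ M → 1 ≤ Ω → 1 ≤ C → 0 ≤ lam → (∀ b, IsProbabilityMeasure (W' b)) →
    (∀ b, Continuous (f b)) →
    (∀ y, cv β (fun z => ‖∑ b ∈ range M, f b z‖ ^ 2) y ≤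
      Ω * ∑ b ∈ range M, cv β (fun z => ‖f b z‖ ^ 2) y) →
    (∀ b y, ‖f b y‖ ^ 2 ≤ C * cv (W' b) (fun z => ‖f b z‖ ^ 2) y) →
    cv β (cv K fun y => min (cv W (cv ν fun z => 1 + ‖∑ b ∈ range M, f b z‖ ^ 2) y) lam) x ≤
      Ω * C * ∑ b ∈ range M, min (cv (W' b) (cv (((ν.conv W).conv K).conv β)
        fun z => 1 + ‖f b z‖ ^ 2) x) lam

/-- The tree of square functions. -/
def St_TREE : Prop :=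
  ∀ (d r k m μ : ℕ) (p C₀ : ℝ), 1 ≤ k → r ≤ k → k ≤ d → 2 * d ≤ m → d + 1 ≤ μ → 2 ≤ p → 1 ≤ C₀ →
    ∃ C : ℝ, 1 ≤ C ∧ ∀ (N c σ K₀ M J : ℕ) (H : ℝ) (a : ℕ → ℂ) (Ψ : ℕ → V d), 1 ≤ σ → 1 ≤ K₀ →
      1 ≤ M → 0 < H → (∀ y, ‖a y‖ ≤ 1) → Jet k r C₀ N c Ψ → M * (K₀ * M ^ J * σ) ≤ N →
      Th d r k H N σ ((K₀ * M ^ J * σ : ℕ) : ℝ) →
      ∃ g Kk, Tr r H p a c σ K₀ M J (Ψ 1) ((2 * d + 2) * d) m μ C g Kk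

/-- Elementary inequalities. -/
structure St_PT : Prop where
  pos : ∀ (B : ℕ) (lam g : ℝ), 0 < lam → 0 < g → 0 < Ph B lam g
  le : ∀ (B : ℕ) (lam g : ℝ), 1 ≤ B → 0 < lam → 0 ≤ g → Ph B lam g ≤ min g lam
  cont : ∀ (B : ℕ) (lam : ℝ), Continuous (Ph B lam)
  dbl : ∀ (B : ℕ) (lam g g' K : ℝ), 0 < lam → 0 ≤ g → 0 ≤ g' → 1 ≤ K → g' ≤ K * g →
    Ph B lam g' ≤ K ^ B * Ph B lam g
  pow : ∀ (B a : ℕ) (p lam g : ℝ), 0 < lam → 0 < g → 0 ≤ p → p / 2 ≤ B * a →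
    Ph B lam g ^ a ≤ lam ^ ((a : ℝ) - p / 2) * g ^ (p / 2)
  sum : ∀ (B t₀ : ℕ) (g : ℝ), 1 ≤ g → min g (2 ^ t₀) ≤ 2 * ∑ t ∈ range (t₀ + 1), Ph B (2 ^ t) g
  chain : ∀ (Ψ η : ℕ → ℝ) (A : ℝ) (J : ℕ), 0 ≤ A → (∀ j, 0 ≤ Ψ j) →
    (∀ j, j < J → Ψ j ≤ A * Ψ (j + 1) + η j) →
    Ψ 0 ≤ (2 * A) ^ J * Ψ J ∨ ∃ j, j < J ∧ Ψ 0 ≤ (2 * A) ^ j * Ψ j ∧ Ψ j ≤ 2 * η j
  term : ∀ (D : ℕ) (p K₀ lam ψ : ℝ), (D : ℝ) ≤ p / 2 → 0 < lam → 0 ≤ ψ → ψ ≤ K₀ * lam →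
    Tht p D lam ψ ≤ K₀ ^ (p / 2 - D) * ψ ^ (p / 2)
  high : ∀ (D q : ℕ) (p e K₀ K lam₀ lam ψ h sig G : ℝ), 1 ≤ q → p / 2 ≤ e → (q : ℝ) + 1 ≤ e →
    e ≤ p - D → 0 < lam → lam ≤ lam₀ → 0 ≤ ψ → ψ ≤ K₀ * lam₀ → ψ ≤ G * h → 0 < sig → sig ≤ G * h →
    h ≤ K * lam → 1 ≤ G →
    Tht p D lam₀ ψ ≤ K₀ ^ (p - D - e) * G ^ (e + q) * K ^ (e - (q + 1)) * lam ^ (p / 2 - (q + 1)) *
      (h ^ (2 * q) / sig ^ (q - 1))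

/-- One link of the chain. -/
def St_CH : Prop :=
  ∀ (L B μ m : ℕ) (C₀ : ℝ), 1 ≤ B → 1 ≤ μ → 1 ≤ m → 1 ≤ C₀ → ∃ C : ℕ, 1 ≤ C ∧
    ∀ (d K M s₁ t₀ : ℕ) (φ : V d) (G : ℕ → Seminorm ℝ (V d)) (g g' : ℕ → TT d → ℝ)
      (Kk : ℕ → Measure (V d)) (x : TT d), 1 ≤ M → IsQ φ → (∀ b, Continuous (g b)) →
      (∀ b y, 1 ≤ g b y) → (∀ b y, 0 ≤ g' b y) → (∀ b, Dbl (g b) (G b) L 1) →
      (∀ b, IsK (G b) m C₀ (Kk b)) → (∀ b, b < K → G b φ ≤ C₀ * M) →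
      (∀ b, b < K → cv (bt φ μ) (cv (Kk b) fun y => min (g b y) (2 ^ t₀)) x ≤
        C₀ * ∑ b' ∈ range M, min (g' (b * M + b') x) (2 ^ t₀)) →
      Ps g K (2 ^ t₀) x ≤ C * (t₀ + 1) * (2 * s₁ + 1) * Ps g' (K * M) (2 ^ t₀) x +
        C * ∑ t ∈ range (t₀ + 1),
          ∑ s ∈ (Icc (-((C * M : ℕ) : ℤ)) ((C * M : ℕ) : ℤ)).filter (fun s => (s₁ : ℤ) < |s|),
            ‖hi φ μ s Kk (fun b y => Ph B (2 ^ t) (g b y)) (range K) x‖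

/-- One level of the refined decoupling inequality. -/
def St_REF : Prop :=
  ∀ (q m : ℕ) (K M : ℝ), 1 ≤ q → 1 ≤ m → 1 ≤ K → ∃ C : ℝ, 1 ≤ C ∧
    ∀ (d : ℕ) (κ : Measure (V d)) [IsProbabilityMeasure κ] (G : Seminorm ℝ (V d)) (Dc : ℝ)
      (I : Finset ℕ) (h : ℕ → TT d → ℂ) (sg : ℕ → TT d → ℝ) (w : TT d → ℝ), 0 ≤ Dc → I.Nonempty →
      Mom κ G (m * q) M → Continuous w → (∀ x, 0 ≤ w x) → Dbl w G m K →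
      (∀ j ∈ I, Continuous (h j) ∧ Continuous (sg j) ∧ (∀ x, 0 < sg j x) ∧ Dbl (sg j) G m K) →
      (∀ x, cv κ (fun y => ‖∑ j ∈ I, h j y‖ ^ (2 * q)) x ^ ((q : ℝ)⁻¹) ≤
        Dc * ∑ j ∈ I, cv κ (fun y => ‖h j y‖ ^ (2 * q)) x ^ ((q : ℝ)⁻¹)) →
      ∫ x, ‖∑ j ∈ I, h j x‖ ^ (2 * q) / (∑ j ∈ I, sg j x) ^ (q - 1) * w x ≤
        C * Dc ^ q * ∑ j ∈ I, ∫ x, ‖h j x‖ ^ (2 * q) / sg j x ^ (q - 1) * w x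

/-- The refined cone inequality. -/
def St_CONE : Prop :=
  ∀ (d r D k μ L m : ℕ) (C₀ ε : ℝ), 2 ≤ k → k ≤ D → D ≤ k + 1 → r + 1 ≤ D → D ≤ d → L ≤ m →
    L + 2 ≤ 2 * μ → 1 ≤ C₀ → 0 < ε → ∃ C : ℕ, 1 ≤ C ∧
    ∀ (N c σ M T w z : ℕ) (s : ℤ) (H : ℝ) (Φ : ℕ → V d) (v : ℕ → TT d → ℝ)
      (Kk : ℕ → Measure (V d)), 1 ≤ σ → 1 ≤ M → M ≤ T → 1 ≤ w → 0 < H →
      Jet (D - 1) r C₀ N c Φ → N ≤ c → c + w ^ z * T * (M * σ) ≤ 2 * N →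
      M * w ^ D * (w ^ z * T * (M * σ)) ≤ N → ((w ^ D : ℕ) : ℤ) ≤ |s| →
      Th d r k (H * w ^ (3 * D)) N σ ((T * (M * σ) : ℕ) : ℝ) →
      Th d r (D - 1) H N σ ((w ^ z * T * (M * σ) : ℕ) : ℝ) →
      (∀ b, Continuous (v b)) → (∀ b x, 0 < v b x) →
      (∀ b, Dbl (v b) (gn r H ((c + b * (M * σ) : ℕ) : ℝ) ((M * σ : ℕ) : ℝ) ((M * σ : ℕ) : ℝ)) L 1) →
      (∀ b, IsK (gn r H ((c + b * (M * σ) : ℕ) : ℝ) ((M * σ : ℕ) : ℝ) ((M * σ : ℕ) : ℝ)) m C₀ (Kk b)) →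
      ∃ sig : TT d → ℝ, Continuous sig ∧ (∀ x, 0 < sig x) ∧
        (∀ x, sig x ≤ ((C : ℝ) * M * w) ^ C * ∑ b ∈ range (w ^ z * T), v b x) ∧
        II r H (fun x => ‖hi ((σ : ℝ)⁻¹ • Φ 1) μ s Kk v (range (w ^ z * T)) x‖ ^ (2 * sd (k - 1)) /
            sig x ^ (sd (k - 1) - 1)) ≤
          ((C : ℝ) * M * w) ^ C * (C * (w : ℝ) ^ ε) ^ z * (T : ℝ) ^ sd (k - 1) *
            ∑ b ∈ range (w ^ z * T), II r H fun x => v b x ^ (sd (k - 1) + 1)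

/-- The broad majorant. -/
def St_BROAD : Prop :=
  ∀ (d r D D' L : ℕ) (p : ℝ), 3 ≤ D → r + 1 ≤ D → D ≤ d → (D' : ℝ) ≤ p / 2 → 2 ≤ p →
    ∃ m μ : ℕ, 2 * d ≤ m ∧ d + 1 ≤ μ ∧ ∀ C₀ C₁ ε : ℝ, 1 ≤ C₀ → 1 ≤ C₁ → 0 < ε → ∃ C : ℕ, 1 ≤ C ∧
    ∀ (N c σ K₀ M J w Z t₀ : ℕ) (H : ℝ) (a : ℕ → ℂ) (Φ : ℕ → V d) (g : ℕ → ℕ → TT d → ℝ)
      (Kk : ℕ → ℕ → Measure (V d)) (k z T : ℕ → ℕ) (e : ℕ → ℝ), 1 ≤ σ → 1 ≤ K₀ → 1 ≤ M → 1 ≤ w →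
      0 < H → Jet (D - 1) r C₀ N c Φ → N ≤ c → c + K₀ * M ^ J * σ ≤ 2 * N →
      M * w ^ D * (K₀ * M ^ J * σ) ≤ N → Th d r (D - 1) H N σ ((K₀ * M ^ J * σ : ℕ) : ℝ) →
      Tr r H p a c σ K₀ M J (Φ 1) L m μ C₁ g Kk →
      (∀ j, j < J → (k j = D ∨ k j + 1 = D) ∧ p / 2 ≤ e j ∧ (sd (k j - 1) : ℝ) + 1 ≤ e j ∧
        e j ≤ p - D' ∧ z j ≤ Z ∧ K₀ * M ^ j = w ^ z j * T j ∧ M ≤ T j ∧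
        Th d r (k j) (H * w ^ (3 * D)) N ((σ * M ^ (J - (j + 1)) : ℕ) : ℝ)
          ((T j * (σ * M ^ (J - j)) : ℕ) : ℝ)) →
      II r H (fun x => Tht p D' (2 ^ t₀) (Ps (g 0) K₀ (2 ^ t₀) x)) ≤
        ((C : ℝ) * (t₀ + 1) * w) ^ (C * (J + 1)) * (M : ℝ) ^ C * (C * (w : ℝ) ^ ε) ^ Z *
          ((K₀ : ℝ) ^ (p / 2 - D') * ((K₀ * M ^ J : ℕ) : ℝ) ^ (p / 2 - 1) *
              XX d r H p a c (K₀ * M ^ J) σ +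
            ∑ j ∈ range J, (K₀ : ℝ) ^ (p - D' - e j) *
              ((K₀ * M ^ j : ℕ) : ℝ) ^ (e j - (sd (k j - 1) + 1)) * (T j : ℝ) ^ sd (k j - 1) *
              XX d r H p a c (K₀ * M ^ j) (σ * M ^ (J - j)))

/-- The step inequality. -/
def St_STEP : Prop :=
  ∀ (d D r : ℕ) (p ε : ℝ), 3 ≤ D → r + 1 ≤ D → D ≤ d → (D : ℝ) ≤ p / 2 → 0 < ε → ∃ C : ℕ, 1 ≤ C ∧
    ∀ (h n : ℕ) (a : ℕ → ℂ), (∀ y, ‖a y‖ ≤ 1) →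
      SCI.StepIneq d D r h n p C ε fun i => XL d r (2 ^ h) p a n i

/-- The estimate for one dyadic block at the critical exponent. -/
def St_CORE : Prop :=
  ∀ (d : ℕ) (η ε : ℝ), 3 ≤ d → 0 ≤ η → η ≤ ((d : ℝ) + 1) / 4 - 1 / d → 0 < ε → ∃ C : ℝ, 1 ≤ C ∧
    ∀ (n h : ℕ) (a : ℕ → ℂ), (2 : ℝ) ^ h ≤ ((2 : ℝ) ^ n) ^ η → (∀ y, ‖a y‖ ≤ 1) →
      II 0 (2 ^ h) (fun x => ‖fa d a (2 ^ n) (2 ^ n) x‖ ^ ((d : ℝ) * (d + 1) - 2 * d * η)) ≤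
        C * ((2 : ℝ) ^ n) ^ (((d : ℝ) * (d + 1) - 2 * d * η) / 2 + ε)

/-- The small cube conjecture. -/
def St_MAIN : Prop :=
  ∀ (d : ℕ) (s ε : ℝ), 1 ≤ d → 0 < s → 0 < ε → ∃ N₀ : ℕ, ∀ N : ℕ, N₀ ≤ N →
    ∀ δ : ℝ, 0 < δ → δ ≤ 1 →
      ((d : ℝ) * (d + 1) / 4 + 1 ≤ s ∨ (N : ℝ) ^ (1 / (d : ℝ) - ((d : ℝ) + 1) / 4) ≤ δ) →
      ∀ ξ : Fin d → ℝ, MP_4e7873_nt.localMean s d δ ξ N ≤
        δ ^ d * (N : ℝ) ^ (s + ε) + (N : ℝ) ^ (2 * s - (d : ℝ) * (d + 1) / 2 + ε)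

end Pool.Agent.Lib.SC
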