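import Pool.Agent.Lib.WC.All

/-! Definitions for the small cube estimate: averaging measures, gauges, slices, arcs. -/

namespace Pool.Agent.Lib.SC

open MeasureTheory Finset Pool.Agent.Lib.WC

/-- Coefficient vectors: `P` stands for the polynomial `∑ P j * X ^ (j + 1)`. -/
abbrev V (d : ℕ) : Type := Fin d → ℝ

variable {d u : ℕ}

/-- The projection to the torus. -/
def pj (P : V d) : TT d := fun j => (P j : UnitAddCircle)

/-- The average of `F` over the shifts distributed by `ν`. -/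
noncomputable def cv (ν : Measure (V d)) (F : TT d → ℝ) (x : TT d) : ℝ := ∫ P, F (x + pj P) ∂ν

/-- The pairing of a frequency with a shift. -/
def dot (ξ : Fin d → ℤ) (P : V d) : ℝ := ∑ j, (ξ j : ℝ) * P j

/-- A moment bound. -/
def Mom (ν : Measure (V d)) (G : Seminorm ℝ (V d)) (m : ℕ) (M : ℝ) : Prop :=
  Integrable (fun P => (1 + G P) ^ m) ν ∧ ∫ P, (1 + G P) ^ m ∂ν ≤ M

/-- Slow variation. -/
def Dbl (F : TT d → ℝ) (G : Seminorm ℝ (V d)) (m : ℕ) (K : ℝ) : Prop :=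
  ∀ (x : TT d) (P : V d), F (x + pj P) ≤ K * (1 + G P) ^ m * F x

/-- The dual body of a gauge. -/
def Body (G : Seminorm ℝ (V d)) (C : ℝ) : Set (Fin d → ℤ) := {ξ | ∀ P, |dot ξ P| ≤ C * G P}

/-- Rational vectors. -/
def IsQ (P : V d) : Prop := ∀ j, ∃ q : ℚ, P j = q

/-- The representative in `[-1/2, 1/2)`. -/
noncomputable def lft (z : UnitAddCircle) : ℝ := (AddCircle.equivIco (1 : ℝ) (-(1 / 2)) z : ℝ)

open Classical in
/-- A common denominator. -/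
noncomputable def den (ψ : Fin u → V d) : ℕ :=
  if h : ∃ Q : ℕ, 1 ≤ Q ∧ ∀ i j, ∃ z : ℤ, (Q : ℝ) * ψ i j = z then h.choose else 1

/-- The integral matrix of a rational family. -/
noncomputable def mat (ψ : Fin u → V d) : (Fin d → ℤ) →+ (Fin u → ℤ) where
  toFun := fun ξ i => ∑ j, ξ j * round ((den ψ : ℝ) * ψ i j)
  map_zero' := by ext i; simp
  map_add' := fun a b => by ext i; simp [add_mul, Finset.sum_add_distrib]

/-- The real shift attached to a point of the slice. -/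
noncomputable def shf (ψ : Fin u → V d) (v : TT u) : V d :=
  ∑ i, ((den ψ : ℝ) * lft (v i)) • ψ i

/-- The normalised image of the density `k` on the slice. -/
noncomputable def slc (ψ : Fin u → V d) (k : TT u → ℝ) : Measure (V d) :=
  Measure.map (shf ψ) (volume.withDensity fun v => ENNReal.ofReal (k v / ∫ w, k w))

/-- The band limited slice measure. -/
noncomputable def sK (ψ : Fin u → V d) (μ : ℕ) : Measure (V d) := slc ψ (Kn (fun _ => den ψ) μ)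

/-- The slowly varying density. -/
noncomputable def wd (Q L : ℕ) (v : TT u) : ℝ := ∏ i, (Q : ℝ) / (1 + Q * ‖v i‖) ^ L

/-- The slowly varying slice measure. -/
noncomputable def sW (ψ : Fin u → V d) (L : ℕ) : Measure (V d) := slc ψ (wd (den ψ) L)

/-- The band limited measure on a line. -/
noncomputable def bt (φ : V d) (μ : ℕ) : Measure (V d) := sK (fun _ : Fin 1 => φ) (2 * μ)

/-- The piece of `f` with frequencies in the window `s` in the direction `φ`. -/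
noncomputable def rad (φ : V d) (μ : ℕ) (s : ℤ) (f : TT d → ℂ) (x : TT d) : ℂ :=
  ∫ v : TT 1, ((Kn (fun _ => den fun _ : Fin 1 => φ) (2 * μ) v : ℝ) : ℂ) *
    ch (fun _ => -(s * (den fun _ : Fin 1 => φ))) v * f (x + tr (mat fun _ : Fin 1 => φ) v)

/-- Frequencies near the point `j` of the moment curve in the coordinates `ψ`. -/
def Cn {k : ℕ} (ψ : Fin k → V d) (lam : ℝ) (j : ℤ) : Set (Fin d → ℤ) :=
  {ξ | ∀ i, 1 ≤ i → i ≤ k → |(-(j : ℝ)) ^ i + ∑ m : Fin k,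
    (i.choose (m.val + 1) : ℝ) * (-(j : ℝ)) ^ (i - (m.val + 1)) * dot ξ (ψ m)| ≤ lam ^ i}

/-- Almost orthogonality against `κ`. -/
def Orth (ψ : Fin u → V d) (E : ℝ) (κ : Measure (V d)) : Prop :=
  ∀ (ι : Type) (s : Finset ι) (S : ι → Set (Fin d → ℤ)) (G : ι → TT d → ℂ) (Ω : ℕ),
    (∀ a ∈ s, G a ∈ Sp (S a)) →
    (∀ a ∈ s, ∀ t ⊆ s, (∀ b ∈ t, ∃ ξ ∈ S a, ∃ ξ' ∈ S b, ∀ i, |dot (ξ - ξ') (ψ i)| ≤ E) →
      t.card ≤ Ω) →
    ∀ x, cv κ (fun y => ‖∑ a ∈ s, G a y‖ ^ 2) x ≤ Ω * ∑ a ∈ s, cv κ (fun y => ‖G a y‖ ^ 2) x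

/-- A weight adapted to the gauge `G`. -/
structure IsW (G : Seminorm ℝ (V d)) (L : ℕ) (C : ℝ) (W : Measure (V d)) : Prop where
  prob : IsProbabilityMeasure W
  dbl : ∀ F : TT d → ℝ, Continuous F → (∀ x, 0 ≤ F x) → Dbl (cv W F) G ((L + 2) * d) 1
  mom : Mom W G L C
  up : ∀ (o : V d →ₗ[ℝ] ℝ) (f : TT d → ℂ), f ∈ Sp {ω | ∀ P, |dot ω P - o P| ≤ G P} →
    ∀ x, ‖f x‖ ^ 2 ≤ C * cv W (fun y => ‖f y‖ ^ 2) x

/-- A band limiting kernel adapted to the gauge `G`. -/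
structure IsK (G : Seminorm ℝ (V d)) (m : ℕ) (C : ℝ) (K : Measure (V d)) : Prop where
  prob : IsProbabilityMeasure K
  mom : Mom K G m C
  band : ∀ F : TT d → ℝ, Continuous F → (fun x => ((cv K F x : ℝ) : ℂ)) ∈ Sp (Body G C)

/-- The coefficient of `(X - c) ^ i`. -/
def tc (c : ℝ) (i : ℕ) (P : V d) : ℝ :=
  ∑ j : Fin d, ((j.val + 1).choose i : ℝ) * c ^ (j.val + 1 - i) * P j

/-- The value at `t`. -/
def ev (t : ℝ) (P : V d) : ℝ := ∑ j : Fin d, P j * t ^ (j.val + 1)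

theorem tc_add (c : ℝ) (i : ℕ) (P R : V d) : tc c i (P + R) = tc c i P + tc c i R := by
  simp [tc, mul_add, Finset.sum_add_distrib]

theorem tc_smul (c : ℝ) (i : ℕ) (t : ℝ) (P : V d) : tc c i (t • P) = t * tc c i P := by
  simp only [tc, Pi.smul_apply, smul_eq_mul, Finset.mul_sum]
  exact Finset.sum_congr rfl fun j _ => by ring

/-- The gauge of the box: the coordinates `j ≥ r` are limited to size `1 / H`. -/
noncomputable def bx (r : ℕ) (H : ℝ) : Seminorm ℝ (V d) :=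
  Seminorm.of (fun P => ∑ j : Fin d, if r ≤ j.val then |H| * |P j| else 0)
    (fun P R => by
      rw [← Finset.sum_add_distrib]
      refine Finset.sum_le_sum fun j _ => ?_
      split_ifs
      · rw [← mul_add]
        exact mul_le_mul_of_nonneg_left (abs_add_le _ _) (abs_nonneg _)
      · simp)
    (fun t P => by
      rw [Finset.mul_sum]
      refine Finset.sum_congr rfl fun j _ => ?_
      split_ifs
      · simp only [Pi.smul_apply, smul_eq_mul, abs_mul, Real.norm_eq_abs]; ring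
      · simp)

/-- The polynomial part of the gauge. -/
noncomputable def pn (c A ρ : ℝ) : Seminorm ℝ (V d) :=
  Seminorm.of (fun P => ∑ i ∈ range d, |tc c (i + 1) P| * (|ρ| * |A| ^ i))
    (fun P R => by
      rw [← Finset.sum_add_distrib]
      refine Finset.sum_le_sum fun i _ => ?_
      rw [tc_add, ← add_mul]
      exact mul_le_mul_of_nonneg_right (abs_add_le _ _) (by positivity))
    (fun t P => by
      rw [Finset.mul_sum]
      refine Finset.sum_congr rfl fun i _ => ?_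
      rw [tc_smul, abs_mul, Real.norm_eq_abs]; ring)

/-- The gauge at `c` with angular scale `A` and radial scale `ρ` in the state `r`. -/
noncomputable def gn (r : ℕ) (H c A ρ : ℝ) : Seminorm ℝ (V d) := pn c A ρ + bx r H

theorem bx_apply (r : ℕ) (H : ℝ) (P : V d) :
    bx r H P = ∑ j : Fin d, if r ≤ j.val then |H| * |P j| else 0 := rfl

theorem pn_apply (c A ρ : ℝ) (P : V d) :
    pn c A ρ P = ∑ i ∈ range d, |tc c (i + 1) P| * (|ρ| * |A| ^ i) := rfl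

theorem gn_apply (r : ℕ) (H c A ρ : ℝ) (P : V d) : gn r H c A ρ P = pn c A ρ P + bx r H P := rfl

/-- Vectors with prescribed jets of order `k` at `c` that avoid `d - k` coordinates. -/
structure Jet (k r : ℕ) (C N c : ℝ) (Ψ : ℕ → V d) : Prop where
  rat : ∀ μ, IsQ (Ψ μ)
  low : ∀ μ i, 1 ≤ μ → μ ≤ k → 1 ≤ i → i ≤ k → tc c i (Ψ μ) = if i = μ then 1 else 0
  high : ∀ μ i, 1 ≤ μ → μ ≤ k → |tc c i (Ψ μ)| * N ^ i ≤ C * N ^ μ
  gap : ∀ μ (j : Fin d), r ≤ j.val → j.val + k < r + d → Ψ μ j = 0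
  coef : ∀ μ (j : Fin d), 1 ≤ μ → μ ≤ k → |Ψ μ j| * N ^ (j.val + 1) ≤ C * N ^ μ

/-- The thickness condition in dimension `k`. -/
def Th (d r k : ℕ) (H N ρ A : ℝ) : Prop := H * N ^ (2 * k) ≤ ρ * A ^ (k - 1) * N ^ (d + r + 1)

/-- The weight of the state `r`. -/
noncomputable def Wr (r : ℕ) (H : ℝ) (x : TT d) : ℝ :=
  ∏ j : Fin d, if r ≤ j.val then wt H (x j) else 1

/-- The integral in the state `r`. -/
noncomputable def II (r : ℕ) (H : ℝ) (F : TT d → ℝ) : ℝ := ∫ x, F x * Wr r H x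

/-- The exponential sum over the arc `[c, c + σ)`. -/
noncomputable def fa (d : ℕ) (a : ℕ → ℂ) (c σ : ℕ) (x : TT d) : ℂ :=
  ∑ m ∈ Ico c (c + σ), a m * ch (mom d (m : ℤ)) x

/-- The sum of the mean values over `K` consecutive arcs of length `σ`. -/
noncomputable def XX (d r : ℕ) (H p : ℝ) (a : ℕ → ℂ) (c K σ : ℕ) : ℝ :=
  ∑ b ∈ range K, II r H fun x => (1 + ‖fa d a (c + b * σ) σ x‖ ^ 2) ^ (p / 2)

/-- The mean values at level `i` of the dyadic block `[2 ^ n, 2 ^ (n + 1))`. -/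
noncomputable def XL (d r : ℕ) (H p : ℝ) (a : ℕ → ℂ) (n i : ℕ) : ℝ :=
  XX d r H p a (2 ^ n) (2 ^ i) (2 ^ (n - i))

/-- Separated tuples. -/
def Sep (D K : ℕ) : Finset (Fin D → ℕ) :=
  (Fintype.piFinset fun _ => range K).filter fun α => ∀ i l, i ≠ l → α i + 2 ≤ α l ∨ α l + 2 ≤ α i

/-- The truncated square function. -/
noncomputable def Ps (g : ℕ → TT d → ℝ) (K : ℕ) (lam : ℝ) (x : TT d) : ℝ :=
  ∑ b ∈ range K, min (g b x) lam

/-- The broad majorant. -/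
noncomputable def Tht (p : ℝ) (D : ℕ) (lam ψ : ℝ) : ℝ := lam ^ (-(p / 2 - D)) * ψ ^ (p - D)

/-- The class function. -/
noncomputable def Ph (B : ℕ) (lam g : ℝ) : ℝ := lam * min 1 (g / lam) ^ B

/-- The window `s` of the smoothed sum of the functions `v b`. -/
noncomputable def hi (φ : V d) (μ : ℕ) (s : ℤ) (Kk : ℕ → Measure (V d)) (v : ℕ → TT d → ℝ)
    (I : Finset ℕ) : TT d → ℂ :=
  rad φ μ s fun x => ∑ b ∈ I, ((cv (Kk b) (v b) x : ℝ) : ℂ)

/-- The tree of square functions below a top arc: level `j ≤ J` has `K₀ M ^ j` arcs of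
length `σ M ^ (J - j)`. -/
structure Tr (r : ℕ) (H p : ℝ) (a : ℕ → ℂ) (c σ K₀ M J : ℕ) (φ : V d) (L m μ : ℕ) (C : ℝ)
    (g : ℕ → ℕ → TT d → ℝ) (Kk : ℕ → ℕ → Measure (V d)) : Prop where
  cont : ∀ j b, Continuous (g j b)
  one_le : ∀ j b x, 1 ≤ g j b x
  le_sq : ∀ j b x, g j b x ≤ 1 + ((σ * M ^ (J - j) : ℕ) : ℝ) ^ 2
  dbl : ∀ j b, Dbl (g j b) (gn r H ((c + b * (σ * M ^ (J - j)) : ℕ) : ℝ) ((σ * M ^ (J - j) : ℕ) : ℝ)
    ((σ * M ^ (J - j) : ℕ) : ℝ)) L 1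
  top : ∀ b x, ‖fa d a (c + b * (σ * M ^ J)) (σ * M ^ J) x‖ ^ 2 ≤ C * g 0 b x
  int : ∀ j b, j ≤ J → b < K₀ * M ^ j → II r H (fun x => g j b x ^ (p / 2)) ≤ C ^ (j + 1) *
    II r H fun x => (1 + ‖fa d a (c + b * (σ * M ^ (J - j))) (σ * M ^ (J - j)) x‖ ^ 2) ^ (p / 2)
  ker : ∀ j b, IsK (gn r H ((c + b * (σ * M ^ (J - j)) : ℕ) : ℝ) ((σ * M ^ (J - j) : ℕ) : ℝ)
    ((σ * M ^ (J - j) : ℕ) : ℝ)) m C (Kk j b)
  low : ∀ j b (lam : ℝ) x, j < J → b < K₀ * M ^ j → 0 ≤ lam →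
    cv (bt (((σ * M ^ (J - (j + 1)) : ℕ) : ℝ)⁻¹ • φ) μ) (cv (Kk j b) fun y => min (g j b y) lam) x ≤
      C * ∑ b' ∈ range M, min (g (j + 1) (b * M + b') x) lam

end Pool.Agent.Lib.SC
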